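import Pool.Agent.V1142.SC.Rl4

set_option autoImplicit false
set_option linter.unusedSectionVars false

/-!
# Symmetric powers: the alternative
-/

namespace Pool.Agent.V1142.SC.Rl

open Complex Filter Topology NumberField IsDedekindDomain Finset
  Pool.Agent.TH553.ST Pool.Agent.TH553.RS Pool.Agent.W540.BE Pool.Agent.V1142.SC.Many

section Alg

variable {a : ℕ → ℤ}

theorem tp_all (h0 : a 0 = 2) (h1 : a 1 = -1) (h2 : ∀ j, 2 ≤ j → a j = 0) :
    ∀ k, 1 ≤ k → tp (fun _ => 1) k a = 2 := by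
  intro k
  induction k with
  | zero => intro h; omega
  | succ k ih =>
    intro _
    rcases Nat.eq_zero_or_pos k with h3 | h3
    · subst h3
      simp [tp, h0]
    · rw [tp_succ, ih h3, sum_a h1 (n := k + 1) (fun j hj _ => h2 j hj) k h3 (by omega), h0]
      norm_num

end Alg

section Trig

theorem C_eq (n : ℕ) (t : ℝ) :
    ∑ j ∈ range (n + 1), Real.cos (2 * j * t) = ch n t * Real.cos (n * t) := by
  have h3 := sum_range_reflect (fun j : ℕ => Real.cos (2 * j * t)) (n + 1)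
  have h5 : ch n t * Real.cos (n * t) = ∑ j ∈ range (n + 1),
      (Real.cos (2 * j * t) + Real.cos (2 * ((n + 1 - 1 - j : ℕ) : ℝ) * t)) / 2 := by
    unfold ch
    rw [sum_mul]
    refine sum_congr rfl fun j hj => ?_
    have hj' : j ≤ n := by
      have := mem_range.1 hj
      omega
    rw [Nat.add_sub_cancel, Nat.cast_sub hj']
    have e1 : 2 * (j : ℝ) * t = n * t - ((n : ℝ) - 2 * j) * t := by ring
    have e2 : 2 * ((n : ℝ) - j) * t = n * t + ((n : ℝ) - 2 * j) * t := by ring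
    rw [e1, e2, Real.cos_sub, Real.cos_add]
    ring
  rw [h5, ← sum_div, sum_add_distrib, h3]
  ring

theorem S_eq (n : ℕ) (t : ℝ) :
    ∑ j ∈ range (n + 1), Real.sin (2 * j * t) = ch n t * Real.sin (n * t) := by
  have h3 := sum_range_reflect (fun j : ℕ => Real.sin (2 * j * t)) (n + 1)
  have h5 : ch n t * Real.sin (n * t) = ∑ j ∈ range (n + 1),
      (Real.sin (2 * j * t) + Real.sin (2 * ((n + 1 - 1 - j : ℕ) : ℝ) * t)) / 2 := by
    unfold ch
    rw [sum_mul]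
    refine sum_congr rfl fun j hj => ?_
    have hj' : j ≤ n := by
      have := mem_range.1 hj
      omega
    rw [Nat.add_sub_cancel, Nat.cast_sub hj']
    have e1 : 2 * (j : ℝ) * t = n * t - ((n : ℝ) - 2 * j) * t := by ring
    have e2 : 2 * ((n : ℝ) - j) * t = n * t + ((n : ℝ) - 2 * j) * t := by ring
    rw [e1, e2, Real.sin_sub, Real.sin_add]
    ring
  rw [h5, ← sum_div, sum_add_distrib, h3]
  ring

theorem ch_sq (n : ℕ) (t : ℝ) :
    2 * ((∑ i ∈ range (n + 1), (1 : ℝ) * Real.cos (2 * i * t)) ^ 2 +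
      (∑ i ∈ range (n + 1), (1 : ℝ) * Real.sin (2 * i * t)) ^ 2) = 2 * ch n t ^ 2 := by
  simp only [one_mul]
  rw [C_eq, S_eq]
  linear_combination (2 * ch n t ^ 2) * Real.sin_sq_add_cos_sq (n * t)

end Trig

section Mean

variable {K : Type} [Field K] [NumberField K] {θ : HeightOneSpectrum (𝓞 K) → ℝ}
  {U : Ultrafilter ℝ} (hU : (U : Filter ℝ) ≤ 𝓝[>] 0) {a : ℕ → ℤ}

theorem bd_ch (n : ℕ) : Bd fun v => ch n (θ v) := ⟨n + 1, fun v => abs_ch n _⟩

include hU

theorem M_ch_sq (ha : ∀ k : ℕ, (M (nm K) U fun v => 2 * Real.cos (2 * (k : ℝ) * θ v)) = a k)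
    (h1 : a 1 = -1) (h2 : ∀ j, 2 ≤ j → a j = 0) (n : ℕ) :
    (M (nm K) U fun v => ch n (θ v) ^ 2) = 1 := by
  have hN := sysF K
  have h3 := M_Fs hU ha (fun _ => 1) (n + 1)
  rw [tp_all (ps hU ha).zero h1 h2 (n + 1) (by omega)] at h3
  have e : (Fs θ (fun _ => ((1 : ℤ) : ℝ)) (n + 1)) = fun v => 2 * ch n (θ v) ^ 2 := by
    funext v
    rw [← ch_sq]
    unfold Fs
    simp
  rw [e, M_const_mul hN hU (bd_ch n).sq] at h3
  push_cast at h3
  linarith

theorem no_null (ha : ∀ k : ℕ, (M (nm K) U fun v => 2 * Real.cos (2 * (k : ℝ) * θ v)) = a k)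
    (h1 : a 1 = -1) (h2 : ∀ j, 2 ≤ j → a j = 0) {n : ℕ} (hn : 1 ≤ n)
    (h : (M (nm K) U fun v => (ch n (θ v) ^ 2 - 1) ^ 2) = 0) : False := by
  have hN := sysF K
  set g : HeightOneSpectrum (𝓞 K) → ℝ := fun v => 4 + 2 * Real.cos (2 * ((2 : ℕ) : ℝ) * θ v) +
    2 * Real.cos (2 * ((2 * n + 2 : ℕ) : ℝ) * θ v) -
    2 * (2 * Real.cos (2 * ((n + 2 : ℕ) : ℝ) * θ v)) -
    2 * (2 * Real.cos (2 * ((n : ℕ) : ℝ) * θ v)) with hg
  have hgb : Bd g := ((((Bd.const 4).add (bd_cos _)).add (bd_cos _)).sub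
    ((bd_cos _).const_mul 2)).sub ((bd_cos _).const_mul 2)
  have hge : ∀ v, g v = 16 * ((ch n (θ v) ^ 2 - 1) * Real.sin (θ v) ^ 2) ^ 2 := by
    intro v
    have e1 : (ch n (θ v) ^ 2 - 1) * Real.sin (θ v) ^ 2 =
        Real.sin ((n + 1) * θ v) ^ 2 - Real.sin (θ v) ^ 2 := by
      rw [← ch_sin]
      ring
    have e2 : Real.sin ((n + 1) * θ v) ^ 2 - Real.sin (θ v) ^ 2 =
        (Real.cos (2 * θ v) - Real.cos (2 * ((n + 1) * θ v))) / 2 := by
      rw [Real.cos_two_mul, Real.cos_two_mul]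
      linear_combination Real.sin_sq_add_cos_sq ((n + 1) * θ v) -
        Real.sin_sq_add_cos_sq (θ v)
    rw [e1, e2, hg]
    simp only
    have c1 : 2 * ((2 : ℕ) : ℝ) * θ v = 2 * (2 * θ v) := by push_cast; ring
    have c2 : 2 * ((2 * n + 2 : ℕ) : ℝ) * θ v = 2 * (2 * ((n + 1) * θ v)) := by push_cast; ring
    have c3 : 2 * ((n + 2 : ℕ) : ℝ) * θ v = 2 * ((n + 1) * θ v) + 2 * θ v := by push_cast; ring
    have c4 : 2 * ((n : ℕ) : ℝ) * θ v = 2 * ((n + 1) * θ v) - 2 * θ v := by ring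
    rw [c1, c2, c3, c4, Real.cos_two_mul (2 * θ v), Real.cos_two_mul (2 * ((n + 1) * θ v)),
      Real.cos_add, Real.cos_sub]
    ring
  have h3 : M (nm K) U g = 0 := by
    have h4 : (M (nm K) U fun v => 16 * (ch n (θ v) ^ 2 - 1) ^ 2) = 0 := by
      rw [M_const_mul hN hU (((bd_ch n).sq.sub (Bd.const 1)).sq), h, mul_zero]
    refine M_zero_of_le hN hU hgb ((((bd_ch n).sq.sub (Bd.const 1)).sq).const_mul 16)
      (fun v => by rw [hge]; positivity) (fun v => ?_) h4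
    rw [hge, mul_pow]
    have h5 : (Real.sin (θ v) ^ 2) ^ 2 ≤ 1 := by
      have h6 := Real.sin_sq_le_one (θ v)
      have h7 := sq_nonneg (Real.sin (θ v))
      nlinarith
    have h6 := mul_le_mul_of_nonneg_left h5 (sq_nonneg (ch n (θ v) ^ 2 - 1))
    linarith
  have h4 : M (nm K) U g = 4 + a 2 + a (2 * n + 2) - 2 * a (n + 2) - 2 * a n := by
    rw [hg, M_sub hN hU (((((Bd.const 4).add (bd_cos _)).add (bd_cos _)).sub
      ((bd_cos _).const_mul 2))) ((bd_cos _).const_mul 2),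
      M_sub hN hU ((((Bd.const 4).add (bd_cos _)).add (bd_cos _))) ((bd_cos _).const_mul 2),
      M_add hN hU (((Bd.const 4).add (bd_cos _))) (bd_cos _),
      M_add hN hU (Bd.const 4) (bd_cos _), M_const hN hU, M_const_mul hN hU (bd_cos _),
      M_const_mul hN hU (bd_cos _), ha, ha, ha, ha]
  rw [h4, h2 2 le_rfl, h2 (2 * n + 2) (by omega), h2 (n + 2) (by omega)] at h3
  rcases Nat.lt_or_ge n 2 with h5 | h5
  · have : n = 1 := by omega
    subst this
    rw [h1] at h3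
    norm_num at h3
  · rw [h2 n h5] at h3
    norm_num at h3

/-- **The orders vanish.** -/
theorem zeroA (ha : ∀ k : ℕ, (M (nm K) U fun v => 2 * Real.cos (2 * (k : ℝ) * θ v)) = a k)
    (h1 : a 1 = -1) (h2 : ∀ j, 2 ≤ j → a j = 0) {n : ℕ} (hn : 1 ≤ n)
    {φ : HeightOneSpectrum (𝓞 K) → ℝ} (hφ : Bd φ) (hle : ∀ v, |φ v| ≤ |ch n (θ v)|) {m : ℤ}
    (hm : M (nm K) U φ = -(m : ℝ)) : m = 0 := by
  have hN := sysF K
  by_contra hne
  have hsq : ∀ v, φ v ^ 2 ≤ ch n (θ v) ^ 2 := fun v => sq_le_sq.2 (hle v)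
  have h3 := M_mono hN hU hφ.sq (bd_ch n).sq hsq
  rw [M_ch_sq hU ha h1 h2 n] at h3
  have h4 := M_cs hN hU hφ (Bd.const 1)
  simp only [mul_one, one_pow] at h4
  rw [M_one hN hU, mul_one, hm] at h4
  have hm1 : (1 : ℝ) ≤ (m : ℝ) ^ 2 := by
    have : 1 ≤ m ^ 2 := by
      have := sq_nonneg m
      rcases lt_or_gt_of_ne hne with h | h <;> nlinarith
    exact_mod_cast this
  have h5 : (M (nm K) U fun v => φ v ^ 2) = 1 := by
    refine le_antisymm h3 ?_
    nlinarith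
  have hm2 : (m : ℝ) ^ 2 = 1 := by
    refine le_antisymm ?_ hm1
    nlinarith
  have h6 : (M (nm K) U fun v => (φ v + m) ^ 2) = 0 := by
    have e : (fun v => (φ v + m) ^ 2) = fun v => φ v ^ 2 + ((2 * m) * φ v + (m : ℝ) ^ 2) := by
      funext v
      ring
    rw [e, M_add hN hU hφ.sq ((hφ.const_mul _).add (Bd.const _)),
      M_add hN hU (hφ.const_mul _) (Bd.const _), M_const_mul hN hU hφ, M_const hN hU, h5, hm]
    nlinarith
  have h7 : (M (nm K) U fun v => ch n (θ v) ^ 2 - φ v ^ 2) = 0 := by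
    rw [M_sub hN hU (bd_ch n).sq hφ.sq, M_ch_sq hU ha h1 h2 n, h5, sub_self]
  have hb1 : Bd fun v => (2 * ((n : ℝ) + 1) ^ 2) * (ch n (θ v) ^ 2 - φ v ^ 2) :=
    ((bd_ch n).sq.sub hφ.sq).const_mul _
  have hb2 : Bd fun v => (2 * ((n : ℝ) + 2) ^ 2) * (φ v + m) ^ 2 :=
    ((hφ.add (Bd.const _)).sq).const_mul _
  refine no_null hU ha h1 h2 hn (M_zero_of_le hN hU (((bd_ch n).sq.sub (Bd.const 1)).sq)
    (hb1.add hb2) (fun v => sq_nonneg _) (fun v => ?_) ?_)
  · have k1 : |ch n (θ v)| ≤ n + 1 := abs_ch n _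
    have k2 : |φ v| ≤ n + 1 := (hle v).trans k1
    have k3 : ch n (θ v) ^ 2 ≤ (n + 1) ^ 2 := by
      rw [← sq_abs]
      exact pow_le_pow_left₀ (abs_nonneg _) k1 2
    have k4 : (φ v - m) ^ 2 ≤ (n + 2) ^ 2 := by
      rw [← sq_abs]
      refine pow_le_pow_left₀ (abs_nonneg _) ?_ 2
      have k5 : |(m : ℝ)| = 1 := by
        rw [← sq_abs] at hm2
        nlinarith [abs_nonneg (m : ℝ)]
      have := abs_sub (φ v) (m : ℝ)
      linarith
    have k6 := hsq v
    have k7 := sq_nonneg (φ v)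
    have k8 : (ch n (θ v) ^ 2 - φ v ^ 2) ^ 2 ≤ (n + 1) ^ 2 * (ch n (θ v) ^ 2 - φ v ^ 2) := by
      rw [sq (ch n (θ v) ^ 2 - φ v ^ 2)]
      exact mul_le_mul_of_nonneg_right (by linarith) (by linarith)
    have k9 : (φ v ^ 2 - 1) ^ 2 ≤ (n + 2) ^ 2 * (φ v + m) ^ 2 := by
      have e : (φ v ^ 2 - 1) ^ 2 = (φ v - m) ^ 2 * (φ v + m) ^ 2 := by
        rw [← mul_pow]
        congr 1
        linear_combination hm2
      rw [e]
      exact mul_le_mul_of_nonneg_right k4 (sq_nonneg _)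
    have e : ch n (θ v) ^ 2 - 1 = (ch n (θ v) ^ 2 - φ v ^ 2) + (φ v ^ 2 - 1) := by ring
    rw [e]
    nlinarith [sq_nonneg ((ch n (θ v) ^ 2 - φ v ^ 2) - (φ v ^ 2 - 1))]
  · rw [M_add hN hU hb1 hb2, M_const_mul hN hU ((bd_ch n).sq.sub hφ.sq), h7,
      M_const_mul hN hU ((hφ.add (Bd.const _)).sq), h6]
    simp

/-- the sequence from the orders -/
theorem ha_of {e : ℕ → ℤ} (he0 : e 0 = 1) (he : ∀ n, (M (nm K) U fun v => ch n (θ v)) = e n)
    (k : ℕ) : (M (nm K) U fun v => 2 * Real.cos (2 * (k : ℝ) * θ v)) =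
      ((if k = 0 then 2 else e (2 * k) - e (2 * k - 2) : ℤ) : ℝ) := by
  have hN := sysF K
  rcases Nat.eq_zero_or_pos k with h | h
  · subst h
    rw [if_pos rfl]
    have e1 : (fun v : HeightOneSpectrum (𝓞 K) => 2 * Real.cos (2 * ((0 : ℕ) : ℝ) * θ v)) =
        fun _ => 2 := by
      funext v
      simp
    rw [e1, M_const hN hU]
    norm_num
  · obtain ⟨j, rfl⟩ : ∃ j, k = j + 1 := ⟨k - 1, by omega⟩
    rw [if_neg (by omega)]
    have e1 : (fun v => 2 * Real.cos (2 * ((j + 1 : ℕ) : ℝ) * θ v)) =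
        fun v => ch (2 * j + 2) (θ v) - ch (2 * j) (θ v) := by
      funext v
      rw [ch_two]
      have : 2 * ((j + 1 : ℕ) : ℝ) * θ v = (((2 * j : ℕ) : ℝ) + 2) * θ v := by
        push_cast
        ring
      rw [this]
      ring
    have e2 : 2 * (j + 1) = 2 * j + 2 := by ring
    have e3 : 2 * j + 2 - 2 = 2 * j := by omega
    rw [e1, M_sub hN hU (bd_ch _) (bd_ch _), he, he, e2, e3]
    push_cast
    ring

/-- the shift of the angles -/
theorem ha_shift (ha : ∀ k : ℕ, (M (nm K) U fun v => 2 * Real.cos (2 * (k : ℝ) * θ v)) = a k)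
    (k : ℕ) : (M (nm K) U fun v => 2 * Real.cos (2 * (k : ℝ) * (θ v + Real.pi / 2))) =
      (((-1) ^ k * a k : ℤ) : ℝ) := by
  have e : (fun v => 2 * Real.cos (2 * (k : ℝ) * (θ v + Real.pi / 2))) =
      fun v => (-1) ^ k * (2 * Real.cos (2 * (k : ℝ) * θ v)) := by
    funext v
    have e1 : 2 * (k : ℝ) * (θ v + Real.pi / 2) = 2 * (k : ℝ) * θ v + k * Real.pi := by ring
    rw [e1, Real.cos_add_nat_mul_pi]
    ring
  rw [e, M_const_mul (sysF K) hU (bd_cos _), ha]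
  push_cast
  ring

/-- the odd frequencies in the second case -/
theorem oddC (ha : ∀ k : ℕ, (M (nm K) U fun v => 2 * Real.cos (2 * (k : ℝ) * θ v)) = a k)
    (hC : ∀ j, 1 ≤ j → a j = (-1) ^ j) {m : ℕ} (hm : m % 2 = 1) {c : ℤ}
    (hc : (M (nm K) U fun v => 2 * Real.cos ((m : ℝ) * θ v)) = c) : c = 0 := by
  have hN := sysF K
  have hodd : Odd m := Nat.odd_iff.2 hm
  by_contra hne
  have hb := bd_cos (θ := θ) (m : ℝ)
  have h1 : (M (nm K) U fun v => (2 * Real.cos ((m : ℝ) * θ v)) ^ 2) = 1 := by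
    have e : (fun v => (2 * Real.cos ((m : ℝ) * θ v)) ^ 2) =
        fun v => 2 + 2 * Real.cos (2 * (m : ℝ) * θ v) := by
      funext v
      rw [mul_assoc 2 (m : ℝ), Real.cos_two_mul]
      ring
    rw [e, M_add hN hU (Bd.const 2) (bd_cos _), M_const hN hU, ha, hC m (by omega),
      hodd.neg_one_pow]
    norm_num
  have h2 := M_cs hN hU hb (Bd.const 1)
  simp only [mul_one, one_pow] at h2
  rw [M_one hN hU, mul_one, hc, h1] at h2
  have hc1 : c ^ 2 = 1 := by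
    have h3 : c ^ 2 ≤ 1 := by exact_mod_cast h2
    have h4 : 1 ≤ c ^ 2 := by
      rcases lt_or_gt_of_ne hne with h | h <;> nlinarith
    omega
  have hc2 : (c : ℝ) ^ 2 = 1 := by exact_mod_cast hc1
  have h3 : (M (nm K) U fun v => 9 * (2 * Real.cos ((m : ℝ) * θ v) - c) ^ 2) = 0 := by
    rw [M_const_mul hN hU ((hb.sub (Bd.const _)).sq)]
    have e : (fun v => (2 * Real.cos ((m : ℝ) * θ v) - c) ^ 2) =
        fun v => (2 * Real.cos ((m : ℝ) * θ v)) ^ 2 + ((-2 * c) * (2 * Real.cos ((m : ℝ) * θ v)) +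
          (c : ℝ) ^ 2) := by
      funext v
      ring
    rw [e, M_add hN hU hb.sq ((hb.const_mul _).add (Bd.const _)),
      M_add hN hU (hb.const_mul _) (Bd.const _), M_const_mul hN hU hb, M_const hN hU, h1, hc]
    nlinarith
  have hb2 : Bd fun v => (1 + 2 * Real.cos (2 * (m : ℝ) * θ v)) ^ 2 :=
    ((Bd.const 1).add (bd_cos _)).sq
  have h4 := M_zero_of_le hN hU hb2 (((hb.sub (Bd.const _)).sq).const_mul 9)
    (fun v => sq_nonneg _) (fun v => by
      have e : 1 + 2 * Real.cos (2 * (m : ℝ) * θ v) =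
          (2 * Real.cos ((m : ℝ) * θ v) + c) * (2 * Real.cos ((m : ℝ) * θ v) - c) := by
        rw [mul_assoc 2 (m : ℝ), Real.cos_two_mul]
        linear_combination hc2
      rw [e, mul_pow]
      refine mul_le_mul_of_nonneg_right ?_ (sq_nonneg _)
      have h5 : |2 * Real.cos ((m : ℝ) * θ v) + c| ≤ 3 := by
        refine (abs_add_le _ _).trans ?_
        have h6 : |(c : ℝ)| = 1 := by
          rw [← sq_abs] at hc2
          nlinarith [abs_nonneg (c : ℝ)]
        have h7 : |2 * Real.cos ((m : ℝ) * θ v)| ≤ 2 := by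
          rw [abs_mul, abs_of_pos (by norm_num : (0 : ℝ) < 2)]
          linarith [Real.abs_cos_le_one ((m : ℝ) * θ v)]
        linarith
      rw [← sq_abs]
      have := pow_le_pow_left₀ (abs_nonneg _) h5 2
      linarith) h3
  have e : (fun v => (1 + 2 * Real.cos (2 * (m : ℝ) * θ v)) ^ 2) =
      fun v => 3 + (2 * (2 * Real.cos (2 * (m : ℝ) * θ v)) +
        2 * Real.cos (2 * ((2 * m : ℕ) : ℝ) * θ v)) := by
    funext v
    have e1 : 2 * ((2 * m : ℕ) : ℝ) * θ v = 2 * (2 * (m : ℝ) * θ v) := by push_cast; ring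
    rw [e1, Real.cos_two_mul (2 * (m : ℝ) * θ v)]
    ring
  have heven : Even (2 * m) := even_two_mul m
  rw [e, M_add hN hU (Bd.const 3) (((bd_cos _).const_mul 2).add (bd_cos _)),
    M_add hN hU ((bd_cos _).const_mul 2) (bd_cos _), M_const_mul hN hU (bd_cos _), M_const hN hU,
    ha, ha, hC m (by omega), hC (2 * m) (by omega), hodd.neg_one_pow, heven.neg_one_pow] at h4
  norm_num at h4

end Mean

section Alt

variable {K : Type} [Field K] [NumberField K] {θ : HeightOneSpectrum (𝓞 K) → ℝ}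

/-- **The alternative.** -/
theorem alternative {r : ℕ → ℤ} (hr : ∀ n, 1 ≤ n → OrdA θ n 0 (r n)) (h2 : 0 ≤ r 2) :
    (∀ U : Ultrafilter ℝ, (U : Filter ℝ) ≤ 𝓝[>] 0 → ∀ n, 1 ≤ n →
      ∀ φ : HeightOneSpectrum (𝓞 K) → ℝ, Bd φ → (∀ v, |φ v| ≤ |ch n (θ v)|) → ∀ m : ℤ,
      M (nm K) U φ = -(m : ℝ) → m = 0) ∨
    (∀ U : Ultrafilter ℝ, (U : Filter ℝ) ≤ 𝓝[>] 0 → ∀ k : ℕ, 1 ≤ k →
      (M (nm K) U fun v => 2 * Real.cos (k * θ v)) = if k % 2 = 1 then 0 else (-1) ^ (k / 2)) ∨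
    ∃ N : ℕ, 0 < N ∧ ∀ U : Ultrafilter ℝ, (U : Filter ℝ) ≤ 𝓝[>] 0 →
      (M (nm K) U fun v => 2 - 2 * Real.cos (2 * (N : ℝ) * θ v)) = 0 := by
  set e : ℕ → ℤ := fun n => if n = 0 then 1 else -r n with hedef
  have he0 : e 0 = 1 := by simp [hedef]
  have he : ∀ (U : Ultrafilter ℝ), (U : Filter ℝ) ≤ 𝓝[>] 0 → ∀ n,
      (M (nm K) U fun v => ch n (θ v)) = e n := by
    intro U hU n
    rcases Nat.eq_zero_or_pos n with h | h
    · subst h
      rw [he0]
      simp only [ch_zero]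
      rw [M_one (sysF K) hU]
      norm_num
    · rw [(hr n h).am0 hU, hedef]
      simp only
      rw [if_neg (by omega)]
      push_cast
      ring
  set a : ℕ → ℤ := fun k => if k = 0 then 2 else e (2 * k) - e (2 * k - 2) with hadef
  have ha : ∀ (U : Ultrafilter ℝ), (U : Filter ℝ) ≤ 𝓝[>] 0 → ∀ k : ℕ,
      (M (nm K) U fun v => 2 * Real.cos (2 * (k : ℝ) * θ v)) = a k :=
    fun U hU k => ha_of hU he0 (he U hU) k
  obtain ⟨U₀, hU₀⟩ := Hol.exists_U
  have hp := ps hU₀ (ha U₀ hU₀)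
  have hp' : Ps fun j => (-1) ^ j * a j :=
    ps (θ := fun v => θ v + Real.pi / 2) hU₀ fun k => ha_shift hU₀ (ha U₀ hU₀) k
  have e2 : e 2 = -r 2 := by simp [hedef]
  have a1 : a 1 = -r 2 - 1 := by
    simp [hadef, he0, e2]
  rcases main hp hp' (by omega) with ⟨h5, h6⟩ | hC | ⟨N, h5, h6⟩
  · left
    intro U hU n hn φ hφ hle m hm
    exact zeroA hU (ha U hU) h5 h6 hn hφ hle hm
  · right
    left
    intro U hU k hk
    by_cases hodd : k % 2 = 1
    · rw [if_pos hodd]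
      obtain ⟨j, rfl⟩ : ∃ j, k = 2 * j + 1 := ⟨k / 2, by omega⟩
      rcases Nat.eq_zero_or_pos j with hj | hj
      · subst hj
        have h7 : (M (nm K) U fun v => 2 * Real.cos (((2 * 0 + 1 : ℕ) : ℝ) * θ v)) = e 1 := by
          rw [← he U hU 1]
          congr 1
          funext v
          rw [ch_one]
          simp
        rw [h7, oddC hU (ha U hU) hC (m := 2 * 0 + 1) (by norm_num) h7]
        norm_num
      · obtain ⟨i, rfl⟩ : ∃ i, j = i + 1 := ⟨j - 1, by omega⟩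
        have h7 : (M (nm K) U fun v => 2 * Real.cos (((2 * (i + 1) + 1 : ℕ) : ℝ) * θ v)) =
            ((e (2 * i + 1 + 2) - e (2 * i + 1) : ℤ) : ℝ) := by
          rw [Int.cast_sub, ← he U hU, ← he U hU, ← M_sub (sysF K) hU (bd_ch _) (bd_ch _)]
          congr 1
          funext v
          rw [ch_two]
          have : ((2 * (i + 1) + 1 : ℕ) : ℝ) = ((2 * i + 1 : ℕ) : ℝ) + 2 := by push_cast; ring
          rw [this]
          ring
        rw [h7, oddC hU (ha U hU) hC (m := 2 * (i + 1) + 1) (by omega) h7]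
        norm_num
    · rw [if_neg hodd]
      obtain ⟨j, rfl⟩ : ∃ j, k = 2 * j := ⟨k / 2, by omega⟩
      have h7 := ha U hU j
      rw [hC j (by omega)] at h7
      have h8 : 2 * j / 2 = j := by omega
      rw [h8]
      push_cast at h7 ⊢
      exact h7
  · right
    right
    refine ⟨N, h5, fun U hU => ?_⟩
    rw [M_sub (sysF K) hU (Bd.const 2) (bd_cos _), M_const (sysF K) hU, ha U hU N, h6]
    norm_num

end Alt

end Pool.Agent.V1142.SC.Rl
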