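import Pool.Agent.TH553.ST.Ext2
import Pool.Agent.W353.NF.Corr
import Pool.Agent.W352.ChAbs.Main

set_option autoImplicit false
set_option linter.unusedSectionVars false

/-!
# Averages over the primes of an extension
-/

namespace Pool.Agent.V1142.SC

open Complex Filter Topology ComplexConjugate MeasureTheory NumberField IsDedekindDomain
  Pool.Agent.TH553.RS Pool.Agent.W540.BE Pool.Agent.W353.TP
open Pool.Agent.TH553.ST hiding pr
open Pool.Agent.H921R2.TatePole (nm_eq kerPrime kerPrime_bijective below deg)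
open Pool.Agent.W401.Cheb (pr GK IsFrob)
open Pool.Agent.W353.NF (fixn push_fix)

section

variable {K : Type} [Field K] [NumberField K]

/-- the sum over the homomorphisms to the prime field -/
noncomputable def hq (K : Type) [Field K] [NumberField K] (h : HX K → ℂ) (q : Nat.Primes) : ℂ :=
  ∑ φ : 𝓞 K →+* ZMod (q : ℕ), h ⟨q, φ⟩

open Classical in
/-- the sum over the homomorphisms to the prime field -/
noncomputable def hs (K : Type) [Field K] [NumberField K] (h : HX K → ℂ) (p : ℕ) : ℂ :=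
  if hp : p.Prime then hq K h ⟨p, hp⟩ else 0

theorem nm_prime_iff (p : Nat.Primes) (v : HeightOneSpectrum (𝓞 K)) :
    nm K v = (p : ℕ) ↔ below v = p ∧ deg v = 1 := by
  have h1 := (nm_eq v).1
  change nm K v = _ at h1
  constructor
  · intro h
    rw [h] at h1
    have h2 : ((below v : Nat.Primes) : ℕ) ∣ (p : ℕ) := by
      rw [h1]
      refine dvd_pow_self _ ?_
      intro h0
      rw [h0, pow_zero] at h1
      exact p.2.one_lt.ne' h1
    have h3 : ((below v : Nat.Primes) : ℕ) = (p : ℕ) :=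
      (Nat.prime_dvd_prime_iff_eq (below v).2 p.2).1 h2
    refine ⟨Subtype.ext h3, ?_⟩
    rw [h3] at h1
    have h4 : (p : ℕ) ^ 1 = (p : ℕ) ^ deg v := by rw [pow_one]; exact h1
    exact (Nat.pow_right_injective p.2.two_le h4).symm
  · rintro ⟨h, h'⟩
    rw [h1, h, h', pow_one]

theorem sum_hq (g : HeightOneSpectrum (𝓞 K) → ℂ) {N : ℕ} (q : Nat.Primes) (hq' : (q : ℕ) ≤ N) :
    ∑ v ∈ ((upto K N).filter (fun v => (nm K v).Prime)).filter (fun v => nm K v = (q : ℕ)), g v =
      hq K (fun u => g (kr u)) q := by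
  classical
  unfold hq
  symm
  refine Finset.sum_bij (fun φ _ => kr ⟨q, φ⟩) ?_ ?_ ?_ ?_
  · intro φ _
    have h1 : nm K (kr ⟨q, φ⟩) = (q : ℕ) := nm_kr _
    rw [Finset.mem_filter, Finset.mem_filter, mem_upto, h1]
    exact ⟨⟨hq', q.2⟩, rfl⟩
  · intro φ _ ψ _ h
    refine (kerPrime_bijective (K := K) q).1 ?_
    exact Subtype.ext (Subtype.ext h)
  · intro v hv
    rw [Finset.mem_filter] at hv
    have h1 := (nm_prime_iff q v).1 hv.2
    obtain ⟨φ, hφ⟩ := (kerPrime_bijective (K := K) q).2 ⟨⟨v, h1.1⟩, h1.2⟩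
    refine ⟨φ, Finset.mem_univ _, ?_⟩
    change (kerPrime q φ).1.1 = v
    rw [hφ]
  · intro φ _
    rfl

theorem sum_hs (g : HeightOneSpectrum (𝓞 K) → ℂ) (N : ℕ) :
    ∑ v ∈ (upto K N).filter (fun v => (nm K v).Prime), g v =
      ∑ p ∈ pr N, hs K (fun u => g (kr u)) p := by
  classical
  rw [← Finset.sum_fiberwise_of_maps_to (s := (upto K N).filter (fun v => (nm K v).Prime))
    (t := pr N) (g := nm K)]
  · refine Finset.sum_congr rfl fun p hp => ?_
    have hp' := Finset.mem_filter.1 hp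
    unfold hs
    rw [dif_pos hp'.2]
    exact sum_hq g ⟨p, hp'.2⟩ (by have := Finset.mem_range.1 hp'.1; exact Nat.lt_succ_iff.1 this)
  · intro v hv
    rw [Finset.mem_filter, mem_upto] at hv
    unfold pr
    rw [Finset.mem_filter, Finset.mem_range]
    exact ⟨by omega, hv.2⟩

theorem card_rest (N : ℕ) : ((upto K N).filter (fun v => ¬ (nm K v).Prime)).card ≤
    Module.finrank ℚ K * (Nat.sqrt N + 1) := by
  classical
  have hsub : (((upto K N).filter (fun v => ¬ (nm K v).Prime) :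
      Finset (HeightOneSpectrum (𝓞 K))) : Set (HeightOneSpectrum (𝓞 K))) ⊆
      ⋃ m ∈ pr (Nat.sqrt N), {v : HeightOneSpectrum (𝓞 K) | (m : 𝓞 K) ∈ v.asIdeal} := by
    intro v hv
    rw [Finset.mem_coe, Finset.mem_filter, mem_upto] at hv
    obtain ⟨m, hm, hm'⟩ := W352.ChAbs.exists_prime_of v N hv.1 hv.2
    exact Set.mem_biUnion hm hm'
  have hfin : (⋃ m ∈ pr (Nat.sqrt N),
      {v : HeightOneSpectrum (𝓞 K) | (m : 𝓞 K) ∈ v.asIdeal}).Finite := by
    apply Set.Finite.biUnion (Finset.finite_toSet _)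
    intro m hm
    exact (W352.ChAbs.over_le m (Finset.mem_filter.mp hm).2).1
  rw [← Set.ncard_coe_finset]
  calc _ ≤ _ := Set.ncard_le_ncard hsub hfin
    _ ≤ ∑ m ∈ pr (Nat.sqrt N), {v : HeightOneSpectrum (𝓞 K) | (m : 𝓞 K) ∈ v.asIdeal}.ncard :=
        Finset.set_ncard_biUnion_le _ _
    _ ≤ ∑ m ∈ pr (Nat.sqrt N), Module.finrank ℚ K :=
        Finset.sum_le_sum fun m hm => (W352.ChAbs.over_le m (Finset.mem_filter.mp hm).2).2
    _ = (pr (Nat.sqrt N)).card * Module.finrank ℚ K := by rw [Finset.sum_const, smul_eq_mul]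
    _ ≤ (Nat.sqrt N + 1) * Module.finrank ℚ K := by
        apply Nat.mul_le_mul_right
        calc (pr (Nat.sqrt N)).card ≤ (Finset.range (Nat.sqrt N + 1)).card :=
              Finset.card_filter_le _ _
          _ = _ := Finset.card_range _
    _ = _ := mul_comm _ _

/-- the primes of higher degree do not matter -/
theorem tendsto_hs {g : HeightOneSpectrum (𝓞 K) → ℂ} {B : ℝ} (hB : ∀ v, ‖g v‖ ≤ B) :
    Tendsto (fun N : ℕ => ((∑ v ∈ upto K N, g v) - ∑ p ∈ pr N, hs K (fun u => g (kr u)) p) /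
      (Nat.primeCounting N : ℂ)) atTop (𝓝 0) := by
  classical
  have h1 : Tendsto (fun N : ℕ => (|B| * Module.finrank ℚ K) *
      ((Nat.sqrt N + 1 : ℝ) / (Nat.primeCounting N : ℝ))) atTop (𝓝 0) := by
    simpa using W352.ChAbs.sqrt_div_pi.const_mul (|B| * Module.finrank ℚ K : ℝ)
  refine squeeze_zero_norm (fun N => ?_) h1
  rw [← sum_hs, ← Finset.sum_filter_add_sum_filter_not (upto K N) (fun v => (nm K v).Prime),
    add_sub_cancel_left, norm_div, Complex.norm_natCast, ← mul_div_assoc]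
  refine div_le_div_of_nonneg_right ?_ (Nat.cast_nonneg _)
  have h2 : ‖∑ v ∈ (upto K N).filter (fun v => ¬ (nm K v).Prime), g v‖ ≤
      ((upto K N).filter (fun v => ¬ (nm K v).Prime)).card * |B| := by
    refine (norm_sum_le _ _).trans ((Finset.sum_le_sum fun v _ =>
      (hB v).trans (le_abs_self B)).trans ?_)
    rw [Finset.sum_const, nsmul_eq_mul]
  refine h2.trans ?_
  have h3 : ((((upto K N).filter (fun v => ¬ (nm K v).Prime)).card : ℕ) : ℝ) ≤
      Module.finrank ℚ K * (Nat.sqrt N + 1) := by exact_mod_cast card_rest (K := K) N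
  calc _ ≤ (Module.finrank ℚ K * (Nat.sqrt N + 1) : ℝ) * |B| :=
        mul_le_mul_of_nonneg_right h3 (abs_nonneg _)
    _ = _ := by ring

/-- functions on homomorphisms that agree outside a finite set -/
theorem tendsto_fin {h h' : HX K → ℂ} (hfin : {u | h u ≠ h' u}.Finite) :
    Tendsto (fun N : ℕ => ((∑ p ∈ pr N, hs K h p) - ∑ p ∈ pr N, hs K h' p) /
      (Nat.primeCounting N : ℂ)) atTop (𝓝 0) := by
  classical
  set P0 : Finset ℕ := hfin.toFinset.image fun u => (u.1 : ℕ) with hP0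
  have hz : ∀ p, p ∉ P0 → hs K h p - hs K h' p = 0 := by
    intro p hp
    unfold hs
    split_ifs with hpp
    · unfold hq
      rw [← Finset.sum_sub_distrib]
      refine Finset.sum_eq_zero fun φ _ => ?_
      by_contra hne
      apply hp
      rw [hP0, Finset.mem_image]
      refine ⟨⟨⟨p, hpp⟩, φ⟩, ?_, rfl⟩
      rw [Set.Finite.mem_toFinset, Set.mem_ofPred_eq]
      exact fun h0 => hne (sub_eq_zero.2 h0)
    · simp
  set C : ℝ := ∑ p ∈ P0, ‖hs K h p - hs K h' p‖ with hC
  refine squeeze_zero_norm (fun N => ?_) (W352.ChAbs.const_div_pi C)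
  rw [norm_div, Complex.norm_natCast]
  refine div_le_div_of_nonneg_right ?_ (Nat.cast_nonneg _)
  rw [← Finset.sum_sub_distrib]
  refine (norm_sum_le _ _).trans ?_
  rw [hC]
  have h1 : ∑ p ∈ pr N, ‖hs K h p - hs K h' p‖ =
      ∑ p ∈ (pr N).filter (· ∈ P0), ‖hs K h p - hs K h' p‖ := by
    rw [Finset.sum_filter]
    refine Finset.sum_congr rfl fun p _ => ?_
    split_ifs with h0
    · rfl
    · rw [hz p h0, norm_zero]
  rw [h1]
  refine Finset.sum_le_sum_of_subset_of_nonneg ?_ fun _ _ _ => norm_nonneg _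
  intro p hp
  exact (Finset.mem_filter.1 hp).2

end

section

variable {K F : Type} [Field K] [NumberField K] [Field F] [NumberField F] [Algebra K F]
  {G : Type} [Group G] [TopologicalSpace G] [IsTopologicalGroup G] [CompactSpace G]
  [MeasurableSpace G] [BorelSpace G] {x : HeightOneSpectrum (𝓞 K) → G} {y : HeightOneSpectrum (𝓞 F) → G}

theorem hs_push (h : HX F → ℂ) (p : ℕ) : hs F h p = hs K (push K h) p := by
  classical
  unfold hs
  split_ifs with hp
  · exact (sum_push (K := K) h ⟨p, hp⟩).symm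
  · rfl

theorem vx_eq_kr (u : HX K) : Pool.Agent.W353.NF.vx u = kr u := rfl

/-- the averages over the extension -/
theorem mn_bc (hbc : BC x y) (σ : HeightOneSpectrum (𝓞 K) → GK K) (hσ : ∀ v, IsFrob v (σ v))
    {f : G → ℂ} (hcl : ∀ g k, f (k * g * k⁻¹) = f g) {B : ℝ} (hB : ∀ g, ‖f g‖ ≤ B) {c : ℂ}
    (h : Tendsto (mn fun v => f (x v) * (fixn K F (σ v) : ℂ)) atTop (𝓝 c)) :
    Tendsto (mn fun w => f (y w)) atTop (𝓝 c) := by
  classical
  obtain ⟨S, hS⟩ := push_fix K F
  have t1 := tendsto_hs (K := F) (g := fun w => f (y w)) fun w => hB _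
  have hB' : ∀ v, ‖f (x v) * (fixn K F (σ v) : ℂ)‖ ≤ |B| * Module.finrank ℚ F := by
    intro v
    rw [norm_mul, Complex.norm_natCast]
    exact mul_le_mul ((hB _).trans (le_abs_self B)) (Pool.Agent.W353.NF.fixn_le _)
      (Nat.cast_nonneg _) (abs_nonneg _)
  have t2 := tendsto_hs (K := K) (g := fun v => f (x v) * (fixn K F (σ v) : ℂ)) hB'
  have t3 := mn_tendsto h
  -- the bad set
  have hbad : {u : HX K | push K (fun ψ : HX F => f (y (kr ψ))) u ≠
      f (x (kr u)) * (fixn K F (σ (kr u)) : ℂ)}.Finite := by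
    have f1 : ((fun ψ : HX F => rs K ψ) '' {ψ : HX F | ¬ ∃ h : G,
        y (kr ψ) = h * x (kr (rs K ψ)) * h⁻¹}).Finite := (kr_agree hbc).image _
    have f2 : {u : HX K | kr u ∈ S}.Finite := fin_kr S
    refine (f1.union f2).subset fun u hu => ?_
    by_contra hcon
    rw [Set.mem_union, not_or] at hcon
    apply hu
    have h1 : ∀ ψ : 𝓞 F →+* ZMod (u.1 : ℕ), res K ψ = u.2 →
        f (y (kr (⟨u.1, ψ⟩ : HX F))) = f (x (kr u)) := by
      intro ψ hψ
      have h4 : rs K (⟨u.1, ψ⟩ : HX F) = u := by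
        unfold rs
        simp only
        rw [hψ]
      have h5 : ∃ h : G, y (kr (⟨u.1, ψ⟩ : HX F)) = h * x (kr (rs K (⟨u.1, ψ⟩ : HX F))) * h⁻¹ := by
        by_contra hno
        exact hcon.1 ⟨⟨u.1, ψ⟩, hno, h4⟩
      obtain ⟨k, hk⟩ := h5
      rw [hk, hcl, h4]
    have h2 : push K (fun ψ : HX F => f (y (kr ψ))) u = f (x (kr u)) * (cnt K F u : ℂ) := by
      unfold cnt push
      rw [Complex.ofReal_sum, Finset.mul_sum]
      refine Finset.sum_congr rfl fun ψ hψ => ?_
      change f (y (kr (⟨u.1, ψ⟩ : HX F))) = f (x (kr u)) * (((1 : ℝ)) : ℂ)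
      rw [h1 ψ (Finset.mem_filter.1 hψ).2]
      simp
    have h3 : cnt K F u = fixn K F (σ (kr u)) := by
      have h5 := hS u (fun h6 => hcon.2 h6) (σ (kr u)) (hσ _)
      rw [← h5]
      unfold cnt
      congr 1
      funext z
      exact (qh_one' z).symm
    rw [h2, h3]
    push_cast
    rfl
  have t4 := tendsto_fin hbad
  refine mn_of_pi ?_
  have t5 := (t1.add t4).add (t3.sub t2)
  rw [zero_add, zero_add, sub_zero] at t5
  refine t5.congr fun N => ?_
  have e1 : ∑ p ∈ pr N, hs F (fun ψ => f (y (kr ψ))) p =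
      ∑ p ∈ pr N, hs K (push K fun ψ : HX F => f (y (kr ψ))) p :=
    Finset.sum_congr rfl fun p _ => hs_push _ p
  rw [e1]
  ring

end

end Pool.Agent.V1142.SC
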