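import Pool.Agent.V1142.SC.Many
import Pool.Agent.TH553.ST.PW2

set_option autoImplicit false
set_option linter.unusedSectionVars false

/-!
# Decompositions of products of characters with multiplicities, determinants in tensor powers
-/

namespace Pool.Agent.V1142.SC.Gou

open Complex Filter Topology ComplexConjugate MeasureTheory
  Pool.Agent.TH553.ST Pool.Agent.V1142.SC.Many
open scoped Matrix ComplexOrder Kronecker

section

variable {G : Type} [Group G] [TopologicalSpace G]

/-- sums of irreducible characters -/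
def DecN (f : G → ℂ) : Prop := ∃ (J : Type) (_ : Fintype J) (m : J → ℕ)
  (ρ : ∀ j, G →* Matrix.unitaryGroup (Fin (m j)) ℂ),
  (∀ j, Continuous (ρ j) ∧ Schur (ρ j) ∧ m j ≠ 0) ∧ ∀ g, f g = ∑ j, chi (ρ j) g

theorem DecN.add {f f' : G → ℂ} (h : DecN f) (h' : DecN f') : DecN fun g => f g + f' g := by
  obtain ⟨J, _, m, ρ, h1, h2⟩ := h
  obtain ⟨J', _, m', ρ', h1', h2'⟩ := h'
  refine ⟨J ⊕ J', inferInstance, Sum.elim m m', fun j => match j with
    | Sum.inl j => ρ j
    | Sum.inr j => ρ' j, ?_, fun g => ?_⟩
  · rintro (j | j)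
    · exact h1 j
    · exact h1' j
  · rw [Fintype.sum_sum_type]
    exact congrArg₂ (· + ·) (h2 g) (h2' g)

theorem DecN.zero : DecN fun _ : G => 0 := by
  refine ⟨Empty, inferInstance, fun j => j.elim, fun j => j.elim, fun j => j.elim, fun g => ?_⟩
  simp

theorem DecN.sum {κ : Type} (s : Finset κ) {f : κ → G → ℂ} (h : ∀ k ∈ s, DecN (f k)) :
    DecN fun g => ∑ k ∈ s, f k g := by
  classical
  induction s using Finset.induction_on with
  | empty => simpa using DecN.zero
  | insert a s ha ih =>
    have h1 := (h a (Finset.mem_insert_self a s)).add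
      (ih fun k hk => h k (Finset.mem_insert_of_mem hk))
    refine (congrArg DecN (funext fun g => ?_)).mp h1
    rw [Finset.sum_insert ha]

/-- **The decomposition.** -/
theorem decN_trace : ∀ (N : ℕ) (ι : Type) [Fintype ι] [DecidableEq ι], Fintype.card ι < N →
    ∀ (π : G →* Matrix.unitaryGroup ι ℂ), Continuous π →
      DecN fun g => (π g : Matrix ι ι ℂ).trace := by
  intro N
  induction N with
  | zero =>
    intro ι _ _ h
    exact absurd h (Nat.not_lt_zero _)
  | succ N ih =>
    intro ι _ _ hcard π hπ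
    classical
    by_cases hS : SchurG π
    · rcases Nat.eq_zero_or_pos (Fintype.card ι) with h0 | h0
      · have hem : IsEmpty ι := Fintype.card_eq_zero_iff.1 h0
        refine (congrArg DecN (funext fun g => ?_)).mp (DecN.zero (G := G))
        unfold Matrix.trace
        simp
      · refine ⟨Unit, inferInstance, fun _ => Fintype.card ι, fun _ => ri (Fintype.equivFin ι) π,
          fun _ => ⟨cont_ri _ hπ, schur_ri _ hS, h0.ne'⟩, fun g => ?_⟩
        simp only [Finset.univ_unique, Finset.sum_singleton]
        rw [chi_ri]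
    · obtain ⟨H, hH, hHc, hHn⟩ := exists_herm hS
      set u := hH.eigenvectorUnitary with hu
      set lam := hH.eigenvalues with hlam
      have hdiag : (u : Matrix ι ι ℂ)ᴴ * H * (u : Matrix ι ι ℂ) =
          Matrix.diagonal (fun i => (lam i : ℂ)) := by
        have h1 := hH.conjStarAlgAut_star_eigenvectorUnitary
        rw [Unitary.conjStarAlgAut_star_apply] at h1
        exact h1
      have huu : (u : Matrix ι ι ℂ) * (u : Matrix ι ι ℂ)ᴴ = 1 := Matrix.mem_unitaryGroup_iff.1 u.2
      have huu' : (u : Matrix ι ι ℂ)ᴴ * (u : Matrix ι ι ℂ) = 1 := Matrix.mem_unitaryGroup_iff'.1 u.2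
      have hcb : ∀ g, (cb u π g : Matrix ι ι ℂ) =
          (u : Matrix ι ι ℂ)ᴴ * (π g : Matrix ι ι ℂ) * (u : Matrix ι ι ℂ) := by
        intro g
        change ((u⁻¹ * π g * u : Matrix.unitaryGroup ι ℂ) : Matrix ι ι ℂ) = _
        rw [← Unitary.star_eq_inv]
        rfl
      have hconj : ∀ X Y : Matrix ι ι ℂ, ((u : Matrix ι ι ℂ)ᴴ * X * (u : Matrix ι ι ℂ)) *
          ((u : Matrix ι ι ℂ)ᴴ * Y * (u : Matrix ι ι ℂ)) =
          (u : Matrix ι ι ℂ)ᴴ * (X * Y) * (u : Matrix ι ι ℂ) := by
        intro X Y
        calc ((u : Matrix ι ι ℂ)ᴴ * X * (u : Matrix ι ι ℂ)) *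
            ((u : Matrix ι ι ℂ)ᴴ * Y * (u : Matrix ι ι ℂ)) =
            (u : Matrix ι ι ℂ)ᴴ * X * ((u : Matrix ι ι ℂ) * (u : Matrix ι ι ℂ)ᴴ) * Y *
              (u : Matrix ι ι ℂ) := by simp only [Matrix.mul_assoc]
          _ = _ := by
            rw [huu, Matrix.mul_one]
            simp only [Matrix.mul_assoc]
      -- two different eigenvalues
      have hne : ∃ i₀ j₀, lam i₀ ≠ lam j₀ := by
        by_contra hcon
        push Not at hcon
        by_cases hem : Nonempty ι
        · obtain ⟨i₀⟩ := hem
          refine hHn (lam i₀ : ℂ) ?_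
          have h1 : Matrix.diagonal (fun i => (lam i : ℂ)) = (lam i₀ : ℂ) • (1 : Matrix ι ι ℂ) := by
            ext i j
            rw [Matrix.diagonal_apply, Matrix.smul_apply, Matrix.one_apply, hcon i i₀]
            split_ifs <;> simp
          rw [h1] at hdiag
          calc H = ((u : Matrix ι ι ℂ) * (u : Matrix ι ι ℂ)ᴴ) * H *
                ((u : Matrix ι ι ℂ) * (u : Matrix ι ι ℂ)ᴴ) := by rw [huu]; simp
            _ = (u : Matrix ι ι ℂ) * ((u : Matrix ι ι ℂ)ᴴ * H * (u : Matrix ι ι ℂ)) *
                (u : Matrix ι ι ℂ)ᴴ := by simp only [Matrix.mul_assoc]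
            _ = _ := by
              rw [hdiag, Matrix.mul_smul, Matrix.mul_one, Matrix.smul_mul, huu]
        · rw [not_nonempty_iff] at hem
          exact hHn 0 (by
            ext i
            exact (hem.false i).elim)
      obtain ⟨i₀, j₀, hij⟩ := hne
      set p : ι → Prop := fun i => lam i = lam i₀ with hp
      have hcomm : ∀ g i j, lam i ≠ lam j → (cb u π g : Matrix ι ι ℂ) i j = 0 := by
        intro g i j hne
        have h1 : (cb u π g : Matrix ι ι ℂ) * Matrix.diagonal (fun i => (lam i : ℂ)) =
            Matrix.diagonal (fun i => (lam i : ℂ)) * (cb u π g : Matrix ι ι ℂ) := by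
          rw [hcb, ← hdiag, hconj, hconj, hHc]
        have h2 := congrFun (congrFun h1 i) j
        rw [Matrix.mul_diagonal, Matrix.diagonal_mul] at h2
        have h3 : ((lam i : ℂ) - (lam j : ℂ)) * (cb u π g : Matrix ι ι ℂ) i j = 0 := by
          linear_combination -h2
        rcases mul_eq_zero.1 h3 with h4 | h4
        · exfalso
          apply hne
          have : (lam i : ℂ) = (lam j : ℂ) := by linear_combination h4
          exact_mod_cast this
        · exact h4
      have hb : ∀ g i j, ¬ (p i ↔ p j) → (cb u π g : Matrix ι ι ℂ) i j = 0 := by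
        intro g i j hn
        refine hcomm g i j fun h => hn ?_
        rw [hp]
        simp only
        rw [h]
      have hb' : ∀ g i j, ¬ (¬ p i ↔ ¬ p j) → (cb u π g : Matrix ι ι ℂ) i j = 0 := by
        intro g i j hn
        exact hb g i j fun h => hn (not_congr h)
      have htr : ∀ g, (π g : Matrix ι ι ℂ).trace = (cb u π g : Matrix ι ι ℂ).trace := by
        intro g
        rw [hcb, Matrix.trace_mul_comm ((u : Matrix ι ι ℂ)ᴴ * (π g : Matrix ι ι ℂ))
          (u : Matrix ι ι ℂ), ← Matrix.mul_assoc, huu, Matrix.one_mul]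
      have hc' := cont_cb u hπ
      have hc1 : Fintype.card {i // p i} < N := by
        have h1 : Fintype.card {i // p i} < Fintype.card ι :=
          Fintype.card_subtype_lt (x := j₀) fun h => hij h.symm
        omega
      have hc2 : Fintype.card {i // ¬ p i} < N := by
        have h1 : Fintype.card {i // ¬ p i} < Fintype.card ι :=
          Fintype.card_subtype_lt (x := i₀) fun h => h rfl
        omega
      have d1 := ih {i // p i} hc1 (bl p (cb u π) hb) (cont_bl p hb hc')
      have d2 := ih {i // ¬ p i} hc2 (bl (fun i => ¬ p i) (cb u π) hb')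
        (cont_bl (fun i => ¬ p i) hb' hc')
      have e : (fun g => (π g : Matrix ι ι ℂ).trace) = fun g =>
          (bl p (cb u π) hb g : Matrix {i // p i} {i // p i} ℂ).trace +
          (bl (fun i => ¬ p i) (cb u π) hb' g : Matrix {i // ¬ p i} {i // ¬ p i} ℂ).trace := by
        funext g
        have h1 := trace_bl p hb hb' 1 g
        have h2 : (1 : Matrix ι ι ℂ).submatrix (Subtype.val : {i // p i} → ι)
            (Subtype.val : {i // p i} → ι) = (1 : Matrix {i // p i} {i // p i} ℂ) := by
          ext i j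
          simp only [Matrix.submatrix_apply, Matrix.one_apply, Subtype.ext_iff]
        have h3 : (1 : Matrix ι ι ℂ).submatrix (Subtype.val : {i // ¬ p i} → ι)
            (Subtype.val : {i // ¬ p i} → ι) = (1 : Matrix {i // ¬ p i} {i // ¬ p i} ℂ) := by
          ext i j
          simp only [Matrix.submatrix_apply, Matrix.one_apply, Subtype.ext_iff]
        rw [h2, h3, Matrix.one_mul, Matrix.one_mul, Matrix.one_mul] at h1
        rw [htr, h1]
      rw [e]
      exact d1.add d2

theorem decN_chi_mul {n n' : ℕ} {π : G →* Matrix.unitaryGroup (Fin n) ℂ}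
    {π' : G →* Matrix.unitaryGroup (Fin n') ℂ} (h : Continuous π) (h' : Continuous π') :
    DecN fun g => chi π g * chi π' g := by
  have hc : Continuous (tp π π') := by
    refine Continuous.subtype_mk ?_ _
    refine continuous_matrix fun i j => ?_
    exact ((continuous_subtype_val.comp h).matrix_elem i.1 j.1).mul
      ((continuous_subtype_val.comp h').matrix_elem i.2 j.2)
  have h1 := decN_trace _ _ (Nat.lt_succ_self _) (tp π π') hc
  refine (congrArg DecN (funext fun g => ?_)).mp h1
  change ((π g : Matrix (Fin n) (Fin n) ℂ) ⊗ₖ (π' g : Matrix (Fin n') (Fin n') ℂ)).trace = _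
  rw [Matrix.trace_kronecker]
  rfl

theorem DecN.mul_chi {f : G → ℂ} (hf : DecN f) {n' : ℕ}
    {π' : G →* Matrix.unitaryGroup (Fin n') ℂ} (h' : Continuous π') :
    DecN fun g => f g * chi π' g := by
  obtain ⟨J, _, m, ρ, h1, h2⟩ := hf
  have h3 := DecN.sum (G := G) Finset.univ (f := fun j g => chi (ρ j) g * chi π' g)
    fun j _ => decN_chi_mul (h1 j).1 h'
  refine (congrArg DecN (funext fun g => ?_)).mp h3
  rw [h2, Finset.sum_mul]

theorem DecN.mul_pow {f : G → ℂ} (hf : DecN f) {n' : ℕ}
    {π' : G →* Matrix.unitaryGroup (Fin n') ℂ} (h' : Continuous π') (k : ℕ) :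
    DecN fun g => f g * chi π' g ^ k := by
  induction k with
  | zero => simpa using hf
  | succ k ih =>
    refine (congrArg DecN (funext fun g => ?_)).mp (ih.mul_chi h')
    ring

end

section Fixed

variable {G : Type} [Group G] [TopologicalSpace G] [IsTopologicalGroup G] [CompactSpace G]
  [MeasurableSpace G] [BorelSpace G] {μ : Measure G} [IsProbabilityMeasure μ] [μ.IsHaarMeasure]
  {n : ℕ} {π : G →* Matrix.unitaryGroup (Fin n) ℂ}

/-- a representation with an invariant vector -/
theorem int_pos_of_fixed (hc : Continuous π) {e : Fin n → ℂ} (he : e ≠ 0)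
    (hfix : ∀ g, (π g : Matrix (Fin n) (Fin n) ℂ) *ᵥ e = e) :
    ∃ c : ℝ, 0 < c ∧ ∫ g, chi π g ∂μ = c := by
  set F : G → Matrix (Fin n) (Fin n) ℂ := fun g => (π g : Matrix (Fin n) (Fin n) ℂ) with hF
  have hFc : Continuous F := cont_mat hc
  set P : Matrix (Fin n) (Fin n) ℂ := mi μ F with hP
  have hPe : P *ᵥ e = e := by
    funext k
    have h1 : (P *ᵥ e) k = ∑ l, (∫ g, F g k l ∂μ) * e l := rfl
    rw [h1]
    have h2 : ∀ l, (∫ g, F g k l ∂μ) * e l = ∫ g, F g k l * e l ∂μ := fun l =>
      (integral_mul_const _ _).symm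
    simp only [h2]
    rw [← integral_finsetSum _ fun l _ => (intg (hFc.matrix_elem k l)).mul_const _]
    have h3 : ∀ g, ∑ l, F g k l * e l = e k := fun g => congrFun (hfix g) k
    simp only [h3]
    simp
  have hPP : Pᴴ * P = P := by
    have h1 : ∀ h : G, (F h)ᴴ * P = P := by
      intro h
      have h2 : (F h)ᴴ = F h⁻¹ := by
        rw [hF]
        exact (pi_invG h).symm
      rw [h2, hP, ← mi_mul hFc]
      have h3 : (fun g => F h⁻¹ * F g) = fun g => F (h⁻¹ * g) := by
        funext g
        rw [hF]
        exact (pi_mulG _ _).symm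
      rw [h3]
      exact mi_left F h⁻¹
    ext k l
    rw [Matrix.mul_apply]
    have h4 : ∀ j, Pᴴ k j * P j l = ∫ g, (F g)ᴴ k j * P j l ∂μ := by
      intro j
      rw [integral_mul_const]
      congr 1
      rw [Matrix.conjTranspose_apply]
      have h5 : P j k = ∫ g, F g j k ∂μ := rfl
      rw [h5]
      change conj (∫ g, F g j k ∂μ) = _
      rw [← integral_conj]
      rfl
    simp only [h4]
    have hcont : ∀ j, Continuous fun g => (F g)ᴴ k j := by
      intro j
      simp only [Matrix.conjTranspose_apply]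
      exact Complex.continuous_conj.comp (hFc.matrix_elem j k)
    rw [← integral_finsetSum _ fun j _ => (intg (hcont j)).mul_const _]
    have h6 : ∀ g, ∑ j, (F g)ᴴ k j * P j l = P k l := by
      intro g
      have := congrFun (congrFun (h1 g) k) l
      rwa [Matrix.mul_apply] at this
    simp only [h6]
    simp
  have htr : ∫ g, chi π g ∂μ = P.trace := by
    rw [hP, mi_trace hFc]
    rfl
  have hsum : P.trace = ((∑ k, ∑ j, ‖P j k‖ ^ 2 : ℝ) : ℂ) := by
    conv_lhs => rw [← hPP]
    unfold Matrix.trace
    push_cast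
    refine Finset.sum_congr rfl fun k _ => ?_
    rw [Matrix.diag_apply, Matrix.mul_apply]
    refine Finset.sum_congr rfl fun j _ => ?_
    rw [Matrix.conjTranspose_apply]
    change conj (P j k) * P j k = _
    rw [mul_comm, Complex.mul_conj, Complex.normSq_eq_norm_sq]
    push_cast
    rfl
  refine ⟨∑ k, ∑ j, ‖P j k‖ ^ 2, ?_, by rw [htr, hsum]⟩
  by_contra hcon
  push Not at hcon
  have h0 : ∀ k j, P j k = 0 := by
    intro k j
    have h1 : ∑ k, ∑ j, ‖P j k‖ ^ 2 = 0 := le_antisymm hcon
      (Finset.sum_nonneg fun k _ => Finset.sum_nonneg fun j _ => by positivity)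
    have h2 := (Finset.sum_eq_zero_iff_of_nonneg fun k _ =>
      Finset.sum_nonneg fun j _ => by positivity).1 h1 k (Finset.mem_univ k)
    have h3 := (Finset.sum_eq_zero_iff_of_nonneg fun j _ => by positivity).1 h2 j
      (Finset.mem_univ j)
    simpa using h3
  apply he
  rw [← hPe]
  funext k
  change ∑ l, P k l * e l = 0
  simp [h0]

end Fixed

end Pool.Agent.V1142.SC.Gou
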