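import Pool.Agent.V1142.SC.Gou1

set_option autoImplicit false
set_option linter.unusedSectionVars false

/-!
# The determinant occurs in the tensor power
-/

namespace Pool.Agent.V1142.SC.Gou

open Complex Filter Topology ComplexConjugate MeasureTheory
  Pool.Agent.TH553.ST Pool.Agent.V1142.SC.Many
open scoped Matrix ComplexOrder Kronecker

section

variable {n : ℕ}

/-- the antisymmetric tensor -/
noncomputable def alt (n : ℕ) (h : Fin n → Fin n) : ℂ :=
  ((1 : Matrix (Fin n) (Fin n) ℂ).submatrix h id).det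

theorem alt_ne : alt n ≠ 0 := by
  intro h
  have h1 := congrFun h id
  unfold alt at h1
  rw [Matrix.submatrix_id_id, Matrix.det_one] at h1
  exact one_ne_zero h1

/-- the tensor power multiplies the antisymmetric tensor by the determinant -/
theorem tens_alt (A : Matrix (Fin n) (Fin n) ℂ) :
    (tens (fun _ : Fin n => A)) *ᵥ alt n = A.det • alt n := by
  funext f
  have hR : (A.det • alt n) f = (A.submatrix f id).det := by
    rw [Pi.smul_apply, smul_eq_mul]
    unfold alt
    have h1 : A.submatrix f id = (1 : Matrix (Fin n) (Fin n) ℂ).submatrix f id * A := by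
      ext i j
      rw [Matrix.mul_apply]
      simp [Matrix.one_apply]
    rw [h1, Matrix.det_mul, mul_comm]
  rw [hR]
  change ∑ h : Fin n → Fin n, (∏ i, A (f i) (h i)) * alt n h = _
  unfold alt
  simp only [Matrix.det_apply, Matrix.submatrix_apply, id, Finset.mul_sum, mul_smul_comm]
  rw [Finset.sum_comm]
  refine Finset.sum_congr rfl fun σ _ => ?_
  rw [← Finset.smul_sum]
  congr 1
  -- the sum over all maps
  have h2 : ∀ h : Fin n → Fin n, (∏ i, A (f i) (h i)) *
      ∏ i, (1 : Matrix (Fin n) (Fin n) ℂ) (h (σ i)) i =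
      ∏ i, (A (f (σ i)) (h (σ i)) * (1 : Matrix (Fin n) (Fin n) ℂ) (h (σ i)) i) := by
    intro h
    rw [Finset.prod_mul_distrib, Equiv.prod_comp σ fun i => A (f i) (h i)]
  refine (Finset.sum_congr rfl fun h _ => h2 h).trans ?_
  refine (Finset.sum_eq_single (fun i => σ.symm i) ?_ ?_).trans ?_
  · intro h _ hne
    obtain ⟨i, hi⟩ := Function.ne_iff.1 hne
    refine Finset.prod_eq_zero (Finset.mem_univ (σ.symm i)) ?_
    have hi' : h (σ (σ.symm i)) ≠ σ.symm i := by rwa [Equiv.apply_symm_apply]
    rw [Matrix.one_apply_ne hi', mul_zero]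
  · intro h
    exact absurd (Finset.mem_univ _) h
  · refine Finset.prod_congr rfl fun i _ => ?_
    have h3 : (fun i => σ.symm i) (σ i) = i := Equiv.symm_apply_apply σ i
    rw [h3, Matrix.one_apply_eq, mul_one]

end

section

variable {G : Type} [Group G] {n : ℕ}

theorem val_mul {m : Type} [Fintype m] [DecidableEq m] (π : G →* Matrix.unitaryGroup m ℂ)
    (g h : G) : (π (g * h) : Matrix m m ℂ) = (π g : Matrix m m ℂ) * (π h : Matrix m m ℂ) := by
  rw [map_mul]
  rfl

theorem det_unit (π : G →* Matrix.unitaryGroup (Fin n) ℂ) (g : G) :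
    (π g : Matrix (Fin n) (Fin n) ℂ).det * conj (π g : Matrix (Fin n) (Fin n) ℂ).det = 1 := by
  have h1 := congrArg Matrix.det (Matrix.mem_unitaryGroup_iff.1 (π g).2)
  rw [Matrix.det_mul, Matrix.det_one] at h1
  have h2 : (star (π g : Matrix (Fin n) (Fin n) ℂ)).det =
      conj (π g : Matrix (Fin n) (Fin n) ℂ).det := Matrix.det_conjTranspose _
  rw [h2] at h1
  exact h1

/-- the determinant as a representation -/
noncomputable def dt (π : G →* Matrix.unitaryGroup (Fin n) ℂ) :
    G →* Matrix.unitaryGroup (Fin 1) ℂ where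
  toFun g := ⟨Matrix.of fun _ _ => (π g : Matrix (Fin n) (Fin n) ℂ).det, by
    rw [Matrix.mem_unitaryGroup_iff]
    ext i j
    have hi : i = 0 := Subsingleton.elim _ _
    have hj : j = 0 := Subsingleton.elim _ _
    subst hi
    subst hj
    rw [Matrix.mul_apply]
    simp only [Finset.univ_unique, Finset.sum_singleton, Matrix.of_apply, Matrix.star_apply,
      Matrix.one_apply_eq]
    exact det_unit π g⟩
  map_one' := by
    apply Subtype.ext
    ext i j
    have hi : i = 0 := Subsingleton.elim _ _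
    have hj : j = 0 := Subsingleton.elim _ _
    subst hi
    subst hj
    simp
  map_mul' g h := by
    apply Subtype.ext
    ext i j
    have hi : i = 0 := Subsingleton.elim _ _
    have hj : j = 0 := Subsingleton.elim _ _
    subst hi
    subst hj
    change (π (g * h) : Matrix (Fin n) (Fin n) ℂ).det = ((Matrix.of fun _ _ : Fin 1 =>
      (π g : Matrix (Fin n) (Fin n) ℂ).det) * (Matrix.of fun _ _ : Fin 1 =>
      (π h : Matrix (Fin n) (Fin n) ℂ).det)) 0 0
    rw [Matrix.mul_apply]
    simp only [Finset.univ_unique, Finset.sum_singleton, Matrix.of_apply]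
    rw [val_mul, Matrix.det_mul]

theorem chi_dt (π : G →* Matrix.unitaryGroup (Fin n) ℂ) (g : G) :
    chi (dt π) g = (π g : Matrix (Fin n) (Fin n) ℂ).det := by
  unfold chi Matrix.trace dt
  simp

/-- the tensor power as a representation -/
noncomputable def tr' (π : G →* Matrix.unitaryGroup (Fin n) ℂ) :
    G →* Matrix.unitaryGroup (Fin n → Fin n) ℂ where
  toFun g := ⟨tens (fun _ : Fin n => (π g : Matrix (Fin n) (Fin n) ℂ)),
    tens_unitary fun _ => (π g).2⟩
  map_one' := by
    apply Subtype.ext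
    change tens (fun _ : Fin n => ((π 1 : Matrix.unitaryGroup (Fin n) ℂ) :
      Matrix (Fin n) (Fin n) ℂ)) = 1
    rw [map_one]
    exact tens_one
  map_mul' g h := by
    apply Subtype.ext
    change tens (fun _ : Fin n => ((π (g * h) : Matrix.unitaryGroup (Fin n) ℂ) :
      Matrix (Fin n) (Fin n) ℂ)) = tens (fun _ : Fin n => (π g : Matrix (Fin n) (Fin n) ℂ)) *
        tens (fun _ : Fin n => (π h : Matrix (Fin n) (Fin n) ℂ))
    rw [tens_mul]
    congr 1
    funext i
    exact val_mul π g h

theorem tr'_val (π : G →* Matrix.unitaryGroup (Fin n) ℂ) (g : G) :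
    (tr' π g : Matrix (Fin n → Fin n) (Fin n → Fin n) ℂ) =
      tens (fun _ : Fin n => (π g : Matrix (Fin n) (Fin n) ℂ)) := rfl

variable [TopologicalSpace G] [IsTopologicalGroup G]

theorem cont_dt {π : G →* Matrix.unitaryGroup (Fin n) ℂ} (h : Continuous π) :
    Continuous (dt π) := by
  refine Continuous.subtype_mk ?_ _
  exact continuous_matrix fun i j => (cont_mat h).matrix_det

theorem cont_tr' {π : G →* Matrix.unitaryGroup (Fin n) ℂ} (h : Continuous π) :
    Continuous (tr' π) := by
  refine Continuous.subtype_mk ?_ _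
  refine continuous_matrix fun a b => ?_
  change Continuous fun g => ∏ i : Fin n, (π g : Matrix (Fin n) (Fin n) ℂ) (a i) (b i)
  exact continuous_finsetProd _ fun i _ => (cont_mat h).matrix_elem _ _

variable [CompactSpace G] [MeasurableSpace G] [BorelSpace G] {μ : Measure G}
  [IsProbabilityMeasure μ] [μ.IsHaarMeasure]

/-- **The determinant occurs in the tensor power.** -/
theorem int_pow_det {π : G →* Matrix.unitaryGroup (Fin n) ℂ} (h : Continuous π) :
    ∃ c : ℝ, 0 < c ∧ ∫ g, chi (cj (dt π)) g * chi π g ^ n ∂μ = c := by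
  set T := tp (cj (dt π)) (tr' π) with hT
  have hTc : Continuous T := by
    refine Continuous.subtype_mk ?_ _
    refine continuous_matrix fun i j => ?_
    exact ((continuous_subtype_val.comp (cont_cj (cont_dt h))).matrix_elem i.1 j.1).mul
      ((continuous_subtype_val.comp (cont_tr' h)).matrix_elem i.2 j.2)
  set ε := Fintype.equivFin (Fin 1 × (Fin n → Fin n)) with hε
  set E : Fin 1 × (Fin n → Fin n) → ℂ := fun p => alt n p.2 with hE
  have hfix : ∀ g, (T g : Matrix (Fin 1 × (Fin n → Fin n)) (Fin 1 × (Fin n → Fin n)) ℂ) *ᵥ E =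
      E := by
    intro g
    funext p
    change ∑ q : Fin 1 × (Fin n → Fin n),
      ((cj (dt π) g : Matrix (Fin 1) (Fin 1) ℂ) p.1 q.1 *
        tens (fun _ : Fin n => (π g : Matrix (Fin n) (Fin n) ℂ)) p.2 q.2) * alt n q.2 = alt n p.2
    rw [Fintype.sum_prod_type]
    simp only [Finset.univ_unique, Finset.sum_singleton]
    have h1 : (cj (dt π) g : Matrix (Fin 1) (Fin 1) ℂ) p.1 default =
        conj (π g : Matrix (Fin n) (Fin n) ℂ).det := rfl
    rw [h1]
    simp only [mul_assoc]
    rw [← Finset.mul_sum]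
    have h2 := congrFun (tens_alt (π g : Matrix (Fin n) (Fin n) ℂ)) p.2
    rw [Pi.smul_apply, smul_eq_mul] at h2
    change ∑ q, tens (fun _ : Fin n => (π g : Matrix (Fin n) (Fin n) ℂ)) p.2 q * alt n q = _ at h2
    rw [h2, ← mul_assoc, mul_comm (conj _), det_unit, one_mul]
  have hfix' : ∀ g, (ri ε T g : Matrix _ _ ℂ) *ᵥ (E ∘ ε.symm) = E ∘ ε.symm := by
    intro g
    rw [ri_val]
    funext k
    have h1 := congrFun (hfix g) (ε.symm k)
    change ∑ l, (T g : Matrix _ _ ℂ) (ε.symm k) (ε.symm l) * E (ε.symm l) = E (ε.symm k)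
    rw [Equiv.sum_comp ε.symm fun l => (T g : Matrix _ _ ℂ) (ε.symm k) l * E l]
    exact h1
  obtain ⟨c, h1, h2⟩ := int_pos_of_fixed (μ := μ) (cont_ri ε hTc) (e := E ∘ ε.symm) (by
    intro h0
    apply alt_ne (n := n)
    funext f
    have h3 := congrFun h0 (ε (0, f))
    simpa [hE] using h3) hfix'
  refine ⟨c, h1, ?_⟩
  rw [← h2]
  congr 1
  funext g
  rw [chi_ri]
  change _ = ((cj (dt π) g : Matrix (Fin 1) (Fin 1) ℂ) ⊗ₖ
    (tr' π g : Matrix (Fin n → Fin n) (Fin n → Fin n) ℂ)).trace
  rw [Matrix.trace_kronecker, tr'_val, tens_trace, Finset.prod_const, Finset.card_univ,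
    Fintype.card_fin]
  rfl

end

end Pool.Agent.V1142.SC.Gou
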