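import Pool.Agent.V1142.SC.Gou2
import Pool.Agent.TH553.ST.Taub3

set_option autoImplicit false
set_option linter.unusedSectionVars false

/-!
# The Tauberian theorem with a zero or pole at one
-/

namespace Pool.Agent.V1142.SC.Gou

open Complex Filter Topology ComplexConjugate NumberField IsDedekindDomain
  Pool.Agent.W540.BE Pool.Agent.TH553.RS H332.PIT Pool.Agent.TH553.ST

section

variable {K : Type} [Field K] [NumberField K]

/-- **The weighted mean value.** -/
theorem sum_wt' {t : HeightOneSpectrum (𝓞 K) → ℂ} {B : ℝ} (hB0 : 0 ≤ B) (ht : ∀ v, ‖t v‖ ≤ B)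
    (a : ℝ) (hbd : ∀ s : ℂ, 1 ≤ s.re →
      ∃ y, Tendsto (fun z => S t z - a / (z - 1)) (𝓝[{s : ℂ | 1 < s.re}] s) (𝓝 y)) {ζ : ℂ}
    (hζ : ‖ζ‖ ≤ 1) :
    Tendsto (fun x : ℝ => (∑ k ∈ Finset.Icc 1 ⌊x⌋₊, (B * LamK K k + wt ζ t k)) / x) atTop
      (𝓝 (B + a * ζ.re)) := by
  set f : ℂ → ℂ := fun s => B * (LL K s - 1 / (s - 1)) + ζ / 2 * (S t s - a / (s - 1)) +
    conj ζ / 2 * conj (S t (conj s) - a / (conj s - 1)) with hf
  have hconj : ∀ s : ℂ, Tendsto (fun z : ℂ => conj z) (𝓝[{s : ℂ | 1 < s.re}] s)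
      (𝓝[{s : ℂ | 1 < s.re}] (conj s)) := by
    intro s
    rw [tendsto_nhdsWithin_iff]
    refine ⟨(Complex.continuous_conj.tendsto s).mono_left nhdsWithin_le_nhds, ?_⟩
    filter_upwards [self_mem_nhdsWithin] with z hz
    have : 1 < z.re := hz
    simpa using this
  have hbd' : ∀ s : ℂ, 1 ≤ s.re → ∃ y, Tendsto f (𝓝[{s : ℂ | 1 < s.re}] s) (𝓝 y) := by
    intro s hs
    obtain ⟨y0, h0⟩ := boundary (K := K) (Pool.Agent.H484R2.continuation K) hs
    obtain ⟨y1, h1⟩ := hbd s hs
    obtain ⟨y2, h2⟩ := hbd (conj s) (by simpa using hs)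
    have h3 := (Complex.continuous_conj.tendsto y2).comp (h2.comp (hconj s))
    exact ⟨_, ((h0.const_mul _).add (h1.const_mul _)).add (h3.const_mul _)⟩
  have hLam : ∀ n, 0 ≤ LamK K n := LamK_nonneg
  refine Pool.Agent.Helper923.PNT.wiener_ikehara (fun k => B * LamK K k + wt ζ t k) ?_
    (2 * B * ((Module.finrank ℚ K : ℝ) ^ 2 * (Real.log 4 + 4))) (B + a * ζ.re) ?_
    (extendFrom {s : ℂ | 1 < s.re} f) ?_ ?_
  · intro n
    have := (abs_le.1 (wt_le hζ hB0 ht n)).1
    linarith
  · intro n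
    have h1 : ∑ k ∈ Finset.Icc 1 n, (B * LamK K k + wt ζ t k) ≤
        ∑ k ∈ Finset.Icc 1 n, (2 * B) * LamK K k := by
      refine Finset.sum_le_sum fun k _ => ?_
      have := (abs_le.1 (wt_le hζ hB0 ht k)).2
      linarith
    have h2 : ∑ k ∈ Finset.Icc 1 n, LamK K k ≤
        (Module.finrank ℚ K : ℝ) ^ 2 * Chebyshev.psi n := by
      unfold Chebyshev.psi
      rw [Nat.floor_natCast, Finset.mul_sum]
      exact Finset.sum_le_sum fun k _ => LamK_le k
    have h3 : (Module.finrank ℚ K : ℝ) ^ 2 * Chebyshev.psi n ≤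
        (Module.finrank ℚ K : ℝ) ^ 2 * ((Real.log 4 + 4) * n) :=
      mul_le_mul_of_nonneg_left (Chebyshev.psi_le_const_mul_self (Nat.cast_nonneg n))
        (by positivity)
    rw [← Finset.mul_sum] at h1
    refine h1.trans ?_
    calc 2 * B * ∑ k ∈ Finset.Icc 1 n, LamK K k ≤
          2 * B * ((Module.finrank ℚ K : ℝ) ^ 2 * ((Real.log 4 + 4) * n)) :=
          mul_le_mul_of_nonneg_left (h2.trans h3) (by positivity)
      _ = _ := by ring
  · refine continuousOn_extendFrom ?_ fun s hs => hbd' s hs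
    intro s hs
    rw [Metric.mem_closure_iff]
    intro ε hε
    refine ⟨s + ((ε / 2 : ℝ) : ℂ), ?_, ?_⟩
    · have : (1 : ℝ) ≤ s.re := hs
      simp only [Set.mem_ofPred_eq, Complex.add_re, Complex.ofReal_re]
      linarith
    · rw [dist_eq_norm, sub_add_cancel_left, norm_neg, Complex.norm_real, Real.norm_eq_abs,
        abs_of_pos (by linarith)]
      linarith
  · intro s hs
    have h1 : ContinuousOn f {s : ℂ | 1 < s.re} := by
      intro z hz
      have hz' : 1 < z.re := hz
      have hz1 : z - 1 ≠ 0 := by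
        intro h1
        have : z = 1 := sub_eq_zero.mp h1
        rw [this] at hz'
        simp at hz'
      refine ContinuousAt.continuousWithinAt ?_
      have hcj : 1 < (conj z).re := by simpa using hz'
      have hcj1 : conj z - 1 ≠ 0 := by
        intro h1
        have : conj z = 1 := sub_eq_zero.mp h1
        rw [this] at hcj
        simp at hcj
      have hS : ∀ w : ℂ, 1 < w.re → w - 1 ≠ 0 → ContinuousAt (fun z => S t z - a / (z - 1)) w :=
        fun w hw hw1 => (an_S ht hw).continuousAt.sub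
          (continuousAt_const.div (continuous_id.sub continuous_const).continuousAt hw1)
      have h2 : ContinuousAt (fun z : ℂ => conj (S t (conj z) - a / (conj z - 1))) z :=
        Complex.continuous_conj.continuousAt.comp
          (ContinuousAt.comp (f := fun z : ℂ => conj z) (hS _ hcj hcj1)
            Complex.continuous_conj.continuousAt)
      exact ((continuousAt_const.mul ((LL_analyticAt hz).continuousAt.sub
        (continuousAt_const.div (continuous_id.sub continuous_const).continuousAt hz1))).add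
        (continuousAt_const.mul (hS z hz' hz1))).add (continuousAt_const.mul h2)
    rw [extendFrom_extends h1 s hs, hf]
    have h2 : LSeries (fun n => ((B * LamK K n + wt ζ t n : ℝ) : ℂ)) s =
        B * LL K s + ζ / 2 * S t s + conj ζ / 2 * conj (S t (conj s)) := by
      have e1 : (fun n : ℕ => ((B * LamK K n + wt ζ t n : ℝ) : ℂ)) =
          (B : ℂ) • (fun n : ℕ => (LamK K n : ℂ)) + (ζ / 2) • (lc t) +
            (conj ζ / 2) • (fun n => conj (lc t n)) := by
        funext n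
        simp only [Pi.add_apply, Pi.smul_apply, smul_eq_mul]
        rw [Complex.ofReal_add, wt_eq, Complex.ofReal_mul]
        ring
      have a0 : LSeriesSummable ((B : ℂ) • (fun n : ℕ => (LamK K n : ℂ))) s :=
        (LamK_summable (K := K) hs).smul _
      have a1 : LSeriesSummable ((ζ / 2) • (lc t)) s := (summ_lc ht hs).smul _
      have a2 : LSeriesSummable ((conj ζ / 2) • (fun n => conj (lc t n))) s :=
        (summ_conj _ _ (summ_lc ht hs)).smul _
      rw [e1, LSeries_add (a0.add a1) a2, LSeries_add a0 a1, LSeries_smul, LSeries_smul,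
        LSeries_smul, LS_conj]
      rfl
    have h3 : conj (S t (conj s) - a / (conj s - 1)) = conj (S t (conj s)) - a / (s - 1) := by
      rw [map_sub, map_div₀, map_sub, Complex.conj_conj, Complex.conj_ofReal, map_one]
    have h4 : ((B + a * ζ.re : ℝ) : ℂ) = B + a * ((ζ + conj ζ) / 2) := by
      push_cast
      rw [Complex.re_eq_add_conj]
    rw [h2, h4]
    simp only
    rw [h3]
    ring

/-- **The Tauberian theorem.** -/
theorem taub_mn' {t : HeightOneSpectrum (𝓞 K) → ℂ} {B : ℝ} (hB0 : 0 ≤ B) (ht : ∀ v, ‖t v‖ ≤ B)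
    (a : ℝ) (hbd : ∀ s : ℂ, 1 ≤ s.re →
      ∃ y, Tendsto (fun z => S t z - a / (z - 1)) (𝓝[{s : ℂ | 1 < s.re}] s) (𝓝 y)) :
    Tendsto (mn t) atTop (𝓝 (a : ℂ)) := by
  have key : ∀ ζ : ℂ, ‖ζ‖ ≤ 1 → Tendsto (fun N : ℕ =>
      (∑ k ∈ Finset.Icc 1 N, wt ζ t k) / (N : ℝ)) atTop (𝓝 (a * ζ.re)) := by
    intro ζ hζ
    have h1 := (sum_wt' (K := K) hB0 ht a hbd hζ).comp (tendsto_natCast_atTop_atTop (R := ℝ))
    have h2 := ((sum_LamK (K := K) (Pool.Agent.H484R2.continuation K)).comp
      (tendsto_natCast_atTop_atTop (R := ℝ))).const_mul B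
    have h3 := h1.sub h2
    rw [mul_one, add_sub_cancel_left] at h3
    refine h3.congr fun N => ?_
    simp only [Function.comp, Nat.floor_natCast]
    rw [Finset.sum_add_distrib, ← Finset.mul_sum]
    ring
  -- the weighted sums
  set T : ℕ → ℂ := fun N => ∑ k ∈ Finset.Icc 1 N, lc t k with hT
  have hT0 : Tendsto (fun N : ℕ => T N / (N : ℂ)) atTop (𝓝 (a : ℂ)) := by
    have k1 := key 1 (by simp)
    have k2 := key (-I) (by simp)
    have h1 : Tendsto (fun N : ℕ => (((∑ k ∈ Finset.Icc 1 N, wt 1 t k) / (N : ℝ) : ℝ) : ℂ) +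
        (((∑ k ∈ Finset.Icc 1 N, wt (-I) t k) / (N : ℝ) : ℝ) : ℂ) * I) atTop
        (𝓝 (((a * (1 : ℂ).re : ℝ) : ℂ) + ((a * (-I : ℂ).re : ℝ) : ℂ) * I)) :=
      ((Complex.continuous_ofReal.tendsto _).comp k1).add
        (((Complex.continuous_ofReal.tendsto _).comp k2).mul_const I)
    rw [Complex.one_re, mul_one, Complex.neg_re, Complex.I_re, neg_zero, mul_zero,
      Complex.ofReal_zero, zero_mul, add_zero] at h1
    refine h1.congr fun N => ?_
    push_cast
    rw [div_mul_eq_mul_div, ← add_div, Finset.sum_mul, ← Finset.sum_add_distrib]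
    congr 1
    refine Finset.sum_congr rfl fun k _ => ?_
    have h2 : wt 1 t k = (lc t k).re := by simp [wt]
    have h3 : wt (-I) t k = (lc t k).im := by simp [wt]
    rw [h2, h3]
    exact Complex.re_add_im (lc t k)
  have hTv : ∀ N, T N = ∑ v ∈ upto K N, (Real.log (nm K v) : ℂ) * t v := by
    intro N
    rw [← sum_nf (fun v => (Real.log (nm K v) : ℂ) * t v) N]
    refine Finset.sum_congr rfl fun k _ => ?_
    rw [lc_eq]
    unfold nf
    rw [Finset.mul_sum]
    refine Finset.sum_congr rfl fun v hv => ?_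
    rw [Set.Finite.mem_toFinset, Set.mem_ofPred_eq] at hv
    simp only [hv]
  set A : ℕ → ℂ := fun N => ∑ v ∈ upto K N, t v with hA
  have hdiff : ∀ N : ℕ, ‖A N * ((Real.log N : ℝ) : ℂ) - T N‖ ≤
      B * (((upto K N).card : ℝ) * Real.log N - WK K N) := by
    intro N
    have e1 : A N * ((Real.log N : ℝ) : ℂ) - T N =
        ∑ v ∈ upto K N, ((Real.log N - Real.log (nm K v) : ℝ) : ℂ) * t v := by
      rw [hTv, hA]
      simp only
      rw [Finset.sum_mul, ← Finset.sum_sub_distrib]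
      exact Finset.sum_congr rfl fun v _ => by push_cast; ring
    have e2 : ((upto K N).card : ℝ) * Real.log N - WK K N =
        ∑ v ∈ upto K N, (Real.log N - Real.log (nm K v)) := by
      rw [Finset.sum_sub_distrib, Finset.sum_const, nsmul_eq_mul]
      rfl
    rw [e1, e2, Finset.mul_sum]
    refine (norm_sum_le _ _).trans (Finset.sum_le_sum fun v hv => ?_)
    rw [norm_mul, Complex.norm_real, Real.norm_of_nonneg (log_le_log hv), mul_comm]
    exact mul_le_mul_of_nonneg_right (ht v) (log_le_log hv)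
  have h0 : Tendsto (fun N : ℕ => B * ((((upto K N).card : ℝ) * Real.log N - WK K N) / N)) atTop
      (𝓝 0) := by
    have := (WK_tendsto (K := K)).const_mul B
    simpa using this
  have h1 : Tendsto (fun N : ℕ => A N * ((Real.log N : ℝ) : ℂ) / N - T N / N) atTop (𝓝 0) := by
    refine squeeze_zero_norm (fun N => ?_) h0
    rw [← sub_div, norm_div, ← mul_div_assoc]
    have e4 : ‖(N : ℂ)‖ = N := by simp
    rw [e4]
    exact div_le_div_of_nonneg_right (hdiff N) (Nat.cast_nonneg _)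
  have h2 : Tendsto (fun N : ℕ => A N * ((Real.log N : ℝ) : ℂ) / N) atTop (𝓝 (a : ℂ)) := by
    have := h1.add hT0
    rw [zero_add] at this
    exact this.congr fun N => by ring
  have hpi' : Tendsto (fun N : ℕ => (((Nat.primeCounting N : ℝ) * Real.log N / N : ℝ) : ℂ)) atTop
      (𝓝 ((1 : ℝ) : ℂ)) := (Complex.continuous_ofReal.tendsto _).comp pi_log
  have h3 := h2.div hpi' (by simp)
  rw [ofReal_one, div_one] at h3
  refine mn_of_pi (h3.congr' ?_)
  filter_upwards [eventually_ge_atTop 2] with N hN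
  have hl : ((Real.log N : ℝ) : ℂ) ≠ 0 := by
    have : 0 < Real.log N := Real.log_pos (by exact_mod_cast hN)
    exact_mod_cast this.ne'
  have hN0 : (N : ℂ) ≠ 0 := by
    have : N ≠ 0 := by omega
    exact_mod_cast this
  have hp : (Nat.primeCounting N : ℂ) ≠ 0 := by
    have : Nat.primeCounting N ≠ 0 := by
      rw [Ne, Nat.primeCounting_eq_zero_iff]
      omega
    exact_mod_cast this
  simp only [Pi.div_apply]
  push_cast
  have hl' : Complex.log (N : ℂ) ≠ 0 := by
    rw [← Complex.natCast_log]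
    exact hl
  field_simp
  rfl


variable {b : ℕ} {α : HeightOneSpectrum (𝓞 K) → Fin b → ℂ} (hα : ∀ v j, ‖α v j‖ = 1)

include hα

/-- the boundary values at a point with a given order -/
theorem bd_ord {L : ℂ → ℂ} (hL : ∀ s : ℂ, 1 < s.re →
      L s = ∏' v, (∏ j, (1 - α v j * ((nm K v : ℕ) : ℂ) ^ (-s)))⁻¹) {s0 : ℂ} (hs0 : s0.re = 1)
    {m : ℤ} {Λ : ℂ → ℂ} (hm : MeromorphicAt Λ s0) (hord : meromorphicOrderAt Λ s0 = m)
    (hΛ : ∀ᶠ s in 𝓝 s0, 1 < s.re → Λ s = L s) :
    ∃ y, Tendsto (fun z => S (fun v => ∑ j, α v j) z - (-m) / (z - s0))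
      (𝓝[{s : ℂ | 1 < s.re}] s0) (𝓝 y) := by
  obtain ⟨g, h1, h2, h3⟩ := (meromorphicOrderAt_eq_int_iff hm).1 hord
  have hmem : s0 ∈ Hp := by
    have : (3 / 4 : ℝ) < s0.re := by rw [hs0]; norm_num
    exact this
  have hR : AnalyticAt ℂ (Rt α) s0 := (diff_Rt hα).analyticAt (isOpen_Hp.mem_nhds hmem)
  refine ⟨deriv (Rt α) s0 - deriv g s0 / g s0, ?_⟩
  have h4 : Tendsto (fun z => deriv (Rt α) z - deriv g z / g z) (𝓝[{s : ℂ | 1 < s.re}] s0)
      (𝓝 (deriv (Rt α) s0 - deriv g s0 / g s0)) :=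
    (hR.deriv.continuousAt.sub (h1.deriv.continuousAt.div h1.continuousAt h2)).mono_left
      nhdsWithin_le_nhds
  refine h4.congr' ?_
  rw [eventually_nhdsWithin_iff] at h3
  have hne : ∀ z : ℂ, 1 < z.re → z ≠ s0 := by
    intro z hz h
    rw [h, hs0] at hz
    exact lt_irrefl _ hz
  filter_upwards [h3.eventually_nhds.filter_mono nhdsWithin_le_nhds,
    hΛ.eventually_nhds.filter_mono nhdsWithin_le_nhds,
    (h1.continuousAt.eventually_ne h2).filter_mono nhdsWithin_le_nhds,
    h1.eventually_analyticAt.filter_mono nhdsWithin_le_nhds, self_mem_nhdsWithin]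
    with z k1 k2 k3 k4 hre
  have hre' : 1 < z.re := hre
  have hzs : z - s0 ≠ 0 := sub_ne_zero.2 (hne z hre')
  have h5 : L =ᶠ[𝓝 z] fun w => (w - s0) ^ m * g w := by
    filter_upwards [k1, k2, isOpen_re.mem_nhds hre'] with w hw hw1 hw2
    have hw3 : w ≠ s0 := hne w hw2
    rw [← hw1 hw2, hw hw3, smul_eq_mul]
  have h6 : HasDerivAt (fun w : ℂ => (w - s0) ^ m) (m * (z - s0) ^ (m - 1)) z := by
    have h8 : HasDerivAt (fun w : ℂ => w - s0) 1 z := (hasDerivAt_id z).sub_const s0
    have h9 := HasDerivAt.comp z (h₂ := fun w : ℂ => w ^ m) (h := fun w : ℂ => w - s0)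
      (hasDerivAt_zpow m (z - s0) (Or.inl hzs)) h8
    rw [mul_one] at h9
    exact h9
  have h7 : HasDerivAt (fun w : ℂ => (w - s0) ^ m * g w)
      (m * (z - s0) ^ (m - 1) * g z + (z - s0) ^ m * deriv g z) z :=
    h6.mul k4.differentiableAt.hasDerivAt
  rw [(S_eq hα hL hre').2, h5.deriv_eq, h7.deriv, h5.eq_of_nhds]
  have h8 : (z - s0) ^ m ≠ 0 := zpow_ne_zero _ hzs
  rw [zpow_sub_one₀ hzs]
  field_simp
  ring

/-- **The Tauberian theorem with a zero or pole at one.** -/
theorem taub' {L : ℂ → ℂ} (hL : ∀ s : ℂ, 1 < s.re →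
      L s = ∏' v, (∏ j, (1 - α v j * ((nm K v : ℕ) : ℂ) ^ (-s)))⁻¹) (m : ℝ → ℤ)
    (hc : ∀ τ : ℝ, ∃ Λ : ℂ → ℂ, MeromorphicAt Λ (1 + τ * I) ∧
      meromorphicOrderAt Λ (1 + τ * I) = m τ ∧
      ∀ᶠ s in 𝓝 ((1 : ℂ) + τ * I), 1 < s.re → Λ s = L s) (h0 : ∀ τ, τ ≠ 0 → m τ = 0) :
    Tendsto (mn fun v => ∑ j, α v j) atTop (𝓝 (-(m 0 : ℂ))) := by
  have h1 := taub_mn' (K := K) (t := fun v => ∑ j, α v j) (B := b) (Nat.cast_nonneg b) (sum_le hα)
    (-(m 0 : ℝ)) fun s hs => ?_
  · push_cast at h1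
    exact h1
  · rcases hs.eq_or_lt with h | h
    · have hs' : s = 1 + (s.im : ℝ) * I := by
        apply Complex.ext <;> simp [← h]
      obtain ⟨Λ, h2, h3, h4⟩ := hc s.im
      by_cases hτ : s.im = 0
      · have hs1 : s = 1 := by
          rw [hs', hτ]
          simp
        rw [hτ] at h2 h3 h4
        rw [Complex.ofReal_zero, zero_mul, add_zero] at h2 h3 h4
        obtain ⟨y, hy⟩ := bd_ord hα hL (s0 := 1) (by simp) h2 h3 h4
        rw [hs1]
        refine ⟨y, hy.congr fun z => ?_⟩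
        push_cast
        rfl
      · rw [← hs'] at h2 h3 h4
        obtain ⟨y, hy⟩ := bd_ord hα hL (s0 := s) h.symm h2 h3 h4
        rw [h0 _ hτ] at hy
        have hs1 : s - 1 ≠ 0 := by
          intro h5
          apply hτ
          have : s = 1 := sub_eq_zero.mp h5
          rw [this]
          simp
        have h5 : Tendsto (fun z : ℂ => ((-(m 0 : ℝ) : ℝ) : ℂ) / (z - 1))
            (𝓝[{s : ℂ | 1 < s.re}] s) (𝓝 (((-(m 0 : ℝ) : ℝ) : ℂ) / (s - 1))) :=
          ((continuousAt_const.div (continuous_id.sub continuous_const).continuousAt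
            hs1).tendsto).mono_left nhdsWithin_le_nhds
        refine ⟨_, (hy.sub h5).congr fun z => ?_⟩
        simp
    · have hs1 : s - 1 ≠ 0 := by
        intro h5
        have : s = 1 := sub_eq_zero.mp h5
        rw [this] at h
        simp at h
      exact ⟨_, ((an_S (sum_le hα) h).continuousAt.sub (continuousAt_const.div
        (continuous_id.sub continuous_const).continuousAt hs1)).tendsto.mono_left
        nhdsWithin_le_nhds⟩

end

end Pool.Agent.V1142.SC.Gou
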