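import Pool.Agent.V1142.SC.Gou3
import Pool.Agent.TH553.ST.Pair2

set_option autoImplicit false
set_option linter.unusedSectionVars false

/-!
# No zeros and poles at positive height
-/

namespace Pool.Agent.V1142.SC.Gou

open Complex Filter Topology ComplexConjugate MeasureTheory NumberField IsDedekindDomain
  Pool.Agent.TH553.ST Pool.Agent.TH553.RS Pool.Agent.W540.BE Pool.Agent.V1142.SC.Many

section

variable {K : Type} [Field K] [NumberField K]
variable {G : Type} [Group G] [TopologicalSpace G] [IsTopologicalGroup G] [CompactSpace G]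
  [T2Space G] [MeasurableSpace G] [BorelSpace G] {μ : Measure G} [IsProbabilityMeasure μ]
  [μ.IsHaarMeasure] {n : ℕ} {π : G →* Matrix.unitaryGroup (Fin n) ℂ}
variable {G' : Type} [Group G'] [TopologicalSpace G'] [IsTopologicalGroup G'] [CompactSpace G']
  [T2Space G'] [MeasurableSpace G'] [BorelSpace G'] {μ' : Measure G'} [IsProbabilityMeasure μ']
  [μ'.IsHaarMeasure] {n' : ℕ} {π' : G' →* Matrix.unitaryGroup (Fin n') ℂ}
  {x : HeightOneSpectrum (𝓞 K) → G} {x' : HeightOneSpectrum (𝓞 K) → G'}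

/-- the hypotheses -/
structure Hyp (x : HeightOneSpectrum (𝓞 K) → G) (μ : Measure G)
    (x' : HeightOneSpectrum (𝓞 K) → G') (μ' : Measure G') : Prop where
  law : Law x μ
  law' : Law x' μ'
  cont : ∀ (n n' : ℕ) (π : G →* Matrix.unitaryGroup (Fin n) ℂ)
    (π' : G' →* Matrix.unitaryGroup (Fin n') ℂ) (τ : ℝ), Continuous π → Schur π →
    Continuous π' → Schur π' → (∃ g, π g ≠ 1) → (∃ g, π' g ≠ 1) →
    ∃ Λ : ℂ → ℂ, MeromorphicAt Λ (1 + τ * I) ∧
      ∀ᶠ s in 𝓝 ((1 : ℂ) + τ * I), (1 : ℝ) < s.re → Λ s = LP π x π' x' s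
  one : ∀ (χ : G →* Matrix.unitaryGroup (Fin 1) ℂ) (χ' : G' →* Matrix.unitaryGroup (Fin 1) ℂ)
    (τ : ℝ) (Λ : ℂ → ℂ) (m : ℤ), Continuous χ → Continuous χ' → (∃ g, χ g ≠ 1) →
    (∃ g, χ' g ≠ 1) → MeromorphicAt Λ (1 + τ * I) →
    (∀ᶠ s in 𝓝 ((1 : ℂ) + τ * I), (1 : ℝ) < s.re → Λ s = LP χ x χ' x' s) →
    meromorphicOrderAt Λ (1 + τ * I) = m → (τ ≠ 0 → m = 0) ∧ m ≤ 0

variable {U : Ultrafilter ℝ} (hU : (U : Filter ℝ) ≤ 𝓝[>] 0)

include hU in
theorem M_order {τ : ℝ} {m : ℤ} (h : Tendsto (sz π x π' x' τ) (𝓝[>] 0) (𝓝 (-(m : ℝ)))) :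
    (M (nm K) U fun v => (tc π x 0 v * tc π' x' τ v).re) = -(m : ℝ) := by
  have hN := sysF K
  have h1 := M_lim hN hU ((bc_tc (π := π) x 0).mul (bc_tc (π := π') x' τ)).re
  have h2 := ((size_LP π x π' x' τ).2.add h).mono_left hU
  rw [zero_add] at h2
  refine tendsto_nhds_unique h1 (h2.congr fun ε => ?_)
  unfold sz
  ring

theorem not_same_of_ne (hc : Continuous π) (hc' : Continuous π') (h : n ≠ n') :
    ¬ Same π μ π' μ' := fun hs =>
  h (le_antisymm (dim_le (μ := μ') (μ' := μ) hc' hc fun k => (hs k).symm)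
    (dim_le (μ := μ) (μ' := μ') hc hc' hs))

/-- constants -/
theorem mn_const (c : ℂ) : Tendsto (mn fun _ : HeightOneSpectrum (𝓞 K) => c) atTop (𝓝 c) := by
  refine tendsto_const_nhds.congr' ?_
  filter_upwards [card_ev (K := K)] with N hN
  unfold mn
  rw [Finset.sum_const, Complex.real_smul, nsmul_eq_mul]
  push_cast
  have hN' : ((upto K N).card : ℂ) ≠ 0 := by exact_mod_cast hN
  field_simp

include hU in
/-- mean values at positive height -/
theorem M_one_height (k : ℕ) {τ : ℝ} (hτ : τ ≠ 0) :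
    (M (nm K) U fun v => ((k : ℂ) * ((nm K v : ℕ) : ℂ) ^ (-(τ * I))).re) = 0 := by
  have h3 := mean_edge (g := fun _ : HeightOneSpectrum (𝓞 K) => (k : ℂ)) (B := k)
    (fun v => by simp) (k : ℝ) (by
      have := mn_tendsto (mn_const (K := K) (k : ℂ))
      simpa using this) τ
  rw [if_neg hτ] at h3
  exact M_of_tendsto hU h3

include hU in
/-- one-dimensional representations against irreducible ones at positive height -/
theorem M_dim_one (H : Hyp x μ x' μ') {D : G →* Matrix.unitaryGroup (Fin 1) ℂ} {k : ℕ}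
    {ρ : G' →* Matrix.unitaryGroup (Fin k) ℂ} (hD : Continuous D) (hρ : Continuous ρ)
    (hs : Schur ρ) {τ : ℝ} (hτ : τ ≠ 0) :
    (M (nm K) U fun v => (chi D (x v) * chi ρ (x' v) *
      ((nm K v : ℕ) : ℂ) ^ (-(τ * I : ℂ))).re) = 0 := by
  by_cases h1 : ∃ g, D g ≠ 1
  · by_cases h2 : ∃ g, ρ g ≠ 1
    · obtain ⟨Λ, h3, h4⟩ := H.cont 1 k D ρ τ hD (schur_one D) hρ hs h1 h2
      obtain ⟨m, h5, h6⟩ := order_LP h3 h4
      have h7 : m = 0 := by
        by_cases hk : 1 = k
        · subst hk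
          exact (H.one D ρ τ Λ m hD hρ h1 h2 h3 h4 h5).1 hτ
        · exact pair_zero H.law H.law' hD (schur_one D) hρ hs (not_same_of_ne hD hρ hk) h6
      have h8 := M_order hU h6
      rw [h7] at h8
      simp only [Int.cast_zero, neg_zero] at h8
      rw [← h8]
      congr 1
      funext v
      unfold tc
      simp only [Complex.ofReal_zero, zero_mul, neg_zero, Complex.cpow_zero, mul_one]
      rw [mul_assoc]
    · push Not at h2
      have h3 := law_c H.law (cont_chi hD) (fun g h => chi_cls D g h)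
      rw [int_chi hD (schur_one D) h1] at h3
      have h4 := h3.const_mul (k : ℂ)
      rw [mul_zero] at h4
      have h5 := M_height hU (g := fun v => (k : ℂ) * chi D (x v))
        ((Bc.const _).mul ⟨1, fun v => by simpa using norm_chi D (x v)⟩)
        (h4.congr fun N => by rw [← mn_mul]) τ
      rw [← h5]
      congr 1
      funext v
      rw [chi_triv h2]
      ring_nf
  · push Not at h1
    by_cases h2 : ∃ g, ρ g ≠ 1
    · have h3 := law_c H.law' (cont_chi hρ) (fun g h => chi_cls ρ g h)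
      rw [int_chi hρ hs h2] at h3
      have h5 := M_height hU (g := fun v => chi ρ (x' v)) ⟨k, fun v => norm_chi ρ (x' v)⟩ h3 τ
      rw [← h5]
      congr 1
      funext v
      rw [chi_triv h1]
      simp
    · push Not at h2
      have h5 := M_one_height (K := K) hU k hτ
      rw [← h5]
      congr 1
      funext v
      rw [chi_triv h1, chi_triv h2]
      simp

theorem pow_sub_le (B : ℝ) (hB : 0 ≤ B) (k : ℕ) : ∃ C : ℝ, 0 ≤ C ∧ ∀ a b : ℂ, ‖a‖ ≤ B → ‖b‖ ≤ B →
    ‖a ^ k - b ^ k‖ ≤ C * ‖a - b‖ := by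
  induction k with
  | zero => exact ⟨0, le_rfl, fun a b _ _ => by simp⟩
  | succ k ih =>
    obtain ⟨C, hC0, hC⟩ := ih
    refine ⟨B ^ k + C * B, by positivity, fun a b ha hb => ?_⟩
    have h1 : a ^ (k + 1) - b ^ (k + 1) = a ^ k * (a - b) + (a ^ k - b ^ k) * b := by ring
    rw [h1]
    refine (norm_add_le _ _).trans ?_
    rw [norm_mul, norm_mul, norm_pow]
    have h2 : ‖a‖ ^ k * ‖a - b‖ ≤ B ^ k * ‖a - b‖ :=
      mul_le_mul_of_nonneg_right (pow_le_pow_left₀ (norm_nonneg _) ha k) (norm_nonneg _)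
    have h3 : ‖a ^ k - b ^ k‖ * ‖b‖ ≤ (C * ‖a - b‖) * B :=
      mul_le_mul (hC a b ha hb) hb (norm_nonneg _) (by positivity)
    linarith [h2, h3, show (C * ‖a - b‖) * B = C * B * ‖a - b‖ by ring,
      show (B ^ k + C * B) * ‖a - b‖ = B ^ k * ‖a - b‖ + C * B * ‖a - b‖ by ring]

theorem decN_one {H : Type} [Group H] [TopologicalSpace H] : DecN fun _ : H => (1 : ℂ) := by
  refine ⟨Unit, inferInstance, fun _ => 1, fun _ => 1, fun _ =>
    ⟨continuous_const, schur_one _, one_ne_zero⟩, fun g => ?_⟩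
  simp only [Finset.univ_unique, Finset.sum_singleton]
  unfold chi
  simp

theorem norm_chi_cj_dt (π : G →* Matrix.unitaryGroup (Fin n) ℂ) (g : G) :
    ‖chi (cj (dt π)) g‖ ≤ 1 := by simpa using norm_chi (cj (dt π)) g

/-- **No zeros and poles at positive height.** -/
theorem order_height (H : Hyp x μ x' μ') (hc : Continuous π) (hs : Schur π)
    (hc' : Continuous π') (hs' : Schur π') (hnt : ∃ g, π g ≠ 1) (hnt' : ∃ g, π' g ≠ 1)
    {τ : ℝ} (hτ : τ ≠ 0) {Λ : ℂ → ℂ} {m : ℤ} (h3 : MeromorphicAt Λ (1 + τ * I))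
    (h4 : ∀ᶠ s in 𝓝 ((1 : ℂ) + τ * I), (1 : ℝ) < s.re → Λ s = LP π x π' x' s)
    (h5 : meromorphicOrderAt Λ (1 + τ * I) = m) : m = 0 := by
  by_contra hm
  have h6 : Tendsto (sz π x π' x' τ) (𝓝[>] 0) (𝓝 (-(m : ℝ))) := by
    obtain ⟨m', h6, h7⟩ := order_LP h3 h4
    rw [h5] at h6
    have : m = m' := by exact_mod_cast h6
    rwa [this]
  have h7 := pair_rigid H.law H.law' hc hs hc' hs' h6 hm
  have hdim : n = n' := by
    by_contra hne
    exact not_same_of_ne hc hc' hne h7.2.1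
  subst hdim
  have hn0 : n ≠ 0 := ne_zero_of_nt hnt
  rcases Nat.lt_or_ge n 2 with hn | hn
  · have hn1 : n = 1 := by omega
    subst hn1
    exact hm ((H.one π π' τ Λ m hc hc' hnt hnt' h3 h4 h5).1 hτ)
  obtain ⟨U, hU⟩ := Ultrafilter.exists_le (𝓝[>] (0 : ℝ))
  have hN := sysF K
  obtain ⟨r, k1, k2, k3⟩ := pair_lim H.law H.law' hc hs hc' hs' τ hU
  have hr : r = -(m : ℝ) := tendsto_nhds_unique k1 (h6.mono_left hU)
  have habs : |r| = 1 := by
    rw [hr, abs_neg]
    exact_mod_cast h7.1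
  have hr2 : 1 ≤ r ^ 2 := by
    rw [← sq_abs, habs]
    norm_num
  have k4 := (k3 hr2).2.1
  set a : HeightOneSpectrum (𝓞 K) → ℂ := tc π x 0 with ha
  set b : HeightOneSpectrum (𝓞 K) → ℂ := tc π' x' τ with hb
  have hba : Bc a := bc_tc x 0
  have hbb : Bc b := bc_tc x' τ
  set e : HeightOneSpectrum (𝓞 K) → ℂ := fun v => chi (cj (dt π)) (x v) with he
  have hbe : Bc e := ⟨1, fun v => norm_chi_cj_dt π _⟩
  have haC : ∀ v, ‖a v‖ ≤ n := fun v => by
    rw [ha, norm_tc]
    exact norm_chi π _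
  have hbC : ∀ v, ‖(r : ℂ) * conj (b v)‖ ≤ n := fun v => by
    rw [norm_mul, Complex.norm_real, Real.norm_eq_abs, habs, one_mul, Complex.norm_conj, hb,
      norm_tc]
    exact norm_chi π' _
  have hBp : ∀ {t : HeightOneSpectrum (𝓞 K) → ℂ}, (∀ v, ‖t v‖ ≤ n) → Bc fun v => t v ^ n := by
    intro t ht
    refine ⟨(n : ℝ) ^ n, fun v => ?_⟩
    rw [norm_pow]
    exact pow_le_pow_left₀ (norm_nonneg _) (ht v) n
  have hbf : Bc fun v => e v * a v ^ n := hbe.mul (hBp haC)
  have hbg : Bc fun v => e v * ((r : ℂ) * conj (b v)) ^ n := hbe.mul (hBp hbC)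
  -- the mean value with the determinant
  obtain ⟨c, hc0, hcI⟩ := int_pow_det (μ := μ) hc
  have hMf : (M (nm K) U fun v => (e v * a v ^ n).re) = c := by
    refine M_of_mn hU hbf.re ?_
    have h8 := law_c H.law (f := fun g => chi (cj (dt π)) g * chi π g ^ n)
      ((cont_chi (cont_cj (cont_dt hc))).mul ((cont_chi hc).pow n))
      (fun g h => by rw [chi_cls, chi_cls])
    rw [hcI] at h8
    have h9 := (Complex.continuous_re.tendsto _).comp h8
    rw [Complex.ofReal_re] at h9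
    refine h9.congr fun N => ?_
    simp only [Function.comp]
    rw [re_mn]
    congr 1
    funext v
    rw [he, ha]
    unfold tc
    simp only [Complex.ofReal_zero, zero_mul, neg_zero, Complex.cpow_zero, mul_one]
  -- the two mean values agree
  have hMfg : (M (nm K) U fun v => (e v * a v ^ n).re) =
      M (nm K) U fun v => (e v * ((r : ℂ) * conj (b v)) ^ n).re := by
    obtain ⟨C, hC0, hC⟩ := pow_sub_le (n : ℝ) (Nat.cast_nonneg n) n
    have hdf : Bc (df r a b) := Bc.df hba hbb r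
    have h8 := M_zero_of_sq hN hU hdf.norm k4
    have h9 : (M (nm K) U fun v => C * ‖df r a b v‖) = 0 := by
      rw [M_const_mul hN hU hdf.norm, h8, mul_zero]
    have h10 := M_zero_of_le hN hU (hbf.re.sub hbg.re).abs (hdf.norm.const_mul C)
      (fun v => abs_nonneg _) (fun v => ?_) h9
    · have h11 := M_mono hN hU (hbf.re.sub hbg.re) (hbf.re.sub hbg.re).abs fun v => le_abs_self _
      have h12 := M_mono hN hU (hbf.re.sub hbg.re).neg (hbf.re.sub hbg.re).abs
        fun v => neg_le_abs _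
      rw [h10] at h11 h12
      rw [M_neg hN hU (hbf.re.sub hbg.re)] at h12
      rw [M_sub hN hU hbf.re hbg.re] at h11 h12
      linarith
    · rw [← Complex.sub_re, ← mul_sub]
      refine (Complex.abs_re_le_norm _).trans ?_
      rw [norm_mul]
      have h13 := hC (a v) ((r : ℂ) * conj (b v)) (haC v) (hbC v)
      have h14 : ‖e v‖ ≤ 1 := norm_chi_cj_dt π _
      calc ‖e v‖ * ‖a v ^ n - ((r : ℂ) * conj (b v)) ^ n‖ ≤
          1 * ‖a v ^ n - ((r : ℂ) * conj (b v)) ^ n‖ :=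
            mul_le_mul_of_nonneg_right h14 (norm_nonneg _)
        _ ≤ _ := by rw [one_mul]; exact h13
  -- the second one vanishes
  have hτ' : -(n * τ) ≠ 0 := neg_ne_zero.2 (mul_ne_zero (Nat.cast_ne_zero.2 hn0) hτ)
  obtain ⟨J, _, d, ρ, q1, q2⟩ := (decN_one (H := G')).mul_pow (cont_cj hc') n
  have hcpow : ∀ v : HeightOneSpectrum (𝓞 K), conj (((nm K v : ℕ) : ℂ) ^ (-(τ * I : ℂ))) ^ n =
      ((nm K v : ℕ) : ℂ) ^ (-((-(n * τ) : ℝ) * I : ℂ)) := by
    intro v
    have h8 : ((nm K v : ℕ) : ℂ).arg ≠ Real.pi := by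
      rw [Complex.natCast_arg]
      exact Real.pi_ne_zero.symm
    have h9 := Complex.cpow_conj ((nm K v : ℕ) : ℂ) (-(τ * I : ℂ)) h8
    rw [Complex.conj_natCast] at h9
    rw [← h9, ← Complex.cpow_nat_mul]
    congr 1
    rw [map_neg, map_mul, Complex.conj_ofReal, Complex.conj_I]
    push_cast
    ring
  have hMg : (M (nm K) U fun v => (e v * ((r : ℂ) * conj (b v)) ^ n).re) = 0 := by
    have e1 : (fun v => (e v * ((r : ℂ) * conj (b v)) ^ n).re) = fun v => ∑ j,
        r ^ n * (chi (cj (dt π)) (x v) * chi (ρ j) (x' v) *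
          ((nm K v : ℕ) : ℂ) ^ (-((-(n * τ) : ℝ) * I : ℂ))).re := by
      funext v
      have h8 : e v * ((r : ℂ) * conj (b v)) ^ n = ∑ j, ((r ^ n : ℝ) : ℂ) *
          (chi (cj (dt π)) (x v) * chi (ρ j) (x' v) *
          ((nm K v : ℕ) : ℂ) ^ (-((-(n * τ) : ℝ) * I : ℂ))) := by
        rw [← hcpow v, ← Finset.mul_sum, ← Finset.sum_mul, ← Finset.mul_sum, ← q2 (x' v), hb, he]
        unfold tc
        rw [map_mul, mul_pow, mul_pow]
        simp only
        rw [chi_cj π' (x' v)]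
        push_cast
        ring
      rw [h8, Complex.re_sum]
      refine Finset.sum_congr rfl fun j _ => ?_
      rw [Complex.re_ofReal_mul]
    have hbj : ∀ j, Bc fun v => chi (cj (dt π)) (x v) * chi (ρ j) (x' v) *
          ((nm K v : ℕ) : ℂ) ^ (-((-(n * τ) : ℝ) * I : ℂ)) := fun j =>
      bc_tw (hbe.mul ⟨d j, fun v => norm_chi (ρ j) _⟩) _
    rw [e1, M_sum hN hU Finset.univ fun j _ => (hbj j).re.const_mul _]
    refine Finset.sum_eq_zero fun j _ => ?_
    rw [M_const_mul hN hU (hbj j).re,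
      M_dim_one hU H (cont_cj (cont_dt hc)) (q1 j).1 (q1 j).2.1 hτ', mul_zero]
  rw [hMfg, hMg] at hMf
  exact hc0.ne hMf

end

end Pool.Agent.V1142.SC.Gou
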