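import Pool.Agent.V1142.SC.Gou4

set_option autoImplicit false
set_option linter.unusedSectionVars false

/-!
# The correlations of two families
-/

namespace Pool.Agent.V1142.SC.Gou

open Complex Filter Topology ComplexConjugate MeasureTheory NumberField IsDedekindDomain
  Pool.Agent.TH553.ST Pool.Agent.TH553.RS Pool.Agent.W540.BE Pool.Agent.V1142.SC.Many

section

variable {K : Type} [Field K] [NumberField K]

theorem mn_add (f g : HeightOneSpectrum (𝓞 K) → ℂ) (N : ℕ) :
    mn (fun v => f v + g v) N = mn f N + mn g N := by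
  unfold mn
  rw [Finset.sum_add_distrib, smul_add]

theorem mn_sub (f g : HeightOneSpectrum (𝓞 K) → ℂ) (N : ℕ) :
    mn (fun v => f v - g v) N = mn f N - mn g N := by
  unfold mn
  rw [Finset.sum_sub_distrib, smul_sub]

theorem mn_conj (f : HeightOneSpectrum (𝓞 K) → ℂ) (N : ℕ) :
    mn (fun v => conj (f v)) N = conj (mn f N) := by
  unfold mn
  rw [← map_sum, Complex.real_smul, Complex.real_smul, map_mul, Complex.conj_ofReal]

/-- Cauchy-Schwarz for the averages -/
theorem mn_small {f g h : HeightOneSpectrum (𝓞 K) → ℂ} {B : ℝ} (hB : 0 ≤ B) (hh : ∀ v, ‖h v‖ ≤ B)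
    (hfg : Tendsto (mn fun v => ‖f v - g v‖ ^ 2) atTop (𝓝 (0 : ℝ))) {c : ℂ}
    (hg : Tendsto (mn fun v => h v * g v) atTop (𝓝 c)) :
    Tendsto (mn fun v => h v * f v) atTop (𝓝 c) := by
  have h1 : ∀ N, ‖mn (fun v => h v * f v) N - mn (fun v => h v * g v) N‖ ≤
      B * Real.sqrt (mn (fun v => ‖f v - g v‖ ^ 2) N) := by
    intro N
    rw [← mn_sub]
    unfold mn
    rw [Complex.real_smul, norm_mul]
    set n : ℝ := ((upto K N).card : ℝ) with hn
    have hn0 : 0 ≤ n := Nat.cast_nonneg _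
    have e1 : ‖((n⁻¹ : ℝ) : ℂ)‖ = n⁻¹ := by
      rw [Complex.norm_real, Real.norm_of_nonneg (inv_nonneg.2 hn0)]
    rw [e1]
    have h2 : ‖∑ v ∈ upto K N, (h v * f v - h v * g v)‖ ≤ B * ∑ v ∈ upto K N, ‖f v - g v‖ := by
      rw [Finset.mul_sum]
      refine (norm_sum_le _ _).trans (Finset.sum_le_sum fun v _ => ?_)
      rw [← mul_sub, norm_mul]
      exact mul_le_mul_of_nonneg_right (hh v) (norm_nonneg _)
    have h3 : (∑ v ∈ upto K N, ‖f v - g v‖) ^ 2 ≤ n * ∑ v ∈ upto K N, ‖f v - g v‖ ^ 2 :=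
      sq_sum_le_card_mul_sum_sq
    have h4 : n⁻¹ * ∑ v ∈ upto K N, ‖f v - g v‖ ≤
        Real.sqrt (n⁻¹ * ∑ v ∈ upto K N, ‖f v - g v‖ ^ 2) := by
      refine Real.le_sqrt_of_sq_le ?_
      rcases hn0.eq_or_lt with h0 | h0
      · rw [← h0]
        simp
      · rw [mul_pow, sq (n⁻¹), mul_assoc]
        refine mul_le_mul_of_nonneg_left ?_ (inv_nonneg.2 hn0)
        calc n⁻¹ * (∑ v ∈ upto K N, ‖f v - g v‖) ^ 2 ≤
            n⁻¹ * (n * ∑ v ∈ upto K N, ‖f v - g v‖ ^ 2) :=
              mul_le_mul_of_nonneg_left h3 (inv_nonneg.2 hn0)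
          _ = _ := by
            rw [← mul_assoc, inv_mul_cancel₀ h0.ne', one_mul]
    calc n⁻¹ * ‖∑ v ∈ upto K N, (h v * f v - h v * g v)‖ ≤
        n⁻¹ * (B * ∑ v ∈ upto K N, ‖f v - g v‖) :=
          mul_le_mul_of_nonneg_left h2 (inv_nonneg.2 hn0)
      _ = B * (n⁻¹ * ∑ v ∈ upto K N, ‖f v - g v‖) := by ring
      _ ≤ B * Real.sqrt (n⁻¹ * ∑ v ∈ upto K N, ‖f v - g v‖ ^ 2) :=
          mul_le_mul_of_nonneg_left h4 hB
      _ = _ := by
        congr 2
  have h2 : Tendsto (fun N => B * Real.sqrt (mn (fun v => ‖f v - g v‖ ^ 2) N)) atTop (𝓝 0) := by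
    have h3 := ((Real.continuous_sqrt.tendsto _).comp hfg).const_mul B
    simpa using h3
  have h3 : Tendsto (fun N => mn (fun v => h v * f v) N - mn (fun v => h v * g v) N) atTop (𝓝 0) :=
    squeeze_zero_norm h1 h2
  have h4 := h3.add hg
  rw [zero_add] at h4
  exact h4.congr fun N => by ring

end

section

variable {K : Type} [Field K] [NumberField K]
variable {G : Type} [Group G] [TopologicalSpace G] [IsTopologicalGroup G] [CompactSpace G]
  [T2Space G] [MeasurableSpace G] [BorelSpace G] {μ : Measure G} [IsProbabilityMeasure μ]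
  [μ.IsHaarMeasure] {n : ℕ} {π : G →* Matrix.unitaryGroup (Fin n) ℂ}
variable {G' : Type} [Group G'] [TopologicalSpace G'] [IsTopologicalGroup G'] [CompactSpace G']
  [T2Space G'] [MeasurableSpace G'] [BorelSpace G'] {μ' : Measure G'} [IsProbabilityMeasure μ']
  [μ'.IsHaarMeasure] {n' : ℕ} {π' : G' →* Matrix.unitaryGroup (Fin n') ℂ}
  {x : HeightOneSpectrum (𝓞 K) → G} {x' : HeightOneSpectrum (𝓞 K) → G'}

/-- a trivial irreducible representation has dimension one -/
theorem dim_triv (hc : Continuous π) (hs : Schur π) (hn : n ≠ 0) (h : ∀ g, π g = 1) : n = 1 := by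
  let _ : MeasurableSpace G := borel G
  have _ : BorelSpace G := ⟨rfl⟩
  set ν : Measure G := Measure.haarMeasure ⊤ with hν
  have hν1 : IsProbabilityMeasure ν := ⟨by
    rw [hν]
    exact Measure.haarMeasure_self⟩
  have h1 := int_sq (μ := ν) hc hs hn
  simp only [chi_triv h, Complex.norm_natCast] at h1
  rw [integral_const, probReal_univ, one_smul] at h1
  have h2 : (n : ℝ) = 1 := by
    have h9 : (0 : ℝ) ≤ n := Nat.cast_nonneg n
    nlinarith
  exact_mod_cast h2

/-- the average of a product of characters -/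
theorem corr_nt (H : Hyp x μ x' μ') (hc : Continuous π) (hs : Schur π)
    (hc' : Continuous π') (hs' : Schur π') (hnt : ∃ g, π g ≠ 1) (hnt' : ∃ g, π' g ≠ 1) :
    ∃ c : ℤ, (c = 0 ∨ (c = 1 ∨ c = -1) ∧ n = n' ∧ (n = 1 → c = 1)) ∧
      Tendsto (mn fun v => chi π (x v) * chi π' (x' v)) atTop (𝓝 (c : ℂ)) := by
  have key : ∀ τ : ℝ, ∃ m : ℤ, ∃ Λ : ℂ → ℂ, MeromorphicAt Λ (1 + τ * I) ∧
      meromorphicOrderAt Λ (1 + τ * I) = m ∧
      ∀ᶠ s in 𝓝 ((1 : ℂ) + τ * I), (1 : ℝ) < s.re → Λ s = LP π x π' x' s := by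
    intro τ
    obtain ⟨Λ, h1, h2⟩ := H.cont n n' π π' τ hc hs hc' hs' hnt hnt'
    obtain ⟨m, h3, -⟩ := order_LP h1 h2
    exact ⟨m, Λ, h1, h3, h2⟩
  choose m hm using key
  have h0 : ∀ τ, τ ≠ 0 → m τ = 0 := by
    intro τ hτ
    obtain ⟨Λ, h1, h2, h3⟩ := hm τ
    exact order_height H hc hs hc' hs' hnt hnt' hτ h1 h3 h2
  obtain ⟨α, h1, h2, h3⟩ := exists_al π x π' x'
  have h4 := taub' h1 (L := LP π x π' x') (fun s _ => by
    unfold LP
    exact tprod_congr fun v => by rw [h3]) m hm h0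
  refine ⟨-(m 0), ?_, ?_⟩
  · by_cases hm0 : m 0 = 0
    · left
      rw [hm0, neg_zero]
    · right
      obtain ⟨Λ, k1, k2, k3⟩ := hm 0
      obtain ⟨m', k4, k5⟩ := order_LP k1 k3
      rw [k2] at k4
      have hmm : m 0 = m' := by exact_mod_cast k4
      rw [← hmm] at k5
      obtain ⟨k6, k7, -⟩ := pair_rigid H.law H.law' hc hs hc' hs' k5 hm0
      have hdim : n = n' := by
        by_contra hne
        exact not_same_of_ne hc hc' hne k7
      refine ⟨?_, hdim, fun hn1 => ?_⟩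
      · rcases abs_cases (m 0) with ⟨h, -⟩ | ⟨h, -⟩
        · right; omega
        · left; omega
      · subst hdim
        subst hn1
        have k8 := (H.one π π' 0 Λ (m 0) hc hc' hnt hnt' k1 k3 k2).2
        rcases abs_cases (m 0) with ⟨h, -⟩ | ⟨h, -⟩ <;> omega
  · push_cast
    refine h4.congr fun N => ?_
    congr 1
    funext v
    exact h2 v

/-- the correlation of two irreducible characters -/
theorem corr (H : Hyp x μ x' μ') (hc : Continuous π) (hs : Schur π) (hn : n ≠ 0)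
    (hc' : Continuous π') (hs' : Schur π') (hn' : n' ≠ 0) :
    ∃ c : ℤ, (c = 0 ∨ (c = 1 ∨ c = -1) ∧ n = n' ∧ (n = 1 → c = 1)) ∧
      Tendsto (mn fun v => chi π (x v) * conj (chi π' (x' v))) atTop (𝓝 (c : ℂ)) := by
  have hcc := cont_cj hc'
  have hsc := schur_cj hs'
  have e1 : (fun v => chi π (x v) * conj (chi π' (x' v))) =
      fun v => chi π (x v) * chi (cj π') (x' v) := by
    funext v
    rw [chi_cj]
  rw [e1]
  by_cases h1 : ∃ g, π g ≠ 1
  · by_cases h2 : ∃ g, cj π' g ≠ 1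
    · exact corr_nt H hc hs hcc hsc h1 h2
    · push Not at h2
      refine ⟨0, Or.inl rfl, ?_⟩
      have h3 := law_c H.law (cont_chi hc) (fun g h => chi_cls π g h)
      rw [int_chi hc hs h1] at h3
      have h4 := h3.mul_const (n' : ℂ)
      rw [zero_mul] at h4
      rw [Int.cast_zero]
      refine h4.congr fun N => ?_
      have e2 : (fun v => chi π (x v) * chi (cj π') (x' v)) =
          fun v => (n' : ℂ) * chi π (x v) := by
        funext v
        rw [chi_triv h2, mul_comm]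
      rw [e2, mn_mul, mul_comm]
  · push Not at h1
    have hn1 := dim_triv hc hs hn h1
    by_cases h2 : ∃ g, cj π' g ≠ 1
    · refine ⟨0, Or.inl rfl, ?_⟩
      have h3 := law_c H.law' (cont_chi hcc) (fun g h => chi_cls (cj π') g h)
      rw [int_chi hcc hsc h2] at h3
      rw [Int.cast_zero]
      refine h3.congr fun N => ?_
      congr 1
      funext v
      rw [chi_triv h1, hn1]
      simp
    · push Not at h2
      have hn2 := dim_triv hcc hsc hn' h2
      refine ⟨1, Or.inr ⟨Or.inl rfl, by rw [hn1, hn2], fun _ => rfl⟩, ?_⟩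
      rw [Int.cast_one]
      refine (mn_const (K := K) (1 : ℂ)).congr fun N => ?_
      congr 1
      funext v
      rw [chi_triv h1, chi_triv h2, hn1, hn2]
      simp

/-- matched representations -/
def Mat (x : HeightOneSpectrum (𝓞 K) → G) (π : G →* Matrix.unitaryGroup (Fin n) ℂ)
    (x' : HeightOneSpectrum (𝓞 K) → G') (π' : G' →* Matrix.unitaryGroup (Fin n') ℂ) (r : ℝ) :
    Prop :=
  Tendsto (mn fun v => ‖chi π (x v) - r * chi π' (x' v)‖ ^ 2) atTop (𝓝 (0 : ℝ))

theorem mn_sq (h : Law x μ) (hc : Continuous π) (hs : Schur π) (hn : n ≠ 0) :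
    Tendsto (mn fun v => ‖chi π (x v)‖ ^ 2) atTop (𝓝 (1 : ℝ)) := by
  have h1 := h (fun g => ‖chi π g‖ ^ 2) ((cont_chi hc).norm.pow 2) fun g h => by rw [chi_cls]
  rwa [int_sq hc hs hn] at h1

/-- the mean square distance -/
theorem mn_dist (H : Hyp x μ x' μ') (hc : Continuous π) (hs : Schur π) (hn : n ≠ 0)
    (hc' : Continuous π') (hs' : Schur π') (hn' : n' ≠ 0) {c : ℝ}
    (h : Tendsto (mn fun v => chi π (x v) * conj (chi π' (x' v))) atTop (𝓝 (c : ℂ))) (r : ℝ) :
    Tendsto (mn fun v => ‖chi π (x v) - r * chi π' (x' v)‖ ^ 2) atTop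
      (𝓝 (1 - 2 * r * c + r ^ 2)) := by
  have h1 := mn_sq H.law hc hs hn
  have h2 := mn_sq H.law' hc' hs' hn'
  have h3 := (Complex.continuous_re.tendsto _).comp h
  rw [Complex.ofReal_re] at h3
  have h4 := (h1.sub (h3.const_mul (2 * r))).add (h2.const_mul (r ^ 2))
  rw [mul_one] at h4
  refine h4.congr fun N => ?_
  simp only [Function.comp]
  rw [re_mn]
  unfold mn
  simp only [smul_eq_mul]
  have key : ∑ v ∈ upto K N, ‖chi π (x v) - r * chi π' (x' v)‖ ^ 2 =
      ∑ v ∈ upto K N, ‖chi π (x v)‖ ^ 2 -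
        2 * r * ∑ v ∈ upto K N, (chi π (x v) * conj (chi π' (x' v))).re +
        r ^ 2 * ∑ v ∈ upto K N, ‖chi π' (x' v)‖ ^ 2 := by
    rw [Finset.mul_sum, Finset.mul_sum, ← Finset.sum_sub_distrib, ← Finset.sum_add_distrib]
    refine Finset.sum_congr rfl fun v _ => ?_
    rw [Complex.sq_norm, Complex.sq_norm, Complex.sq_norm, Complex.normSq_apply,
      Complex.normSq_apply, Complex.normSq_apply]
    simp only [Complex.sub_re, Complex.sub_im, Complex.mul_re, Complex.mul_im, Complex.ofReal_re,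
      Complex.ofReal_im, Complex.conj_re, Complex.conj_im]
    ring
  rw [key]
  ring

/-- nonzero correlations are matches -/
theorem mat_of_corr (H : Hyp x μ x' μ') (hc : Continuous π) (hs : Schur π) (hn : n ≠ 0)
    (hc' : Continuous π') (hs' : Schur π') (hn' : n' ≠ 0) {c : ℤ} (hc1 : c = 1 ∨ c = -1)
    (h : Tendsto (mn fun v => chi π (x v) * conj (chi π' (x' v))) atTop (𝓝 (c : ℂ))) :
    Mat x π x' π' c := by
  have h1 := mn_dist H hc hs hn hc' hs' hn' (c := (c : ℝ)) (by push_cast; exact h) (c : ℝ)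
  have h2 : (1 : ℝ) - 2 * c * c + (c : ℝ) ^ 2 = 0 := by
    rcases hc1 with rfl | rfl <;> norm_num
  rw [h2] at h1
  exact h1

/-- matches have correlations -/
theorem corr_of_mat (H : Hyp x μ x' μ') (hc : Continuous π) (hs : Schur π) (hn : n ≠ 0)
    (hc' : Continuous π') (hs' : Schur π') (hn' : n' ≠ 0) {r : ℝ} (hr : r = 1 ∨ r = -1)
    (h : Mat x π x' π' r) :
    Tendsto (mn fun v => chi π (x v) * conj (chi π' (x' v))) atTop (𝓝 (r : ℂ)) ∧ n = n' ∧
      (n = 1 → r = 1) := by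
  obtain ⟨c, h1, h2⟩ := corr H hc hs hn hc' hs' hn'
  have h3 := mn_dist H hc hs hn hc' hs' hn' (c := (c : ℝ)) (by push_cast; exact h2) r
  have h4 := tendsto_nhds_unique h h3
  have h5 : r * c = 1 := by
    rcases hr with rfl | rfl
    · linarith
    · linarith
  have hrc : (c : ℝ) = r := by
    rcases hr with rfl | rfl
    · linarith
    · linarith
  have hc0 : c ≠ 0 := by
    rintro rfl
    simp at h5
  rcases h1 with h1 | ⟨-, h7, h8⟩
  · exact absurd h1 hc0
  · refine ⟨?_, h7, fun hn1 => ?_⟩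
    · rw [← hrc]
      push_cast
      exact h2
    · rw [← hrc, h8 hn1]
      norm_num

end

end Pool.Agent.V1142.SC.Gou
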