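import Pool.Agent.V1142.SC.Gou5

set_option autoImplicit false
set_option linter.unusedSectionVars false

/-!
# The common quotient of two families
-/

namespace Pool.Agent.V1142.SC.Gou

open Complex Filter Topology ComplexConjugate MeasureTheory NumberField IsDedekindDomain
  Pool.Agent.TH553.ST Pool.Agent.TH553.RS Pool.Agent.W540.BE Pool.Agent.V1142.SC.Many

section

variable {G : Type} [Group G] [TopologicalSpace G] [IsTopologicalGroup G] [CompactSpace G]
  [T2Space G] [MeasurableSpace G] [BorelSpace G] {μ : Measure G} [IsProbabilityMeasure μ]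
  [μ.IsHaarMeasure]

open Classical in
/-- the integral of irreducible characters -/
theorem int_pair {n n' : ℕ} {π : G →* Matrix.unitaryGroup (Fin n) ℂ}
    {π' : G →* Matrix.unitaryGroup (Fin n') ℂ} (hc : Continuous π) (hs : Schur π) (hn : n ≠ 0)
    (hc' : Continuous π') (hs' : Schur π') :
    ∫ g, chi π g * conj (chi π' g) ∂μ = if chi π = chi π' then 1 else 0 := by
  split_ifs with h
  · rw [← h]
    have h1 : (fun g => chi π g * conj (chi π g)) = fun g => ((‖chi π g‖ ^ 2 : ℝ) : ℂ) := by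
      funext g
      rw [Complex.mul_conj, Complex.normSq_eq_norm_sq]
    have h2 : ∫ g, ((‖chi π g‖ ^ 2 : ℝ) : ℂ) ∂μ = ((∫ g, ‖chi π g‖ ^ 2 ∂μ : ℝ) : ℂ) :=
      integral_ofReal
    rw [h1, h2, int_sq hc hs hn, Complex.ofReal_one]
  · exact int_mul_conj hc hs hc' hs' h

open Classical in
/-- multiplicities -/
theorem int_dec {J : Type} [Fintype J] {m : J → ℕ}
    {ρ : ∀ j, G →* Matrix.unitaryGroup (Fin (m j)) ℂ}
    (h1 : ∀ j, Continuous (ρ j) ∧ Schur (ρ j) ∧ m j ≠ 0) {f : G → ℂ}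
    (h2 : ∀ g, f g = ∑ j, chi (ρ j) g) {d : ℕ} {σ : G →* Matrix.unitaryGroup (Fin d) ℂ}
    (hc : Continuous σ) (hs : Schur σ) :
    ∫ g, f g * conj (chi σ g) ∂μ =
      ((Finset.univ.filter fun j => chi (ρ j) = chi σ).card : ℂ) := by
  have e : (fun g => f g * conj (chi σ g)) = fun g => ∑ j, chi (ρ j) g * conj (chi σ g) := by
    funext g
    rw [h2, Finset.sum_mul]
  have hi : ∀ j, Integrable (fun g => chi (ρ j) g * conj (chi σ g)) μ := fun j =>
    intg ((cont_chi (h1 j).1).mul (Complex.continuous_conj.comp (cont_chi hc)))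
  rw [e, integral_finsetSum _ fun j _ => hi j]
  rw [Finset.sum_congr rfl fun j _ => int_pair (h1 j).1 (h1 j).2.1 (h1 j).2.2 hc hs]
  rw [Finset.sum_ite, Finset.sum_const_zero, add_zero, Finset.sum_const, nsmul_eq_mul, mul_one]

/-- a nontrivial constituent of the tensor product with the dual -/
theorem exists_const {n : ℕ} {π : G →* Matrix.unitaryGroup (Fin n) ℂ} (hc : Continuous π)
    (hs : Schur π) (hn : 2 ≤ n) : ∃ (d : ℕ) (σ : G →* Matrix.unitaryGroup (Fin d) ℂ),
      Continuous σ ∧ Schur σ ∧ d ≠ 0 ∧ (∃ g, σ g ≠ 1) ∧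
      ∫ g, chi π g * chi (cj π) g * conj (chi σ g) ∂μ ≠ 0 := by
  classical
  obtain ⟨J, _, m, ρ, h1, h2⟩ := decN_chi_mul hc (cont_cj hc)
  have hnt : ∃ j, ∃ g, ρ j g ≠ 1 := by
    by_contra hcon
    push Not at hcon
    have h3 : ∀ j g, chi (ρ j) g = 1 := by
      intro j g
      rw [chi_triv (hcon j), dim_triv (h1 j).1 (h1 j).2.1 (h1 j).2.2 (hcon j)]
      simp
    have h4 : ∀ g, ‖chi π g‖ ^ 2 = (Fintype.card J : ℝ) := by
      intro g
      have h5 := h2 g
      simp only [h3, chi_cj] at h5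
      rw [Complex.mul_conj, Complex.normSq_eq_norm_sq, Finset.sum_const, Finset.card_univ,
        nsmul_eq_mul, mul_one] at h5
      exact_mod_cast h5
    have h6 := int_sq (μ := μ) hc hs (by omega)
    simp only [h4] at h6
    rw [integral_const, probReal_univ, one_smul] at h6
    have h7 := h4 1
    rw [h6, chi_one, Complex.norm_natCast] at h7
    have h8 : (2 : ℝ) ≤ n := by exact_mod_cast hn
    nlinarith
  obtain ⟨j, hj⟩ := hnt
  refine ⟨m j, ρ j, (h1 j).1, (h1 j).2.1, (h1 j).2.2, hj, ?_⟩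
  rw [int_dec h1 (f := fun g => chi π g * chi (cj π) g) h2 (h1 j).1 (h1 j).2.1]
  have h3 : j ∈ Finset.univ.filter fun i => chi (ρ i) = chi (ρ j) :=
    Finset.mem_filter.2 ⟨Finset.mem_univ _, rfl⟩
  exact_mod_cast (Finset.card_pos.2 ⟨j, h3⟩).ne'

end

section

variable {K : Type} [Field K] [NumberField K]

/-- limits of averages -/
theorem mn_exists {F : HeightOneSpectrum (𝓞 K) → ℂ}
    (h : ∀ ε : ℝ, 0 < ε → ∃ (F' : HeightOneSpectrum (𝓞 K) → ℂ) (c' : ℂ),
      (∀ v, ‖F v - F' v‖ ≤ ε) ∧ Tendsto (mn F') atTop (𝓝 c')) :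
    ∃ c, Tendsto (mn F) atTop (𝓝 c) := by
  refine cauchySeq_tendsto_of_complete ?_
  rw [Metric.cauchySeq_iff']
  intro ε hε
  obtain ⟨F', c', h1, h2⟩ := h (ε / 8) (by positivity)
  rw [Metric.tendsto_atTop] at h2
  obtain ⟨N, hN⟩ := h2 (ε / 8) (by positivity)
  refine ⟨N, fun k hk => ?_⟩
  have h3 := mn_sub_le h1 (by positivity) k
  have h4 := mn_sub_le h1 (by positivity) N
  have h5 := hN k hk
  have h6 := hN N le_rfl
  rw [dist_eq_norm] at h5 h6 ⊢
  have h7 : mn F k - mn F N = (mn F k - mn F' k) + (mn F' k - c') - (mn F' N - c') -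
      (mn F N - mn F' N) := by ring
  rw [h7]
  have h8 := norm_sub_le ((mn F k - mn F' k) + (mn F' k - c') - (mn F' N - c'))
    (mn F N - mn F' N)
  have h9 := norm_sub_le ((mn F k - mn F' k) + (mn F' k - c')) (mn F' N - c')
  have h10 := norm_add_le (mn F k - mn F' k) (mn F' k - c')
  linarith

variable {G : Type} [Group G] [TopologicalSpace G] [IsTopologicalGroup G] [CompactSpace G]
  [T2Space G] [MeasurableSpace G] [BorelSpace G] {μ : Measure G} [IsProbabilityMeasure μ]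
  [μ.IsHaarMeasure] {n : ℕ} {π : G →* Matrix.unitaryGroup (Fin n) ℂ}
variable {G' : Type} [Group G'] [TopologicalSpace G'] [IsTopologicalGroup G'] [CompactSpace G']
  [T2Space G'] [MeasurableSpace G'] [BorelSpace G'] {μ' : Measure G'} [IsProbabilityMeasure μ']
  [μ'.IsHaarMeasure] {n' : ℕ} {π' : G' →* Matrix.unitaryGroup (Fin n') ℂ}
  {x : HeightOneSpectrum (𝓞 K) → G} {x' : HeightOneSpectrum (𝓞 K) → G'}

theorem Mat.cj {r : ℝ} (h : Mat x π x' π' r) :
    Mat x (Pool.Agent.TH553.ST.cj π) x' (Pool.Agent.TH553.ST.cj π') r := by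
  unfold Mat at h ⊢
  refine h.congr fun N => ?_
  congr 1
  funext v
  rw [chi_cj, chi_cj]
  have h1 : conj (chi π (x v)) - (r : ℂ) * conj (chi π' (x' v)) =
      conj (chi π (x v) - r * chi π' (x' v)) := by
    rw [map_sub, map_mul, Complex.conj_ofReal]
  rw [h1, Complex.norm_conj]

/-- **Uniqueness of the match.** -/
theorem mat_unique (H : Hyp x μ x' μ') {n₂ : ℕ} {π₂ : G' →* Matrix.unitaryGroup (Fin n₂) ℂ}
    (hc' : Continuous π') (hn' : n' ≠ 0) (hc₂ : Continuous π₂) (hn₂ : n₂ ≠ 0) {r r₂ : ℝ}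
    (hr : r = 1 ∨ r = -1) (hr₂ : r₂ = 1 ∨ r₂ = -1)
    (h : Mat x π x' π' r) (h₂ : Mat x π x' π₂ r₂) : chi π' = chi π₂ ∧ r = r₂ := by
  set f : G' → ℝ := fun g => ‖(r : ℂ) * chi π' g - r₂ * chi π₂ g‖ ^ 2 with hf
  have hfc : Continuous f := ((continuous_const.mul (cont_chi hc')).sub
    (continuous_const.mul (cont_chi hc₂))).norm.pow 2
  have h1 := H.law' f hfc fun g h => by
    rw [hf]
    simp only
    rw [chi_cls, chi_cls]
  have h2 : Tendsto (mn fun v => f (x' v)) atTop (𝓝 (0 : ℝ)) := by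
    have h3 := (h.const_mul 2).add (h₂.const_mul 2)
    rw [mul_zero, add_zero] at h3
    refine squeeze_zero (fun N => ?_) (fun N => ?_) h3
    · unfold mn
      exact mul_nonneg (inv_nonneg.2 (Nat.cast_nonneg _))
        (Finset.sum_nonneg fun v _ => by positivity)
    · unfold mn
      simp only [smul_eq_mul]
      have h4 : ∑ v ∈ upto K N, f (x' v) ≤
          2 * ∑ v ∈ upto K N, ‖chi π (x v) - r * chi π' (x' v)‖ ^ 2 +
          2 * ∑ v ∈ upto K N, ‖chi π (x v) - r₂ * chi π₂ (x' v)‖ ^ 2 := by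
        rw [Finset.mul_sum, Finset.mul_sum, ← Finset.sum_add_distrib]
        refine Finset.sum_le_sum fun v _ => ?_
        rw [hf]
        simp only
        have h5 : (r : ℂ) * chi π' (x' v) - r₂ * chi π₂ (x' v) =
            (chi π (x v) - r₂ * chi π₂ (x' v)) - (chi π (x v) - r * chi π' (x' v)) := by ring
        rw [h5]
        have h6 := norm_sub_le (chi π (x v) - r₂ * chi π₂ (x' v))
          (chi π (x v) - r * chi π' (x' v))
        have h7 := norm_nonneg ((chi π (x v) - r₂ * chi π₂ (x' v)) -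
          (chi π (x v) - r * chi π' (x' v)))
        have h8 := pow_le_pow_left₀ h7 h6 2
        nlinarith [sq_nonneg (‖chi π (x v) - r₂ * chi π₂ (x' v)‖ -
          ‖chi π (x v) - r * chi π' (x' v)‖)]
      have h9 := mul_le_mul_of_nonneg_left h4
        (inv_nonneg.2 (Nat.cast_nonneg (α := ℝ) (upto K N).card))
      linarith [h9]
  have h3 : ∫ g, f g ∂μ' = 0 := tendsto_nhds_unique h1 h2
  have h4 : ∀ g, (r : ℂ) * chi π' g = r₂ * chi π₂ g := by
    intro g
    by_contra hne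
    have h5 : f g ≠ 0 := by
      rw [hf]
      simp only
      have : (r : ℂ) * chi π' g - r₂ * chi π₂ g ≠ 0 := sub_ne_zero.2 hne
      positivity
    have h6 := int_pos (μ := μ') hfc (fun g => by rw [hf]; positivity) h5
    rw [h3] at h6
    exact lt_irrefl _ h6
  have h5 := h4 1
  rw [chi_one, chi_one] at h5
  have h5' : r * n' = r₂ * n₂ := by exact_mod_cast h5
  have hp : (0 : ℝ) < n' := by exact_mod_cast Nat.pos_of_ne_zero hn'
  have hp₂ : (0 : ℝ) < n₂ := by exact_mod_cast Nat.pos_of_ne_zero hn₂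
  have hrr : r = r₂ := by
    rcases hr with rfl | rfl <;> rcases hr₂ with rfl | rfl
    · rfl
    · nlinarith
    · nlinarith
    · rfl
  refine ⟨funext fun g => ?_, hrr⟩
  have h6 := h4 g
  rw [← hrr] at h6
  have hr0 : (r : ℂ) ≠ 0 := by
    rcases hr with rfl | rfl <;> norm_num
  exact mul_left_cancel₀ hr0 h6

/-- **The matched representations are closed under tensor products and constituents.** -/
theorem closure (H : Hyp x μ x' μ') {n₁ n₂ n₁' n₂' : ℕ}
    {π₁ : G →* Matrix.unitaryGroup (Fin n₁) ℂ} {π₂ : G →* Matrix.unitaryGroup (Fin n₂) ℂ}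
    {π₁' : G' →* Matrix.unitaryGroup (Fin n₁') ℂ} {π₂' : G' →* Matrix.unitaryGroup (Fin n₂') ℂ}
    (h1 : Continuous π₁) (h2 : Continuous π₂) (h1' : Continuous π₁') (h2' : Continuous π₂')
    {r₁ r₂ : ℝ} (hr₁ : r₁ = 1 ∨ r₁ = -1) (hr₂ : r₂ = 1 ∨ r₂ = -1)
    (hm₁ : Mat x π₁ x' π₁' r₁) (hm₂ : Mat x π₂ x' π₂' r₂)
    {d : ℕ} {σ : G →* Matrix.unitaryGroup (Fin d) ℂ} (hσ : Continuous σ) (hσs : Schur σ)
    (hd : d ≠ 0) (hI : ∫ g, chi π₁ g * chi π₂ g * conj (chi σ g) ∂μ ≠ 0) :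
    ∃ (d' : ℕ) (σ' : G' →* Matrix.unitaryGroup (Fin d') ℂ), Continuous σ' ∧ Schur σ' ∧ d' ≠ 0 ∧
      Mat x σ x' σ' (r₁ * r₂) ∧
      ∫ g, chi π₁' g * chi π₂' g * conj (chi σ' g) ∂μ' =
        ∫ g, chi π₁ g * chi π₂ g * conj (chi σ g) ∂μ := by
  classical
  set I₀ : ℂ := ∫ g, chi π₁ g * chi π₂ g * conj (chi σ g) ∂μ with hI₀
  -- the average
  have a1 : Tendsto (mn fun v => (conj (chi σ (x v)) * chi π₂ (x v)) * chi π₁ (x v)) atTop
      (𝓝 I₀) := by
    have h3 := law_c H.law (f := fun g => chi π₁ g * chi π₂ g * conj (chi σ g))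
      (((cont_chi h1).mul (cont_chi h2)).mul (Complex.continuous_conj.comp (cont_chi hσ)))
      (fun g h => by rw [chi_cls, chi_cls, chi_cls])
    refine h3.congr fun N => ?_
    congr 1
    funext v
    ring
  have hsym : ∀ {k k' : ℕ} {α : G →* Matrix.unitaryGroup (Fin k) ℂ}
      {β : G' →* Matrix.unitaryGroup (Fin k') ℂ} {r : ℝ}, Mat x α x' β r →
      Tendsto (mn fun v => ‖(r : ℂ) * chi β (x' v) - chi α (x v)‖ ^ 2) atTop (𝓝 (0 : ℝ)) := by
    intro k k' α β r h
    refine h.congr fun N => ?_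
    congr 1
    funext v
    rw [norm_sub_rev]
  have a2 := mn_small (B := (d : ℝ) * n₂) (by positivity) (fun v => by
    rw [norm_mul, Complex.norm_conj]
    exact mul_le_mul (norm_chi σ _) (norm_chi π₂ _) (norm_nonneg _) (Nat.cast_nonneg _))
    (hsym hm₁) a1
  have a2' : Tendsto (mn fun v => (conj (chi σ (x v)) * ((r₁ : ℂ) * chi π₁' (x' v))) *
      chi π₂ (x v)) atTop (𝓝 I₀) := by
    refine a2.congr fun N => ?_
    congr 1
    funext v
    ring
  have hr₁n : ‖(r₁ : ℂ)‖ = 1 := by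
    rcases hr₁ with rfl | rfl <;> simp
  have a3 := mn_small (B := (d : ℝ) * n₁') (by positivity) (fun v => by
    rw [norm_mul, Complex.norm_conj, norm_mul, hr₁n, one_mul]
    exact mul_le_mul (norm_chi σ _) (norm_chi π₁' _) (norm_nonneg _) (Nat.cast_nonneg _))
    (hsym hm₂) a2'
  -- the decomposition
  obtain ⟨J, _, m, ρ, q1, q2⟩ := decN_chi_mul h1' h2'
  have hcor : ∀ j, ∃ c : ℤ, (c = 0 ∨ (c = 1 ∨ c = -1) ∧ d = m j ∧ (d = 1 → c = 1)) ∧
      Tendsto (mn fun v => chi σ (x v) * conj (chi (ρ j) (x' v))) atTop (𝓝 (c : ℂ)) :=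
    fun j => corr H hσ hσs hd (q1 j).1 (q1 j).2.1 (q1 j).2.2
  choose c hc1 hc2 using hcor
  have hc3 : ∀ j, Tendsto (mn fun v => conj (chi σ (x v)) * chi (ρ j) (x' v)) atTop
      (𝓝 (c j : ℂ)) := by
    intro j
    have h3 := (Complex.continuous_conj.tendsto _).comp (hc2 j)
    have h4 : conj ((c j : ℤ) : ℂ) = (c j : ℂ) := map_intCast (starRingEnd ℂ) (c j)
    rw [h4] at h3
    refine h3.congr fun N => ?_
    simp only [Function.comp]
    rw [← mn_conj]
    congr 1
    funext v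
    rw [map_mul, Complex.conj_conj]
  have hsum : I₀ = ((r₁ * r₂ : ℝ) : ℂ) * ∑ j, (c j : ℂ) := by
    have h3 : Tendsto (fun N => ((r₁ * r₂ : ℝ) : ℂ) *
        ∑ j, mn (fun v => conj (chi σ (x v)) * chi (ρ j) (x' v)) N) atTop
        (𝓝 (((r₁ * r₂ : ℝ) : ℂ) * ∑ j, (c j : ℂ))) :=
      (tendsto_finsetSum _ fun j _ => hc3 j).const_mul _
    refine tendsto_nhds_unique a3 (h3.congr fun N => ?_)
    rw [← mn_sum, ← mn_mul]
    congr 1
    funext v
    rw [← Finset.mul_sum, ← q2 (x' v)]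
    push_cast
    ring
  have hex : ∃ j, c j ≠ 0 := by
    by_contra hcon
    push Not at hcon
    apply hI
    rw [hsum]
    simp [hcon]
  obtain ⟨j₀, hj₀⟩ := hex
  have hcj : ∀ j, c j ≠ 0 → c j = 1 ∨ c j = -1 := by
    intro j hj
    rcases hc1 j with h | h
    · exact absurd h hj
    · exact h.1
  have hmat : ∀ j, c j ≠ 0 → Mat x σ x' (ρ j) (c j : ℝ) := fun j hj =>
    mat_of_corr H hσ hσs hd (q1 j).1 (q1 j).2.1 (q1 j).2.2 (hcj j hj) (hc2 j)
  have hreal : ∀ j, c j ≠ 0 → ((c j : ℝ) = 1 ∨ (c j : ℝ) = -1) := by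
    intro j hj
    rcases hcj j hj with h | h <;> rw [h] <;> norm_num
  have hcval : ∀ j, c j = if chi (ρ j) = chi (ρ j₀) then c j₀ else 0 := by
    intro j
    split_ifs with h
    · have h3 := hc2 j
      rw [h] at h3
      have h4 := tendsto_nhds_unique h3 (hc2 j₀)
      exact_mod_cast h4
    · by_contra hne
      exact h (mat_unique H (q1 j).1 (q1 j).2.2 (q1 j₀).1 (q1 j₀).2.2 (hreal j hne)
        (hreal j₀ hj₀) (hmat j hne) (hmat j₀ hj₀)).1
  set k : ℕ := (Finset.univ.filter fun j => chi (ρ j) = chi (ρ j₀)).card with hk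
  have hI' : ∫ g, chi π₁' g * chi π₂' g * conj (chi (ρ j₀) g) ∂μ' = (k : ℂ) :=
    int_dec q1 (f := fun g => chi π₁' g * chi π₂' g) q2 (q1 j₀).1 (q1 j₀).2.1
  have hk0 : 0 < k := by
    refine Finset.card_pos.2 ⟨j₀, Finset.mem_filter.2 ⟨Finset.mem_univ _, rfl⟩⟩
  have hsum2 : ∑ j, (c j : ℂ) = (c j₀ : ℂ) * k := by
    have h3 : ∀ j, (c j : ℂ) = if chi (ρ j) = chi (ρ j₀) then (c j₀ : ℂ) else 0 := by
      intro j
      conv_lhs => rw [hcval j]
      split_ifs <;> simp
    rw [Finset.sum_congr rfl fun j _ => h3 j, Finset.sum_ite, Finset.sum_const_zero, add_zero,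
      Finset.sum_const, nsmul_eq_mul, mul_comm]
  -- the other multiplicity
  obtain ⟨J', _, m', ρ', p1, p2⟩ := decN_chi_mul h1 h2
  set k' : ℕ := (Finset.univ.filter fun j => chi (ρ' j) = chi σ).card with hk'
  have hI'' : I₀ = (k' : ℂ) :=
    int_dec p1 (f := fun g => chi π₁ g * chi π₂ g) p2 hσ hσs
  have hfin : (k' : ℝ) = (r₁ * r₂) * (c j₀ * k) := by
    have h3 := hsum
    rw [hsum2, hI''] at h3
    exact_mod_cast h3
  have hkp : (0 : ℝ) < k := by exact_mod_cast hk0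
  have hk'p : (0 : ℝ) ≤ k' := Nat.cast_nonneg _
  have hsign : (c j₀ : ℝ) = r₁ * r₂ ∧ (k : ℝ) = k' := by
    rcases hreal j₀ hj₀ with h | h <;> rcases hr₁ with rfl | rfl <;> rcases hr₂ with rfl | rfl <;>
      rw [h] at hfin ⊢ <;> constructor <;> nlinarith
  refine ⟨m j₀, ρ j₀, (q1 j₀).1, (q1 j₀).2.1, (q1 j₀).2.2, ?_, ?_⟩
  · rw [← hsign.1]
    exact hmat j₀ hj₀
  · rw [hI', hI'']
    exact_mod_cast hsign.2

/-- **The alternative.** -/
theorem alternative (H : Hyp x μ x' μ')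
    (hno : ∀ (d d' : ℕ) (σ : G →* Matrix.unitaryGroup (Fin d) ℂ)
      (σ' : G' →* Matrix.unitaryGroup (Fin d') ℂ), Continuous σ → Schur σ → (∃ g, σ g ≠ 1) →
      Continuous σ' → Schur σ' → (∃ g, σ' g ≠ 1) → ¬ Mat x σ x' σ' 1)
    (hc : Continuous π) (hs : Schur π) (hc' : Continuous π') (hs' : Schur π')
    (hnt : ∃ g, π g ≠ 1) (hnt' : ∃ g, π' g ≠ 1) :
    Tendsto (mn fun v => chi π (x v) * chi π' (x' v)) atTop (𝓝 0) := by
  have hn := ne_zero_of_nt hnt
  have hn' := ne_zero_of_nt hnt'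
  have hcc := cont_cj hc'
  have hsc := schur_cj hs'
  obtain ⟨c, h1, h2⟩ := corr H hc hs hn hcc hsc hn'
  have e : (fun v => chi π (x v) * conj (chi (cj π') (x' v))) =
      fun v => chi π (x v) * chi π' (x' v) := by
    funext v
    rw [chi_cj, Complex.conj_conj]
  have hc0 : c = 0 := by
    by_contra hc0
    rcases h1 with h1 | ⟨h3, h4, h5⟩
    · exact hc0 h1
    have hm := mat_of_corr H hc hs hn hcc hsc hn' h3 h2
    have hcr : (c : ℝ) = 1 ∨ (c : ℝ) = -1 := by
      rcases h3 with h | h <;> rw [h] <;> norm_num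
    have hntc : ∃ g, cj π' g ≠ 1 := by
      by_contra hcon
      push Not at hcon
      obtain ⟨g, hg⟩ := hnt'
      apply hg
      apply Subtype.ext
      have h6 : (cj π' g : Matrix (Fin n') (Fin n') ℂ) = 1 := by
        rw [hcon g]
        rfl
      rw [cj_val] at h6
      ext i j
      have h7 := congrArg conj (congrFun (congrFun h6 i) j)
      simp only [Matrix.map_apply, Complex.conj_conj] at h7
      rw [h7]
      by_cases hij : i = j
      · subst hij
        simp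
      · simp [hij]
    rcases Nat.lt_or_ge n 2 with h6 | h6
    · have hn1 : n = 1 := by omega
      have h7 := h5 hn1
      rw [h7] at hm
      exact hno n n' π (cj π') hc hs hnt hcc hsc hntc (by exact_mod_cast hm)
    · obtain ⟨d, σ, k1, k2, k3, k4, k5⟩ := exists_const (μ := μ) hc hs h6
      obtain ⟨d', σ', q1, q2, q3, q4, q5⟩ := closure H hc (cont_cj hc) hcc (cont_cj hcc) hcr hcr
        hm hm.cj k1 k2 k3 k5
      have hcc1 : (c : ℝ) * c = 1 := by
        rcases hcr with h | h <;> rw [h] <;> norm_num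
      rw [hcc1] at q4
      have hnt2 : ∃ g, σ' g ≠ 1 := by
        by_contra hcon
        push Not at hcon
        have h8 := (corr_of_mat H k1 k2 k3 q1 q2 q3 (Or.inl rfl) q4).1
        have h9 := law_c H.law (cont_chi k1) (fun g h => chi_cls σ g h)
        rw [int_chi k1 k2 k4] at h9
        have hd1 := dim_triv q1 q2 q3 hcon
        have h10 : Tendsto (mn fun v => chi σ (x v) * conj (chi σ' (x' v))) atTop (𝓝 0) := by
          refine h9.congr fun N => ?_
          congr 1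
          funext v
          rw [chi_triv hcon, hd1]
          simp
        have h11 := tendsto_nhds_unique h8 h10
        norm_num at h11
      exact hno d d' σ σ' k1 k2 k4 q1 q2 hnt2 q4
  rw [hc0, e] at h2
  simpa using h2

end

end Pool.Agent.V1142.SC.Gou
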