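import Pool.Agent.V1142.SC.Gou6

set_option autoImplicit false
set_option linter.unusedSectionVars false

/-!
# The transport of decompositions and the limit distribution
-/

namespace Pool.Agent.V1142.SC.Gou

open Complex Filter Topology ComplexConjugate MeasureTheory NumberField IsDedekindDomain
  Pool.Agent.TH553.ST Pool.Agent.TH553.RS Pool.Agent.W540.BE Pool.Agent.V1142.SC.Many

section

variable {K : Type} [Field K] [NumberField K]

/-- small in mean square -/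
def Sm (f : HeightOneSpectrum (𝓞 K) → ℂ) : Prop :=
  Tendsto (mn fun v => ‖f v‖ ^ 2) atTop (𝓝 (0 : ℝ))

theorem Sm.of_le {f : HeightOneSpectrum (𝓞 K) → ℂ} {b : ℕ → ℝ} (hb : Tendsto b atTop (𝓝 0))
    (h : ∀ N, mn (fun v => ‖f v‖ ^ 2) N ≤ b N) : Sm f := by
  refine squeeze_zero (fun N => ?_) h hb
  unfold mn
  exact mul_nonneg (inv_nonneg.2 (Nat.cast_nonneg _))
    (Finset.sum_nonneg fun v _ => by positivity)

theorem mn_mono {f g : HeightOneSpectrum (𝓞 K) → ℝ} (h : ∀ v, f v ≤ g v) (N : ℕ) :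
    mn f N ≤ mn g N := by
  unfold mn
  simp only [smul_eq_mul]
  exact mul_le_mul_of_nonneg_left (Finset.sum_le_sum fun v _ => h v)
    (inv_nonneg.2 (Nat.cast_nonneg _))

theorem mn_addR (f g : HeightOneSpectrum (𝓞 K) → ℝ) (N : ℕ) :
    mn (fun v => f v + g v) N = mn f N + mn g N := by
  unfold mn
  rw [Finset.sum_add_distrib, smul_add]

theorem mn_mulR (a : ℝ) (f : HeightOneSpectrum (𝓞 K) → ℝ) (N : ℕ) :
    mn (fun v => a * f v) N = a * mn f N := by
  unfold mn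
  rw [← Finset.mul_sum]
  simp only [smul_eq_mul]
  ring

theorem Sm.add {f g : HeightOneSpectrum (𝓞 K) → ℂ} (hf : Sm f) (hg : Sm g) :
    Sm fun v => f v + g v := by
  have h3 := (hf.const_mul 2).add (hg.const_mul 2)
  rw [mul_zero, add_zero] at h3
  refine Sm.of_le h3 fun N => ?_
  rw [← mn_mulR, ← mn_mulR, ← mn_addR]
  refine mn_mono (fun v => ?_) N
  have h6 := norm_add_le (f v) (g v)
  have h8 := pow_le_pow_left₀ (norm_nonneg _) h6 2
  nlinarith [sq_nonneg (‖f v‖ - ‖g v‖)]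

theorem Sm.mul_bdd {f g : HeightOneSpectrum (𝓞 K) → ℂ} (hf : Sm f) {B : ℝ}
    (hg : ∀ v, ‖g v‖ ≤ B) : Sm fun v => g v * f v := by
  have h3 := hf.const_mul (B ^ 2)
  rw [mul_zero] at h3
  refine Sm.of_le h3 fun N => ?_
  rw [← mn_mulR]
  refine mn_mono (fun v => ?_) N
  rw [norm_mul, mul_pow]
  exact mul_le_mul_of_nonneg_right (pow_le_pow_left₀ (norm_nonneg _) (hg v) 2) (sq_nonneg _)

theorem Sm.zero : Sm fun _ : HeightOneSpectrum (𝓞 K) => (0 : ℂ) := by
  refine Sm.of_le (b := fun _ => 0) tendsto_const_nhds fun N => ?_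
  unfold mn
  simp

theorem Sm.sum {κ : Type} (s : Finset κ) {f : κ → HeightOneSpectrum (𝓞 K) → ℂ}
    (h : ∀ k ∈ s, Sm (f k)) : Sm fun v => ∑ k ∈ s, f k v := by
  classical
  induction s using Finset.induction_on with
  | empty => simpa using Sm.zero
  | insert a s ha ih =>
    have h1 := (h a (Finset.mem_insert_self a s)).add
      (ih fun k hk => h k (Finset.mem_insert_of_mem hk))
    refine (congrArg Sm (funext fun v => ?_)).mp h1
    rw [Finset.sum_insert ha]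

theorem Sm.congr {f g : HeightOneSpectrum (𝓞 K) → ℂ} (h : Sm f) (e : ∀ v, f v = g v) : Sm g :=
  (congrArg Sm (funext e)).mp h

end

section

variable {K : Type} [Field K] [NumberField K]
variable {G : Type} [Group G] [TopologicalSpace G] [IsTopologicalGroup G] [CompactSpace G]
  [T2Space G] [MeasurableSpace G] [BorelSpace G] {μ : Measure G} [IsProbabilityMeasure μ]
  [μ.IsHaarMeasure] {n : ℕ} {π : G →* Matrix.unitaryGroup (Fin n) ℂ}
variable {G' : Type} [Group G'] [TopologicalSpace G'] [IsTopologicalGroup G'] [CompactSpace G']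
  [T2Space G'] [MeasurableSpace G'] [BorelSpace G'] {μ' : Measure G'} [IsProbabilityMeasure μ']
  [μ'.IsHaarMeasure] {n' : ℕ} {π' : G' →* Matrix.unitaryGroup (Fin n') ℂ}
  {x : HeightOneSpectrum (𝓞 K) → G} {x' : HeightOneSpectrum (𝓞 K) → G'}

/-- a class function that is small along an equidistributed family vanishes -/
theorem zero_of_sm (h : Law x μ) {f : G → ℂ} (hf : Continuous f)
    (hcl : ∀ g k, f (k * g * k⁻¹) = f g) (hs : Sm fun v => f (x v)) (g : G) : f g = 0 := by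
  have h1 := h (fun g => ‖f g‖ ^ 2) (hf.norm.pow 2) fun g k => by rw [hcl]
  have h3 : ∫ g, ‖f g‖ ^ 2 ∂μ = 0 := tendsto_nhds_unique h1 hs
  by_contra hne
  have h6 := int_pos (μ := μ) (f := fun g => ‖f g‖ ^ 2) (hf.norm.pow 2)
    (fun g => by positivity) (g₀ := g) (by positivity)
  rw [h3] at h6
  exact lt_irrefl _ h6

/-- uniqueness on the other side -/
theorem mat_unique' (H : Hyp x μ x' μ') {n₂ : ℕ} {π₂ : G →* Matrix.unitaryGroup (Fin n₂) ℂ}
    (hc : Continuous π) (hn : n ≠ 0) (hc₂ : Continuous π₂) (hn₂ : n₂ ≠ 0) {r r₂ : ℝ}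
    (hr : r = 1 ∨ r = -1) (hr₂ : r₂ = 1 ∨ r₂ = -1)
    (h : Mat x π x' π' r) (h₂ : Mat x π₂ x' π' r₂) : chi π = chi π₂ ∧ r = r₂ := by
  have hrr : ‖(-(r * r₂ : ℝ) : ℂ)‖ ≤ 1 := by
    rcases hr with rfl | rfl <;> rcases hr₂ with rfl | rfl <;> simp
  have h1 : Sm fun v => chi π (x v) - ((r * r₂ : ℝ) : ℂ) * chi π₂ (x v) := by
    have h2 : Sm fun v => chi π (x v) - r * chi π' (x' v) := h
    have h3 : Sm fun v => chi π₂ (x v) - r₂ * chi π' (x' v) := h₂
    refine (h2.add (h3.mul_bdd (g := fun _ => (-(r * r₂ : ℝ) : ℂ)) (B := 1)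
      fun _ => hrr)).congr fun v => ?_
    have h4 : (r₂ : ℂ) * r₂ = 1 := by
      rcases hr₂ with rfl | rfl <;> norm_num
    push_cast
    linear_combination (r * chi π' (x' v)) * h4
  have h5 := zero_of_sm H.law (f := fun g => chi π g - ((r * r₂ : ℝ) : ℂ) * chi π₂ g)
    ((cont_chi hc).sub (continuous_const.mul (cont_chi hc₂)))
    (fun g k => by rw [chi_cls, chi_cls]) h1
  have h6 := h5 1
  rw [chi_one, chi_one] at h6
  have h6' : (n : ℝ) - (r * r₂) * n₂ = 0 := by exact_mod_cast h6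
  have hp : (0 : ℝ) < n := by exact_mod_cast Nat.pos_of_ne_zero hn
  have hp₂ : (0 : ℝ) < n₂ := by exact_mod_cast Nat.pos_of_ne_zero hn₂
  have hrr : r = r₂ := by
    rcases hr with rfl | rfl <;> rcases hr₂ with rfl | rfl
    · rfl
    · nlinarith
    · nlinarith
    · rfl
  refine ⟨funext fun g => ?_, hrr⟩
  have h7 := h5 g
  have h8 : r * r₂ = 1 := by
    rw [hrr]
    rcases hr₂ with rfl | rfl <;> norm_num
  simp only [h8, Complex.ofReal_one, one_mul] at h7
  exact sub_eq_zero.1 h7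

/-- **The transport of decompositions.** -/
theorem transport (H : Hyp x μ x' μ') {n₁ n₂ n₁' n₂' : ℕ}
    {π₁ : G →* Matrix.unitaryGroup (Fin n₁) ℂ} {π₂ : G →* Matrix.unitaryGroup (Fin n₂) ℂ}
    {π₁' : G' →* Matrix.unitaryGroup (Fin n₁') ℂ} {π₂' : G' →* Matrix.unitaryGroup (Fin n₂') ℂ}
    (h1 : Continuous π₁) (h2 : Continuous π₂) (h1' : Continuous π₁') (h2' : Continuous π₂')
    {r₁ r₂ : ℝ} (hr₁ : r₁ = 1 ∨ r₁ = -1) (hr₂ : r₂ = 1 ∨ r₂ = -1)
    (hm₁ : Mat x π₁ x' π₁' r₁) (hm₂ : Mat x π₂ x' π₂' r₂) :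
    ∃ (J : Type) (_ : Fintype J) (m m' : J → ℕ)
      (σ : ∀ j, G →* Matrix.unitaryGroup (Fin (m j)) ℂ)
      (σ' : ∀ j, G' →* Matrix.unitaryGroup (Fin (m' j)) ℂ),
      (∀ j, Continuous (σ j) ∧ Schur (σ j) ∧ m j ≠ 0) ∧
      (∀ j, Continuous (σ' j) ∧ Schur (σ' j) ∧ m' j ≠ 0) ∧
      (∀ j, Mat x (σ j) x' (σ' j) (r₁ * r₂)) ∧
      (∀ g, chi π₁ g * chi π₂ g = ∑ j, chi (σ j) g) ∧
      ∀ g, chi π₁' g * chi π₂' g = ∑ j, chi (σ' j) g := by
  classical
  obtain ⟨J, _, m, σ, q1, q2'⟩ := decN_chi_mul h1 h2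
  have q2 : ∀ g, chi π₁ g * chi π₂ g = ∑ j, chi (σ j) g := q2'
  have hI : ∀ j, ∫ g, chi π₁ g * chi π₂ g * conj (chi (σ j) g) ∂μ ≠ 0 := by
    intro j
    rw [int_dec q1 (f := fun g => chi π₁ g * chi π₂ g) q2 (q1 j).1 (q1 j).2.1]
    have h3 : j ∈ Finset.univ.filter fun i => chi (σ i) = chi (σ j) :=
      Finset.mem_filter.2 ⟨Finset.mem_univ _, rfl⟩
    exact_mod_cast (Finset.card_pos.2 ⟨j, h3⟩).ne'
  choose m' σ' p1 p2 p3 p4 _ using fun j => closure H h1 h2 h1' h2' hr₁ hr₂ hm₁ hm₂ (q1 j).1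
    (q1 j).2.1 (q1 j).2.2 (hI j)
  refine ⟨J, inferInstance, m, m', σ, σ', q1, fun j => ⟨p1 j, p2 j, p3 j⟩, p4, q2, ?_⟩
  -- the difference is small
  have hb : ∀ {r : ℝ}, (r = 1 ∨ r = -1) → ‖(r : ℂ)‖ = 1 := by
    intro r hr
    rcases hr with rfl | rfl <;> simp
  have hsq : ∀ {r : ℝ}, (r = 1 ∨ r = -1) → (r : ℂ) * r = 1 := by
    intro r hr
    rcases hr with rfl | rfl <;> norm_num
  have s1 : Sm fun v => chi π₁ (x v) - r₁ * chi π₁' (x' v) := hm₁
  have s2 : Sm fun v => chi π₂ (x v) - r₂ * chi π₂' (x' v) := hm₂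
  have s3 : Sm fun v => ∑ j, (chi (σ j) (x v) - ((r₁ * r₂ : ℝ) : ℂ) * chi (σ' j) (x' v)) :=
    Sm.sum Finset.univ fun j _ => p4 j
  have t1 := s1.mul_bdd (g := fun v => (-(r₁ : ℂ) * r₂) * chi π₂ (x v)) (B := n₂) fun v => by
    rw [norm_mul, norm_mul, norm_neg, hb hr₁, hb hr₂, one_mul, one_mul]
    exact norm_chi π₂ _
  have t2 := s2.mul_bdd (g := fun v => (-(r₂ : ℂ)) * chi π₁' (x' v)) (B := n₁') fun v => by
    rw [norm_mul, norm_neg, hb hr₂, one_mul]
    exact norm_chi π₁' _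
  have t3 := s3.mul_bdd (g := fun _ => (r₁ : ℂ) * r₂) (B := 1) fun v => by
    rw [norm_mul, hb hr₁, hb hr₂, one_mul]
  have key : Sm fun v => chi π₁' (x' v) * chi π₂' (x' v) - ∑ j, chi (σ' j) (x' v) := by
    refine ((t1.add t2).add t3).congr fun v => ?_
    have h3 : ∑ j, (chi (σ j) (x v) - ((r₁ * r₂ : ℝ) : ℂ) * chi (σ' j) (x' v)) =
        chi π₁ (x v) * chi π₂ (x v) - ((r₁ * r₂ : ℝ) : ℂ) * ∑ j, chi (σ' j) (x' v) := by
      rw [Finset.sum_sub_distrib, Finset.mul_sum, q2 (x v)]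
    rw [h3]
    have e1 := hsq hr₁
    have e2 := hsq hr₂
    push_cast
    linear_combination (r₂ * chi π₁' (x' v) * chi π₂ (x v)) * e1 +
      (chi π₁' (x' v) * chi π₂' (x' v)) * e2 -
      (∑ j, chi (σ' j) (x' v)) * ((r₂ : ℂ) * r₂ * e1 + e2)
  have hcont : Continuous fun g => chi π₁' g * chi π₂' g - ∑ j, chi (σ' j) g :=
    ((cont_chi h1').mul (cont_chi h2')).sub (continuous_finsetSum _ fun j _ => cont_chi (p1 j))
  intro g
  have h4 := zero_of_sm H.law' hcont (fun g k => by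
    simp only [chi_cls]) key g
  exact sub_eq_zero.1 h4

variable [SecondCountableTopology G] [SecondCountableTopology G']

/-- **The limit distribution exists.** -/
theorem joint_limit (H : Hyp x μ x' μ') {f : G × G' → ℂ} (hf : Continuous f)
    (hcl : ∀ p q, f (q * p * q⁻¹) = f p) :
    ∃ c, Tendsto (mn fun v => f (x v, x' v)) atTop (𝓝 c) := by
  refine mn_exists fun ε hε => ?_
  obtain ⟨k, m, m', ρ, ρ', a, h1, h2, h4⟩ := class_dense2 hf
    (fun g g' k k' => hcl (g, g') (k, k')) hε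
  have hc : ∀ i, ∃ c : ℂ, Tendsto (mn fun v => chi (ρ i) (x v) * chi (ρ' i) (x' v)) atTop
      (𝓝 c) := by
    intro i
    rcases Nat.eq_zero_or_pos (m i) with h5 | h5
    · refine ⟨0, (mn_const (K := K) (0 : ℂ)).congr fun N => ?_⟩
      congr 1
      funext v
      have h6 : ‖chi (ρ i) (x v)‖ ≤ 0 := (norm_chi (ρ i) (x v)).trans (by rw [h5]; simp)
      rw [norm_le_zero_iff] at h6
      rw [h6, zero_mul]
    · rcases Nat.eq_zero_or_pos (m' i) with h6 | h6
      · refine ⟨0, (mn_const (K := K) (0 : ℂ)).congr fun N => ?_⟩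
        congr 1
        funext v
        have h7 : ‖chi (ρ' i) (x' v)‖ ≤ 0 := (norm_chi (ρ' i) (x' v)).trans (by rw [h6]; simp)
        rw [norm_le_zero_iff] at h7
        rw [h7, mul_zero]
      · obtain ⟨c, -, h7⟩ := corr H (h1 i).1 (h1 i).2 h5.ne' (cont_cj (h2 i).1)
          (schur_cj (h2 i).2) h6.ne'
        refine ⟨c, h7.congr fun N => ?_⟩
        congr 1
        funext v
        rw [chi_cj, Complex.conj_conj]
  choose c hc using hc
  refine ⟨fun v => ∑ i, a i * (chi (ρ i) (x v) * chi (ρ' i) (x' v)), ∑ i, a i * c i,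
    fun v => h4 _ _, ?_⟩
  have h5 : Tendsto (fun N => ∑ i, a i * mn (fun v => chi (ρ i) (x v) * chi (ρ' i) (x' v)) N)
      atTop (𝓝 (∑ i, a i * c i)) := tendsto_finsetSum _ fun i _ => (hc i).const_mul _
  refine h5.congr fun N => ?_
  rw [mn_sum]
  exact Finset.sum_congr rfl fun i _ => (mn_mul _ _ _).symm

/-- products of characters -/
theorem chi_pair (hx : Law x μ) (hx' : Law x' μ') (hc : Continuous π) (hs : Schur π)
    (hc' : Continuous π') (hs' : Schur π')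
    (hd : (∃ g, π g ≠ 1) → (∃ g, π' g ≠ 1) →
      Tendsto (mn fun v => chi π (x v) * chi π' (x' v)) atTop (𝓝 0)) :
    Tendsto (mn fun v => chi π (x v) * chi π' (x' v)) atTop
      (𝓝 ((∫ g, chi π g ∂μ) * ∫ g, chi π' g ∂μ')) := by
  by_cases h1 : ∃ g, π g ≠ 1
  · by_cases h2 : ∃ g, π' g ≠ 1
    · rw [int_chi hc hs h1, zero_mul]
      exact hd h1 h2
    · push Not at h2
      have h3 := (law_c hx (cont_chi hc) (fun g h => chi_cls π g h)).const_mul (n' : ℂ)
      have h4 : ∫ g, chi π' g ∂μ' = n' := by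
        simp only [chi_triv h2]
        simp
      rw [h4, mul_comm]
      refine h3.congr fun N => ?_
      rw [← mn_mul]
      congr 1
      funext v
      rw [chi_triv h2, mul_comm]
  · push Not at h1
    have h3 := (law_c hx' (cont_chi hc') (fun g h => chi_cls π' g h)).const_mul (n : ℂ)
    have h4 : ∫ g, chi π g ∂μ = n := by
      simp only [chi_triv h1]
      simp
    rw [h4]
    refine h3.congr fun N => ?_
    rw [← mn_mul]
    congr 1
    funext v
    rw [chi_triv h1]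

/-- joint equidistribution from the averages of the products of characters -/
theorem joint_of (hx : Law x μ) (hx' : Law x' μ')
    (hpair : ∀ (n n' : ℕ) (π : G →* Matrix.unitaryGroup (Fin n) ℂ)
      (π' : G' →* Matrix.unitaryGroup (Fin n') ℂ), Continuous π → Schur π → Continuous π' →
      Schur π' → (∃ g, π g ≠ 1) → (∃ g, π' g ≠ 1) →
      Tendsto (mn fun v => chi π (x v) * chi π' (x' v)) atTop (𝓝 0))
    {f : G × G' → ℂ} (hf : Continuous f) (hcl : ∀ p q, f (q * p * q⁻¹) = f p) :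
    Tendsto (mn fun v => f (x v, x' v)) atTop (𝓝 (∫ p, f p ∂(μ.prod μ'))) := by
  refine mn_unif fun ε hε => ?_
  obtain ⟨k, m, m', ρ, ρ', a, h1, h2, h4⟩ := class_dense2 hf
    (fun g g' k k' => hcl (g, g') (k, k')) hε
  refine ⟨fun v => ∑ i, a i * (chi (ρ i) (x v) * chi (ρ' i) (x' v)),
    ∑ i, a i * ((∫ g, chi (ρ i) g ∂μ) * ∫ g, chi (ρ' i) g ∂μ'), fun v => h4 _ _, ?_, ?_⟩
  · have hci : ∀ i, Continuous fun p : G × G' => a i * (chi (ρ i) p.1 * chi (ρ' i) p.2) :=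
      fun i => continuous_const.mul (((cont_chi (h1 i).1).comp continuous_fst).mul
        ((cont_chi (h2 i).1).comp continuous_snd))
    have hFc : Continuous fun p : G × G' => ∑ i, a i * (chi (ρ i) p.1 * chi (ρ' i) p.2) :=
      continuous_finsetSum _ fun i _ => hci i
    have hI : ∀ F : G × G' → ℂ, Continuous F → Integrable F (μ.prod μ') := fun F hF =>
      hF.integrable_of_hasCompactSupport (HasCompactSupport.of_compactSpace F)
    have h5 : ∫ p, (∑ i, a i * (chi (ρ i) p.1 * chi (ρ' i) p.2)) ∂(μ.prod μ') =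
        ∑ i, a i * ((∫ g, chi (ρ i) g ∂μ) * ∫ g, chi (ρ' i) g ∂μ') := by
      rw [integral_finsetSum _ fun i _ => hI _ (hci i)]
      refine Finset.sum_congr rfl fun i _ => ?_
      rw [integral_const_mul, integral_prod_mul]
    rw [← h5, ← integral_sub (hI _ hFc) (hI _ hf)]
    refine (norm_integral_le_integral_norm _).trans ?_
    have h6 : ∫ p, ‖(∑ i, a i * (chi (ρ i) p.1 * chi (ρ' i) p.2)) - f p‖ ∂(μ.prod μ') ≤
        ∫ _, ε ∂(μ.prod μ') := by
      refine integral_mono (hI _ hFc |>.sub (hI _ hf)).norm (integrable_const _) fun p => ?_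
      simp only
      rw [norm_sub_rev]
      exact h4 p.1 p.2
    simpa using h6
  · have h5 : Tendsto (fun N => ∑ i, a i * mn (fun v => chi (ρ i) (x v) * chi (ρ' i) (x' v)) N)
        atTop (𝓝 (∑ i, a i * ((∫ g, chi (ρ i) g ∂μ) * ∫ g, chi (ρ' i) g ∂μ'))) :=
      tendsto_finsetSum _ fun i _ => (chi_pair hx hx' (h1 i).1 (h1 i).2 (h2 i).1 (h2 i).2
        (hpair _ _ _ _ (h1 i).1 (h1 i).2 (h2 i).1 (h2 i).2)).const_mul _
    refine h5.congr fun N => ?_
    rw [mn_sum]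
    exact Finset.sum_congr rfl fun i _ => (mn_mul _ _ _).symm

end

end Pool.Agent.V1142.SC.Gou
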