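import Pool.Agent.TH553.ST.PW2

set_option autoImplicit false
set_option linter.unusedSectionVars false

/-!
# Characters with infinitely many absolute values and characters of finite groups
-/

namespace Pool.Agent.V1142.SC

open Complex Filter Topology ComplexConjugate MeasureTheory NumberField IsDedekindDomain
  Pool.Agent.TH553.ST Pool.Agent.TH553.RS Pool.Agent.W540.BE

section

variable {G : Type} [Group G] [TopologicalSpace G] [IsTopologicalGroup G] [CompactSpace G]
  [MeasurableSpace G] [BorelSpace G] {μ : Measure G} [IsProbabilityMeasure μ] [μ.IsHaarMeasure]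
  {n : ℕ} {π : G →* Matrix.unitaryGroup (Fin n) ℂ}
  {Γ : Type} [Group Γ] [TopologicalSpace Γ] [IsTopologicalGroup Γ] [CompactSpace Γ]
  [MeasurableSpace Γ] [BorelSpace Γ] {ν : Measure Γ} [IsProbabilityMeasure ν]
  [ν.IsHaarMeasure] {m : ℕ} {ρ : Γ →* Matrix.unitaryGroup (Fin m) ℂ}

/-- a character with infinitely many absolute values has not the law of a character of a finite
group -/
theorem not_same [Finite Γ] (hc : Continuous π) (hc' : Continuous ρ)
    (hbig : (Set.range fun g => ‖chi π g‖).Infinite) : ¬ Same π μ ρ ν := by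
  classical
  intro hS
  have _ : Fintype Γ := Fintype.ofFinite Γ
  set V : Finset ℝ := Finset.univ.image fun γ : Γ => ‖chi ρ γ‖ ^ 2 with hV
  set Q : Polynomial ℝ := ∏ r ∈ V, (Polynomial.X - Polynomial.C r) ^ 2 with hQ
  have hev : ∀ t : ℝ, Q.eval t = ∏ r ∈ V, (t - r) ^ 2 := by
    intro t
    rw [hQ, Polynomial.eval_prod]
    simp
  have h0 : ∀ t : ℝ, 0 ≤ Q.eval t := by
    intro t
    rw [hev]
    exact Finset.prod_nonneg fun r _ => sq_nonneg _
  have h1 : ∫ γ, Q.eval (‖chi ρ γ‖ ^ 2) ∂ν = 0 := by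
    have : (fun γ => Q.eval (‖chi ρ γ‖ ^ 2)) = fun _ => (0 : ℝ) := by
      funext γ
      rw [hev, Finset.prod_eq_zero_iff]
      exact ⟨‖chi ρ γ‖ ^ 2, Finset.mem_image_of_mem _ (Finset.mem_univ γ), by ring⟩
    rw [this, integral_zero]
  have h2 : ∫ g, Q.eval (‖chi π g‖ ^ 2) ∂μ = 0 := by
    rw [int_poly hc, ← h1, int_poly hc']
    exact Finset.sum_congr rfl fun k _ => by rw [hS k]
  have h3 : ∀ g, Q.eval (‖chi π g‖ ^ 2) = 0 := by
    intro g
    by_contra hne
    have hcont : Continuous fun g => Q.eval (‖chi π g‖ ^ 2) :=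
      Q.continuous.comp ((cont_chi hc).norm.pow 2)
    have := int_pos (μ := μ) hcont (fun g => h0 _) hne
    rw [h2] at this
    exact lt_irrefl _ this
  apply hbig
  have h4 : (Set.range fun g => ‖chi π g‖) ⊆ (fun r : ℝ => Real.sqrt r) '' (V : Set ℝ) := by
    rintro _ ⟨g, rfl⟩
    have h5 := h3 g
    rw [hev, Finset.prod_eq_zero_iff] at h5
    obtain ⟨r, hr, hr'⟩ := h5
    refine ⟨r, hr, ?_⟩
    have h6 : ‖chi π g‖ ^ 2 = r := by
      have := pow_eq_zero_iff (two_ne_zero) |>.1 hr'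
      linarith
    simp only
    rw [← h6, Real.sqrt_sq (norm_nonneg _)]
  exact (V.finite_toSet.image _).subset h4

/-- over a connected group all irreducible characters of dimension at least two have infinitely
many absolute values -/
theorem big_of_connected [ConnectedSpace G] (μ : Measure G) [IsProbabilityMeasure μ]
    [μ.IsHaarMeasure] (hc : Continuous π) (hs : Schur π) (hn : 2 ≤ n) :
    (Set.range fun g => ‖chi π g‖).Infinite := by
  intro hfin
  have hcn : Continuous fun g => ‖chi π g‖ := (cont_chi hc).norm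
  have h1 : IsPreconnected (Set.range fun g => ‖chi π g‖) := isPreconnected_range hcn
  have h2 : (Set.range fun g => ‖chi π g‖).Subsingleton := by
    by_contra h
    rw [Set.not_subsingleton_iff] at h
    exact (h1.infinite_of_nontrivial h) hfin
  have h3 : ∀ g, ‖chi π g‖ = n := by
    intro g
    have h4 := h2 ⟨g, rfl⟩ ⟨1, rfl⟩
    simp only at h4
    rw [h4, chi_one, Complex.norm_natCast]
  have h5 := int_sq_le (μ := μ) hc hs
  simp only [h3] at h5
  rw [integral_const] at h5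
  simp only [probReal_univ, one_smul] at h5
  have h6 : (2 : ℝ) ≤ n := by exact_mod_cast hn
  nlinarith

end

section

variable {Γ : Type} [Group Γ] [Finite Γ] [TopologicalSpace Γ] [DiscreteTopology Γ]
  [MeasurableSpace Γ] [BorelSpace Γ] (ν : Measure Γ) [IsProbabilityMeasure ν] [ν.IsHaarMeasure]

/-- the integral over a finite group -/
theorem int_fin (c : Γ → ℂ) : ∫ γ, c γ ∂ν = (Nat.card Γ : ℂ)⁻¹ * ∑ᶠ γ, c γ := by
  classical
  have _ : Fintype Γ := Fintype.ofFinite Γ
  have hms : ∀ s : Set Γ, MeasurableSet s := fun s => (isOpen_discrete s).measurableSet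
  have h1 : ∀ γ : Γ, ν.real {γ} = ν.real {(1 : Γ)} := by
    intro γ
    have h2 := measure_preimage_mul ν γ⁻¹ {(1 : Γ)}
    have h3 : (fun h : Γ => γ⁻¹ * h) ⁻¹' {(1 : Γ)} = {γ} := by
      ext h
      simp only [Set.mem_preimage, Set.mem_singleton_iff]
      rw [inv_mul_eq_one]
      exact eq_comm
    rw [h3] at h2
    rw [Measure.real, Measure.real, h2]
  have h4 : (Fintype.card Γ : ℝ) * ν.real {(1 : Γ)} = 1 := by
    have h5 : ν.real (Set.univ : Set Γ) = ∑ γ : Γ, ν.real {γ} := by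
      have := sum_measureReal_singleton (μ := ν) (Finset.univ : Finset Γ)
      rw [this, Finset.coe_univ]
    rw [probReal_univ, Finset.sum_congr rfl fun γ _ => h1 γ, Finset.sum_const, Finset.card_univ,
      nsmul_eq_mul] at h5
    exact h5.symm
  have h6 : ν.real {(1 : Γ)} = (Nat.card Γ : ℝ)⁻¹ := by
    rw [Nat.card_eq_fintype_card]
    exact eq_inv_of_mul_eq_one_right h4
  rw [integral_fintype (f := c) Integrable.of_finite, finsum_eq_sum_of_fintype, Finset.mul_sum]
  refine Finset.sum_congr rfl fun γ _ => ?_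
  rw [h1 γ, h6, Complex.real_smul]
  push_cast
  rfl

end

section

variable {K : Type} [Field K] [NumberField K]
variable {G : Type} [Group G] [TopologicalSpace G] [IsTopologicalGroup G] [CompactSpace G]
  [T2Space G] [MeasurableSpace G] [BorelSpace G] {μ : Measure G} [IsProbabilityMeasure μ]
  [μ.IsHaarMeasure] {x : HeightOneSpectrum (𝓞 K) → G}
  {Γ : Type} [Group Γ] [Finite Γ] {x' : HeightOneSpectrum (𝓞 K) → Γ}

/-- the classes of the `x' v` are equidistributed in the finite group -/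
def FLaw (x' : HeightOneSpectrum (𝓞 K) → Γ) : Prop :=
  ∀ c : Γ → ℂ, (∀ a g, c (g * a * g⁻¹) = c a) →
    Tendsto (mn fun v => c (x' v)) atTop (𝓝 ((Nat.card Γ : ℂ)⁻¹ * ∑ᶠ q, c q))

/-- class functions on a finite group -/
theorem fin_dense (c : Γ → ℂ) (hc : ∀ a g, c (g * a * g⁻¹) = c a) {ε : ℝ} (hε : 0 < ε) :
    ∃ (J : Type) (_ : Fintype J) (m : J → ℕ) (ρ : ∀ j, Γ →* Matrix.unitaryGroup (Fin (m j)) ℂ)
      (a : J → ℂ), (∀ j, Schur (ρ j)) ∧ ∀ γ, ‖c γ - ∑ j, a j * chi (ρ j) γ‖ ≤ ε := by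
  let _ : TopologicalSpace Γ := ⊥
  have _ : DiscreteTopology Γ := ⟨rfl⟩
  let _ : MeasurableSpace Γ := borel Γ
  have _ : BorelSpace Γ := ⟨rfl⟩
  obtain ⟨F, ⟨J, hJ, m, ρ, a, h1, h2⟩, h3⟩ := class_dense (G := Γ) (f := c)
    continuous_of_discreteTopology (fun g k => hc g k) hε
  exact ⟨J, hJ, m, ρ, a, fun j => (h1 j).2, fun γ => by rw [← h2]; exact h3 γ⟩

/-- zeros and poles do not occur for characters with infinitely many absolute values -/
theorem fin_lt (hx : Law x μ) (hx' : FLaw x') {n m : ℕ} {π : G →* Matrix.unitaryGroup (Fin n) ℂ}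
    {ρ : Γ →* Matrix.unitaryGroup (Fin m) ℂ} (hc : Continuous π) (hs : Schur π) (hs' : Schur ρ)
    (hbig : (Set.range fun g => ‖chi π g‖).Infinite ∨ n ≠ m) (τ : ℝ) :
    (∀ᶠ ε : ℝ in 𝓝[>] 0, LP π x ρ x' (1 + τ * I + ε) ≠ 0) ∧
    (∃ δ : ℝ, 0 < δ ∧ ∀ᶠ ε in 𝓝[>] (0 : ℝ), |sz π x ρ x' τ ε| ≤ 1 - δ) ∧
    ∀ Λ : ℂ → ℂ, MeromorphicAt Λ (1 + τ * I) →
      (∀ᶠ s in 𝓝 ((1 : ℂ) + τ * I), (1 : ℝ) < s.re → Λ s = LP π x ρ x' s) →
      meromorphicOrderAt Λ (1 + τ * I) = (0 : ℤ) := by
  let _ : TopologicalSpace Γ := ⊥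
  have _ : DiscreteTopology Γ := ⟨rfl⟩
  let _ : MeasurableSpace Γ := borel Γ
  have _ : BorelSpace Γ := ⟨rfl⟩
  set ν : Measure Γ := Measure.haarMeasure ⊤ with hν
  have hν1 : IsProbabilityMeasure ν := ⟨by
    rw [hν]
    exact Measure.haarMeasure_self⟩
  have hL : Law x' ν := by
    intro f _ hcl
    have h1 := hx' (fun γ => (f γ : ℂ)) fun a g => by rw [hcl]
    rw [← int_fin ν] at h1
    have h0 : ∫ γ, (f γ : ℂ) ∂ν = ((∫ γ, f γ ∂ν : ℝ) : ℂ) := integral_ofReal
    rw [h0] at h1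
    have h2 := (Complex.continuous_re.tendsto _).comp h1
    refine h2.congr fun N => ?_
    simp only [Function.comp]
    rw [re_mn]
    rfl
  have hd : ¬ Same π μ ρ ν := by
    rcases hbig with h | h
    · exact not_same hc continuous_of_discreteTopology h
    · exact fun h' => h (dim_eq hc continuous_of_discreteTopology h')
  refine ⟨(size_LP π x ρ x' τ).1, pair_lt hx hL hc hs continuous_of_discreteTopology hs' hd τ,
    fun Λ h1 h2 => ?_⟩
  obtain ⟨k, h3, h4⟩ := order_LP h1 h2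
  rw [h3, pair_zero hx hL hc hs continuous_of_discreteTopology hs' hd h4]

/-- the joint law -/
theorem joint_fin (hx' : FLaw x')
    (hpair : ∀ (n m : ℕ) (π : G →* Matrix.unitaryGroup (Fin n) ℂ)
      (ρ : Γ →* Matrix.unitaryGroup (Fin m) ℂ), Continuous π → Schur π → (∃ g, π g ≠ 1) →
      Schur ρ → Tendsto (mn fun v => chi π (x v) * chi ρ (x' v)) atTop (𝓝 0))
    {f : G → ℂ} (hf : Continuous f) (hcl : ∀ g k, f (k * g * k⁻¹) = f g)
    {c : Γ → ℂ} (hc : ∀ a g, c (g * a * g⁻¹) = c a) :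
    Tendsto (mn fun v => f (x v) * c (x' v)) atTop
      (𝓝 ((∫ g, f g ∂μ) * ((Nat.card Γ : ℂ)⁻¹ * ∑ᶠ q, c q))) := by
  classical
  have _ : Fintype Γ := Fintype.ofFinite Γ
  -- a bound for `c`
  obtain ⟨B, hB0, hB⟩ : ∃ B : ℝ, 0 < B ∧ ∀ γ, ‖c γ‖ ≤ B := by
    refine ⟨1 + ∑ γ, ‖c γ‖, by positivity, fun γ => ?_⟩
    have := Finset.single_le_sum (f := fun γ => ‖c γ‖) (fun _ _ => norm_nonneg _)
      (Finset.mem_univ γ)
    linarith
  set A : ℂ := (Nat.card Γ : ℂ)⁻¹ * ∑ᶠ q, c q with hA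
  have hAB : ‖A‖ ≤ B := by
    have hcard : (0 : ℝ) < Nat.card Γ := by exact_mod_cast Nat.card_pos
    rw [hA, norm_mul, norm_inv, Complex.norm_natCast, finsum_eq_sum_of_fintype]
    rw [inv_mul_le_iff₀ hcard]
    refine (norm_sum_le _ _).trans ((Finset.sum_le_sum fun γ _ => hB γ).trans ?_)
    rw [Finset.sum_const, Finset.card_univ, nsmul_eq_mul, Nat.card_eq_fintype_card]
  -- characters
  have step : ∀ (n : ℕ) (π : G →* Matrix.unitaryGroup (Fin n) ℂ), Continuous π → Schur π →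
      Tendsto (mn fun v => chi π (x v) * c (x' v)) atTop (𝓝 ((∫ g, chi π g ∂μ) * A)) := by
    intro n π h1 h2
    by_cases hnt : ∃ g, π g ≠ 1
    · rw [int_chi h1 h2 hnt, zero_mul]
      refine mn_unif fun ε hε => ?_
      obtain ⟨J, _, m, ρ, a, h3, h4⟩ := fin_dense c hc (ε := ε / (n + 1)) (by positivity)
      refine ⟨fun v => ∑ j, a j * (chi π (x v) * chi (ρ j) (x' v)), 0, fun v => ?_, ?_, ?_⟩
      · have h5 : chi π (x v) * c (x' v) - ∑ j, a j * (chi π (x v) * chi (ρ j) (x' v)) =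
            chi π (x v) * (c (x' v) - ∑ j, a j * chi (ρ j) (x' v)) := by
          rw [mul_sub, Finset.mul_sum]
          congr 1
          exact Finset.sum_congr rfl fun j _ => by ring
        rw [h5, norm_mul]
        calc ‖chi π (x v)‖ * ‖c (x' v) - ∑ j, a j * chi (ρ j) (x' v)‖
            ≤ n * (ε / (n + 1)) := mul_le_mul (norm_chi π _) (h4 _) (norm_nonneg _)
              (Nat.cast_nonneg _)
          _ ≤ ε := by
            rw [mul_div_assoc', div_le_iff₀ (by positivity)]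
            nlinarith
      · simp [hε.le]
      · have h5 : Tendsto (fun N => ∑ j, a j * mn (fun v => chi π (x v) * chi (ρ j) (x' v)) N)
            atTop (𝓝 (∑ j, a j * 0)) :=
          tendsto_finsetSum _ fun j _ => (hpair n (m j) π (ρ j) h1 h2 hnt (h3 j)).const_mul _
        simp only [mul_zero, Finset.sum_const_zero] at h5
        refine h5.congr fun N => ?_
        rw [mn_sum]
        exact Finset.sum_congr rfl fun j _ => (mn_mul _ _ _).symm
    · push Not at hnt
      simp only [chi_triv hnt]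
      have h3 : ∫ _ : G, (n : ℂ) ∂μ = n := by simp
      rw [h3]
      refine ((hx' c hc).const_mul (n : ℂ)).congr fun N => ?_
      rw [← mn_mul]
  refine mn_unif fun ε hε => ?_
  obtain ⟨F, ⟨J, _, m, ρ, a, h3, h4⟩, h2⟩ := class_dense hf hcl (ε := ε / B) (by positivity)
  have hFc : Continuous F := by
    have : F = fun g => ∑ j, a j * chi (ρ j) g := funext h4
    rw [this]
    exact continuous_finsetSum _ fun j _ => continuous_const.mul (cont_chi (h3 j).1)
  refine ⟨fun v => F (x v) * c (x' v), (∫ g, F g ∂μ) * A, fun v => ?_, ?_, ?_⟩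
  · rw [← sub_mul, norm_mul]
    calc ‖f (x v) - F (x v)‖ * ‖c (x' v)‖ ≤ ε / B * B :=
          mul_le_mul (h2 _) (hB _) (norm_nonneg _) (by positivity)
      _ = ε := div_mul_cancel₀ _ hB0.ne'
  · rw [← sub_mul, norm_mul, ← integral_sub (intg hFc) (intg hf)]
    have h5 : ‖∫ g, (F g - f g) ∂μ‖ ≤ ε / B := by
      refine (norm_integral_le_integral_norm _).trans ?_
      have h6 : ∫ g, ‖F g - f g‖ ∂μ ≤ ∫ _, ε / B ∂μ := by
        refine integral_mono ((intg hFc).sub (intg hf)).norm (integrable_const _) fun g => ?_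
        simp only
        rw [norm_sub_rev]
        exact h2 g
      simpa using h6
    calc ‖∫ g, (F g - f g) ∂μ‖ * ‖A‖ ≤ ε / B * B :=
          mul_le_mul h5 hAB (norm_nonneg _) (by positivity)
      _ = ε := div_mul_cancel₀ _ hB0.ne'
  · have h5 : ∫ g, F g ∂μ = ∑ j, a j * ∫ g, chi (ρ j) g ∂μ := by
      simp only [h4]
      rw [integral_finsetSum _ fun j _ => (intg (cont_chi (h3 j).1)).const_mul _]
      exact Finset.sum_congr rfl fun j _ => integral_const_mul _ _
    have h6 : Tendsto (fun N => ∑ j, a j * mn (fun v => chi (ρ j) (x v) * c (x' v)) N) atTop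
        (𝓝 (∑ j, a j * ((∫ g, chi (ρ j) g ∂μ) * A))) :=
      tendsto_finsetSum _ fun j _ => (step _ (ρ j) (h3 j).1 (h3 j).2).const_mul _
    have h7 : (∫ g, F g ∂μ) * A = ∑ j, a j * ((∫ g, chi (ρ j) g ∂μ) * A) := by
      rw [h5, Finset.sum_mul]
      exact Finset.sum_congr rfl fun j _ => by ring
    rw [h7]
    refine h6.congr fun N => ?_
    have h8 : (fun v => F (x v) * c (x' v)) = fun v =>
        ∑ j, a j * (chi (ρ j) (x v) * c (x' v)) := by
      funext v
      rw [h4, Finset.sum_mul]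
      exact Finset.sum_congr rfl fun j _ => by ring
    rw [h8, mn_sum]
    exact Finset.sum_congr rfl fun j _ => (mn_mul _ _ _).symm

/-- zero averages from continuations without zeros and poles -/
theorem avg_of_cont {n m : ℕ} {π : G →* Matrix.unitaryGroup (Fin n) ℂ}
    {ρ : Γ →* Matrix.unitaryGroup (Fin m) ℂ}
    (hcont : ∀ τ : ℝ, ∃ Λ : ℂ → ℂ, MeromorphicAt Λ (1 + τ * I) ∧
      (∀ᶠ s in 𝓝 ((1 : ℂ) + τ * I), (1 : ℝ) < s.re → Λ s = LP π x ρ x' s) ∧
      meromorphicOrderAt Λ (1 + τ * I) = (0 : ℤ)) :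
    Tendsto (mn fun v => chi π (x v) * chi ρ (x' v)) atTop (𝓝 0) := by
  let _ : TopologicalSpace Γ := ⊥
  have _ : DiscreteTopology Γ := ⟨rfl⟩
  let _ : MeasurableSpace Γ := borel Γ
  have _ : BorelSpace Γ := ⟨rfl⟩
  obtain ⟨α, h1, h2, h3⟩ := exists_al π x ρ x'
  have h4 := taub h1 (L := LP π x ρ x') (fun s _ => by
    unfold LP
    exact tprod_congr fun v => by rw [h3]) (fun τ => by
    obtain ⟨Λ, h5, h6, h7⟩ := hcont τ
    obtain ⟨g, h10, h11, h12⟩ := (meromorphicOrderAt_eq_int_iff h5).1 h7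
    refine ⟨g, h10, h11, ?_⟩
    rw [eventually_nhdsWithin_iff] at h12
    filter_upwards [h12, h6] with s h13 h14 h15
    have hne : s ≠ 1 + τ * I := by
      intro h
      rw [h] at h15
      simp at h15
    have h16 := h13 hne
    rw [zpow_zero, one_smul] at h16
    rw [← h16, h14 h15])
  refine h4.congr fun N => ?_
  congr 1
  funext v
  exact h2 v

end

end Pool.Agent.V1142.SC
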