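import Pool.Agent.V1142.SC.Gou6

set_option autoImplicit false
set_option linter.unusedSectionVars false

/-!
# The balance of zeros and poles on the edge line
-/

namespace Pool.Agent.V1142.SC.Hol

open Complex Filter Topology ComplexConjugate MeasureTheory NumberField IsDedekindDomain
  Pool.Agent.TH553.ST Pool.Agent.TH553.RS Pool.Agent.W540.BE Pool.Agent.H341R2
  Pool.Agent.V1142.SC.Many Pool.Agent.V1142.SC.Gou

section Conc

variable {G : Type} [Group G] [TopologicalSpace G] [IsTopologicalGroup G] [CompactSpace G]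
  [MeasurableSpace G] [BorelSpace G] {μ : Measure G} [IsProbabilityMeasure μ] [μ.IsHaarMeasure]

theorem lower {ψ : G → ℝ} (hψ : Continuous ψ) {a : ℝ} (h0 : 0 ≤ a) (ha : a < ψ 1 ^ 2) :
    ∃ c : ℝ, 0 < c ∧ ∀ k : ℕ, c * a ^ k ≤ ∫ g, (ψ g ^ 2) ^ k ∂μ := by
  set V : Set G := {g | a < ψ g ^ 2} with hV
  have hVo : IsOpen V := isOpen_lt continuous_const (hψ.pow 2)
  have h1 : (1 : G) ∈ V := ha
  have h2 : 0 < μ V := hVo.measure_pos μ ⟨1, h1⟩
  have h3 : 0 < μ.real V := by
    rw [measureReal_def]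
    exact ENNReal.toReal_pos h2.ne' (measure_ne_top _ _)
  refine ⟨μ.real V, h3, fun k => ?_⟩
  have h4 : ∫ g, V.indicator (fun _ => a ^ k) g ∂μ ≤ ∫ g, (ψ g ^ 2) ^ k ∂μ := by
    refine integral_mono ((integrable_const _).indicator hVo.measurableSet)
      (intg ((hψ.pow 2).pow k)) fun g => ?_
    by_cases hg : g ∈ V
    · rw [Set.indicator_of_mem hg]
      exact pow_le_pow_left₀ h0 (le_of_lt hg) k
    · rw [Set.indicator_of_notMem hg]
      positivity
  rw [integral_indicator_const _ hVo.measurableSet, smul_eq_mul] at h4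
  exact h4

/-- **Concentration.** -/
theorem conc {ψ : G → ℝ} (hψ : Continuous ψ) {D : ℝ} (hD : 0 < D) (h1 : ψ 1 = D)
    (hle : ∀ g, |ψ g| ≤ D) {f : G → ℝ} (hf : Continuous f) (heq : ∀ g, |ψ g| = D → f g = f 1) :
    Tendsto (fun k : ℕ => (∫ g, (ψ g ^ 2) ^ k * f g ∂μ) / ∫ g, (ψ g ^ 2) ^ k ∂μ) atTop
      (𝓝 (f 1)) := by
  have hpos : ∀ k : ℕ, 0 < ∫ g, (ψ g ^ 2) ^ k ∂μ := by
    intro k
    refine int_pos ((hψ.pow 2).pow k) (fun g => by positivity) (g₀ := 1) ?_
    rw [h1]
    positivity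
  rw [Metric.tendsto_atTop]
  intro ε hε
  -- the bound away from the maximum
  obtain ⟨ρ, hρ0, hρ1, hρ⟩ : ∃ ρ : ℝ, 0 ≤ ρ ∧ ρ < D ^ 2 ∧
      ∀ g, ε / 2 ≤ |f g - f 1| → ψ g ^ 2 ≤ ρ := by
    set C : Set G := {g | ε / 2 ≤ |f g - f 1|} with hC
    have hCc : IsCompact C :=
      (isClosed_le continuous_const ((hf.sub continuous_const).abs)).isCompact
    rcases C.eq_empty_or_nonempty with h | h
    · refine ⟨0, le_rfl, by positivity, fun g hg => ?_⟩
      have : g ∈ C := hg
      rw [h] at this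
      exact absurd this (Set.notMem_empty g)
    · obtain ⟨g₀, hg₀, hmax⟩ := hCc.exists_isMaxOn h (hψ.pow 2).continuousOn
      refine ⟨ψ g₀ ^ 2, sq_nonneg _, ?_, fun g hg => hmax hg⟩
      have h2 : |ψ g₀| < D := by
        refine lt_of_le_of_ne (hle g₀) fun h3 => ?_
        have h4 := heq g₀ h3
        have h5 : ε / 2 ≤ |f g₀ - f 1| := hg₀
        rw [h4, sub_self, abs_zero] at h5
        linarith
      rw [← sq_abs (ψ g₀)]
      exact pow_lt_pow_left₀ h2 (abs_nonneg _) two_ne_zero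
  have hfc : Continuous fun g => f g - f 1 := hf.sub continuous_const
  obtain ⟨B, hB⟩ := (isCompact_univ (X := G)).exists_bound_of_continuousOn hfc.continuousOn
  have hB' : ∀ g, |f g - f 1| ≤ B := fun g => hB g (Set.mem_univ _)
  have hB0 : 0 ≤ B := (abs_nonneg _).trans (hB' 1)
  obtain ⟨a, ha0, ha1⟩ := exists_between hρ1
  have hapos : 0 < a := hρ0.trans_lt ha0
  obtain ⟨c, hc, hcl⟩ := lower (μ := μ) hψ hapos.le (by rw [h1]; exact ha1)
  have hlim : Tendsto (fun k : ℕ => B / c * (ρ / a) ^ k) atTop (𝓝 0) := by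
    have := (tendsto_pow_atTop_nhds_zero_of_lt_one (r := ρ / a) (by positivity)
      (by rw [div_lt_one hapos]; exact ha0)).const_mul (B / c)
    rwa [mul_zero] at this
  obtain ⟨k₀, hk₀⟩ := (hlim.eventually_lt_const (show (0 : ℝ) < ε / 2 by linarith)).exists_forall_of_atTop
  refine ⟨k₀, fun k hk => ?_⟩
  set T := ∫ g, (ψ g ^ 2) ^ k ∂μ with hT
  have hTp : 0 < T := hpos k
  have hi1 : Integrable (fun g => (ψ g ^ 2) ^ k * f g) μ := intg (((hψ.pow 2).pow k).mul hf)
  have hi2 : Integrable (fun g => (ψ g ^ 2) ^ k) μ := intg ((hψ.pow 2).pow k)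
  have e1 : (∫ g, (ψ g ^ 2) ^ k * f g ∂μ) / T - f 1 =
      (∫ g, (ψ g ^ 2) ^ k * (f g - f 1) ∂μ) / T := by
    have h2 : ∫ g, (ψ g ^ 2) ^ k * (f g - f 1) ∂μ =
        (∫ g, (ψ g ^ 2) ^ k * f g ∂μ) - T * f 1 := by
      rw [hT, ← integral_mul_const, ← integral_sub hi1 (hi2.mul_const _)]
      congr 1
      funext g
      ring
    rw [h2]
    field_simp
  have h2 : |∫ g, (ψ g ^ 2) ^ k * (f g - f 1) ∂μ| ≤ ε / 2 * T + B * ρ ^ k := by
    refine (abs_integral_le_integral_abs).trans ?_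
    have h3 : ∫ g, |(ψ g ^ 2) ^ k * (f g - f 1)| ∂μ ≤
        ∫ g, (ε / 2 * (ψ g ^ 2) ^ k + B * ρ ^ k) ∂μ := by
      refine integral_mono (intg (((hψ.pow 2).pow k).mul (hf.sub continuous_const)).abs)
        ((hi2.const_mul _).add (integrable_const _)) fun g => ?_
      simp only
      rw [abs_mul, abs_of_nonneg (by positivity : (0 : ℝ) ≤ (ψ g ^ 2) ^ k)]
      rcases lt_or_ge |f g - f 1| (ε / 2) with h4 | h4
      · have h5 : (ψ g ^ 2) ^ k * |f g - f 1| ≤ (ψ g ^ 2) ^ k * (ε / 2) :=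
          mul_le_mul_of_nonneg_left h4.le (by positivity)
        have h6 : 0 ≤ B * ρ ^ k := by positivity
        linarith
      · have h5 : (ψ g ^ 2) ^ k ≤ ρ ^ k := pow_le_pow_left₀ (sq_nonneg _) (hρ g h4) k
        have h6 : (ψ g ^ 2) ^ k * |f g - f 1| ≤ ρ ^ k * B :=
          mul_le_mul h5 (hB' g) (abs_nonneg _) (by positivity)
        have h7 : 0 ≤ ε / 2 * (ψ g ^ 2) ^ k := by positivity
        linarith
    refine h3.trans (le_of_eq ?_)
    rw [integral_add (hi2.const_mul _) (integrable_const _), integral_const_mul, integral_const,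
      probReal_univ, one_smul]
  have h3 : c * a ^ k ≤ T := hcl k
  have h4 : B * ρ ^ k / T ≤ B / c * (ρ / a) ^ k := by
    have h5 : B * ρ ^ k / T ≤ B * ρ ^ k / (c * a ^ k) :=
      div_le_div_of_nonneg_left (by positivity) (by positivity) h3
    refine h5.trans (le_of_eq ?_)
    rw [div_pow, div_mul_div_comm]
  rw [Real.dist_eq, e1, abs_div, abs_of_pos hTp]
  calc |∫ g, (ψ g ^ 2) ^ k * (f g - f 1) ∂μ| / T ≤ (ε / 2 * T + B * ρ ^ k) / T := by gcongr
    _ = ε / 2 + B * ρ ^ k / T := by field_simp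
    _ ≤ ε / 2 + B / c * (ρ / a) ^ k := by linarith
    _ < ε := by linarith [hk₀ k hk]

end Conc

section Bal

variable {K : Type} [Field K] [NumberField K]
variable {G : Type} [Group G] [TopologicalSpace G] [IsTopologicalGroup G] [CompactSpace G]
  [T2Space G] [MeasurableSpace G] [BorelSpace G] {μ : Measure G} [IsProbabilityMeasure μ]
  [μ.IsHaarMeasure]
  {x : HeightOneSpectrum (𝓞 K) → G}
  {U : Ultrafilter ℝ} (hU : (U : Filter ℝ) ≤ 𝓝[>] 0)

/-- the mean value of a character with a height -/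
noncomputable def am (U : Ultrafilter ℝ) (x : HeightOneSpectrum (𝓞 K) → G) {n : ℕ}
    (π : G →* Matrix.unitaryGroup (Fin n) ℂ) (τ : ℝ) : ℝ := M (nm K) U fun v => (tc π x τ v).re

theorem am_congr {n n' : ℕ} {π : G →* Matrix.unitaryGroup (Fin n) ℂ}
    {π' : G →* Matrix.unitaryGroup (Fin n') ℂ} (h : chi π = chi π') (τ : ℝ) :
    am U x π τ = am U x π' τ := by
  unfold am tc
  rw [h]

/-- the weighted mean value of a character -/
noncomputable def sv (U : Ultrafilter ℝ) (x : HeightOneSpectrum (𝓞 K) → G) {κ : Type} [Fintype κ]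
    (c τ : κ → ℝ) {n : ℕ} (π : G →* Matrix.unitaryGroup (Fin n) ℂ) : ℝ :=
  am U x π 0 + ∑ k, c k * am U x π (τ k)

theorem sv_congr {κ : Type} [Fintype κ] (c τ : κ → ℝ) {n n' : ℕ}
    {π : G →* Matrix.unitaryGroup (Fin n) ℂ} {π' : G →* Matrix.unitaryGroup (Fin n') ℂ}
    (h : chi π = chi π') : sv U x c τ π = sv U x c τ π' := by
  unfold sv
  rw [am_congr h]
  congr 1
  exact Finset.sum_congr rfl fun k _ => by rw [am_congr h]

/-- the trivial representation -/
noncomputable def tr1 (G : Type) [Group G] : G →* Matrix.unitaryGroup (Fin 1) ℂ := 1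

theorem chi_tr1 : chi (tr1 G) = fun _ => 1 := by
  funext g
  rw [chi_triv (fun _ => rfl)]
  simp

theorem nt_of_chi {n : ℕ} {π : G →* Matrix.unitaryGroup (Fin n) ℂ} (hc : Continuous π)
    (hs : Schur π) (hn : n ≠ 0) (h : chi π ≠ chi (tr1 G)) : ∃ g, π g ≠ 1 := by
  by_contra hcon
  push Not at hcon
  apply h
  rw [chi_tr1]
  funext g
  rw [chi_triv hcon, dim_triv hc hs hn hcon]
  simp

theorem chi_ne_tr1 (μ : Measure G) [IsProbabilityMeasure μ] [μ.IsHaarMeasure] {n : ℕ}
    {π : G →* Matrix.unitaryGroup (Fin n) ℂ} (hc : Continuous π)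
    (hs : Schur π) (h : ∃ g, π g ≠ 1) : chi π ≠ chi (tr1 G) := by
  intro he
  have h1 := int_chi (μ := μ) hc hs h
  rw [he, chi_tr1] at h1
  simp at h1

include hU

theorem am_one : am U x (tr1 G) 0 = 1 := by
  unfold am tc
  rw [chi_tr1]
  have h1 := M_one (N := nm K) (sysF K) hU
  refine Eq.trans ?_ h1
  congr 1
  funext v
  simp

theorem am_one_height {τ : ℝ} (hτ : τ ≠ 0) : am U x (tr1 G) τ = 0 := by
  unfold am tc
  rw [chi_tr1]
  have h1 := M_one_height (K := K) hU 1 hτ
  refine Eq.trans ?_ h1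
  congr 1
  funext v
  simp

variable {ι : Type} [Fintype ι] {n : ι → ℕ} {π : ∀ i, G →* Matrix.unitaryGroup (Fin (n i)) ℂ}
  {κ : Type} [Fintype κ] {c τ : κ → ℝ}

omit hU in
/-- the weights at the primes -/
theorem re_cpow (v : HeightOneSpectrum (𝓞 K)) (σ : ℝ) :
    (((nm K v : ℕ) : ℂ) ^ (-(σ * I : ℂ))).re = Real.cos (σ * Real.log (nm K v : ℕ)) := by
  rw [cpow_exp (nm_pos v)]
  have : (-(σ * (Real.log (nm K v : ℕ) : ℝ) * I) : ℂ) =
      ((-(σ * Real.log (nm K v : ℕ)) : ℝ) : ℂ) * I := by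
    push_cast
    ring
  rw [this, Complex.exp_ofReal_mul_I_re, Real.cos_neg]

/-- **The balance of mean values.** -/
theorem balance_M (hc : ∀ i, Continuous (π i)) (hs : ∀ i, Schur (π i))
    (hnt : ∀ i, ∃ g, π i g ≠ 1) (hne : ∀ i j, i ≠ j → chi (π i) ≠ chi (π j))
    (hτ : ∀ k, τ k ≠ 0) (hw : ∀ θ : ℝ, 0 ≤ 1 + ∑ k, c k * Real.cos (τ k * θ))
    (ho : ∀ (m : ℕ) (ρ : G →* Matrix.unitaryGroup (Fin m) ℂ), Continuous ρ → Schur ρ →
      (∃ g, ρ g ≠ 1) → (∀ i, chi ρ ≠ chi (π i)) →
      sv U x c τ ρ ≤ 0) :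
    0 ≤ 1 + ∑ i, (n i : ℝ) * sv U x c τ (π i) := by
  classical
  set ν : Measure G := Measure.haarMeasure ⊤ with hν
  have hν1 : IsProbabilityMeasure ν := ⟨by
    rw [hν]
    exact Measure.haarMeasure_self⟩
  have hN := sysF K
  set ψ : G → ℝ := fun g => 1 + ∑ i, 2 * (chi (π i) g).re with hψ
  set D : ℝ := 1 + ∑ i, 2 * (n i : ℝ) with hD
  have hψc : Continuous ψ := by
    refine continuous_const.add (continuous_finsetSum _ fun i _ => ?_)
    exact (Complex.continuous_re.comp (cont_chi (hc i))).const_mul 2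
  have hDp : 0 < D := by positivity
  have hψ1 : ψ 1 = D := by
    simp only [hψ, hD, chi_one]
    simp
  have hre : ∀ i g, |(chi (π i) g).re| ≤ n i := fun i g =>
    (Complex.abs_re_le_norm _).trans (norm_chi _ _)
  have hle : ∀ g, |ψ g| ≤ D := by
    intro g
    refine (abs_add_le _ _).trans ?_
    rw [abs_one]
    refine add_le_add le_rfl ((Finset.abs_sum_le_sum_abs _ _).trans
      (Finset.sum_le_sum fun i _ => ?_))
    rw [abs_mul, abs_of_pos (by norm_num : (0 : ℝ) < 2)]
    linarith [hre i g]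
  have hmax : ∀ g, |ψ g| = D → ∀ i, (chi (π i) g).re = n i := by
    intro g hg i
    have h1 : ∀ i, (chi (π i) g).re ≤ n i := fun i => (le_abs_self _).trans (hre i g)
    have h1' : ∀ i, -(n i : ℝ) ≤ (chi (π i) g).re := fun i => (abs_le.1 (hre i g)).1
    have h2 : ψ g = D := by
      rcases abs_eq hDp.le |>.1 hg with h | h
      · exact h
      · exfalso
        have h3 : -∑ i, 2 * (n i : ℝ) ≤ ∑ i, 2 * (chi (π i) g).re := by
          rw [← Finset.sum_neg_distrib]
          exact Finset.sum_le_sum fun i _ => by linarith [h1' i]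
        have h4 : ψ g = 1 + ∑ i, 2 * (chi (π i) g).re := rfl
        rw [h4, hD] at h
        linarith
    have h3 : ∑ i, (2 * (n i : ℝ) - 2 * (chi (π i) g).re) = 0 := by
      rw [Finset.sum_sub_distrib]
      have h4 : ψ g = 1 + ∑ i, 2 * (chi (π i) g).re := rfl
      rw [h4, hD] at h2
      linarith
    have h4 := (Finset.sum_eq_zero_iff_of_nonneg fun i _ => by linarith [h1 i]).1 h3 i
      (Finset.mem_univ i)
    linarith
  -- the powers are characters
  have hdec : ∀ m : ℕ, DecN fun g => ((ψ g : ℝ) : ℂ) ^ m := by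
    intro m
    induction m with
    | zero => simpa using (decN_one (H := G))
    | succ m ih =>
      have h1 := ih.add ((DecN.sum (G := G) Finset.univ
        (f := fun i g => ((ψ g : ℝ) : ℂ) ^ m * chi (π i) g) fun i _ => ih.mul_chi (hc i)).add
        (DecN.sum (G := G) Finset.univ
        (f := fun i g => ((ψ g : ℝ) : ℂ) ^ m * chi (cj (π i)) g) fun i _ =>
          ih.mul_chi (cont_cj (hc i))))
      refine (congrArg DecN (funext fun g => ?_)).mp h1
      rw [pow_succ, ← Finset.mul_sum, ← Finset.mul_sum, ← mul_add]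
      have h2 : ((ψ g : ℝ) : ℂ) = 1 + (∑ i, chi (π i) g + ∑ i, chi (cj (π i)) g) := by
        rw [← Finset.sum_add_distrib]
        simp only [hψ]
        push_cast
        congr 1
        refine Finset.sum_congr rfl fun i _ => ?_
        rw [chi_cj, Complex.add_conj]
        push_cast
        ring
      linear_combination (-((ψ g : ℝ) : ℂ) ^ m) * h2
  have hs1 : sv U x c τ (tr1 G) = 1 := by
    unfold sv
    rw [am_one hU, Finset.sum_eq_zero fun k _ => by rw [am_one_height hU (hτ k), mul_zero],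
      add_zero]
  -- the inequality for every power
  have key : ∀ k : ℕ, 0 ≤ (∫ g, (ψ g ^ 2) ^ k ∂ν) +
      ∑ i, (∫ g, (ψ g ^ 2) ^ k * (chi (π i) g).re ∂ν) * sv U x c τ (π i) := by
    intro k
    obtain ⟨J, _, m, ρ, h1, h2⟩ := hdec (2 * k)
    -- the mean value
    set w : HeightOneSpectrum (𝓞 K) → ℝ := fun v =>
      1 + ∑ k, c k * Real.cos (τ k * Real.log (nm K v : ℕ)) with hwd
    have hψb : Bd fun v => ψ (x v) ^ (2 * k) := bd_cont (hψc.pow _) x
    have hwb : Bd w := by
      refine (Bd.const 1).add (Bd.sum _ fun k _ => ?_)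
      exact Bd.const_mul ⟨1, fun v => Real.abs_cos_le_one _⟩ _
    have h3 : 0 ≤ M (nm K) U fun v => ψ (x v) ^ (2 * k) * w v :=
      M_nonneg hN hU (hψb.mul hwb) fun v => mul_nonneg
        (by rw [pow_mul]; positivity) (hw _)
    have hbt : ∀ {m : ℕ} (ρ : G →* Matrix.unitaryGroup (Fin m) ℂ) (σ : ℝ),
        Bd fun v => (tc ρ x σ v).re := fun ρ σ => (bc_tc x σ).re
    have h4 : (M (nm K) U fun v => ψ (x v) ^ (2 * k) * w v) = ∑ j, sv U x c τ (ρ j) := by
      have e : (fun v => ψ (x v) ^ (2 * k) * w v) = fun v =>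
          ∑ j, ((tc (ρ j) x 0 v).re + ∑ l, c l * (tc (ρ j) x (τ l) v).re) := by
        funext v
        have h5 : ∀ σ : ℝ, ∑ j, (tc (ρ j) x σ v).re =
            ψ (x v) ^ (2 * k) * Real.cos (σ * Real.log (nm K v : ℕ)) := by
          intro σ
          unfold tc
          rw [← Complex.re_sum, ← Finset.sum_mul, ← h2]
          simp only
          rw [← Complex.ofReal_pow, Complex.re_ofReal_mul, re_cpow]
        rw [Finset.sum_add_distrib, h5, Finset.sum_comm]
        simp only [← Finset.mul_sum, h5]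
        rw [zero_mul, Real.cos_zero, mul_one]
        simp only [hwd]
        rw [mul_add, mul_one, Finset.mul_sum]
        congr 1
        refine Finset.sum_congr rfl fun l _ => ?_
        ring
      rw [e, M_sum hN hU _ fun j _ => (hbt (ρ j) 0).add
        (Bd.sum _ fun l _ => (hbt (ρ j) (τ l)).const_mul (c l))]
      refine Finset.sum_congr rfl fun j _ => ?_
      rw [M_add hN hU (hbt (ρ j) 0) (Bd.sum _ fun l _ => (hbt (ρ j) (τ l)).const_mul (c l)),
        M_sum hN hU _ fun l _ => (hbt (ρ j) (τ l)).const_mul (c l)]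
      unfold sv am
      congr 1
      exact Finset.sum_congr rfl fun l _ => M_const_mul hN hU (hbt (ρ j) (τ l)) _
    -- the terms
    have h5 : ∀ j, sv U x c τ (ρ j) ≤ (if chi (ρ j) = chi (tr1 G) then 1 else 0) +
        ∑ i, if chi (ρ j) = chi (π i) then sv U x c τ (π i) else 0 := by
      intro j
      by_cases ht : chi (ρ j) = chi (tr1 G)
      · rw [if_pos ht, sv_congr c τ ht, hs1, Finset.sum_eq_zero fun i _ => ?_]
        · simp
        · rw [if_neg]
          rw [ht]
          exact (chi_ne_tr1 ν (hc i) (hs i) (hnt i)).symm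
      · rw [if_neg ht, zero_add]
        by_cases hi : ∃ i, chi (ρ j) = chi (π i)
        · obtain ⟨i, hi⟩ := hi
          rw [Finset.sum_eq_single i, if_pos hi, sv_congr c τ hi]
          · intro i' _ hne'
            rw [if_neg]
            rw [hi]
            exact hne i i' hne'.symm
          · intro h
            exact absurd (Finset.mem_univ i) h
        · push Not at hi
          rw [Finset.sum_eq_zero fun i _ => if_neg (hi i)]
          exact ho _ (ρ j) (h1 j).1 (h1 j).2.1 (nt_of_chi (h1 j).1 (h1 j).2.1 (h1 j).2.2 ht) hi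
    have hcard : ∀ {d : ℕ} (σ : G →* Matrix.unitaryGroup (Fin d) ℂ), Continuous σ → Schur σ →
        ∫ g, (ψ g ^ 2) ^ k * (chi σ g).re ∂ν =
          ((Finset.univ.filter fun j => chi (ρ j) = chi σ).card : ℝ) := by
      intro d σ hσ hσs
      have h6 := int_dec (μ := ν) h1 h2 hσ hσs
      have h7 := congrArg Complex.re h6
      have h8 : Integrable (fun g => ((ψ g : ℝ) : ℂ) ^ (2 * k) * conj (chi σ g)) ν :=
        intg (((Complex.continuous_ofReal.comp hψc).pow _).mul
          (Complex.continuous_conj.comp (cont_chi hσ)))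
      rw [Complex.natCast_re] at h7
      rw [← h7]
      have h9 := (integral_re (𝕜 := ℂ) h8)
      simp only [RCLike.re_eq_complex_re] at h9
      rw [← h9]
      congr 1
      funext g
      rw [← Complex.ofReal_pow, Complex.re_ofReal_mul, Complex.conj_re, pow_mul]
    have h6 : ∑ j, sv U x c τ (ρ j) ≤ (∫ g, (ψ g ^ 2) ^ k ∂ν) +
        ∑ i, (∫ g, (ψ g ^ 2) ^ k * (chi (π i) g).re ∂ν) * sv U x c τ (π i) := by
      refine (Finset.sum_le_sum fun j _ => h5 j).trans (le_of_eq ?_)
      rw [Finset.sum_add_distrib, Finset.sum_comm]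
      have h7 := hcard (tr1 G) continuous_const (schur_one _)
      rw [chi_tr1] at h7
      simp only [Complex.one_re, mul_one] at h7
      rw [← chi_tr1] at h7
      rw [h7]
      congr 1
      · rw [Finset.sum_ite, Finset.sum_const_zero, add_zero, Finset.sum_const, nsmul_eq_mul,
          mul_one]
      · refine Finset.sum_congr rfl fun i _ => ?_
        rw [hcard (π i) (hc i) (hs i), Finset.sum_ite, Finset.sum_const_zero, add_zero,
          Finset.sum_const, nsmul_eq_mul]
    rw [h4] at h3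
    exact h3.trans h6
  -- the limit
  have hpos : ∀ k : ℕ, 0 < ∫ g, (ψ g ^ 2) ^ k ∂ν := by
    intro k
    refine int_pos ((hψc.pow 2).pow k) (fun g => by positivity) (g₀ := 1) ?_
    rw [hψ1]
    positivity
  have hlim : Tendsto (fun k : ℕ => 1 + ∑ i, (∫ g, (ψ g ^ 2) ^ k * (chi (π i) g).re ∂ν) /
      (∫ g, (ψ g ^ 2) ^ k ∂ν) * sv U x c τ (π i)) atTop (𝓝 (1 + ∑ i, (n i : ℝ) * sv U x c τ (π i))) := by
    refine tendsto_const_nhds.add (tendsto_finsetSum _ fun i _ => ?_)
    have h1 := conc (μ := ν) hψc hDp hψ1 hle (f := fun g => (chi (π i) g).re)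
      (Complex.continuous_re.comp (cont_chi (hc i))) (fun g hg => by
        rw [hmax g hg i, chi_one]
        simp)
    have h2 : (chi (π i) 1).re = n i := by
      rw [chi_one]
      simp
    rw [h2] at h1
    exact h1.mul_const _
  refine ge_of_tendsto hlim (Filter.Eventually.of_forall fun k => ?_)
  have h1 := div_nonneg (key k) (hpos k).le
  rw [add_div, div_self (hpos k).ne', Finset.sum_div] at h1
  refine h1.trans (le_of_eq ?_)
  congr 1
  exact Finset.sum_congr rfl fun i _ => by ring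

end Bal

end Pool.Agent.V1142.SC.Hol
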