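import Pool.Agent.V1142.SC.Hol1
import Pool.Agent.TH553.ST.Ext2

set_option autoImplicit false
set_option linter.unusedSectionVars false

/-!
# Holomorphy on the edge line implies nonvanishing and the law
-/

namespace Pool.Agent.V1142.SC.Hol

open Complex Filter Topology ComplexConjugate MeasureTheory NumberField IsDedekindDomain
  Pool.Agent.TH553.ST Pool.Agent.TH553.RS Pool.Agent.W540.BE Pool.Agent.H341R2
  Pool.Agent.V1142.SC.Many Pool.Agent.V1142.SC.Gou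

variable {K : Type} [Field K] [NumberField K]
variable {G : Type} [Group G] [TopologicalSpace G] [IsTopologicalGroup G] [CompactSpace G]
  [T2Space G] [MeasurableSpace G] [BorelSpace G] {μ : Measure G} [IsProbabilityMeasure μ]
  [μ.IsHaarMeasure]
  {x : HeightOneSpectrum (𝓞 K) → G}

/-- the order of a meromorphic continuation at `1 + i τ` -/
def Ord {n : ℕ} (π : G →* Matrix.unitaryGroup (Fin n) ℂ) (x : HeightOneSpectrum (𝓞 K) → G)
    (τ : ℝ) (m : ℤ) : Prop :=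
  ∃ Λ : ℂ → ℂ, MeromorphicAt Λ (1 + τ * I) ∧
    (∀ᶠ s in 𝓝 ((1 : ℂ) + τ * I), (1 : ℝ) < s.re → Λ s = L1 π x s) ∧
    meromorphicOrderAt Λ (1 + τ * I) = m

variable {n : ℕ} {π : G →* Matrix.unitaryGroup (Fin n) ℂ}

theorem Ord.am {τ : ℝ} {m : ℤ} (h : Ord π x τ m) {U : Ultrafilter ℝ}
    (hU : (U : Filter ℝ) ≤ 𝓝[>] 0) : am U x π τ = -(m : ℝ) := by
  obtain ⟨Λ, h1, h2, h3⟩ := h
  obtain ⟨m', h4, h5⟩ := order_L1 h1 h2
  have hm : m' = m := by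
    rw [h4] at h3
    exact_mod_cast h3
  rw [hm] at h5
  have h6 := ((size_L1 π x τ).2.add h5)
  rw [zero_add] at h6
  unfold Hol.am tc
  refine M_of_tendsto hU (h6.congr fun ε => ?_)
  ring

/-- an ultrafilter -/
theorem exists_U : ∃ U : Ultrafilter ℝ, (U : Filter ℝ) ≤ 𝓝[>] 0 :=
  ⟨Ultrafilter.of (𝓝[>] 0), Ultrafilter.of_le _⟩

theorem Ord.unique {τ : ℝ} {m m' : ℤ} {n' : ℕ} {π' : G →* Matrix.unitaryGroup (Fin n') ℂ}
    (h : Ord π x τ m) (h' : Ord π' x τ m') (he : chi π = chi π') : m = m' := by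
  obtain ⟨U, hU⟩ := exists_U
  have h1 := h.am hU
  rw [am_congr he, h'.am hU] at h1
  have : (m' : ℝ) = m := by linarith
  exact_mod_cast this.symm

/-- all orders are nonnegative -/
def Holo (x : HeightOneSpectrum (𝓞 K) → G) : Prop :=
  ∀ (n : ℕ) (π : G →* Matrix.unitaryGroup (Fin n) ℂ) (τ : ℝ), Continuous π → Schur π →
    (∃ g, π g ≠ 1) → ∃ m : ℤ, 0 ≤ m ∧ Ord π x τ m

variable {ι : Type} [Fintype ι] {d : ι → ℕ} {ρ : ∀ i, G →* Matrix.unitaryGroup (Fin (d i)) ℂ}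
  {κ : Type} [Fintype κ] {c τ : κ → ℝ}

/-- **The balance of zeros and poles.** -/
theorem balance {m₀ : ι → ℤ} {m : ι → κ → ℤ} (hc : ∀ i, Continuous (ρ i)) (hs : ∀ i, Schur (ρ i))
    (hnt : ∀ i, ∃ g, ρ i g ≠ 1) (hne : ∀ i j, i ≠ j → chi (ρ i) ≠ chi (ρ j))
    (hc0 : ∀ k, 0 ≤ c k) (hτ : ∀ k, τ k ≠ 0)
    (hw : ∀ θ : ℝ, 0 ≤ 1 + ∑ k, c k * Real.cos (τ k * θ))
    (h0 : ∀ i, Ord (ρ i) x 0 (m₀ i)) (h1 : ∀ i k, Ord (ρ i) x (τ k) (m i k))
    (ho : ∀ (n : ℕ) (π : G →* Matrix.unitaryGroup (Fin n) ℂ), Continuous π → Schur π →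
      (∃ g, π g ≠ 1) → (∀ i, chi π ≠ chi (ρ i)) →
      (∃ m : ℤ, 0 ≤ m ∧ Ord π x 0 m) ∧ ∀ k, ∃ m : ℤ, 0 ≤ m ∧ Ord π x (τ k) m) :
    ∑ i, (d i : ℝ) * (m₀ i + ∑ k, c k * m i k) ≤ 1 := by
  obtain ⟨U, hU⟩ := exists_U
  have h2 := balance_M hU (c := c) hc hs hnt hne hτ hw (x := x) (fun n π k1 k2 k3 k4 => by
    obtain ⟨⟨a, ha, hb⟩, h5⟩ := ho n π k1 k2 k3 k4
    unfold sv
    rw [hb.am hU]
    have h6 : ∑ k, c k * am U x π (τ k) ≤ 0 := by
      refine Finset.sum_nonpos fun k _ => ?_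
      obtain ⟨b, hb1, hb2⟩ := h5 k
      rw [hb2.am hU]
      have : (0 : ℝ) ≤ b := by exact_mod_cast hb1
      nlinarith [hc0 k]
    have h7 : (0 : ℝ) ≤ a := by exact_mod_cast ha
    linarith)
  have h3 : ∀ i, sv U x c τ (ρ i) = -((m₀ i : ℝ) + ∑ k, c k * m i k) := by
    intro i
    unfold sv
    rw [(h0 i).am hU, Finset.sum_congr rfl fun k _ => by rw [(h1 i k).am hU], neg_add,
      ← Finset.sum_neg_distrib]
    congr 1
    exact Finset.sum_congr rfl fun k _ => by ring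
  simp only [h3, mul_neg, Finset.sum_neg_distrib] at h2
  linarith

theorem chi_real_of {n : ℕ} {π : G →* Matrix.unitaryGroup (Fin n) ℂ} (h : chi (cj π) = chi π)
    (g : G) : conj (chi π g) = chi π g := by
  rw [← chi_cj, h]

end Pool.Agent.V1142.SC.Hol
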