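import Pool.Agent.V1142.SC.Hol2

set_option autoImplicit false
set_option linter.unusedSectionVars false

/-!
# The only possible zero on the edge line
-/

namespace Pool.Agent.V1142.SC.Hol

open Complex Filter Topology ComplexConjugate MeasureTheory NumberField IsDedekindDomain
  Pool.Agent.TH553.ST Pool.Agent.TH553.RS Pool.Agent.W540.BE
  Pool.Agent.V1142.SC.Many Pool.Agent.V1142.SC.Gou

section One

variable {G : Type} [Group G]

theorem comm1 (a b : Matrix.unitaryGroup (Fin 1) ℂ) : a * b = b * a := by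
  apply Subtype.ext
  ext i j
  have hi : i = 0 := Subsingleton.elim _ _
  have hj : j = 0 := Subsingleton.elim _ _
  subst hi
  subst hj
  change ((a : Matrix (Fin 1) (Fin 1) ℂ) * (b : Matrix (Fin 1) (Fin 1) ℂ)) 0 0 =
    ((b : Matrix (Fin 1) (Fin 1) ℂ) * (a : Matrix (Fin 1) (Fin 1) ℂ)) 0 0
  rw [Matrix.mul_apply, Matrix.mul_apply]
  simp only [Finset.univ_unique, Finset.sum_singleton]
  exact mul_comm _ _

/-- the square of a character -/
noncomputable def sq1 (π : G →* Matrix.unitaryGroup (Fin 1) ℂ) :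
    G →* Matrix.unitaryGroup (Fin 1) ℂ where
  toFun g := π g * π g
  map_one' := by rw [map_one, one_mul]
  map_mul' g h := by
    rw [map_mul]
    calc π g * π h * (π g * π h) = π g * (π h * π g) * π h := by simp only [mul_assoc]
      _ = π g * (π g * π h) * π h := by rw [comm1 (π h)]
      _ = _ := by simp only [mul_assoc]

theorem chi1 (π : G →* Matrix.unitaryGroup (Fin 1) ℂ) (g : G) :
    chi π g = (π g : Matrix (Fin 1) (Fin 1) ℂ) 0 0 := by
  unfold chi Matrix.trace
  simp

theorem chi_sq1 (π : G →* Matrix.unitaryGroup (Fin 1) ℂ) (g : G) :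
    chi (sq1 π) g = chi π g ^ 2 := by
  rw [chi1, chi1]
  change ((π g : Matrix (Fin 1) (Fin 1) ℂ) * (π g : Matrix (Fin 1) (Fin 1) ℂ)) 0 0 = _
  rw [Matrix.mul_apply]
  simp only [Finset.univ_unique, Finset.sum_singleton]
  exact (sq _).symm

theorem norm_chi1 (π : G →* Matrix.unitaryGroup (Fin 1) ℂ) (g : G) : ‖chi π g‖ = 1 := by
  have h1 := det_unit π g
  rw [Matrix.det_fin_one, ← chi1, Complex.mul_conj, Complex.normSq_eq_norm_sq] at h1
  have h2 : ‖chi π g‖ ^ 2 = 1 := by exact_mod_cast h1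
  nlinarith [norm_nonneg (chi π g)]

theorem cont_sq1 [TopologicalSpace G] {π : G →* Matrix.unitaryGroup (Fin 1) ℂ}
    (h : Continuous π) : Continuous (sq1 π) := by
  change Continuous fun g => π g * π g
  exact h.mul h

end One

section Two

variable {K : Type} [Field K] [NumberField K]
variable {G : Type} [Group G] [TopologicalSpace G] [IsTopologicalGroup G] [CompactSpace G]
  [T2Space G] [MeasurableSpace G] [BorelSpace G] {μ : Measure G} [IsProbabilityMeasure μ]
  [μ.IsHaarMeasure]
  {x : HeightOneSpectrum (𝓞 K) → G}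
  {U : Ultrafilter ℝ} (hU : (U : Filter ℝ) ≤ 𝓝[>] 0)

include hU

theorem M_sq {u : HeightOneSpectrum (𝓞 K) → ℂ} (hu : ∀ v, ‖u v‖ = 1)
    (h : (M (nm K) U fun v => (u v).re) = -1) : (M (nm K) U fun v => (u v ^ 2).re) = 1 := by
  have hN := sysF K
  have hb : Bd fun v => (u v).re := ⟨1, fun v => (Complex.abs_re_le_norm _).trans (hu v).le⟩
  have hb2 : Bd fun v => (u v ^ 2).re := ⟨1, fun v => (Complex.abs_re_le_norm _).trans
    (by rw [norm_pow, hu, one_pow])⟩
  have h1 : (M (nm K) U fun v => 4 * (1 + (u v).re)) = 0 := by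
    rw [M_const_mul hN hU ((Bd.const 1).add hb), M_add hN hU (Bd.const 1) hb, h, M_one hN hU]
    norm_num
  have hid : ∀ v, 1 - (u v ^ 2).re = 2 * (1 - (u v).re) * (1 + (u v).re) := by
    intro v
    have h2 : (u v).re ^ 2 + (u v).im ^ 2 = 1 := by
      have := hu v
      have h3 : ‖u v‖ ^ 2 = 1 := by rw [this, one_pow]
      rw [← Complex.normSq_eq_norm_sq, Complex.normSq_apply] at h3
      nlinarith
    rw [sq, Complex.mul_re]
    nlinarith
  have hr : ∀ v, |(u v).re| ≤ 1 := fun v => (Complex.abs_re_le_norm _).trans (hu v).le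
  have h2 : (M (nm K) U fun v => 1 - (u v ^ 2).re) = 0 := by
    refine M_zero_of_le hN hU ((Bd.const 1).sub hb2) (((Bd.const 1).add hb).const_mul 4)
      (fun v => ?_) (fun v => ?_) h1
    · rw [hid]
      have := abs_le.1 (hr v)
      have h3 : 0 ≤ 1 - (u v).re := by linarith [this.2]
      have h4 : 0 ≤ 1 + (u v).re := by linarith [this.1]
      positivity
    · rw [hid]
      have := abs_le.1 (hr v)
      nlinarith
  rw [M_sub hN hU (Bd.const 1) hb2, M_one hN hU] at h2
  linarith

theorem am_sq {π : G →* Matrix.unitaryGroup (Fin 1) ℂ} {τ : ℝ} (h : am U x π τ = -1) :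
    am U x (sq1 π) (2 * τ) = 1 := by
  unfold am at h ⊢
  rw [← M_sq hU (fun v => by
    rw [norm_tc, norm_chi1]) h]
  congr 1
  funext v
  unfold tc
  rw [chi_sq1, mul_pow, ← Complex.cpow_nat_mul]
  congr 3
  push_cast
  ring

theorem am_sq_triv {π : G →* Matrix.unitaryGroup (Fin 1) ℂ} {τ : ℝ} (h : am U x π τ = -1)
    (ht : ∀ g, sq1 π g = 1) : τ = 0 ∧ ∀ g, chi π g = 1 ∨ chi π g = -1 := by
  have h1 := am_sq hU h
  have hc : chi (sq1 π) = chi (tr1 G) := by
    rw [chi_tr1]
    funext g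
    rw [chi_triv ht]
    simp
  refine ⟨?_, fun g => ?_⟩
  · by_contra hτ
    rw [am_congr hc, am_one_height hU (mul_ne_zero two_ne_zero hτ)] at h1
    norm_num at h1
  · have h2 := congrFun hc g
    rw [chi_sq1, chi_tr1] at h2
    rw [sq] at h2
    exact mul_self_eq_one_iff.1 h2

end Two

end Pool.Agent.V1142.SC.Hol
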