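import Pool.Agent.V1142.SC.Hol3
import Pool.Agent.V1142.SC.Gou7

set_option autoImplicit false
set_option linter.unusedSectionVars false

/-!
# The dichotomy
-/

namespace Pool.Agent.V1142.SC.Hol

open Complex Filter Topology ComplexConjugate MeasureTheory NumberField IsDedekindDomain
  Pool.Agent.TH553.ST Pool.Agent.TH553.RS Pool.Agent.W540.BE
  Pool.Agent.V1142.SC.Many Pool.Agent.V1142.SC.Gou

variable {K : Type} [Field K] [NumberField K]
variable {G : Type} [Group G] [TopologicalSpace G] [IsTopologicalGroup G] [CompactSpace G]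
  [T2Space G] [MeasurableSpace G] [BorelSpace G] {μ : Measure G} [IsProbabilityMeasure μ]
  [μ.IsHaarMeasure]
  {x : HeightOneSpectrum (𝓞 K) → G} {n n' : ℕ} {π : G →* Matrix.unitaryGroup (Fin n) ℂ}
  {π' : G →* Matrix.unitaryGroup (Fin n') ℂ}

omit [TopologicalSpace G] [IsTopologicalGroup G] [CompactSpace G] [T2Space G]
  [MeasurableSpace G] [BorelSpace G] in
theorem dim_pos (h : ∃ g, π g ≠ 1) : n ≠ 0 := by
  rintro rfl
  obtain ⟨g, hg⟩ := h
  apply hg
  apply Subtype.ext
  ext i
  exact i.elim0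

theorem zero_one (hH : Holo x) (hc : Continuous π) (hs : Schur π) (hnt : ∃ g, π g ≠ 1) {τ : ℝ}
    {m : ℤ} (h : Ord π x τ m) (hm : m ≠ 0) : n = 1 ∧ m = 1 := by
  have hn := dim_pos hnt
  obtain ⟨m', h1, h2⟩ := hH n π τ hc hs hnt
  have he := h.unique h2 rfl
  subst he
  have hm1 : 1 ≤ m := by omega
  have key : (n : ℝ) * m ≤ 1 := by
    by_cases hτ : τ = 0
    · subst hτ
      have hb := balance (x := x) (ι := Unit) (κ := Empty) (d := fun _ => n) (ρ := fun _ => π)
        (c := fun k => k.elim) (τ := fun k => k.elim) (m₀ := fun _ => m)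
        (m := fun _ k => k.elim) (fun _ => hc) (fun _ => hs) (fun _ => hnt)
        (fun i j hij => absurd rfl hij) (fun k => k.elim) (fun k => k.elim)
        (fun θ => by simp) (fun _ => h) (fun _ k => k.elim)
        (fun k π₂ q1 q2 q3 _ => ⟨hH k π₂ 0 q1 q2 q3, fun k => k.elim⟩)
      simpa using hb
    · obtain ⟨m₀, h3, h4⟩ := hH n π 0 hc hs hnt
      have hb := balance (x := x) (ι := Unit) (κ := Unit) (d := fun _ => n) (ρ := fun _ => π)
        (c := fun _ => 1) (τ := fun _ => τ) (m₀ := fun _ => m₀)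
        (m := fun _ _ => m) (fun _ => hc) (fun _ => hs) (fun _ => hnt)
        (fun i j hij => absurd rfl hij) (fun _ => zero_le_one) (fun _ => hτ)
        (fun θ => by
          simp only [Finset.univ_unique, Finset.sum_singleton, one_mul]
          linarith [Real.neg_one_le_cos (τ * θ)]) (fun _ => h4) (fun _ _ => h)
        (fun k π₂ q1 q2 q3 _ => ⟨hH k π₂ 0 q1 q2 q3, fun _ => hH k π₂ τ q1 q2 q3⟩)
      simp only [Finset.univ_unique, Finset.sum_singleton, one_mul] at hb
      have h5 : (0 : ℝ) ≤ m₀ := by exact_mod_cast h3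
      have h6 : (0 : ℝ) ≤ n := Nat.cast_nonneg n
      nlinarith [mul_nonneg h6 h5]
  have key' : (n : ℤ) * m ≤ 1 := by exact_mod_cast key
  have hn1 : (1 : ℤ) ≤ n := by exact_mod_cast Nat.one_le_iff_ne_zero.2 hn
  have a1 : (n : ℤ) ≤ 1 := by nlinarith
  have a2 : m ≤ 1 := by nlinarith
  constructor
  · omega
  · omega

theorem zero_class (hH : Holo x) {π : G →* Matrix.unitaryGroup (Fin 1) ℂ} (hc : Continuous π)
    (hnt : ∃ g, π g ≠ 1) {τ : ℝ}
    {m : ℤ} (h : Ord π x τ m) (hm : m ≠ 0) : τ = 0 ∧ ∀ g, chi π g = 1 ∨ chi π g = -1 := by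
  obtain ⟨-, hm1⟩ := zero_one hH hc (schur_one π) hnt h hm
  obtain ⟨U, hU⟩ := exists_U
  have h1 : am U x π τ = -1 := by rw [h.am hU, hm1]; simp
  refine am_sq_triv hU h1 ?_
  by_contra hcon
  push Not at hcon
  have h2 := am_sq hU h1
  obtain ⟨m', h3, h4⟩ := hH 1 (sq1 π) (2 * τ) (cont_sq1 hc) (schur_one _) hcon
  rw [h4.am hU] at h2
  have h5 : (0 : ℝ) ≤ m' := by exact_mod_cast h3
  linarith

theorem zero_unique (hH : Holo x) {π π' : G →* Matrix.unitaryGroup (Fin 1) ℂ}
    (hc : Continuous π) (hc' : Continuous π') (hnt : ∃ g, π g ≠ 1) (hnt' : ∃ g, π' g ≠ 1)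
    (h : Ord π x 0 1) (h' : Ord π' x 0 1) : chi π = chi π' := by
  by_contra hne
  have hb := balance (x := x) (ι := Bool) (κ := Empty) (d := fun _ => 1)
    (ρ := fun b => if b then π else π')
    (c := fun k => k.elim) (τ := fun k => k.elim) (m₀ := fun _ => 1)
    (m := fun _ k => k.elim) (fun b => by cases b <;> simpa) (fun _ => schur_one _)
    (fun b => by cases b <;> simpa)
    (fun i j hij => by
      cases i <;> cases j
      · exact absurd rfl hij
      · simpa using fun h => hne h.symm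
      · simpa using hne
      · exact absurd rfl hij) (fun k => k.elim) (fun k => k.elim)
    (fun θ => by simp) (fun b => by cases b <;> simpa) (fun _ k => k.elim)
    (fun k π₂ q1 q2 q3 _ => ⟨hH k π₂ 0 q1 q2 q3, fun k => k.elim⟩)
  norm_num at hb

/-- the averages of a character whose orders vanish off `s = 1` -/
theorem avg_of {m : ℤ} (h0 : Ord π x 0 m) (h : ∀ τ : ℝ, τ ≠ 0 → Ord π x τ 0) :
    Tendsto (mn fun v => chi π (x v)) atTop (𝓝 (-(m : ℂ))) := by
  classical
  obtain ⟨α, h1, h2, h3⟩ := exists_al1 π x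
  have h4 := taub' h1 (L := L1 π x) (fun s _ => by
    unfold L1
    exact tprod_congr fun v => by rw [h3]) (fun τ => if τ = 0 then m else 0) (fun τ => by
    by_cases hτ : τ = 0
    · subst hτ
      rw [if_pos rfl]
      obtain ⟨Λ, k1, k2, k3⟩ := h0
      exact ⟨Λ, k1, k3, k2⟩
    · rw [if_neg hτ]
      obtain ⟨Λ, k1, k2, k3⟩ := h τ hτ
      exact ⟨Λ, k1, k3, k2⟩) (fun τ hτ => if_neg hτ)
  rw [if_pos rfl] at h4
  refine h4.congr fun N => ?_
  congr 1
  funext v
  exact h2 v

/-- equidistribution with a density -/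
def LawE (x : HeightOneSpectrum (𝓞 K) → G) (μ : Measure G) (e : G → ℂ) : Prop :=
  ∀ f : G → ℂ, Continuous f → (∀ g h, f (h * g * h⁻¹) = f g) →
    Tendsto (mn fun v => f (x v)) atTop (𝓝 (∫ g, f g * e g ∂μ))

theorem lawE_of {e : G → ℂ} (he : Continuous e) {B : ℝ} (hB : 0 < B) (hb : ∀ g, ‖e g‖ ≤ B)
    (hav : ∀ (n : ℕ) (π : G →* Matrix.unitaryGroup (Fin n) ℂ), Continuous π → Schur π → n ≠ 0 →
      Tendsto (mn fun v => chi π (x v)) atTop (𝓝 (∫ g, chi π g * e g ∂μ))) : LawE x μ e := by
  intro f hf hcl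
  refine mn_unif fun ε hε => ?_
  obtain ⟨F, ⟨J, _, m, ρ, a, h1, h2⟩, h3⟩ := class_dense hf hcl
    (ε := min ε (ε / B)) (lt_min hε (by positivity))
  have hcI : ∀ j, Continuous fun g => a j * (chi (ρ j) g * e g) := fun j =>
    continuous_const.mul ((cont_chi (h1 j).1).mul he)
  have hFc : Continuous F := by
    have h4 : F = fun g => ∑ j, a j * chi (ρ j) g := funext h2
    rw [h4]
    exact continuous_finsetSum _ fun j _ => continuous_const.mul (cont_chi (h1 j).1)
  have h4 : ∫ g, F g * e g ∂μ = ∑ j, a j * ∫ g, chi (ρ j) g * e g ∂μ := by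
    have h5 : (fun g => F g * e g) = fun g => ∑ j, a j * (chi (ρ j) g * e g) := by
      funext g
      rw [h2, Finset.sum_mul]
      exact Finset.sum_congr rfl fun j _ => by ring
    rw [h5, integral_finsetSum _ fun j _ => intg (hcI j)]
    exact Finset.sum_congr rfl fun j _ => by rw [integral_const_mul]
  refine ⟨fun v => F (x v), ∫ g, F g * e g ∂μ, fun v => (h3 _).trans (min_le_left _ _), ?_, ?_⟩
  · have i1 : Integrable (fun g => F g * e g) μ := intg (hFc.mul he)
    have i2 : Integrable (fun g => f g * e g) μ := intg (hf.mul he)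
    rw [← integral_sub i1 i2]
    refine (norm_integral_le_integral_norm _).trans ?_
    have h6 : ∫ g, ‖F g * e g - f g * e g‖ ∂μ ≤ ∫ _, ε ∂μ := by
      refine integral_mono (intg ((hFc.mul he).sub (hf.mul he))).norm (integrable_const _)
        fun g => ?_
      simp only
      rw [← sub_mul, norm_mul, norm_sub_rev]
      calc ‖f g - F g‖ * ‖e g‖ ≤ ε / B * B :=
            mul_le_mul ((h3 g).trans (min_le_right _ _)) (hb g) (norm_nonneg _) (by positivity)
        _ = ε := by field_simp
    simpa using h6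
  · rw [h4]
    have h5 : Tendsto (fun N => ∑ j, a j * mn (fun v => chi (ρ j) (x v)) N)
        atTop (𝓝 (∑ j, a j * ∫ g, chi (ρ j) g * e g ∂μ)) := by
      refine tendsto_finsetSum _ fun j _ => ?_
      rcases Nat.eq_zero_or_pos (m j) with h6 | h6
      · have h7 : ∀ g, chi (ρ j) g = 0 := by
          intro g
          have h8 : ‖chi (ρ j) g‖ ≤ 0 := (norm_chi (ρ j) g).trans (by rw [h6]; simp)
          exact norm_le_zero_iff.1 h8
        simp only [h7, zero_mul, integral_zero, mul_zero]
        have h8 : (mn fun _ : HeightOneSpectrum (𝓞 K) => (0 : ℂ)) = fun _ => 0 := by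
          funext N
          unfold mn
          simp
        rw [h8]
        simp
      · exact (hav _ _ (h1 j).1 (h1 j).2 h6.ne').const_mul _
    refine h5.congr fun N => ?_
    have h6 : (fun v => F (x v)) = fun v => ∑ j, a j * chi (ρ j) (x v) := funext fun v => h2 _
    rw [h6, mn_sum]
    exact Finset.sum_congr rfl fun j _ => (mn_mul _ _ _).symm

/-- the order at a point -/
theorem Holo.zero_off (hH : Holo x) (hc : Continuous π) (hs : Schur π) (hnt : ∃ g, π g ≠ 1)
    {τ : ℝ} (hτ : τ ≠ 0) : Ord π x τ 0 := by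
  obtain ⟨m, h1, h2⟩ := hH n π τ hc hs hnt
  by_cases hm : m = 0
  · rw [hm] at h2
    exact h2
  · exfalso
    obtain ⟨h3, h4⟩ := zero_one hH hc hs hnt h2 hm
    subst h3
    exact hτ (zero_class hH hc hnt h2 hm).1

/-- **Holomorphy on the edge line: all orders vanish, or there is one quadratic character with a
simple zero at `s = 1` and the elements are equidistributed in its non-trivial coset.** -/
theorem dichotomy (hH : Holo x) :
    ((∀ (n : ℕ) (π : G →* Matrix.unitaryGroup (Fin n) ℂ) (τ : ℝ), Continuous π → Schur π →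
        (∃ g, π g ≠ 1) → Ord π x τ 0) ∧ LawE x μ fun _ => 1) ∨
    ∃ η : G →* Matrix.unitaryGroup (Fin 1) ℂ, Continuous η ∧ (∃ g, η g ≠ 1) ∧
      (∀ g, chi η g = 1 ∨ chi η g = -1) ∧ Ord η x 0 1 ∧
      (∀ (n : ℕ) (π : G →* Matrix.unitaryGroup (Fin n) ℂ) (τ : ℝ), Continuous π → Schur π →
        (∃ g, π g ≠ 1) → (chi π ≠ chi η ∨ τ ≠ 0) → Ord π x τ 0) ∧
      LawE x μ fun g => 1 - chi η g := by
  classical
  have hcase : ∀ (n : ℕ) (π : G →* Matrix.unitaryGroup (Fin n) ℂ), Continuous π → Schur π →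
      n ≠ 0 → (∀ g, π g = 1) → ∀ e : G → ℂ, Continuous e → ∫ g, e g ∂μ = 1 →
      Tendsto (mn fun v => chi π (x v)) atTop (𝓝 (∫ g, chi π g * e g ∂μ)) := by
    intro n π _ _ _ ht e _ he
    simp only [chi_triv ht]
    rw [integral_const_mul, he, mul_one]
    exact mn_const _
  by_cases hex : ∃ (n : ℕ) (π : G →* Matrix.unitaryGroup (Fin n) ℂ), Continuous π ∧ Schur π ∧
      (∃ g, π g ≠ 1) ∧ ¬ Ord π x 0 0
  · obtain ⟨n, η, hc, hs, hnt, hno⟩ := hex
    obtain ⟨m, h1, h2⟩ := hH n η 0 hc hs hnt
    have hm : m ≠ 0 := by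
      rintro rfl
      exact hno h2
    obtain ⟨h3, h4⟩ := zero_one hH hc hs hnt h2 hm
    subst h3
    subst h4
    obtain ⟨-, h5⟩ := zero_class hH hc hnt h2 hm
    have hall : ∀ (n : ℕ) (π : G →* Matrix.unitaryGroup (Fin n) ℂ), Continuous π → Schur π →
        (∃ g, π g ≠ 1) → chi π ≠ chi η → Ord π x 0 0 := by
      intro n π k1 k2 k3 k4
      obtain ⟨m, q1, q2⟩ := hH n π 0 k1 k2 k3
      by_cases hm' : m = 0
      · rw [hm'] at q2
        exact q2
      · exfalso
        obtain ⟨q3, q4⟩ := zero_one hH k1 k2 k3 q2 hm'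
        subst q3
        subst q4
        exact k4 (zero_unique hH k1 hc k3 hnt q2 h2)
    refine Or.inr ⟨η, hc, hnt, h5, h2, fun n π τ k1 k2 k3 k4 => ?_, ?_⟩
    · by_cases hτ : τ = 0
      · subst hτ
        exact hall n π k1 k2 k3 (k4.resolve_right fun h => h rfl)
      · exact hH.zero_off k1 k2 k3 hτ
    · have hec : Continuous fun g => 1 - chi η g := continuous_const.sub (cont_chi hc)
      have hei : ∫ g, (1 - chi η g) ∂μ = 1 := by
        rw [integral_sub (integrable_const _) (intg (cont_chi hc)), int_chi hc hs hnt]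
        simp
      have hreal : ∀ g, conj (chi η g) = chi η g := by
        intro g
        rcases h5 g with h | h <;> rw [h] <;> simp
      refine lawE_of hec (B := 2) two_pos (fun g => ?_) fun n π k1 k2 k3 => ?_
      · rcases h5 g with h | h <;> rw [h] <;> norm_num
      · by_cases ht : ∃ g, π g ≠ 1
        · have e1 : ∫ g, chi π g * (1 - chi η g) ∂μ = -(if chi π = chi η then 1 else 0) := by
            have e2 : (fun g => chi π g * (1 - chi η g)) = fun g =>
                chi π g - chi π g * conj (chi η g) := by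
              funext g
              rw [hreal]
              ring
            have i2 : Integrable (fun g => chi π g * conj (chi η g)) μ := intg ((cont_chi k1).mul
              (Complex.continuous_conj.comp (cont_chi hc)))
            rw [e2, integral_sub (intg (cont_chi k1)) i2, int_chi k1 k2 ht,
              int_pair k1 k2 k3 hc hs, zero_sub]
          rw [e1]
          by_cases he : chi π = chi η
          · rw [if_pos he]
            have h6 := avg_of h2 fun τ hτ => hH.zero_off hc hs hnt hτ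
            simp only [he]
            simpa using h6
          · rw [if_neg he]
            have h6 := avg_of (hall n π k1 k2 ht he) fun τ hτ => hH.zero_off k1 k2 ht hτ
            simpa using h6
        · push Not at ht
          exact hcase n π k1 k2 k3 ht _ hec hei
  · push Not at hex
    refine Or.inl ⟨fun n π τ k1 k2 k3 => ?_, ?_⟩
    · by_cases hτ : τ = 0
      · subst hτ
        exact hex n π k1 k2 k3
      · exact hH.zero_off k1 k2 k3 hτ
    · refine lawE_of continuous_const (B := 1) one_pos (fun g => by simp)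
        fun n π k1 k2 k3 => ?_
      by_cases ht : ∃ g, π g ≠ 1
      · have h6 := avg_of (hex n π k1 k2 ht) fun τ hτ => hH.zero_off k1 k2 ht hτ
        have h7 := int_chi (μ := μ) k1 k2 ht
        simp only [mul_one]
        rw [h7]
        simpa using h6
      · push Not at ht
        exact hcase n π k1 k2 k3 ht _ continuous_const (by simp)

end Pool.Agent.V1142.SC.Hol
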