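import Mathlib

set_option autoImplicit false
set_option linter.unusedSectionVars false

/-!
# Integral positive definite functions on abelian groups

A positive definite function with integral values on an abelian group is a finite sum of such functions each of
which is periodic modulo a subgroup and has finite support modulo this subgroup.
-/

namespace Pool.Agent.V1142.SC.Ip

open Filter Finset

variable {Γ : Type} [AddCommGroup Γ]

/-- positive definite functions with integral values -/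
structure IPD (f : Γ → ℤ) : Prop where
  sym : ∀ a, f (-a) = f a
  pos : ∀ (ι : Type) (s : Finset ι) (x : ι → Γ) (c : ι → ℤ),
    0 ≤ ∑ i ∈ s, ∑ j ∈ s, c i * c j * f (x i - x j)

variable {f : Γ → ℤ}

theorem IPD.zero_le (hf : IPD f) : 0 ≤ f 0 := by
  have h := hf.pos Unit univ (fun _ => 0) (fun _ => 1)
  simpa using h

theorem IPD.abs_le (hf : IPD f) (a : Γ) : |f a| ≤ f 0 := by
  have h1 := hf.pos (Fin 2) univ ![a, 0] ![1, 1]
  have h2 := hf.pos (Fin 2) univ ![a, 0] ![1, -1]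
  simp only [Fin.sum_univ_two, Matrix.cons_val_zero, Matrix.cons_val_one, sub_self, sub_zero,
    zero_sub, hf.sym] at h1 h2
  rw [_root_.abs_le]
  constructor <;> linarith

theorem IPD.period (hf : IPD f) {a : Γ} (ha : f a = f 0) (b : Γ) : f (a + b) = f b := by
  by_contra hne
  set D := f (a + b) - f b with hD
  have hD0 : D ≠ 0 := sub_ne_zero.2 hne
  have h1 := hf.pos (Fin 3) univ ![a, 0, -b] ![-(D * (f 0 + 1)), D * (f 0 + 1), 1]
  simp only [Fin.sum_univ_three, Matrix.cons_val_zero, Matrix.cons_val_one, Matrix.cons_val_two,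
    Matrix.head_cons, Matrix.tail_cons, sub_self, sub_zero, zero_sub, sub_neg_eq_add, hf.sym, zero_add,
    neg_add_cancel, ha] at h1
  have e1 : f (-b - a) = f (a + b) := by
    rw [← hf.sym]
    congr 1
    abel
  simp only [e1] at h1
  have h2 := hf.zero_le
  have h3 : 0 < D ^ 2 := by positivity
  have e2 : f (a + b) = D + f b := by rw [hD]; ring
  rw [e2] at h1
  nlinarith [mul_nonneg h2 h3.le]

/-- the subgroup of the periods -/
def IPD.H (hf : IPD f) : AddSubgroup Γ where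
  carrier := {a | f a = f 0}
  zero_mem' := rfl
  add_mem' := by
    intro a b ha hb
    change f (a + b) = f 0
    rw [hf.period ha]
    exact hb
  neg_mem' := by
    intro a ha
    change f (-a) = f 0
    rw [hf.sym]
    exact ha

theorem IPD.mem_H (hf : IPD f) {a : Γ} : a ∈ hf.H ↔ f a = f 0 := Iff.rfl

section Ul

variable (𝒰 : Ultrafilter Γ)

theorem exists_ul {h : Γ → ℤ} {m : ℤ} (hb : ∀ k, |h k| ≤ m) : ∃ z, ∀ᶠ k in (𝒰 : Filter Γ), h k = z := by
  have h1 : (⋃ z ∈ Set.Icc (-m) m, {k | h k = z}) ∈ 𝒰 := by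
    have : (⋃ z ∈ Set.Icc (-m) m, {k | h k = z}) = Set.univ := by
      ext k
      simp only [Set.mem_iUnion, Set.mem_univ, iff_true]
      exact ⟨h k, _root_.abs_le.1 (hb k), rfl⟩
    rw [this]
    exact Filter.univ_mem
  obtain ⟨z, -, hz⟩ := (Ultrafilter.finite_biUnion_mem_iff (Set.finite_Icc (-m) m)).1 h1
  exact ⟨z, hz⟩

open Classical in
/-- the limit along an ultrafilter -/
noncomputable def ul (h : Γ → ℤ) : ℤ :=
  if hz : ∃ z, ∀ᶠ k in (𝒰 : Filter Γ), h k = z then hz.choose else 0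

theorem ul_spec {h : Γ → ℤ} {m : ℤ} (hb : ∀ k, |h k| ≤ m) : ∀ᶠ k in (𝒰 : Filter Γ), h k = ul 𝒰 h := by
  unfold ul
  rw [dif_pos (exists_ul 𝒰 hb)]
  exact (exists_ul 𝒰 hb).choose_spec

theorem abs_ul {h : Γ → ℤ} {m : ℤ} (hb : ∀ k, |h k| ≤ m) : |ul 𝒰 h| ≤ m := by
  obtain ⟨k, hk⟩ := (ul_spec 𝒰 hb).exists
  rw [← hk]
  exact hb k

variable (f) in
/-- the double limit -/
noncomputable def gl (a : Γ) : ℤ := ul 𝒰 fun k => ul 𝒰 fun l => f (a + k - l)

variable {𝒰}

theorem IPD.exists_seq (hf : IPD f) (T : Finset Γ) {Q : Γ → Prop} (hQ : ∀ᶠ k in (𝒰 : Filter Γ), Q k) :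
    ∃ k : ℕ → Γ, (∀ a, Q (k a)) ∧ ∀ a b, a < b → ∀ t ∈ T, f (t + k a - k b) = gl f 𝒰 t := by
  have hb : ∀ a k, |(fun l => f (a + k - l)) k| ≤ f 0 := fun a k => hf.abs_le _
  obtain ⟨k, h1, h2⟩ := exists_seq_of_forall_finset_exists
    (P := fun k => Q k ∧ ∀ t ∈ T, (ul 𝒰 fun l => f (t + k - l)) = gl f 𝒰 t)
    (r := fun k l => ∀ t ∈ T, f (t + k - l) = ul 𝒰 fun l => f (t + k - l)) (by
      intro s _
      have h3 : ∀ᶠ l in (𝒰 : Filter Γ), ∀ t ∈ T, (ul 𝒰 fun l' => f (t + l - l')) = gl f 𝒰 t := by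
        rw [Filter.eventually_all_finset]
        intro t _
        exact ul_spec 𝒰 (h := fun k => ul 𝒰 fun l' => f (t + k - l')) (m := f 0)
          fun k => abs_ul 𝒰 fun l => hf.abs_le _
      have h4 : ∀ᶠ l in (𝒰 : Filter Γ), ∀ x ∈ s, ∀ t ∈ T, f (t + x - l) =
          ul 𝒰 fun l => f (t + x - l) := by
        rw [Filter.eventually_all_finset]
        intro x _
        rw [Filter.eventually_all_finset]
        intro t _
        exact ul_spec 𝒰 (h := fun l => f (t + x - l)) (m := f 0) fun l => hf.abs_le _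
      obtain ⟨y, hy⟩ := ((hQ.and h3).and h4).exists
      exact ⟨y, hy.1, hy.2⟩)
  refine ⟨k, fun a => (h1 a).1, fun a b hab t ht => ?_⟩
  rw [h2 a b hab t ht, (h1 a).2 t ht]

end Ul

/-- the four blocks -/
theorem block {n : ℕ} (c : Fin 4 → ℤ) (F : Fin 4 → ℕ → Fin 4 → ℕ → ℤ) (V : Fin 4 → Fin 4 → ℤ) {m γ : ℤ}
    (hV : ∀ I J, I ≠ J → ∀ i < n, ∀ j < n, F I i J j = V I J)
    (hd : ∀ I, ∀ i < n, F I i I i = m)
    (hg : ∀ I, ∀ i < n, ∀ j < n, i ≠ j → F I i I j = γ) :
    ∑ p ∈ (univ : Finset (Fin 4)) ×ˢ range n, ∑ q ∈ (univ : Finset (Fin 4)) ×ˢ range n,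
      c p.1 * c q.1 * F p.1 p.2 q.1 q.2 =
    ∑ I, ∑ J, c I * c J * (if I = J then n ^ 2 * γ + n * (m - γ) else n ^ 2 * V I J) := by
  rw [sum_product]
  refine sum_congr rfl fun I _ => ?_
  have h1 : ∀ i ∈ range n, ∑ q ∈ (univ : Finset (Fin 4)) ×ˢ range n,
      c (I, i).1 * c q.1 * F (I, i).1 (I, i).2 q.1 q.2 =
      ∑ J, c I * c J * ∑ j ∈ range n, F I i J j := by
    intro i _
    rw [sum_product]
    refine sum_congr rfl fun J _ => ?_
    rw [mul_sum]
  rw [sum_congr rfl h1, sum_comm]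
  refine sum_congr rfl fun J _ => ?_
  rw [← mul_sum]
  congr 1
  split_ifs with h
  · subst h
    have h2 : ∀ i ∈ range n, ∑ j ∈ range n, F I i I j =
        ∑ j ∈ range n, (γ + if i = j then m - γ else 0) := by
      intro i hi
      refine sum_congr rfl fun j hj => ?_
      split_ifs with h3
      · subst h3
        rw [hd I i (mem_range.1 hi)]
        ring
      · rw [hg I i (mem_range.1 hi) j (mem_range.1 hj) h3]
        ring
    rw [sum_congr rfl h2]
    simp only [sum_add_distrib, sum_const, card_range, nsmul_eq_mul, sum_ite_eq, mem_range]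
    rw [sum_congr rfl fun i hi => if_pos (mem_range.1 hi)]
    simp only [sum_const, card_range, nsmul_eq_mul]
    ring
  · rw [sum_congr rfl fun i hi => sum_congr rfl fun j hj =>
      hV I J h i (mem_range.1 hi) j (mem_range.1 hj)]
    simp only [sum_const, card_range, nsmul_eq_mul]
    ring

variable {𝒰 : Ultrafilter Γ}

theorem IPD.gl_ge (hf : IPD f) (a : Γ) (ε : ℤ) (hε : ε ^ 2 = 1) (n : ℕ) :
    0 ≤ n ^ 2 * (ε * (gl f 𝒰 a - gl f 𝒰 (-a))) + 2 * n * (f 0 - gl f 𝒰 0) := by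
  classical
  obtain ⟨k, -, hk⟩ := hf.exists_seq (𝒰 := 𝒰) {a, -a, 0} (Q := fun _ => True) (by simp)
  set sh : Fin 4 → Γ := ![a, 0, a, 0] with hsh
  set c : Fin 4 → ℤ := ![1, ε, -1, -ε] with hc
  set V0 : Fin 4 → Fin 4 → Γ := fun I J => if I < J then sh I - sh J else sh J - sh I with hV0
  have hmem : ∀ I J, V0 I J ∈ ({a, -a, 0} : Finset Γ) := by
    intro I J
    rw [hV0, hsh]
    fin_cases I <;> fin_cases J <;> simp
  have h0 := hf.pos (Fin 4 × ℕ) (univ ×ˢ range n) (fun p => sh p.1 + k ((p.1 : ℕ) * n + p.2))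
    (fun p => c p.1)
  have h1 := block (n := n) c
    (fun I i J j => f (sh I + k ((I : ℕ) * n + i) - (sh J + k ((J : ℕ) * n + j))))
    (fun I J => gl f 𝒰 (V0 I J)) (m := f 0) (γ := gl f 𝒰 0) (by
      intro I J hIJ i hi j hj
      rcases lt_or_gt_of_ne hIJ with h | h
      · have h2 : (I : ℕ) * n + i < (J : ℕ) * n + j := by
          have h3 : (I : ℕ) + 1 ≤ J := h
          have h4 := Nat.mul_le_mul_right n h3
          rw [add_mul, one_mul] at h4
          omega
        have h5 := hk _ _ h2 (V0 I J) (hmem I J)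
        rw [← h5]
        congr 1
        simp only [hV0, if_pos h]
        abel
      · have h2 : (J : ℕ) * n + j < (I : ℕ) * n + i := by
          have h3 : (J : ℕ) + 1 ≤ I := h
          have h4 := Nat.mul_le_mul_right n h3
          rw [add_mul, one_mul] at h4
          omega
        have h5 := hk _ _ h2 (V0 I J) (hmem I J)
        rw [← h5, ← hf.sym]
        congr 1
        simp only [hV0, if_neg (not_lt.2 h.le)]
        abel)
    (by
      intro I i _
      simp)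
    (by
      intro I i hi j hj hij
      rcases lt_or_gt_of_ne hij with h | h
      · have h5 := hk ((I : ℕ) * n + i) ((I : ℕ) * n + j) (by omega) 0 (by simp)
        rw [← h5]
        congr 1
        abel
      · have h5 := hk ((I : ℕ) * n + j) ((I : ℕ) * n + i) (by omega) 0 (by simp)
        rw [← h5, ← hf.sym]
        congr 1
        abel)
  rw [h1] at h0
  simp only [Fin.sum_univ_four] at h0
  have e1 : V0 0 1 = a := by simp [hV0, hsh]
  have e2 : V0 0 2 = 0 := by simp [hV0, hsh]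
  have e3 : V0 0 3 = a := by simp [hV0, hsh]
  have e4 : V0 1 2 = -a := by simp [hV0, hsh]
  have e5 : V0 1 3 = 0 := by simp [hV0, hsh]
  have e6 : V0 2 3 = a := by simp [hV0, hsh]
  have e1' : V0 1 0 = a := by simp [hV0, hsh]
  have e2' : V0 2 0 = 0 := by simp [hV0, hsh]
  have e3' : V0 3 0 = a := by simp [hV0, hsh]
  have e4' : V0 2 1 = -a := by simp [hV0, hsh]
  have e5' : V0 3 1 = 0 := by simp [hV0, hsh]
  have e6' : V0 3 2 = a := by simp [hV0, hsh]
  have c0 : c 0 = 1 := rfl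
  have c1 : c 1 = ε := rfl
  have c2 : c 2 = -1 := rfl
  have c3 : c 3 = -ε := rfl
  simp only [e1, e2, e3, e4, e5, e6, e1', e2', e3', e4', e5', e6', c0, c1, c2, c3] at h0
  simp only [show ((0 : Fin 4) = 1) = False from by simp, show ((0 : Fin 4) = 2) = False from by simp,
    show ((0 : Fin 4) = 3) = False from by simp, show ((1 : Fin 4) = 0) = False from by simp,
    show ((1 : Fin 4) = 2) = False from by simp, show ((1 : Fin 4) = 3) = False from by simp,
    show ((2 : Fin 4) = 0) = False from by simp, show ((2 : Fin 4) = 1) = False from by simp,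
    show ((2 : Fin 4) = 3) = False from by simp, show ((3 : Fin 4) = 0) = False from by simp,
    show ((3 : Fin 4) = 1) = False from by simp, show ((3 : Fin 4) = 2) = False from by simp,
    if_true, if_false] at h0
  have e : ∀ x y z w : ℤ, 2 * (n ^ 2 * (ε * (x - y)) + 2 * n * (w - z)) =
      1 * 1 * (↑n ^ 2 * z + ↑n * (w - z)) + 1 * ε * (↑n ^ 2 * x) + 1 * -1 * (↑n ^ 2 * z) +
      1 * -ε * (↑n ^ 2 * x) + (ε * 1 * (↑n ^ 2 * x) + ε * ε * (↑n ^ 2 * z + ↑n * (w - z)) +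
      ε * -1 * (↑n ^ 2 * y) + ε * -ε * (↑n ^ 2 * z)) + (-1 * 1 * (↑n ^ 2 * z) + -1 * ε *
      (↑n ^ 2 * y) + -1 * -1 * (↑n ^ 2 * z + ↑n * (w - z)) + -1 * -ε * (↑n ^ 2 * x)) +
      (-ε * 1 * (↑n ^ 2 * x) + -ε * ε * (↑n ^ 2 * z) + -ε * -1 * (↑n ^ 2 * x) +
      -ε * -ε * (↑n ^ 2 * z + ↑n * (w - z))) := by
    intro x y z w
    linear_combination (-(2 * (n : ℤ) * (w - z))) * hε
  have h2 := e (gl f 𝒰 a) (gl f 𝒰 (-a)) (gl f 𝒰 0) (f 0)
  have h3 : 0 ≤ 2 * ((n : ℤ) ^ 2 * (ε * (gl f 𝒰 a - gl f 𝒰 (-a))) +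
      2 * n * (f 0 - gl f 𝒰 0)) := by
    rw [h2]
    exact h0
  linarith

theorem IPD.gl_sym (hf : IPD f) (a : Γ) : gl f 𝒰 (-a) = gl f 𝒰 a := by
  set D := gl f 𝒰 a - gl f 𝒰 (-a) with hD
  set E := f 0 - gl f 𝒰 0 with hE
  have hE0 : 0 ≤ E := by
    have h1 : |gl f 𝒰 0| ≤ f 0 := abs_ul 𝒰 fun k => abs_ul 𝒰 fun l => hf.abs_le _
    have := (_root_.abs_le.1 h1).2
    omega
  have key : ∀ ε : ℤ, ε ^ 2 = 1 → 0 ≤ ε * D := by
    intro ε hε
    by_contra hneg
    push Not at hneg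
    obtain ⟨n, hn⟩ := Int.eq_ofNat_of_zero_le (show 0 ≤ 2 * E + 1 by omega)
    have h1 := hf.gl_ge (𝒰 := 𝒰) a ε hε n
    rw [← hD, ← hE, ← hn] at h1
    have h2 : ε * D ≤ -1 := by omega
    have h3 : (2 * E + 1) ^ 2 * (ε * D) ≤ (2 * E + 1) ^ 2 * (-1) :=
      mul_le_mul_of_nonneg_left h2 (sq_nonneg _)
    nlinarith
  have h1 := key 1 (by norm_num)
  have h2 := key (-1) (by norm_num)
  omega

end Pool.Agent.V1142.SC.Ip
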