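import Pool.Agent.V1142.SC.Ip1

set_option autoImplicit false
set_option linter.unusedSectionVars false

/-!
# Integral positive definite functions on abelian groups: the structure theorem
-/

namespace Pool.Agent.V1142.SC.Ip

open Filter Finset

variable {Γ : Type} [AddCommGroup Γ] {f : Γ → ℤ} {𝒰 : Ultrafilter Γ}

/-- the sum over translates -/
theorem IPD.trans_sum (hf : IPD f) (ι : Type) (s : Finset ι) (x : ι → Γ) (c : ι → ℤ) (N : ℕ)
    (d : ℕ → ℤ) :
    0 ≤ (∑ i ∈ s, ∑ j ∈ s, c i * c j * gl f 𝒰 (x i - x j)) * (∑ a ∈ range N, d a) ^ 2 +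
      ((∑ i ∈ s, ∑ j ∈ s, c i * c j * f (x i - x j)) -
        ∑ i ∈ s, ∑ j ∈ s, c i * c j * gl f 𝒰 (x i - x j)) * ∑ a ∈ range N, d a ^ 2 := by
  classical
  obtain ⟨k, -, hk⟩ := hf.exists_seq (𝒰 := 𝒰) ((s ×ˢ s).image fun p => x p.1 - x p.2)
    (Q := fun _ => True) (by simp)
  set Qg := ∑ i ∈ s, ∑ j ∈ s, c i * c j * gl f 𝒰 (x i - x j) with hQg
  set Qf := ∑ i ∈ s, ∑ j ∈ s, c i * c j * f (x i - x j) with hQf
  have h0 := hf.pos (ι × ℕ) (s ×ˢ range N) (fun p => x p.1 + k p.2) (fun p => c p.1 * d p.2)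
  have hmem : ∀ i ∈ s, ∀ j ∈ s, x i - x j ∈ (s ×ˢ s).image fun p => x p.1 - x p.2 := by
    intro i hi j hj
    exact mem_image.2 ⟨(i, j), mem_product.2 ⟨hi, hj⟩, rfl⟩
  have hval : ∀ i ∈ s, ∀ j ∈ s, ∀ a b, f (x i + k a - (x j + k b)) =
      gl f 𝒰 (x i - x j) + if a = b then f (x i - x j) - gl f 𝒰 (x i - x j) else 0 := by
    intro i hi j hj a b
    split_ifs with h
    · subst h
      rw [add_sub_add_right_eq_sub]
      ring
    · rw [add_zero]
      rcases lt_or_gt_of_ne h with h1 | h1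
      · rw [← hk a b h1 _ (hmem i hi j hj)]
        congr 1
        abel
      · rw [← hf.gl_sym, neg_sub, ← hk b a h1 _ (hmem j hj i hi), ← hf.sym]
        congr 1
        abel
  have h1 : ∑ p ∈ s ×ˢ range N, ∑ q ∈ s ×ˢ range N, c p.1 * d p.2 * (c q.1 * d q.2) *
      f (x p.1 + k p.2 - (x q.1 + k q.2)) =
      Qg * (∑ a ∈ range N, d a) ^ 2 + (Qf - Qg) * ∑ a ∈ range N, d a ^ 2 := by
    have h2 : ∀ p ∈ s ×ˢ range N, ∀ q ∈ s ×ˢ range N, c p.1 * d p.2 * (c q.1 * d q.2) *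
        f (x p.1 + k p.2 - (x q.1 + k q.2)) =
        c p.1 * c q.1 * gl f 𝒰 (x p.1 - x q.1) * (d p.2 * d q.2) +
        c p.1 * c q.1 * (f (x p.1 - x q.1) - gl f 𝒰 (x p.1 - x q.1)) *
          (if p.2 = q.2 then d p.2 * d q.2 else 0) := by
      intro p hp q hq
      rw [hval _ (mem_product.1 hp).1 _ (mem_product.1 hq).1]
      split_ifs <;> ring
    rw [sum_congr rfl fun p hp => sum_congr rfl fun q hq => h2 p hp q hq]
    have h3 : ∀ (F : ι → ι → ℤ) (D : ℕ → ℕ → ℤ),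
        ∑ p ∈ s ×ˢ range N, ∑ q ∈ s ×ˢ range N, F p.1 q.1 * D p.2 q.2 =
        (∑ i ∈ s, ∑ j ∈ s, F i j) * ∑ a ∈ range N, ∑ b ∈ range N, D a b := by
      intro F D
      rw [sum_product, sum_mul]
      refine sum_congr rfl fun i _ => ?_
      have h4 : ∀ a ∈ range N, ∑ q ∈ s ×ˢ range N, F (i, a).1 q.1 * D (i, a).2 q.2 =
          (∑ j ∈ s, F i j) * ∑ b ∈ range N, D a b := by
        intro a _
        rw [sum_product, sum_mul]
        exact sum_congr rfl fun j _ => by rw [mul_sum]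
      rw [sum_congr rfl h4, ← mul_sum]
    simp only [sum_add_distrib]
    rw [h3 (fun i j => c i * c j * gl f 𝒰 (x i - x j)) (fun a b => d a * d b),
      h3 (fun i j => c i * c j * (f (x i - x j) - gl f 𝒰 (x i - x j)))
        (fun a b => if a = b then d a * d b else 0)]
    congr 1
    · congr 1
      rw [sq, sum_mul_sum]
    · congr 1
      · rw [hQf, hQg]
        simp only [mul_sub, sum_sub_distrib]
      · refine sum_congr rfl fun a ha => ?_
        rw [sum_ite_eq, if_pos ha, sq]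
  rw [← h1]
  exact h0

theorem IPD.ipd_gl (hf : IPD f) : IPD (gl f 𝒰) where
  sym := hf.gl_sym
  pos ι s x c := by
    set Qg := ∑ i ∈ s, ∑ j ∈ s, c i * c j * gl f 𝒰 (x i - x j) with hQg
    set Qf := ∑ i ∈ s, ∑ j ∈ s, c i * c j * f (x i - x j) with hQf
    have hQf0 : 0 ≤ Qf := hf.pos ι s x c
    by_contra hneg
    push Not at hneg
    obtain ⟨N, hN⟩ := Int.eq_ofNat_of_zero_le (show 0 ≤ Qf - Qg + 1 by omega)
    have h := hf.trans_sum (𝒰 := 𝒰) ι s x c N fun _ => 1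
    simp only [sum_const, card_range, nsmul_eq_mul, mul_one, one_pow] at h
    rw [← hQg, ← hQf, ← hN] at h
    have h2 : Qg * (Qf - Qg + 1) ^ 2 ≤ -1 * (Qf - Qg + 1) ^ 2 :=
      mul_le_mul_of_nonneg_right (by omega) (sq_nonneg _)
    nlinarith

theorem IPD.sub_gl (hf : IPD f) : IPD (fun a => f a - gl f 𝒰 a) where
  sym a := by rw [hf.sym, hf.gl_sym]
  pos ι s x c := by
    have h := hf.trans_sum (𝒰 := 𝒰) ι s x c 2 fun a => if a = 0 then 1 else -1
    simp only [sum_range_succ, sum_range_zero, zero_add] at h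
    norm_num at h
    simp only [mul_sub, sum_sub_distrib]
    linarith

/-- if the double limit vanishes at zero -/
theorem IPD.ul_zero (hf : IPD f) (h0 : gl f 𝒰 0 = 0) : ul 𝒰 f = 0 := by
  classical
  by_contra hne
  set r := ul 𝒰 f with hr
  obtain ⟨k, hk0, hk⟩ := hf.exists_seq (𝒰 := 𝒰) {0} (Q := fun k => f k = r)
    (ul_spec 𝒰 fun k => hf.abs_le k)
  have hm := hf.zero_le
  obtain ⟨N, hN⟩ := Int.eq_ofNat_of_zero_le (show 0 ≤ (r * f 0) ^ 2 + f 0 + 1 by positivity)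
  -- the vector
  have h1 := hf.pos ℕ (range (N + 1)) (fun a => if a = 0 then 0 else k (a - 1))
    (fun a => if a = 0 then -(r * (f 0 + 1)) else 1)
  have e0 : ∀ a b, f (k a - k b) = if a = b then f 0 else 0 := by
    intro a b
    split_ifs with h
    · rw [h, sub_self]
    · rcases lt_or_gt_of_ne h with h2 | h2
      · rw [← h0, ← hk a b h2 0 (by simp), zero_add]
      · rw [← h0, ← hk b a h2 0 (by simp), zero_add, ← hf.sym, neg_sub]
  rw [sum_range_succ'] at h1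
  simp only [sum_range_succ', Nat.add_eq_zero_iff, one_ne_zero, and_false, if_false, if_true,
    Nat.add_sub_cancel, sub_zero, zero_sub, hf.sym, hk0, e0, one_mul, mul_one] at h1
  simp only [sum_add_distrib, sum_ite_eq, sum_const, card_range, nsmul_eq_mul] at h1
  rw [sum_congr rfl fun a (ha : a ∈ range N) => if_pos ha] at h1
  simp only [sum_const, card_range, nsmul_eq_mul] at h1
  rw [← hN] at h1
  have hr2 : 1 ≤ r ^ 2 := by
    have : 0 < r ^ 2 := by positivity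
    omega
  set m := f 0 with hm0
  set t := r * (m + 1) with ht
  have h2 : 0 ≤ t ^ 2 * m - 2 * (m + 1) * r ^ 2 * ((r * m) ^ 2 + m + 1) +
      ((r * m) ^ 2 + m + 1) * m := by
    have : t ^ 2 * m - 2 * (m + 1) * r ^ 2 * ((r * m) ^ 2 + m + 1) +
      ((r * m) ^ 2 + m + 1) * m = ((r * m) ^ 2 + m + 1) * m + ((r * m) ^ 2 + m + 1) * (-t * r) +
        (((r * m) ^ 2 + m + 1) * (-t * r) + -t * -t * m) := by
      rw [ht]
      ring
    rw [this]
    linarith [h1]
  have h3 : t ^ 2 * m = r ^ 2 * (m + 1) * ((m + 1) * m) := by rw [ht]; ring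
  set A := (r * m) ^ 2 + m + 1 with hA
  have hA1 : (m + 1) * m ≤ A := by
    have : m ^ 2 ≤ (r * m) ^ 2 := by
      rw [mul_pow]
      nlinarith [sq_nonneg m]
    rw [hA]
    nlinarith
  have hA0 : 0 < A := by rw [hA]; positivity
  have h4 : t ^ 2 * m ≤ r ^ 2 * (m + 1) * A := by
    rw [h3]
    exact mul_le_mul_of_nonneg_left hA1 (by positivity)
  have h5 : A * m < r ^ 2 * (m + 1) * A := by
    have h6 : m < r ^ 2 * (m + 1) := by nlinarith
    nlinarith
  nlinarith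

/-- functions which are periodic modulo a subgroup and have finite support modulo it -/
def Pc (f : Γ → ℤ) : Prop := ∃ H : AddSubgroup Γ, (∀ a ∈ H, ∀ b, f (a + b) = f b) ∧
  ∃ T : Finset Γ, ∀ b, f b ≠ 0 → ∃ t ∈ T, b - t ∈ H

theorem IPD.pc_of (hf : IPD f)
    (h : ∀ 𝒰 : Ultrafilter Γ, gl f 𝒰 0 = 0 ∨ gl f 𝒰 0 = f 0) : Pc f := by
  classical
  refine ⟨hf.H, fun a ha b => hf.period ha b, ?_⟩
  by_contra hno
  push Not at hno
  obtain ⟨t, h1, h2⟩ := exists_seq_of_forall_finset_exists (P := fun b => f b ≠ 0)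
    (r := fun s t => t - s ∉ hf.H) (fun S _ => by
      obtain ⟨b, hb, hb2⟩ := hno S
      exact ⟨b, hb, hb2⟩)
  have hne : ∀ i j, i ≠ j → t i - t j ∉ hf.H := by
    intro i j hij
    rcases lt_or_gt_of_ne hij with h3 | h3
    · intro h4
      refine h2 i j h3 ?_
      rw [← neg_sub]
      exact hf.H.neg_mem h4
    · exact h2 j i h3
  obtain ⟨𝒰, hmap⟩ : ∃ 𝒰 : Ultrafilter Γ, ∀ p : Γ → Prop, (∀ᶠ k in (𝒰 : Filter Γ), p k) →
      ∀ᶠ j in (hyperfilter ℕ : Filter ℕ), p (t j) := by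
    refine ⟨(hyperfilter ℕ).map t, fun p hp => ?_⟩
    rwa [Ultrafilter.coe_map, Filter.eventually_map] at hp
  rcases h 𝒰 with h3 | h3
  · have h4 := hf.ul_zero h3
    have h5 := hmap _ (ul_spec 𝒰 (h := f) (m := f 0) fun k => hf.abs_le k)
    obtain ⟨i, hi⟩ := h5.exists
    rw [h4] at hi
    exact h1 i hi
  · have h4 := ul_spec 𝒰 (h := fun k => ul 𝒰 fun l => f (0 + k - l)) (m := f 0)
      fun k => abs_ul 𝒰 fun l => hf.abs_le _
    have h4' : ∀ᶠ k in (𝒰 : Filter Γ), (ul 𝒰 fun l => f (0 + k - l)) = f 0 := by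
      filter_upwards [h4] with k hk
      rw [hk]
      exact h3
    obtain ⟨i, hi⟩ := (hmap _ h4').exists
    have h5 := hmap _ (ul_spec 𝒰 (h := fun l => f (0 + t i - l)) (m := f 0) fun l => hf.abs_le _)
    have h6 : ∀ᶠ j in (hyperfilter ℕ : Filter ℕ), j ∉ ({i} : Set ℕ) := by
      have := Set.Finite.compl_mem_hyperfilter (Set.finite_singleton i)
      exact this
    obtain ⟨j, hj1, hj2⟩ := (h5.and h6).exists
    refine hne i j (fun h => hj2 (by rw [h]; rfl)) ?_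
    rw [IPD.mem_H]
    rw [hi, zero_add] at hj1
    exact hj1

theorem structure_aux : ∀ (m : ℕ) (f : Γ → ℤ), IPD f → f 0 = m →
    ∃ (J : Type) (_ : Fintype J) (F : J → Γ → ℤ), (∀ j, IPD (F j) ∧ Pc (F j)) ∧
      ∀ a, f a = ∑ j, F j a := by
  intro m
  induction m using Nat.strong_induction_on with
  | _ m ih =>
    intro f hf hm
    by_cases h : ∀ 𝒰 : Ultrafilter Γ, gl f 𝒰 0 = 0 ∨ gl f 𝒰 0 = f 0
    · exact ⟨Unit, inferInstance, fun _ => f, fun _ => ⟨hf, hf.pc_of h⟩, fun a => by simp⟩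
    · push Not at h
      obtain ⟨𝒰, h1, h2⟩ := h
      have h3 := (hf.ipd_gl (𝒰 := 𝒰)).zero_le
      have h4 := (hf.sub_gl (𝒰 := 𝒰)).zero_le
      obtain ⟨m₁, hm₁⟩ := Int.eq_ofNat_of_zero_le h3
      obtain ⟨m₂, hm₂⟩ := Int.eq_ofNat_of_zero_le h4
      obtain ⟨J₁, _, F₁, h5, h6⟩ := ih m₁ (by omega) _ (hf.ipd_gl (𝒰 := 𝒰)) hm₁
      obtain ⟨J₂, _, F₂, h7, h8⟩ := ih m₂ (by omega) _ (hf.sub_gl (𝒰 := 𝒰)) hm₂
      refine ⟨J₁ ⊕ J₂, inferInstance, Sum.elim F₁ F₂, ?_, fun a => ?_⟩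
      · rintro (j | j)
        · exact h5 j
        · exact h7 j
      · rw [Fintype.sum_sum_type]
        simp only [Sum.elim_inl, Sum.elim_inr]
        rw [← h6, ← h8]
        ring

/-- **The structure of the positive definite functions with integral values.** -/
theorem structure_thm (hf : IPD f) : ∃ (J : Type) (_ : Fintype J) (F : J → Γ → ℤ),
    (∀ j, IPD (F j) ∧ Pc (F j)) ∧ ∀ a, f a = ∑ j, F j a := by
  obtain ⟨m, hm⟩ := Int.eq_ofNat_of_zero_le hf.zero_le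
  exact structure_aux m f hf hm

end Pool.Agent.V1142.SC.Ip
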