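import Pool.Agent.V1142.SC.Many

set_option autoImplicit false
set_option linter.unusedSectionVars false

/-!
# The imaginary part of the logarithm of an Euler product
-/

namespace Pool.Agent.V1142.SC.Ip

open Complex Filter Topology NumberField IsDedekindDomain
  Pool.Agent.TH553.ST Pool.Agent.TH553.RS Pool.Agent.W540.BE Pool.Agent.V1142.SC.Many
  Pool.Agent.H341R2

section

variable {P : Type*} {N : P → ℕ} {b : ℕ} {α : P → Fin b → ℂ}

theorem norm_lg_le (hα : ∀ p j, ‖α p j‖ = 1) (p : P) {z : ℂ} (hz : ‖z‖ ≤ 1 / 2) :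
    ‖lg (α p) z‖ ≤ 2 * b * ‖z‖ := by
  have h1 := lg_sub (hα p) hz
  have h2 : ‖(∑ j, α p j) * z‖ ≤ b * ‖z‖ := by
    rw [norm_mul]
    refine mul_le_mul_of_nonneg_right ?_ (norm_nonneg _)
    refine (norm_sum_le _ _).trans ?_
    simp [hα]
  have h3 : ‖lg (α p) z‖ ≤ ‖lg (α p) z - (∑ j, α p j) * z‖ + ‖(∑ j, α p j) * z‖ := by
    have := norm_add_le (lg (α p) z - (∑ j, α p j) * z) ((∑ j, α p j) * z)
    rwa [sub_add_cancel] at this
  have h4 : (b : ℝ) * ‖z‖ ^ 2 ≤ b * ‖z‖ := by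
    refine mul_le_mul_of_nonneg_left ?_ (Nat.cast_nonneg _)
    nlinarith [norm_nonneg z]
  linarith

/-- the argument of the power -/
noncomputable def zz (N : P → ℕ) (ε : ℝ) (p : P) : ℂ := ((N p : ℕ) : ℂ) ^ (-(1 + ε : ℂ))

theorem norm_zz (hN : NormSys N) (ε : ℝ) (p : P) : ‖zz N ε p‖ = (N p : ℝ) ^ (-(1 + ε)) := by
  unfold zz
  rw [norm_cpow_neg hN]
  simp

theorem zz_half (hN : NormSys N) {ε : ℝ} (hε : 0 ≤ ε) (p : P) : ‖zz N ε p‖ ≤ 1 / 2 := by
  unfold zz
  exact cpow_le_half hN p (by simp; exact hε)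

theorem cont_zz (hN : NormSys N) (p : P) : Continuous fun ε : ℝ => zz N ε p := by
  unfold zz
  have h : ((N p : ℕ) : ℂ) ≠ 0 := by
    have := hN.two_le p
    exact_mod_cast (by omega : N p ≠ 0)
  refine Continuous.const_cpow ?_ (Or.inl h)
  fun_prop

theorem cont_lg (hα : ∀ p j, ‖α p j‖ = 1) (hN : NormSys N) (p : P) :
    ContinuousOn (fun ε : ℝ => lg (α p) (zz N ε p)) (Set.Ioi 0) := by
  unfold lg
  refine continuousOn_finsetSum _ fun j _ => ?_
  refine ContinuousOn.neg ?_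
  refine ContinuousOn.clog ?_ fun ε hε => ?_
  · exact ((continuous_const.sub (continuous_const.mul (cont_zz hN p)))).continuousOn
  · left
    have h1 := zz_half hN (le_of_lt hε) p
    have h2 : |(α p j * zz N ε p).re| ≤ 1 / 2 := by
      refine (Complex.abs_re_le_norm _).trans ?_
      rw [norm_mul, hα, one_mul]
      exact h1
    rw [Complex.sub_re, Complex.one_re]
    have := (abs_le.1 h2).2
    linarith

/-- the logarithm of the Euler product -/
noncomputable def GG (N : P → ℕ) (α : P → Fin b → ℂ) (ε : ℝ) : ℂ := ∑' p, lg (α p) (zz N ε p)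

theorem summ_lg (hα : ∀ p j, ‖α p j‖ = 1) (hN : NormSys N) {ε : ℝ} (hε : 0 < ε) :
    Summable fun p => lg (α p) (zz N ε p) := by
  refine Summable.of_norm_bounded ((hN.summable (-(1 + ε)) (by linarith)).mul_left (2 * (b : ℝ)))
    fun p => ?_
  have := norm_lg_le hα p (zz_half hN hε.le p)
  rwa [norm_zz hN] at this

theorem cont_GG (hα : ∀ p j, ‖α p j‖ = 1) (hN : NormSys N) :
    ContinuousOn (GG N α) (Set.Ioi 0) := by
  intro ε hε
  have hε' : (0 : ℝ) < ε := hε
  have h1 : ContinuousOn (GG N α) (Set.Ioi (ε / 2)) := by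
    refine continuousOn_tsum (u := fun p => 2 * b * (N p : ℝ) ^ (-(1 + ε / 2)))
      (fun p => (cont_lg hα hN p).mono fun x hx => ?_)
      ((hN.summable (-(1 + ε / 2)) (by linarith)).mul_left (2 * (b : ℝ))) fun p x hx => ?_
    · have : ε / 2 < x := hx
      exact (by linarith : (0 : ℝ) < x)
    · have hx' : ε / 2 < x := hx
      have h2 := norm_lg_le hα p (zz_half hN (ε := x) (by linarith) p)
      rw [norm_zz hN] at h2
      refine h2.trans (mul_le_mul_of_nonneg_left ?_ (by positivity))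
      refine Real.rpow_le_rpow_of_exponent_le ?_ (by linarith)
      have := hN.two_le p
      exact_mod_cast (by omega : 1 ≤ N p)
  have h3 : Set.Ioi (ε / 2) ∈ 𝓝 ε := Ioi_mem_nhds (by linarith)
  exact (h1.continuousAt h3).continuousWithinAt

theorem exp_GG (hα : ∀ p j, ‖α p j‖ = 1) (hN : NormSys N) {ε : ℝ} (hε : 0 < ε) :
    cexp (GG N α ε) = ∏' p, (∏ j, (1 - α p j * zz N ε p))⁻¹ := by
  have h1 := (summ_lg hα hN hε).hasSum.cexp
  have h2 : (cexp ∘ fun p => lg (α p) (zz N ε p)) = fun p => (∏ j, (1 - α p j * zz N ε p))⁻¹ := by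
    funext p
    exact exp_lg (hα p) (lt_of_le_of_lt (zz_half hN hε.le p) (by norm_num))
  rw [h2] at h1
  exact h1.tprod_eq.symm

/-- the logarithm and the sum over the primes -/
theorem im_GG_sub (hα : ∀ p j, ‖α p j‖ = 1) (hN : NormSys N) : ∃ C : ℝ, ∀ ε : ℝ, 0 < ε →
    |(GG N α ε).im - EP N ε fun p => (∑ j, α p j).im| ≤ C := by
  refine ⟨∑' p, b * (N p : ℝ) ^ (-2 : ℝ), fun ε hε => ?_⟩
  have hsum2 : Summable fun p => (b : ℝ) * (N p : ℝ) ^ (-2 : ℝ) :=
    (hN.summable (-2) (by norm_num)).mul_left _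
  have hs1 := summ_lg hα hN hε
  have hzz : ∀ p, zz N ε p = (((N p : ℝ) ^ (-(1 + ε)) : ℝ) : ℂ) := by
    intro p
    unfold zz
    rw [Complex.ofReal_cpow (Nat.cast_nonneg _)]
    push_cast
    rfl
  have hb : ∀ p, ‖lg (α p) (zz N ε p) - (∑ j, α p j) * zz N ε p‖ ≤ b * (N p : ℝ) ^ (-2 : ℝ) := by
    intro p
    refine (lg_sub (hα p) (zz_half hN hε.le p)).trans ?_
    refine mul_le_mul_of_nonneg_left ?_ (Nat.cast_nonneg _)
    rw [norm_zz hN]
    have hN0 : (0 : ℝ) ≤ N p := by positivity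
    have hN1 : (1 : ℝ) ≤ N p := by
      have := hN.two_le p
      exact_mod_cast (by omega : 1 ≤ N p)
    calc ((N p : ℝ) ^ (-(1 + ε))) ^ 2 ≤ ((N p : ℝ) ^ (-1 : ℝ)) ^ 2 := by
          refine pow_le_pow_left₀ (by positivity) ?_ 2
          exact Real.rpow_le_rpow_of_exponent_le hN1 (by linarith)
      _ = (N p : ℝ) ^ (-2 : ℝ) := by
          rw [← Real.rpow_natCast, ← Real.rpow_mul hN0]
          norm_num
  have hs3 : Summable fun p => lg (α p) (zz N ε p) - (∑ j, α p j) * zz N ε p :=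
    Summable.of_norm_bounded hsum2 hb
  have hs2 : Summable fun p => (∑ j, α p j) * zz N ε p := by
    have := hs1.sub hs3
    simpa using this
  have e1 : (EP N ε fun p => (∑ j, α p j).im) = (∑' p, (∑ j, α p j) * zz N ε p).im := by
    rw [Complex.im_tsum hs2]
    unfold EP
    refine tsum_congr fun p => ?_
    rw [hzz, Complex.im_mul_ofReal]
  rw [e1, GG, ← Complex.sub_im, ← hs1.tsum_sub hs2]
  refine (Complex.abs_im_le_norm _).trans ?_
  exact tsum_of_norm_bounded hsum2.hasSum hb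

/-- the imaginary part of the logarithm is bounded -/
theorem im_bounded (hα : ∀ p j, ‖α p j‖ = 1) (hN : NormSys N) {Λ : ℂ → ℂ}
    (h1 : MeromorphicAt Λ 1) (h2 : ∀ᶠ ε : ℝ in 𝓝[>] 0, Λ (1 + ε) = cexp (GG N α ε)) {m : ℤ}
    (h3 : meromorphicOrderAt Λ 1 = m) :
    ∃ C : ℝ, ∀ᶠ ε : ℝ in 𝓝[>] 0, |(GG N α ε).im| ≤ C := by
  obtain ⟨g, hg, hg0, hgm⟩ := (meromorphicOrderAt_eq_int_iff h1).1 h3
  have hpath : Tendsto (fun ε : ℝ => (1 + ε : ℂ)) (𝓝[>] 0) (𝓝[≠] 1) := by
    rw [tendsto_nhdsWithin_iff]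
    constructor
    · have : Tendsto (fun ε : ℝ => (1 + ε : ℂ)) (𝓝 0) (𝓝 (1 + ((0 : ℝ) : ℂ))) :=
        (continuous_const.add Complex.continuous_ofReal).tendsto 0
      simp only [Complex.ofReal_zero, add_zero] at this
      exact this.mono_left nhdsWithin_le_nhds
    · filter_upwards [self_mem_nhdsWithin] with ε hε
      have hε' : (0 : ℝ) < ε := hε
      simp [hε'.ne']
  have hgn : ∀ᶠ z in 𝓝 (1 : ℂ), AnalyticAt ℂ g z := hg.eventually_analyticAt
  have hgs : ∀ᶠ z in 𝓝 (1 : ℂ), g z / g 1 ∈ slitPlane := by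
    have hc : ContinuousAt (fun z => g z / g 1) 1 := hg.continuousAt.div_const _
    refine hc.eventually_mem ?_
    rw [div_self hg0]
    exact isOpen_slitPlane.mem_nhds Complex.one_mem_slitPlane
  have hall := (hpath.eventually hgm).and ((hpath.mono_right nhdsWithin_le_nhds).eventually
    (hgn.and hgs))
  have hall2 := hall.and h2
  rw [eventually_nhdsWithin_iff, Metric.eventually_nhds_iff] at hall2
  obtain ⟨δ, hδ, hall3⟩ := hall2
  have hI : ∀ ε ∈ Set.Ioo (0 : ℝ) δ, (Λ (1 + ε) = ((1 + ε : ℂ) - 1) ^ m • g (1 + ε) ∧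
      AnalyticAt ℂ g (1 + ε) ∧ g (1 + ε) / g 1 ∈ slitPlane) ∧ Λ (1 + ε) = cexp (GG N α ε) := by
    intro ε hε
    refine hall3 ?_ hε.1
    rw [Real.dist_eq, sub_zero, abs_of_pos hε.1]
    exact hε.2
  set ψ : ℝ → ℝ := fun ε => (GG N α ε).im - (Complex.log (g (1 + ε) / g 1)).im -
    (Complex.log (g 1)).im with hψ
  have hcont : ContinuousOn ψ (Set.Ioo 0 δ) := by
    refine (ContinuousOn.sub ?_ ?_).sub continuousOn_const
    · exact Complex.continuous_im.comp_continuousOn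
        ((cont_GG hα hN).mono fun x hx => hx.1)
    · intro ε hε
      refine ContinuousAt.continuousWithinAt ?_
      refine Complex.continuous_im.continuousAt.comp ?_
      refine ContinuousAt.clog ?_ (hI ε hε).1.2.2
      refine ContinuousAt.div_const ?_ _
      have h4 : ContinuousAt g ((fun x : ℝ => (1 + x : ℂ)) ε) := (hI ε hε).1.2.1.continuousAt
      exact ContinuousAt.comp (f := fun x : ℝ => (1 + x : ℂ)) h4
        (continuous_const.add Complex.continuous_ofReal).continuousAt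
  have hval : ∀ ε ∈ Set.Ioo (0 : ℝ) δ, ψ ε ∈ Set.range fun n : ℤ => (n : ℝ) * (2 * Real.pi) := by
    intro ε hε
    obtain ⟨⟨k1, -, k2⟩, k3⟩ := hI ε hε
    have hε0 : (ε : ℂ) ≠ 0 := by exact_mod_cast hε.1.ne'
    have k4 : cexp (GG N α ε) = (ε : ℂ) ^ m * g (1 + ε) := by
      rw [← k3, k1, smul_eq_mul, add_sub_cancel_left]
    have hu : g (1 + ε) ≠ 0 := by
      intro h
      rw [h, mul_zero] at k4
      exact Complex.exp_ne_zero _ k4
    have hu1 : g (1 + ε) / g 1 ≠ 0 := div_ne_zero hu hg0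
    have k5 : cexp (GG N α ε) = cexp ((m : ℂ) * ((Real.log ε : ℝ) : ℂ) +
        Complex.log (g (1 + ε) / g 1) + Complex.log (g 1)) := by
      rw [k4, Complex.exp_add, Complex.exp_add, Complex.exp_log hu1, Complex.exp_log hg0,
        Complex.exp_int_mul, ← Complex.ofReal_exp, Real.exp_log hε.1, mul_assoc,
        div_mul_cancel₀ _ hg0]
    obtain ⟨n, hn⟩ := Complex.exp_eq_exp_iff_exists_int.1 k5
    refine ⟨n, ?_⟩
    have k6 := congrArg Complex.im hn
    have e1 : ((m : ℂ) * ((Real.log ε : ℝ) : ℂ)).im = 0 := by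
      rw [← Complex.ofReal_intCast, ← Complex.ofReal_mul, Complex.ofReal_im]
    have e2 : ((n : ℂ) * (2 * (Real.pi : ℂ) * I)).im = (n : ℝ) * (2 * Real.pi) := by
      have : (n : ℂ) * (2 * (Real.pi : ℂ) * I) = (((n : ℝ) * (2 * Real.pi) : ℝ) : ℂ) * I := by
        push_cast
        ring
      rw [this, Complex.re_ofReal_mul |> fun _ => Complex.im_ofReal_mul]
      simp
    simp only [Complex.add_im, e1, e2] at k6
    rw [hψ]
    simp only
    linarith
  have hsub : (ψ '' Set.Ioo 0 δ).Subsingleton := by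
    have hcount : (Set.range fun n : ℤ => (n : ℝ) * (2 * Real.pi)).Countable := Set.countable_range _
    refine hcount.isTotallyDisconnected _ ?_ (isPreconnected_Ioo.image ψ hcont)
    rintro _ ⟨ε, hε, rfl⟩
    exact hval ε hε
  set c := ψ (δ / 2) with hc
  have hconst : ∀ ε ∈ Set.Ioo (0 : ℝ) δ, ψ ε = c := fun ε hε =>
    hsub ⟨ε, hε, rfl⟩ ⟨δ / 2, ⟨by linarith, by linarith⟩, rfl⟩
  refine ⟨|c| + Real.pi + Real.pi, ?_⟩
  have hmem : Set.Ioo (0 : ℝ) δ ∈ 𝓝[>] (0 : ℝ) := Ioo_mem_nhdsGT hδ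
  filter_upwards [hmem] with ε hε
  have h4 := hconst ε hε
  have h5 : (GG N α ε).im = c + (Complex.log (g (1 + ε) / g 1)).im + (Complex.log (g 1)).im := by
    rw [← h4, hψ]
    ring
  have h6 : ∀ w : ℂ, |(Complex.log w).im| ≤ Real.pi := by
    intro w
    rw [Complex.log_im]
    exact Complex.abs_arg_le_pi _
  rw [h5]
  calc |c + (Complex.log (g (1 + ε) / g 1)).im + (Complex.log (g 1)).im|
      ≤ |c + (Complex.log (g (1 + ε) / g 1)).im| + |(Complex.log (g 1)).im| := abs_add_le _ _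
    _ ≤ |c| + |(Complex.log (g (1 + ε) / g 1)).im| + |(Complex.log (g 1)).im| := by
        gcongr
        exact abs_add_le _ _
    _ ≤ |c| + Real.pi + Real.pi := by
        gcongr
        · exact h6 _
        · exact h6 _

end

section

variable {K : Type} [Field K] [NumberField K] {κ : Type} [Fintype κ] [DecidableEq κ]
  {A : HeightOneSpectrum (𝓞 K) → Matrix κ κ ℂ}

/-- **The mean value of the imaginary part.** -/
theorem qt_im (hA : ∀ v, A v ∈ Matrix.unitaryGroup κ ℂ) {Λ : ℂ → ℂ} (h1 : MeromorphicAt Λ 1)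
    (h2 : ∀ᶠ s in 𝓝 (1 : ℂ), (1 : ℝ) < s.re → Λ s = LA A s) :
    Tendsto (fun ε : ℝ => qt (nm K) (fun v => ((A v).trace).im) ε) (𝓝[>] 0) (𝓝 0) := by
  obtain ⟨α, k1, k2, k3⟩ := exists_alA hA
  have hN : NormSys (nm K) := normSys
  have hLG : ∀ ε : ℝ, 0 < ε → LA A (1 + ε) = cexp (GG (nm K) α ε) := by
    intro ε hε
    rw [exp_GG k1 hN hε]
    unfold LA zz
    refine tprod_congr fun v => ?_
    rw [k3]
  have hpath : Tendsto (fun ε : ℝ => (1 + ε : ℂ)) (𝓝[>] 0) (𝓝 1) := by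
    have : Tendsto (fun ε : ℝ => (1 + ε : ℂ)) (𝓝 0) (𝓝 (1 + ((0 : ℝ) : ℂ))) :=
      (continuous_const.add Complex.continuous_ofReal).tendsto 0
    simp only [Complex.ofReal_zero, add_zero] at this
    exact this.mono_left nhdsWithin_le_nhds
  have hev : ∀ᶠ ε : ℝ in 𝓝[>] 0, Λ (1 + ε) = cexp (GG (nm K) α ε) := by
    filter_upwards [hpath.eventually h2, self_mem_nhdsWithin] with ε h3 h4
    have hε : (0 : ℝ) < ε := h4
    rw [h3 (by simp; exact hε), hLG ε hε]
  have hs := size_LA hA 0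
  simp only [Complex.ofReal_zero, zero_mul, add_zero] at hs
  obtain ⟨m, hm, -⟩ := order_unit (L := LA A) (τ := 0) (by simpa using hs.1) (Λ := Λ)
    (by simpa using h1) (by simpa using h2)
  simp only [Complex.ofReal_zero, zero_mul, add_zero] at hm
  obtain ⟨C, hC⟩ := im_bounded k1 hN h1 hev hm
  obtain ⟨C', hC'⟩ := im_GG_sub k1 hN
  have hlim : Tendsto (fun ε : ℝ => (C + C') / lam ε) (𝓝[>] 0) (𝓝 0) :=
    tendsto_const_nhds.div_atTop lam_tendsto
  refine squeeze_zero_norm' ?_ hlim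
  filter_upwards [hC, self_mem_nhdsWithin, lam_tendsto.eventually_gt_atTop 0] with ε h3 h4 h5
  have h6 := hC' ε h4
  unfold qt
  rw [norm_div, Real.norm_eq_abs, Real.norm_eq_abs, abs_of_pos h5]
  refine div_le_div_of_nonneg_right ?_ h5.le
  have h7 : (fun v => (∑ j, α v j).im) = fun v => ((A v).trace).im := funext fun v => by rw [k2]
  rw [h7] at h6
  rw [abs_le] at *
  constructor <;> linarith [h6.1, h6.2, h3.1, h3.2]

end

end Pool.Agent.V1142.SC.Ip
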