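import Mathlib

set_option autoImplicit false
set_option linter.unusedSectionVars false

/-!
# Monomials on the torus and the characters of the tensor products of exterior powers
-/

namespace Pool.Agent.V1142.SC.Ip

open Finset

variable {n : ℕ}

/-- the monomials -/
noncomputable def mon (z : Fin n → Circle) (l : Fin n → ℤ) : Circle := ∏ a, z a ^ l a

theorem mon_zero (z : Fin n → Circle) : mon z 0 = 1 := by simp [mon]

theorem mon_add (z : Fin n → Circle) (l m : Fin n → ℤ) : mon z (l + m) = mon z l * mon z m := by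
  simp [mon, zpow_add, prod_mul_distrib]

theorem mon_neg (z : Fin n → Circle) (l : Fin n → ℤ) : mon z (-l) = (mon z l)⁻¹ := by
  simp [mon]

theorem mon_sub (z : Fin n → Circle) (l m : Fin n → ℤ) : mon z (l - m) = mon z l * (mon z m)⁻¹ := by
  rw [sub_eq_add_neg, mon_add, mon_neg]

theorem mon_mul (z w : Fin n → Circle) (l : Fin n → ℤ) : mon (z * w) l = mon z l * mon w l := by
  simp [mon, mul_zpow, prod_mul_distrib]

theorem cont_mon (l : Fin n → ℤ) : Continuous fun z : Fin n → Circle => mon z l := by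
  unfold mon
  refine continuous_finsetProd _ fun a _ => ?_
  exact (continuous_apply a).zpow _

/-- the index set of the weights of a tensor product of exterior powers: there are `d i` factors
`∧^{i+1}` -/
abbrev Fam (n : ℕ) (d : Fin n → ℕ) : Type :=
  (p : Σ i : Fin n, Fin (d i)) → {S : Finset (Fin n) // S.card = (p.1 : ℕ) + 1}

/-- the eigenvalues on the tensor product of exterior powers, twisted by `det^(-k)` -/
noncomputable def wt (z : Fin n → Circle) (d : Fin n → ℕ) (k : ℕ) (S : Fam n d) : Circle :=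
  (∏ p, ∏ a ∈ (S p).1, z a) * ((∏ a, z a)⁻¹) ^ k

/-- the elementary symmetric functions -/
noncomputable def es (z : Fin n → Circle) (j : ℕ) : ℂ :=
  ∑ S : {S : Finset (Fin n) // S.card = j}, ∏ a ∈ S.1, (z a : ℂ)

theorem es_eq (z : Fin n → Circle) (j : ℕ) :
    MvPolynomial.aeval (fun a => (z a : ℂ)) (MvPolynomial.esymm (Fin n) ℤ j) = es z j := by
  unfold es MvPolynomial.esymm
  rw [map_sum]
  simp only [map_prod, MvPolynomial.aeval_X]
  refine Finset.sum_subtype _ (fun S => ?_) _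
  simp [Finset.mem_powersetCard]

theorem sum_wt (z : Fin n → Circle) (d : Fin n → ℕ) (k : ℕ) :
    ∑ S : Fam n d, ((wt z d k S : Circle) : ℂ) =
      (∏ i : Fin n, es z (i + 1) ^ d i) * (((∏ a, z a)⁻¹ : Circle) : ℂ) ^ k := by
  unfold wt
  simp only [Circle.coe_mul, Circle.coe_pow]
  rw [← sum_mul]
  congr 1
  have h1 : ∀ S : Fam n d, ((∏ p, ∏ a ∈ (S p).1, z a : Circle) : ℂ) =
      ∏ p, ∏ a ∈ (S p).1, (z a : ℂ) := by
    intro S
    have h2 : ∀ (ι : Type) (s : Finset ι) (f : ι → Circle), ((∏ i ∈ s, f i : Circle) : ℂ) =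
        ∏ i ∈ s, (f i : ℂ) := fun ι s f => map_prod Circle.coeHom f s
    rw [h2]
    exact prod_congr rfl fun p _ => h2 _ _ _
  simp only [h1]
  have h3 := Fintype.prod_sum (fun (p : Σ i : Fin n, Fin (d i))
    (S : {S : Finset (Fin n) // S.card = (p.1 : ℕ) + 1}) => ∏ a ∈ S.1, (z a : ℂ))
  rw [← h3, Fintype.prod_sigma]
  refine prod_congr rfl fun i _ => ?_
  have h4 : ∀ y : Fin (d i), (∑ S : {S : Finset (Fin n) // S.card = (i : ℕ) + 1},
      ∏ a ∈ S.1, (z a : ℂ)) = es z (i + 1) := fun _ => rfl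
  have h5 := prod_congr (s₁ := (univ : Finset (Fin (d i)))) rfl fun y _ => h4 y
  refine h5.trans ?_
  rw [prod_const, card_univ, Fintype.card_fin]

/-- the symmetrized monomials -/
noncomputable def sm (z : Fin n → Circle) (l : Fin n → ℤ) : ℂ :=
  ∑ σ : Equiv.Perm (Fin n), ((mon z (l ∘ σ) : Circle) : ℂ)

theorem coe_prod (ι : Type) (s : Finset ι) (f : ι → Circle) : ((∏ i ∈ s, f i : Circle) : ℂ) =
    ∏ i ∈ s, (f i : ℂ) := map_prod Circle.coeHom f s

/-- the symmetrized monomials are integral combinations of the characters -/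
theorem exists_comb (l : Fin n → ℤ) : ∃ (k : ℕ) (T : Finset (Fin n →₀ ℕ)) (c : (Fin n →₀ ℕ) → ℤ),
    ∀ z : Fin n → Circle, sm z l = ∑ t ∈ T, (c t : ℂ) * ∑ S : Fam n t, ((wt z t k S : Circle) : ℂ) := by
  classical
  set k : ℕ := ∑ a, (l a).natAbs with hk
  set m : Fin n → ℕ := fun a => (l a + k).toNat with hm
  have hmk : ∀ a, (m a : ℤ) = l a + k := by
    intro a
    rw [hm]
    simp only
    rw [Int.toNat_of_nonneg]
    have h1 : (l a).natAbs ≤ k := single_le_sum (f := fun a => (l a).natAbs)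
      (fun _ _ => Nat.zero_le _) (mem_univ a)
    omega
  set P : MvPolynomial (Fin n) ℤ := ∑ σ : Equiv.Perm (Fin n), ∏ a, MvPolynomial.X a ^ m (σ a)
    with hP
  have hsym : P.IsSymmetric := by
    intro τ
    rw [hP, map_sum]
    simp only [map_prod, map_pow, MvPolynomial.rename_X]
    refine Fintype.sum_equiv (Equiv.mulRight τ⁻¹) _ _ fun σ => ?_
    refine Fintype.prod_equiv τ _ _ fun a => ?_
    simp
  obtain ⟨q, hq⟩ := MvPolynomial.esymmAlgHom_fin_surjective ℤ (le_refl n) ⟨P, hsym⟩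
  have hq' : MvPolynomial.aeval (fun i : Fin n => MvPolynomial.esymm (Fin n) ℤ (i + 1)) q = P := by
    rw [← MvPolynomial.esymmAlgHom_apply, hq]
  refine ⟨k, q.support, fun t => q.coeff t, fun z => ?_⟩
  have h1 : MvPolynomial.aeval (fun a => (z a : ℂ)) P =
      ∑ t ∈ q.support, ((q.coeff t : ℤ) : ℂ) * ∏ i : Fin n, es z (i + 1) ^ t i := by
    rw [← hq']
    have h2 : MvPolynomial.aeval (fun a => (z a : ℂ))
        (MvPolynomial.aeval (fun i : Fin n => MvPolynomial.esymm (Fin n) ℤ (i + 1)) q) =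
        MvPolynomial.aeval (fun i : Fin n => es z (i + 1)) q := by
      rw [← AlgHom.comp_apply, MvPolynomial.comp_aeval]
      simp only [es_eq]
    rw [h2, MvPolynomial.aeval_def, MvPolynomial.eval₂_eq']
    rfl
  have h3 : MvPolynomial.aeval (fun a => (z a : ℂ)) P =
      sm z l * ((∏ a, z a : Circle) : ℂ) ^ k := by
    rw [hP, map_sum, sm, sum_mul]
    refine sum_congr rfl fun σ _ => ?_
    simp only [map_prod, map_pow, MvPolynomial.aeval_X]
    rw [← Circle.coe_pow, ← Circle.coe_mul]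
    unfold mon
    rw [← prod_pow, ← prod_mul_distrib, coe_prod]
    refine prod_congr rfl fun a _ => ?_
    rw [← Circle.coe_pow]
    congr 1
    rw [← zpow_natCast, hmk, zpow_add, zpow_natCast]
    rfl
  have h4 : sm z l = MvPolynomial.aeval (fun a => (z a : ℂ)) P *
      (((∏ a, z a)⁻¹ : Circle) : ℂ) ^ k := by
    rw [h3, mul_assoc, ← mul_pow, ← Circle.coe_mul, mul_inv_cancel, Circle.coe_one, one_pow,
      mul_one]
  rw [h4, h1, sum_mul]
  refine sum_congr rfl fun t _ => ?_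
  rw [sum_wt, mul_assoc]

/-- the positivity identity -/
theorem sm_sub_sum (z : Fin n → Circle) (ι : Type) (s : Finset ι) (x : ι → Fin n → ℤ) (c : ι → ℤ) :
    ∑ i ∈ s, ∑ j ∈ s, ((c i * c j : ℤ) : ℂ) * sm z (x i - x j) =
      ((∑ σ : Equiv.Perm (Fin n), ‖∑ i ∈ s, (c i : ℂ) * ((mon z (x i ∘ σ) : Circle) : ℂ)‖ ^ 2 : ℝ) : ℂ)
    := by
  rw [Complex.ofReal_sum]
  simp only [Complex.ofReal_pow]
  have h1 : ∀ σ : Equiv.Perm (Fin n),
      ((‖∑ i ∈ s, (c i : ℂ) * ((mon z (x i ∘ σ) : Circle) : ℂ)‖ : ℝ) : ℂ) ^ 2 =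
      ∑ i ∈ s, ∑ j ∈ s, ((c i * c j : ℤ) : ℂ) * ((mon z ((x i - x j) ∘ σ) : Circle) : ℂ) := by
    intro σ
    rw [← Complex.mul_conj', map_sum, sum_mul_sum]
    refine sum_congr rfl fun i _ => sum_congr rfl fun j _ => ?_
    have h2 : (x i - x j) ∘ σ = x i ∘ σ - x j ∘ σ := rfl
    rw [h2, mon_sub, Circle.coe_mul, Circle.coe_inv_eq_conj, map_mul, map_intCast]
    push_cast
    ring
  simp only [h1]
  unfold sm
  simp only [mul_sum]
  rw [sum_congr rfl fun i _ => sum_comm, sum_comm]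

theorem sm_neg (z : Fin n → Circle) (l : Fin n → ℤ) : sm z (-l) = (starRingEnd ℂ) (sm z l) := by
  unfold sm
  rw [map_sum]
  refine sum_congr rfl fun σ _ => ?_
  have h2 : (-l) ∘ σ = -(l ∘ σ) := rfl
  rw [h2, mon_neg, Circle.coe_inv_eq_conj]

theorem norm_sm_le (z : Fin n → Circle) (l : Fin n → ℤ) : ‖sm z l‖ ≤ (n.factorial : ℝ) := by
  unfold sm
  refine (norm_sum_le _ _).trans ?_
  simp [Circle.norm_coe, Fintype.card_perm]

end Pool.Agent.V1142.SC.Ip
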