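import Pool.Agent.V1142.SC.Ip2
import Pool.Agent.V1142.SC.Ip4

set_option autoImplicit false
set_option linter.unusedSectionVars false

/-!
# Closed subgroups of the torus and trigonometric polynomials on them
-/

namespace Pool.Agent.V1142.SC.Ip

open Finset MeasureTheory

variable {n : ℕ}

/-- the annihilator -/
def perp (H : AddSubgroup (Fin n → ℤ)) : Subgroup (Fin n → Circle) where
  carrier := {z | ∀ l ∈ H, mon z l = 1}
  mul_mem' := by
    intro z w hz hw l hl
    rw [mon_mul, hz l hl, hw l hl, mul_one]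
  one_mem' := by
    intro l _
    simp [mon]
  inv_mem' := by
    intro z hz l hl
    have h : mon z⁻¹ l = (mon z l)⁻¹ := by simp [mon]
    rw [h, hz l hl, inv_one]

theorem mem_perp {H : AddSubgroup (Fin n → ℤ)} {z : Fin n → Circle} :
    z ∈ perp H ↔ ∀ l ∈ H, mon z l = 1 := Iff.rfl

theorem perp_closed (H : AddSubgroup (Fin n → ℤ)) : IsClosed (perp H : Set (Fin n → Circle)) := by
  have : (perp H : Set (Fin n → Circle)) = ⋂ l ∈ H, {z | mon z l = 1} := by
    ext z
    simp [perp]
  rw [this]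
  refine isClosed_biInter fun l _ => ?_
  exact isClosed_singleton.preimage (cont_mon l)

/-- the exponential -/
noncomputable def ex : ℚ →+ Additive Circle :=
  Circle.expHom.comp ((AddMonoidHom.mulLeft (2 * Real.pi)).comp (Rat.castHom ℝ).toAddMonoidHom)

theorem ex_apply (q : ℚ) : ex q = Additive.ofMul (Circle.exp (2 * Real.pi * q)) := rfl

theorem ex_eq_zero {q : ℚ} : ex q = 0 ↔ ∃ k : ℤ, q = k := by
  rw [ex_apply]
  have h0 : (Additive.ofMul (Circle.exp (2 * Real.pi * q)) = 0) ↔
      Circle.exp (2 * Real.pi * q) = Circle.exp 0 := by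
    rw [Circle.exp_zero]
    exact Iff.rfl
  rw [h0, Circle.exp_eq_exp]
  constructor
  · rintro ⟨k, hk⟩
    refine ⟨k, ?_⟩
    rw [zero_add] at hk
    have h1 : (q : ℝ) = k := by
      have h2 : (2 * Real.pi) ≠ 0 := by positivity
      apply mul_left_cancel₀ h2
      linarith
    exact_mod_cast h1
  · rintro ⟨k, hk⟩
    refine ⟨k, ?_⟩
    rw [hk]
    push_cast
    ring

/-- characters separate points -/
theorem exists_perp {H : AddSubgroup (Fin n → ℤ)} {l : Fin n → ℤ} (hl : l ∉ H) :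
    ∃ z ∈ perp H, mon z l ≠ 1 := by
  classical
  have h1 : (QuotientAddGroup.mk l : (Fin n → ℤ) ⧸ H) ≠ 0 := by
    intro h
    exact hl ((QuotientAddGroup.eq_zero_iff l).1 h)
  obtain ⟨c, hc⟩ := CharacterModule.exists_character_apply_ne_zero_of_ne_zero h1
  set c' : (Fin n → ℤ) ⧸ H →+ AddCircle (1 : ℚ) := c with hc'
  have hlift : ∀ x ∈ AddSubgroup.zmultiples (1 : ℚ), ex x = 0 := by
    rintro x ⟨k, rfl⟩
    rw [ex_eq_zero]
    exact ⟨k, by simp⟩
  set e : AddCircle (1 : ℚ) →+ Additive Circle :=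
    QuotientAddGroup.lift (AddSubgroup.zmultiples (1 : ℚ)) ex hlift with he
  have he0 : ∀ x : AddCircle (1 : ℚ), e x = 0 → x = 0 := by
    intro x
    refine QuotientAddGroup.induction_on x fun q => ?_
    intro hq
    have h2 : ex q = 0 := hq
    obtain ⟨k, hk⟩ := ex_eq_zero.1 h2
    rw [QuotientAddGroup.eq_zero_iff]
    exact ⟨k, by simp [hk]⟩
  set ψ : (Fin n → ℤ) →+ Additive Circle := (e.comp c').comp (QuotientAddGroup.mk' H) with hψ
  set z : Fin n → Circle := fun a => Additive.toMul (ψ (Pi.single a 1)) with hz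
  have hmon : ∀ m : Fin n → ℤ, mon z m = Additive.toMul (ψ m) := by
    intro m
    have h3 : m = ∑ a, m a • (Pi.single a (1 : ℤ) : Fin n → ℤ) := by
      funext b
      rw [Finset.sum_apply]
      simp [Pi.single_apply]
    conv_rhs => rw [h3, map_sum]
    unfold mon
    rw [toMul_sum]
    refine prod_congr rfl fun a _ => ?_
    rw [map_zsmul, toMul_zsmul]
  refine ⟨z, fun m hm => ?_, fun h => ?_⟩
  · have h4 : (QuotientAddGroup.mk' H) m = 0 := (QuotientAddGroup.eq_zero_iff m).2 hm
    have h5 : ψ m = 0 := by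
      rw [hψ, AddMonoidHom.comp_apply, h4, map_zero]
    rw [hmon, h5]
    rfl
  · rw [hmon] at h
    have h5 : ψ l = 0 := h
    exact hc (he0 _ h5)

section

variable {H : AddSubgroup (Fin n → ℤ)} [MeasurableSpace (perp H)] [BorelSpace (perp H)]
  (ν : Measure (perp H)) [IsProbabilityMeasure ν] [ν.IsHaarMeasure]

theorem cont_monC (l : Fin n → ℤ) : Continuous fun z : Fin n → Circle => ((mon z l : Circle) : ℂ) :=
  (show Continuous (fun w : Circle => (w : ℂ)) by fun_prop).comp (cont_mon l)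

include ν

open Classical in
theorem int_mon (l : Fin n → ℤ) : ∫ x : perp H, ((mon x.1 l : Circle) : ℂ) ∂ν = if l ∈ H then 1 else 0 := by
  split_ifs with h
  · have h1 : (fun x : perp H => ((mon x.1 l : Circle) : ℂ)) = fun _ => 1 := by
      funext x
      rw [x.2 l h, Circle.coe_one]
    rw [h1]
    simp
  · obtain ⟨z, hz, hne⟩ := exists_perp h
    have h1 := integral_mul_left_eq_self (μ := ν) (fun x : perp H => ((mon x.1 l : Circle) : ℂ)) ⟨z, hz⟩
    have h2 : (fun x : perp H => ((mon (((⟨z, hz⟩ : perp H) * x) : perp H).1 l : Circle) : ℂ)) =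
        fun x => ((mon z l : Circle) : ℂ) * ((mon x.1 l : Circle) : ℂ) := by
      funext x
      rw [← Circle.coe_mul, ← mon_mul]
      rfl
    rw [h2, integral_const_mul] at h1
    have h3 : ((mon z l : Circle) : ℂ) ≠ 1 := by
      intro h4
      exact hne (Circle.ext h4)
    have h4 : (((mon z l : Circle) : ℂ) - 1) * ∫ x : perp H, ((mon x.1 l : Circle) : ℂ) ∂ν = 0 := by
      linear_combination h1
    exact (mul_eq_zero.1 h4).resolve_left (sub_ne_zero.2 h3)

end

/-- representatives -/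
theorem exists_reps {F : (Fin n → ℤ) → ℤ} (h : Pc F) : ∃ (H : AddSubgroup (Fin n → ℤ))
    (s : Finset (Fin n → ℤ)), (∀ a ∈ H, ∀ b, F (a + b) = F b) ∧
      (∀ l ∈ s, ∀ l' ∈ s, l - l' ∈ H → l = l') ∧ ∀ l, F l ≠ 0 → ∃ t ∈ s, l - t ∈ H := by
  classical
  obtain ⟨H, h1, T, h2⟩ := h
  refine ⟨H, (T.image (QuotientAddGroup.mk : _ → (Fin n → ℤ) ⧸ H)).image Quotient.out, h1, ?_, ?_⟩
  · intro l hl l' hl' hh
    obtain ⟨q, -, rfl⟩ := mem_image.1 hl
    obtain ⟨q', -, rfl⟩ := mem_image.1 hl'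
    have h3 : (QuotientAddGroup.mk (Quotient.out q) : (Fin n → ℤ) ⧸ H) =
        QuotientAddGroup.mk (Quotient.out q') := by
      rw [QuotientAddGroup.eq]
      have := H.neg_mem hh
      convert this using 1
      abel
    have h4 : ∀ q : (Fin n → ℤ) ⧸ H, QuotientAddGroup.mk (Quotient.out q) = q := fun q =>
      QuotientAddGroup.out_eq' q
    rw [h4, h4] at h3
    rw [h3]
  · intro l hl
    obtain ⟨t, ht, hlt⟩ := h2 l hl
    refine ⟨Quotient.out (QuotientAddGroup.mk t : (Fin n → ℤ) ⧸ H), mem_image.2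
      ⟨_, mem_image.2 ⟨t, ht, rfl⟩, rfl⟩, ?_⟩
    have h4 : (QuotientAddGroup.mk (Quotient.out (QuotientAddGroup.mk t : (Fin n → ℤ) ⧸ H)) :
        (Fin n → ℤ) ⧸ H) = QuotientAddGroup.mk t := QuotientAddGroup.out_eq' _
    rw [QuotientAddGroup.eq] at h4
    have h5 := H.add_mem hlt h4
    convert h5 using 1
    abel

/-- the trigonometric polynomial -/
noncomputable def tp (F : (Fin n → ℤ) → ℤ) (s : Finset (Fin n → ℤ)) (z : Fin n → Circle) : ℂ :=
  ∑ t ∈ s, (F t : ℂ) * ((mon z (-t) : Circle) : ℂ)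

theorem cont_tp (F : (Fin n → ℤ) → ℤ) (s : Finset (Fin n → ℤ)) : Continuous (tp F s) := by
  unfold tp
  exact continuous_finsetSum _ fun t _ => continuous_const.mul (cont_monC (-t))

section

variable {H : AddSubgroup (Fin n → ℤ)} [MeasurableSpace (perp H)] [BorelSpace (perp H)]
  (ν : Measure (perp H)) [IsProbabilityMeasure ν] [ν.IsHaarMeasure]

instance perp_compact : CompactSpace (perp H) := by
  have : IsClosed (perp H : Set (Fin n → Circle)) := perp_closed H
  exact isCompact_iff_compactSpace.1 this.isCompact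

theorem integrable_cont {f : (Fin n → Circle) → ℂ} (hf : Continuous f) :
    Integrable (fun x : perp H => f x.1) ν := by
  have hc : Continuous fun x : perp H => f x.1 := hf.comp continuous_subtype_val
  exact hc.integrable_of_hasCompactSupport (HasCompactSupport.of_compactSpace _)

/-- the Fourier coefficients -/
theorem int_tp {F : (Fin n → ℤ) → ℤ} {s : Finset (Fin n → ℤ)} (h1 : ∀ a ∈ H, ∀ b, F (a + b) = F b)
    (h2 : ∀ l ∈ s, ∀ l' ∈ s, l - l' ∈ H → l = l') (h3 : ∀ l, F l ≠ 0 → ∃ t ∈ s, l - t ∈ H)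
    (l : Fin n → ℤ) :
    ∫ x : perp H, ((mon x.1 l : Circle) : ℂ) * tp F s x.1 ∂ν = (F l : ℂ) := by
  classical
  have e1 : (fun x : perp H => ((mon x.1 l : Circle) : ℂ) * tp F s x.1) =
      fun x : perp H => ∑ t ∈ s, (F t : ℂ) * ((mon x.1 (l - t) : Circle) : ℂ) := by
    funext x
    unfold tp
    rw [mul_sum]
    refine sum_congr rfl fun t _ => ?_
    rw [sub_eq_add_neg, mon_add, Circle.coe_mul]
    ring
  have e2 : ∫ x : perp H, (∑ t ∈ s, (F t : ℂ) * ((mon x.1 (l - t) : Circle) : ℂ)) ∂ν =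
      ∑ t ∈ s, ∫ x : perp H, (F t : ℂ) * ((mon x.1 (l - t) : Circle) : ℂ) ∂ν :=
    integral_finsetSum _ fun t _ => integrable_cont ν
      (f := fun z => (F t : ℂ) * ((mon z (l - t) : Circle) : ℂ))
      (continuous_const.mul (cont_monC (l - t)))
  rw [e1, e2]
  simp only [integral_const_mul, int_mon ν]
  by_cases h : ∃ t ∈ s, l - t ∈ H
  · obtain ⟨t, ht, hlt⟩ := h
    rw [sum_eq_single t]
    · rw [if_pos hlt, mul_one]
      have := h1 _ hlt t
      rw [sub_add_cancel] at this
      rw [this]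
    · intro t' ht' hne
      rw [if_neg, mul_zero]
      intro h5
      apply hne
      refine h2 t' ht' t ht ?_
      have := H.sub_mem hlt h5
      convert this using 1
      abel
    · intro h5
      exact absurd ht h5
  · have h5 : F l = 0 := by
      by_contra h6
      exact h (h3 l h6)
    rw [h5, Int.cast_zero]
    refine sum_eq_zero fun t ht => ?_
    rw [if_neg fun h6 => h ⟨t, ht, h6⟩, mul_zero]

end

end Pool.Agent.V1142.SC.Ip
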