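import Pool.Agent.V1142.SC.Ip3
import Pool.Agent.V1142.SC.Ip5

set_option autoImplicit false
set_option linter.unusedSectionVars false

/-!
# The limit law of the eigenvalues
-/

namespace Pool.Agent.V1142.SC.Ip

open Complex Filter Topology NumberField IsDedekindDomain Finset MeasureTheory
  Pool.Agent.TH553.ST Pool.Agent.TH553.RS Pool.Agent.W540.BE Pool.Agent.V1142.SC.Many

section Approx

variable {n : ℕ}

/-- approximation by trigonometric polynomials -/
theorem approx {f : (Fin n → Circle) → ℂ} (hf : Continuous f) {δ : ℝ} (hδ : 0 < δ) :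
    ∃ (s : Finset (Fin n → ℤ)) (c : (Fin n → ℤ) → ℂ), ∀ z : Fin n → Circle,
      ‖f z - ∑ l ∈ s, c l * ((mon z l : Circle) : ℂ)‖ ≤ δ := by
  classical
  set Φ : UnitAddTorus (Fin n) → (Fin n → Circle) := fun x a => AddCircle.toCircle (x a) with hΦ
  have hΦc : Continuous Φ := continuous_pi fun a =>
    AddCircle.continuous_toCircle.comp (continuous_apply a)
  have hΦs : ∀ z, ∃ x, Φ x = z := by
    intro z
    refine ⟨fun a => (AddCircle.homeomorphCircle (T := 1) one_ne_zero).symm (z a), ?_⟩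
    funext a
    rw [hΦ]
    simp only
    rw [← AddCircle.homeomorphCircle_apply one_ne_zero, Homeomorph.apply_symm_apply]
  set g : C(UnitAddTorus (Fin n), ℂ) := ⟨f ∘ Φ, hf.comp hΦc⟩ with hg
  have h1 : g ∈ (Submodule.span ℂ (Set.range (UnitAddTorus.mFourier (d := Fin n)))).topologicalClosure := by
    rw [UnitAddTorus.span_mFourier_closure_eq_top]
    trivial
  have h2 : g ∈ closure ((Submodule.span ℂ (Set.range (UnitAddTorus.mFourier (d := Fin n))) :
      Submodule ℂ C(UnitAddTorus (Fin n), ℂ)) : Set C(UnitAddTorus (Fin n), ℂ)) := h1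
  obtain ⟨p, hp, hgp⟩ := Metric.mem_closure_iff.1 h2 δ hδ
  obtain ⟨c, hc⟩ := Finsupp.mem_span_range_iff_exists_finsupp.1 hp
  refine ⟨c.support, fun l => c l, fun z => ?_⟩
  obtain ⟨x, rfl⟩ := hΦs z
  have h3 : (p x : ℂ) = ∑ l ∈ c.support, c l * ((mon (Φ x) l : Circle) : ℂ) := by
    rw [← hc, Finsupp.sum, ContinuousMap.sum_apply]
    refine sum_congr rfl fun l _ => ?_
    rw [ContinuousMap.smul_apply, smul_eq_mul]
    congr 1
    unfold mon
    rw [coe_prod]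
    simp only [UnitAddTorus.mFourier, ContinuousMap.coe_mk]
    refine prod_congr rfl fun a _ => ?_
    rw [fourier_apply, AddCircle.toCircle_zsmul]
  rw [← h3]
  have h4 : dist (g x) (p x) ≤ dist g p := ContinuousMap.dist_apply_le_dist x
  rw [dist_eq_norm] at h4
  exact h4.trans hgp.le

theorem mon_comp (z : Fin n → Circle) (σ : Equiv.Perm (Fin n)) (l : Fin n → ℤ) :
    mon (z ∘ σ) l = mon z (l ∘ σ.symm) := by
  unfold mon
  refine Fintype.prod_equiv σ _ _ fun a => ?_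
  simp

/-- approximation of symmetric functions -/
theorem approx_sym {f : (Fin n → Circle) → ℂ} (hf : Continuous f)
    (hs : ∀ (z : Fin n → Circle) (σ : Equiv.Perm (Fin n)), f (z ∘ σ) = f z) {δ : ℝ} (hδ : 0 < δ) :
    ∃ (s : Finset (Fin n → ℤ)) (c : (Fin n → ℤ) → ℂ),
      (∀ z : Fin n → Circle, ‖f z - ∑ l ∈ s, c l * ((mon z l : Circle) : ℂ)‖ ≤ δ) ∧
      ∀ z : Fin n → Circle, ‖f z - ∑ l ∈ s, (c l * (n.factorial : ℂ)⁻¹) * sm z l‖ ≤ δ := by
  obtain ⟨s, c, h⟩ := approx hf hδ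
  refine ⟨s, c, h, fun z => ?_⟩
  have hn : (n.factorial : ℂ) ≠ 0 := by exact_mod_cast n.factorial_ne_zero
  have h1 : f z - ∑ l ∈ s, (c l * (n.factorial : ℂ)⁻¹) * sm z l =
      (n.factorial : ℂ)⁻¹ * ∑ σ : Equiv.Perm (Fin n),
        (f (z ∘ σ) - ∑ l ∈ s, c l * ((mon (z ∘ σ) l : Circle) : ℂ)) := by
    rw [sum_sub_distrib, mul_sub]
    congr 1
    · simp only [hs]
      rw [sum_const, card_univ, Fintype.card_perm, Fintype.card_fin, nsmul_eq_mul,
        inv_mul_cancel_left₀ hn]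
    · rw [sum_comm, mul_sum]
      refine sum_congr rfl fun l _ => ?_
      rw [← mul_sum]
      have h2 : ∑ σ : Equiv.Perm (Fin n), ((mon (z ∘ σ) l : Circle) : ℂ) = sm z l := by
        unfold sm
        refine Fintype.sum_equiv (Equiv.inv (Equiv.Perm (Fin n))) _ _ fun σ => ?_
        rw [mon_comp]
        rfl
      rw [h2]
      ring
  rw [h1, norm_mul, norm_inv, Complex.norm_natCast]
  have h2 : ‖∑ σ : Equiv.Perm (Fin n), (f (z ∘ σ) - ∑ l ∈ s, c l * ((mon (z ∘ σ) l : Circle) : ℂ))‖ ≤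
      (n.factorial : ℝ) * δ := by
    refine (norm_sum_le _ _).trans ((sum_le_sum (g := fun _ => δ)
      fun (σ : Equiv.Perm (Fin n)) _ => h (z ∘ σ)).trans ?_)
    rw [sum_const, card_univ, Fintype.card_perm, Fintype.card_fin, nsmul_eq_mul]
  have hn' : (0 : ℝ) < n.factorial := by exact_mod_cast n.factorial_pos
  calc ((n.factorial : ℝ))⁻¹ * _ ≤ ((n.factorial : ℝ))⁻¹ * ((n.factorial : ℝ) * δ) := by gcongr
    _ = δ := inv_mul_cancel_left₀ hn'.ne' _

end Approx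

section Mean

variable {K : Type} [Field K] [NumberField K]

/-- the complex mean value -/
noncomputable def Mc (U : Ultrafilter ℝ) (φ : HeightOneSpectrum (𝓞 K) → ℂ) : ℂ :=
  ⟨M (nm K) U fun v => (φ v).re, M (nm K) U fun v => (φ v).im⟩

theorem bc_im {t : HeightOneSpectrum (𝓞 K) → ℂ} (h : Bc t) : Bd fun p => (t p).im := by
  obtain ⟨C, hC⟩ := h
  exact ⟨C, fun p => (Complex.abs_im_le_norm _).trans (hC p)⟩

variable {U : Ultrafilter ℝ} (hU : (U : Filter ℝ) ≤ 𝓝[>] 0)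

include hU

theorem Mc_add {φ ψ : HeightOneSpectrum (𝓞 K) → ℂ} (hφ : Bc φ) (hψ : Bc ψ) :
    Mc U (fun v => φ v + ψ v) = Mc U φ + Mc U ψ := by
  unfold Mc
  apply Complex.ext
  · simp only [Complex.add_re]
    exact M_add (sysF K) hU hφ.re hψ.re
  · simp only [Complex.add_im]
    exact M_add (sysF K) hU (bc_im hφ) (bc_im hψ)

theorem Mc_const_mul {φ : HeightOneSpectrum (𝓞 K) → ℂ} (hφ : Bc φ) (c : ℂ) :
    Mc U (fun v => c * φ v) = c * Mc U φ := by
  unfold Mc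
  apply Complex.ext
  · simp only [Complex.mul_re]
    rw [M_sub (sysF K) hU (hφ.re.const_mul _) ((bc_im hφ).const_mul _),
      M_const_mul (sysF K) hU hφ.re, M_const_mul (sysF K) hU (bc_im hφ)]
  · simp only [Complex.mul_im]
    rw [M_add (sysF K) hU ((bc_im hφ).const_mul _) (hφ.re.const_mul _),
      M_const_mul (sysF K) hU hφ.re, M_const_mul (sysF K) hU (bc_im hφ)]

theorem Mc_zero : Mc U (fun _ : HeightOneSpectrum (𝓞 K) => (0 : ℂ)) = 0 := by
  have := Mc_const_mul hU (φ := fun _ : HeightOneSpectrum (𝓞 K) => (0 : ℂ)) (Bc.const 0) 0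
  simpa using this

theorem bc_sum {ι : Type} (s : Finset ι) {φ : ι → HeightOneSpectrum (𝓞 K) → ℂ}
    (h : ∀ i ∈ s, Bc (φ i)) : Bc fun v => ∑ i ∈ s, φ i v := by
  classical
  induction s using Finset.induction_on with
  | empty => simpa using Bc.const (P := HeightOneSpectrum (𝓞 K)) 0
  | insert a s ha ih =>
    simp only [Finset.sum_insert ha]
    exact (h a (Finset.mem_insert_self _ _)).add (ih fun i hi => h i (Finset.mem_insert_of_mem hi))

theorem Mc_sum {ι : Type} (s : Finset ι) {φ : ι → HeightOneSpectrum (𝓞 K) → ℂ}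
    (h : ∀ i ∈ s, Bc (φ i)) : Mc U (fun v => ∑ i ∈ s, φ i v) = ∑ i ∈ s, Mc U (φ i) := by
  classical
  induction s using Finset.induction_on with
  | empty => simpa using Mc_zero hU
  | insert a s ha ih =>
    simp only [Finset.sum_insert ha]
    rw [Mc_add hU (h a (Finset.mem_insert_self _ _))
      (bc_sum hU s fun i hi => h i (Finset.mem_insert_of_mem hi)),
      ih fun i hi => h i (Finset.mem_insert_of_mem hi)]

theorem Mc_norm_le {φ : HeightOneSpectrum (𝓞 K) → ℂ} {B : ℝ} (hB : 0 ≤ B) (hφ : ∀ v, ‖φ v‖ ≤ B) :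
    ‖Mc U φ‖ ≤ B := by
  set w := Mc U φ with hw
  by_cases h0 : w = 0
  · rw [h0, norm_zero]
    exact hB
  have hn : (‖w‖ : ℂ) ≠ 0 := by
    exact_mod_cast norm_ne_zero_iff.2 h0
  have hbc : Bc φ := ⟨B, hφ⟩
  set c : ℂ := (starRingEnd ℂ) w / ‖w‖ with hc
  have hcn : ‖c‖ = 1 := by
    rw [hc, norm_div, Complex.norm_conj, Complex.norm_real, norm_norm,
      div_self (norm_ne_zero_iff.2 h0)]
  have h1 := Mc_const_mul hU hbc c
  rw [← hw] at h1
  have h2 : c * w = (‖w‖ : ℂ) := by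
    rw [hc, div_mul_eq_mul_div, Complex.conj_mul', sq, mul_div_assoc, div_self hn, mul_one]
  rw [h2] at h1
  have h3 := congrArg Complex.re h1
  rw [Complex.ofReal_re] at h3
  rw [← h3]
  change (M (nm K) U fun v => (c * φ v).re) ≤ B
  have h4 := M_mono (sysF K) hU (φ := fun v => (c * φ v).re) (ψ := fun _ => B)
    ((Bc.const c).mul hbc).re (Bd.const B) fun v => by
      refine (Complex.re_le_norm _).trans ?_
      rw [norm_mul, hcn, one_mul]
      exact hφ v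
  rwa [M_const (sysF K) hU] at h4

theorem Mc_ofReal {φ : HeightOneSpectrum (𝓞 K) → ℝ} : Mc U (fun v => ((φ v : ℝ) : ℂ)) =
    ((M (nm K) U φ : ℝ) : ℂ) := by
  unfold Mc
  apply Complex.ext
  · simp
  · simp only [Complex.ofReal_im]
    exact M_const (sysF K) hU 0

theorem Mc_conj {φ : HeightOneSpectrum (𝓞 K) → ℂ} (hφ : Bc φ) :
    Mc U (fun v => (starRingEnd ℂ) (φ v)) = (starRingEnd ℂ) (Mc U φ) := by
  unfold Mc
  apply Complex.ext
  · simp
  · simp only [Complex.conj_im]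
    exact M_neg (sysF K) hU (bc_im hφ)

end Mean

section Main

variable {K : Type} [Field K] [NumberField K] {n : ℕ} {z : HeightOneSpectrum (𝓞 K) → Fin n → Circle}

/-- the diagonal matrices -/
noncomputable def Dg (z : HeightOneSpectrum (𝓞 K) → Fin n → Circle) (d : Fin n → ℕ) (k : ℕ)
    (v : HeightOneSpectrum (𝓞 K)) : Matrix (Fam n d) (Fam n d) ℂ :=
  Matrix.diagonal fun S => ((wt (z v) d k S : Circle) : ℂ)

theorem Dg_mem (d : Fin n → ℕ) (k : ℕ) (v : HeightOneSpectrum (𝓞 K)) :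
    Dg z d k v ∈ Matrix.unitaryGroup (Fam n d) ℂ := by
  rw [Matrix.mem_unitaryGroup_iff]
  unfold Dg
  rw [Matrix.star_eq_conjTranspose, Matrix.diagonal_conjTranspose, Matrix.diagonal_mul_diagonal,
    ← Matrix.diagonal_one]
  congr 1
  funext S
  simp only [Pi.star_apply, RCLike.star_def]
  rw [Complex.mul_conj, Circle.normSq_coe, Complex.ofReal_one]

theorem Dg_trace (d : Fin n → ℕ) (k : ℕ) (v : HeightOneSpectrum (𝓞 K)) :
    (Dg z d k v).trace = ∑ S : Fam n d, ((wt (z v) d k S : Circle) : ℂ) := by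
  unfold Dg
  rw [Matrix.trace_diagonal]

/-- a local meromorphic continuation at `s = 1` -/
def Me (z : HeightOneSpectrum (𝓞 K) → Fin n → Circle) (d : Fin n → ℕ) (k : ℕ) : Prop :=
  ∃ Λ : ℂ → ℂ, MeromorphicAt Λ 1 ∧ ∀ᶠ s in 𝓝 (1 : ℂ), (1 : ℝ) < s.re → Λ s = LA (Dg z d k) s

theorem bc_wt (d : Fin n → ℕ) (k : ℕ) : Bc fun v => ∑ S : Fam n d, ((wt (z v) d k S : Circle) : ℂ) := by
  refine ⟨Fintype.card (Fam n d), fun v => (norm_sum_le _ _).trans ?_⟩
  simp [Circle.norm_coe]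

theorem Mc_of_order {d : Fin n → ℕ} {k : ℕ} {Λ : ℂ → ℂ} (h1 : MeromorphicAt Λ 1)
    (h2 : ∀ᶠ s in 𝓝 (1 : ℂ), (1 : ℝ) < s.re → Λ s = LA (Dg z d k) s) :
    ∃ m : ℤ, meromorphicOrderAt Λ 1 = m ∧ ∀ U : Ultrafilter ℝ, (U : Filter ℝ) ≤ 𝓝[>] 0 →
      Mc U (fun v => ∑ S : Fam n d, ((wt (z v) d k S : Circle) : ℂ)) = ((-m : ℤ) : ℂ) := by
  have hs := size_LA (A := Dg z d k) (fun v => Dg_mem d k v) 0
  have him := qt_im (A := Dg z d k) (fun v => Dg_mem d k v) h1 h2
  simp only [Complex.ofReal_zero, zero_mul, add_zero, neg_zero, Complex.cpow_zero, mul_one] at hs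
  obtain ⟨m, hm, hm2⟩ := order_unit (L := LA (Dg z d k)) (τ := 0) (by simpa using hs.1) (Λ := Λ)
    (by simpa using h1) (by simpa using h2)
  simp only [Complex.ofReal_zero, zero_mul, add_zero] at hm hm2
  refine ⟨m, hm, fun U hU => ?_⟩
  have h3 := hs.2.add hm2
  rw [zero_add] at h3
  simp only [Dg_trace] at h3 him
  unfold Mc
  apply Complex.ext
  · simp only
    rw [M_of_tendsto hU (h3.congr fun ε => by ring)]
    simp
  · simp only
    rw [M_of_tendsto hU him]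
    simp

theorem exists_r (h : ∀ d k, Me z d k) (l : Fin n → ℤ) : ∃ r : ℤ, ∀ U : Ultrafilter ℝ,
    (U : Filter ℝ) ≤ 𝓝[>] 0 → Mc U (fun v => sm (z v) l) = (r : ℂ) := by
  obtain ⟨k, T, c, hT⟩ := exists_comb l
  have h1 : ∀ t : Fin n →₀ ℕ, ∃ m : ℤ, ∀ U : Ultrafilter ℝ, (U : Filter ℝ) ≤ 𝓝[>] 0 →
      Mc U (fun v => ∑ S : Fam n t, ((wt (z v) t k S : Circle) : ℂ)) = (m : ℂ) := by
    intro t
    obtain ⟨Λ, h2, h3⟩ := h t k
    obtain ⟨m, -, hm⟩ := Mc_of_order h2 h3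
    exact ⟨-m, hm⟩
  choose m hm using h1
  refine ⟨∑ t ∈ T, c t * m t, fun U hU => ?_⟩
  have e1 : (fun v => sm (z v) l) = fun v => ∑ t ∈ T, (c t : ℂ) *
      ∑ S : Fam n t, ((wt (z v) t k S : Circle) : ℂ) := funext fun v => hT (z v)
  have e2 := Mc_sum hU T (φ := fun t v => (c t : ℂ) *
      ∑ S : Fam n t, ((wt (z v) t k S : Circle) : ℂ)) fun t _ => (Bc.const _).mul (bc_wt (z := z) t k)
  rw [e1]
  refine e2.trans ?_
  push_cast
  refine sum_congr rfl fun t _ => ?_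
  rw [Mc_const_mul hU (bc_wt (z := z) t k), hm t U hU]

theorem bc_sm (l : Fin n → ℤ) : Bc fun v => sm (z v) l :=
  ⟨(n.factorial : ℝ), fun v => norm_sm_le (z v) l⟩

theorem ipd_r {r : (Fin n → ℤ) → ℤ} {U : Ultrafilter ℝ} (hU : (U : Filter ℝ) ≤ 𝓝[>] 0)
    (hr : ∀ l, Mc U (fun v => sm (z v) l) = (r l : ℂ)) : IPD r where
  sym l := by
    have h1 := hr (-l)
    simp only [sm_neg] at h1
    rw [Mc_conj hU (bc_sm (z := z) l), hr l, map_intCast] at h1
    exact_mod_cast h1.symm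
  pos ι s x c := by
    have h1 : Mc U (fun v => ∑ i ∈ s, ∑ j ∈ s, ((c i * c j : ℤ) : ℂ) * sm (z v) (x i - x j)) =
        ((∑ i ∈ s, ∑ j ∈ s, c i * c j * r (x i - x j) : ℤ) : ℂ) := by
      rw [Mc_sum hU _ fun i _ => bc_sum hU _ fun j _ => (Bc.const _).mul (bc_sm (z := z) _)]
      push_cast
      refine sum_congr rfl fun i _ => ?_
      rw [Mc_sum hU _ fun j _ => (Bc.const _).mul (bc_sm (z := z) _)]
      refine sum_congr rfl fun j _ => ?_
      rw [Mc_const_mul hU (bc_sm (z := z) _), hr]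
      try push_cast
      try ring
    have h2 : (fun v => ∑ i ∈ s, ∑ j ∈ s, ((c i * c j : ℤ) : ℂ) * sm (z v) (x i - x j)) =
        fun v => ((∑ σ : Equiv.Perm (Fin n),
          ‖∑ i ∈ s, (c i : ℂ) * ((mon (z v) (x i ∘ σ) : Circle) : ℂ)‖ ^ 2 : ℝ) : ℂ) :=
      funext fun v => sm_sub_sum (z v) ι s x c
    rw [h2, Mc_ofReal hU] at h1
    have hb : Bd fun v => ∑ σ : Equiv.Perm (Fin n),
        ‖∑ i ∈ s, (c i : ℂ) * ((mon (z v) (x i ∘ σ) : Circle) : ℂ)‖ ^ 2 := by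
      refine Bd.sum _ fun σ _ => Bd.sq ?_
      refine Bc.norm ?_
      refine bc_sum hU _ fun i _ => (Bc.const _).mul ⟨1, fun v => ?_⟩
      rw [Circle.norm_coe]
    have h3 := M_nonneg (sysF K) hU hb fun v => Finset.sum_nonneg fun σ _ => sq_nonneg _
    have h4 : (((∑ i ∈ s, ∑ j ∈ s, c i * c j * r (x i - x j) : ℤ) : ℝ)) = M (nm K) U fun v =>
        ∑ σ : Equiv.Perm (Fin n),
          ‖∑ i ∈ s, (c i : ℂ) * ((mon (z v) (x i ∘ σ) : Circle) : ℂ)‖ ^ 2 := by
      have := h1.symm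
      exact_mod_cast this
    rw [← h4] at h3
    exact_mod_cast h3

end Main

end Pool.Agent.V1142.SC.Ip
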