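import Pool.Agent.V1142.SC.Ip6

set_option autoImplicit false
set_option linter.unusedSectionVars false

/-!
# The densities are nonnegative
-/

namespace Pool.Agent.V1142.SC.Ip

open Complex Filter Topology Finset MeasureTheory

section

variable {Γ : Type} [AddCommGroup Γ] {F : Γ → ℤ}

/-- real coefficients -/
theorem IPD.real_pos (hF : IPD F) (ι : Type) (s : Finset ι) (x : ι → Γ) (c : ι → ℝ) :
    0 ≤ ∑ i ∈ s, ∑ j ∈ s, c i * c j * (F (x i - x j) : ℝ) := by
  have hlim : ∀ i, Tendsto (fun N : ℕ => ((⌊(N : ℝ) * c i⌋ : ℤ) : ℝ) / N) atTop (𝓝 (c i)) := by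
    intro i
    have h1 : Tendsto (fun N : ℕ => c i - 1 / (N : ℝ)) atTop (𝓝 (c i - 0)) :=
      tendsto_const_nhds.sub tendsto_one_div_atTop_nhds_zero_nat
    rw [sub_zero] at h1
    refine tendsto_of_tendsto_of_tendsto_of_le_of_le' h1 tendsto_const_nhds ?_ ?_
    · filter_upwards [eventually_gt_atTop 0] with N hN
      have hN' : (0 : ℝ) < N := by exact_mod_cast hN
      rw [le_div_iff₀ hN', sub_mul, one_div, inv_mul_cancel₀ hN'.ne', mul_comm (c i)]
      have := Int.sub_one_lt_floor ((N : ℝ) * c i)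
      linarith
    · filter_upwards [eventually_gt_atTop 0] with N hN
      have hN' : (0 : ℝ) < N := by exact_mod_cast hN
      rw [div_le_iff₀ hN', mul_comm (c i)]
      exact Int.floor_le _
  have h2 : Tendsto (fun N : ℕ => ∑ i ∈ s, ∑ j ∈ s, (((⌊(N : ℝ) * c i⌋ : ℤ) : ℝ) / N) *
      (((⌊(N : ℝ) * c j⌋ : ℤ) : ℝ) / N) * (F (x i - x j) : ℝ)) atTop
      (𝓝 (∑ i ∈ s, ∑ j ∈ s, c i * c j * (F (x i - x j) : ℝ))) :=
    tendsto_finsetSum _ fun i _ => tendsto_finsetSum _ fun j _ =>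
      ((hlim i).mul (hlim j)).mul tendsto_const_nhds
  refine ge_of_tendsto h2 ?_
  filter_upwards [eventually_gt_atTop 0] with N hN
  have hN' : (0 : ℝ) < N := by exact_mod_cast hN
  have h3 := hF.pos ι s x fun i => ⌊(N : ℝ) * c i⌋
  have h4 : ∑ i ∈ s, ∑ j ∈ s, (((⌊(N : ℝ) * c i⌋ : ℤ) : ℝ) / N) *
      (((⌊(N : ℝ) * c j⌋ : ℤ) : ℝ) / N) * (F (x i - x j) : ℝ) =
      ((∑ i ∈ s, ∑ j ∈ s, ⌊(N : ℝ) * c i⌋ * ⌊(N : ℝ) * c j⌋ * F (x i - x j) : ℤ) : ℝ) / N ^ 2 := by
    push_cast
    rw [sum_div]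
    refine sum_congr rfl fun i _ => ?_
    rw [sum_div]
    refine sum_congr rfl fun j _ => ?_
    field_simp
  rw [h4]
  refine div_nonneg ?_ (by positivity)
  exact_mod_cast h3

/-- complex coefficients -/
theorem IPD.complex_pos (hF : IPD F) (ι : Type) (s : Finset ι) (x : ι → Γ) (c : ι → ℂ) :
    ∃ r : ℝ, 0 ≤ r ∧ ∑ i ∈ s, ∑ j ∈ s, c i * (starRingEnd ℂ) (c j) * (F (x i - x j) : ℂ) = (r : ℂ) := by
  have h1 := hF.real_pos ι s x fun i => (c i).re
  have h2 := hF.real_pos ι s x fun i => (c i).im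
  refine ⟨_, add_nonneg h1 h2, ?_⟩
  apply Complex.ext
  · rw [Complex.ofReal_re, Complex.re_sum, ← sum_add_distrib]
    refine sum_congr rfl fun i _ => ?_
    rw [Complex.re_sum, ← sum_add_distrib]
    refine sum_congr rfl fun j _ => ?_
    rw [← Complex.ofReal_intCast, Complex.re_mul_ofReal, Complex.mul_re, Complex.conj_re,
      Complex.conj_im]
    ring
  · rw [Complex.ofReal_im, Complex.im_sum]
    simp only [Complex.im_sum]
    have h3 : ∀ i j, (c i * (starRingEnd ℂ) (c j) * (F (x i - x j) : ℂ)).im =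
        (c i).im * (c j).re * (F (x i - x j) : ℝ) - (c i).re * (c j).im * (F (x i - x j) : ℝ) := by
      intro i j
      rw [← Complex.ofReal_intCast, Complex.im_mul_ofReal, Complex.mul_im, Complex.conj_re,
        Complex.conj_im]
      ring
    simp only [h3, sum_sub_distrib]
    rw [sub_eq_zero, sum_comm]
    refine sum_congr rfl fun j _ => sum_congr rfl fun i _ => ?_
    rw [← hF.sym, neg_sub]
    ring

end

section

variable {n : ℕ} {H : AddSubgroup (Fin n → ℤ)} [MeasurableSpace (perp H)] [BorelSpace (perp H)]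
  (ν : Measure (perp H)) [IsProbabilityMeasure ν] [ν.IsHaarMeasure]
  {F : (Fin n → ℤ) → ℤ} {s : Finset (Fin n → ℤ)}

theorem int_poly (hF : IPD F) (h1 : ∀ a ∈ H, ∀ b, F (a + b) = F b)
    (h2 : ∀ l ∈ s, ∀ l' ∈ s, l - l' ∈ H → l = l') (h3 : ∀ l, F l ≠ 0 → ∃ t ∈ s, l - t ∈ H)
    (A : Finset (Fin n → ℤ)) (c : (Fin n → ℤ) → ℂ) :
    ∃ r : ℝ, 0 ≤ r ∧ ∫ x : perp H, (((‖∑ a ∈ A, c a * ((mon x.1 a : Circle) : ℂ)‖ ^ 2 : ℝ)) : ℂ) *
      tp F s x.1 ∂ν = (r : ℂ) := by
  obtain ⟨r, hr, he⟩ := hF.complex_pos (Fin n → ℤ) A id c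
  refine ⟨r, hr, ?_⟩
  rw [← he]
  have e1 : (fun x : perp H => (((‖∑ a ∈ A, c a * ((mon x.1 a : Circle) : ℂ)‖ ^ 2 : ℝ)) : ℂ) *
      tp F s x.1) = fun x : perp H => ∑ a ∈ A, ∑ b ∈ A, (c a * (starRingEnd ℂ) (c b)) *
        (((mon x.1 (a - b) : Circle) : ℂ) * tp F s x.1) := by
    funext x
    push_cast
    rw [← Complex.mul_conj', map_sum, sum_mul_sum, sum_mul]
    refine sum_congr rfl fun a _ => ?_
    rw [sum_mul]
    refine sum_congr rfl fun b _ => ?_
    rw [mon_sub, Circle.coe_mul, Circle.coe_inv_eq_conj, map_mul]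
    ring
  have hi : ∀ a b, Integrable (fun x : perp H => (c a * (starRingEnd ℂ) (c b)) *
        (((mon x.1 (a - b) : Circle) : ℂ) * tp F s x.1)) ν := fun a b =>
    integrable_cont ν (f := fun z => (c a * (starRingEnd ℂ) (c b)) *
        (((mon z (a - b) : Circle) : ℂ) * tp F s z))
      (continuous_const.mul ((cont_monC (a - b)).mul (cont_tp F s)))
  rw [e1, integral_finsetSum _ fun a _ => integrable_finsetSum _ fun b _ => hi a b]
  refine sum_congr rfl fun a _ => ?_
  rw [integral_finsetSum _ fun b _ => hi a b]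
  refine sum_congr rfl fun b _ => ?_
  rw [integral_const_mul, int_tp ν h1 h2 h3]
  rfl

/-- the functional is positive -/
theorem int_nonneg (hF : IPD F) (h1 : ∀ a ∈ H, ∀ b, F (a + b) = F b)
    (h2 : ∀ l ∈ s, ∀ l' ∈ s, l - l' ∈ H → l = l') (h3 : ∀ l, F l ≠ 0 → ∃ t ∈ s, l - t ∈ H)
    {g : (Fin n → Circle) → ℝ} (hg : Continuous g) (hg0 : ∀ z, 0 ≤ g z) :
    ∃ r : ℝ, 0 ≤ r ∧ ∫ x : perp H, ((g x.1 : ℝ) : ℂ) * tp F s x.1 ∂ν = (r : ℂ) := by
  set w : ℂ := ∫ x : perp H, ((g x.1 : ℝ) : ℂ) * tp F s x.1 ∂ν with hw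
  -- bounds
  obtain ⟨C, hC⟩ : ∃ C : ℝ, ∀ z : Fin n → Circle, ‖tp F s z‖ ≤ C := by
    obtain ⟨C, hC⟩ := (isCompact_univ (X := Fin n → Circle)).exists_bound_of_continuousOn
      (cont_tp F s).continuousOn
    exact ⟨C, fun z => hC z trivial⟩
  obtain ⟨B, hB⟩ : ∃ B : ℝ, ∀ z : Fin n → Circle, ‖((Real.sqrt (g z) : ℝ) : ℂ)‖ ≤ B := by
    have hc : Continuous fun z => ((Real.sqrt (g z) : ℝ) : ℂ) :=
      Complex.continuous_ofReal.comp hg.sqrt
    obtain ⟨B, hB⟩ := (isCompact_univ (X := Fin n → Circle)).exists_bound_of_continuousOn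
      hc.continuousOn
    exact ⟨B, fun z => hB z trivial⟩
  have hC0 : 0 ≤ C := (norm_nonneg _).trans (hC 1)
  have hB0 : 0 ≤ B := (norm_nonneg _).trans (hB 1)
  have key : ∀ δ : ℝ, 0 < δ → δ < 1 → ∃ r : ℝ, 0 ≤ r ∧ ‖w - (r : ℂ)‖ ≤ δ * ((2 * B + 1) * C) := by
    intro δ hδ hδ1
    obtain ⟨A, c, hA⟩ := approx (f := fun z => ((Real.sqrt (g z) : ℝ) : ℂ))
      (Complex.continuous_ofReal.comp hg.sqrt) hδ
    obtain ⟨r, hr, he⟩ := int_poly ν hF h1 h2 h3 A c
    refine ⟨r, hr, ?_⟩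
    rw [← he, hw, ← integral_sub]
    · refine (norm_integral_le_of_norm_le_const (C := δ * ((2 * B + 1) * C))
        (Eventually.of_forall fun x => ?_)).trans (by simp)
      rw [← sub_mul, norm_mul, ← mul_assoc]
      refine mul_le_mul ?_ (hC x.1) (norm_nonneg _) (by positivity)
      rw [← Complex.ofReal_sub, Complex.norm_real, Real.norm_eq_abs]
      set h := ∑ a ∈ A, c a * ((mon x.1 a : Circle) : ℂ) with hh
      set q := ((Real.sqrt (g x.1) : ℝ) : ℂ) with hq
      have e1 : g x.1 = ‖q‖ ^ 2 := by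
        rw [hq, Complex.norm_real, Real.norm_eq_abs, sq_abs, Real.sq_sqrt (hg0 _)]
      have e2 : |‖q‖ - ‖h‖| ≤ δ := (abs_norm_sub_norm_le q h).trans (hA x.1)
      have e3 : ‖q‖ ≤ B := hB x.1
      have e4 : ‖h‖ ≤ B + 1 := by
        have := (abs_le.1 e2).1
        linarith
      rw [e1]
      have e5 : ‖q‖ ^ 2 - ‖h‖ ^ 2 = (‖q‖ - ‖h‖) * (‖q‖ + ‖h‖) := by ring
      rw [e5, abs_mul]
      refine mul_le_mul e2 ?_ (abs_nonneg _) hδ.le
      rw [abs_of_nonneg (by positivity)]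
      linarith
    · exact integrable_cont ν (f := fun z => ((g z : ℝ) : ℂ) * tp F s z)
        ((Complex.continuous_ofReal.comp hg).mul (cont_tp F s))
    · refine integrable_cont ν (f := fun z => (((‖∑ a ∈ A, c a * ((mon z a : Circle) : ℂ)‖ ^ 2 : ℝ)) : ℂ) *
        tp F s z) (Continuous.mul ?_ (cont_tp F s))
      refine Complex.continuous_ofReal.comp ?_
      refine (Continuous.norm ?_).pow 2
      exact continuous_finsetSum _ fun a _ => continuous_const.mul (cont_monC a)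
  set D := (2 * B + 1) * C with hD
  have hD0 : 0 ≤ D := by positivity
  have him : w.im = 0 := by
    by_contra hne
    have hpos : 0 < |w.im| := abs_pos.2 hne
    set δ := min (1 / 2) (|w.im| / (2 * (D + 1))) with hδ
    have hδ0 : 0 < δ := lt_min (by norm_num) (by positivity)
    obtain ⟨r, -, hr⟩ := key δ hδ0 (lt_of_le_of_lt (min_le_left _ _) (by norm_num))
    have h4 : |w.im| ≤ δ * D := by
      have h5 := (Complex.abs_im_le_norm (w - (r : ℂ))).trans hr
      rwa [Complex.sub_im, Complex.ofReal_im, sub_zero] at h5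
    have h5 : δ * D ≤ |w.im| / (2 * (D + 1)) * D :=
      mul_le_mul_of_nonneg_right (min_le_right _ _) hD0
    have h6 : |w.im| / (2 * (D + 1)) * D < |w.im| := by
      rw [div_mul_eq_mul_div, div_lt_iff₀ (by positivity)]
      nlinarith
    linarith
  have hre : 0 ≤ w.re := by
    by_contra hneg
    push Not at hneg
    set δ := min (1 / 2) (-w.re / (2 * (D + 1))) with hδ
    have hδ0 : 0 < δ := lt_min (by norm_num) (div_pos (by linarith) (by positivity))
    obtain ⟨r, hr0, hr⟩ := key δ hδ0 (lt_of_le_of_lt (min_le_left _ _) (by norm_num))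
    have h4 : |w.re - r| ≤ δ * D := by
      have h5 := (Complex.abs_re_le_norm (w - (r : ℂ))).trans hr
      rwa [Complex.sub_re, Complex.ofReal_re] at h5
    have h5 : δ * D ≤ -w.re / (2 * (D + 1)) * D :=
      mul_le_mul_of_nonneg_right (min_le_right _ _) hD0
    have h6 : -w.re / (2 * (D + 1)) * D < -w.re := by
      rw [div_mul_eq_mul_div, div_lt_iff₀ (by positivity)]
      nlinarith
    have := (abs_le.1 h4).1
    linarith
  exact ⟨w.re, hre, Complex.ext (by simp) (by simp [him])⟩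

theorem zero_of_int {φ : (Fin n → Circle) → ℝ} (hφ : Continuous φ) (h0 : ∀ z, 0 ≤ φ z)
    (h : ∫ x : perp H, φ x.1 ∂ν = 0) (x : perp H) : φ x.1 = 0 := by
  have hc : Continuous fun x : perp H => φ x.1 := hφ.comp continuous_subtype_val
  have hi : Integrable (fun x : perp H => φ x.1) ν :=
    hc.integrable_of_hasCompactSupport (HasCompactSupport.of_compactSpace _)
  have h1 := (integral_eq_zero_iff_of_nonneg (fun x : perp H => h0 x.1) hi).1 h
  have h2 := (hc.ae_eq_iff_eq ν continuous_const).1 h1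
  exact congrFun h2 x

include ν in
/-- **The trigonometric polynomials are real and nonnegative on the subgroup.** -/
theorem tp_nonneg_aux (hF : IPD F) (h1 : ∀ a ∈ H, ∀ b, F (a + b) = F b)
    (h2 : ∀ l ∈ s, ∀ l' ∈ s, l - l' ∈ H → l = l') (h3 : ∀ l, F l ≠ 0 → ∃ t ∈ s, l - t ∈ H)
    (x : perp H) : (tp F s x.1).im = 0 ∧ 0 ≤ (tp F s x.1).re := by
  have hcr : Continuous fun z => (tp F s z).re := Complex.continuous_re.comp (cont_tp F s)
  have hci : Continuous fun z => (tp F s z).im := Complex.continuous_im.comp (cont_tp F s)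
  have hint : ∀ g : (Fin n → Circle) → ℝ, Continuous g →
      Integrable (fun x : perp H => ((g x.1 : ℝ) : ℂ) * tp F s x.1) ν := fun g hg =>
    integrable_cont ν (f := fun z => ((g z : ℝ) : ℂ) * tp F s z)
      ((Complex.continuous_ofReal.comp hg).mul (cont_tp F s))
  have him : ∀ g : (Fin n → Circle) → ℝ, Continuous g → (∀ z, 0 ≤ g z) →
      ∫ x : perp H, g x.1 * (tp F s x.1).im ∂ν = 0 := by
    intro g hg hg0
    obtain ⟨r, -, he⟩ := int_nonneg ν hF h1 h2 h3 hg hg0
    have h4 := integral_im (hint g hg)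
    have h5 : (fun x : perp H => g x.1 * (tp F s x.1).im) =
        fun x : perp H => RCLike.im (((g x.1 : ℝ) : ℂ) * tp F s x.1) := by
      funext x
      change _ = (((g x.1 : ℝ) : ℂ) * tp F s x.1).im
      rw [Complex.im_ofReal_mul]
    rw [h5, h4, he]
    exact Complex.ofReal_im r
  have hre : ∀ g : (Fin n → Circle) → ℝ, Continuous g → (∀ z, 0 ≤ g z) →
      0 ≤ ∫ x : perp H, g x.1 * (tp F s x.1).re ∂ν := by
    intro g hg hg0
    obtain ⟨r, hr, he⟩ := int_nonneg ν hF h1 h2 h3 hg hg0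
    have h4 := integral_re (hint g hg)
    have h5 : (fun x : perp H => g x.1 * (tp F s x.1).re) =
        fun x : perp H => RCLike.re (((g x.1 : ℝ) : ℂ) * tp F s x.1) := by
      funext x
      change _ = (((g x.1 : ℝ) : ℂ) * tp F s x.1).re
      rw [Complex.re_ofReal_mul]
    rw [h5, h4, he]
    change 0 ≤ ((r : ℂ)).re
    rw [Complex.ofReal_re]
    exact hr
  have hmax : ∀ t : ℝ, max 0 t * t = max 0 t ^ 2 := by
    intro t
    rcases le_total 0 t with h | h
    · rw [max_eq_right h]; ring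
    · rw [max_eq_left h]; ring
  refine ⟨le_antisymm ?_ ?_, ?_⟩
  · have h4 := him (fun z => max 0 (tp F s z).im) (continuous_const.max hci) fun z => le_max_left _ _
    simp only [hmax] at h4
    have h5 := zero_of_int ν (φ := fun z => max 0 (tp F s z).im ^ 2)
      ((continuous_const.max hci).pow 2) (fun z => sq_nonneg _) h4 x
    have h6 : max 0 (tp F s x.1).im = 0 := by
      have := h5
      exact pow_eq_zero_iff two_ne_zero |>.1 this
    exact max_eq_left_iff.1 h6
  · have h4 := him (fun z => max 0 (-(tp F s z).im)) (continuous_const.max hci.neg)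
      fun z => le_max_left _ _
    have h4' : ∫ x : perp H, max 0 (-(tp F s x.1).im) ^ 2 ∂ν = 0 := by
      have h7 : (fun x : perp H => max 0 (-(tp F s x.1).im) ^ 2) =
          fun x : perp H => -(max 0 (-(tp F s x.1).im) * (tp F s x.1).im) := by
        funext x
        rw [← hmax]
        ring
      rw [h7, integral_neg, h4, neg_zero]
    have h5 := zero_of_int ν (φ := fun z => max 0 (-(tp F s z).im) ^ 2)
      ((continuous_const.max hci.neg).pow 2) (fun z => sq_nonneg _) h4' x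
    have h6 : max 0 (-(tp F s x.1).im) = 0 := pow_eq_zero_iff two_ne_zero |>.1 h5
    have := max_eq_left_iff.1 h6
    linarith
  · have h4 := hre (fun z => max 0 (-(tp F s z).re)) (continuous_const.max hcr.neg)
      fun z => le_max_left _ _
    have h4' : ∫ x : perp H, max 0 (-(tp F s x.1).re) ^ 2 ∂ν = 0 := by
      have h7 : (fun x : perp H => max 0 (-(tp F s x.1).re) ^ 2) =
          fun x : perp H => -(max 0 (-(tp F s x.1).re) * (tp F s x.1).re) := by
        funext x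
        rw [← hmax]
        ring
      rw [h7, integral_neg]
      have h8 : 0 ≤ ∫ x : perp H, max 0 (-(tp F s x.1).re) ^ 2 ∂ν :=
        integral_nonneg fun x => sq_nonneg _
      rw [h7, integral_neg] at h8
      linarith
    have h5 := zero_of_int ν (φ := fun z => max 0 (-(tp F s z).re) ^ 2)
      ((continuous_const.max hcr.neg).pow 2) (fun z => sq_nonneg _) h4' x
    have h6 : max 0 (-(tp F s x.1).re) = 0 := pow_eq_zero_iff two_ne_zero |>.1 h5
    have := max_eq_left_iff.1 h6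
    linarith

end

/-- without a measure -/
theorem tp_nonneg {n : ℕ} {H : AddSubgroup (Fin n → ℤ)} {F : (Fin n → ℤ) → ℤ}
    {s : Finset (Fin n → ℤ)} (hF : IPD F) (h1 : ∀ a ∈ H, ∀ b, F (a + b) = F b)
    (h2 : ∀ l ∈ s, ∀ l' ∈ s, l - l' ∈ H → l = l') (h3 : ∀ l, F l ≠ 0 → ∃ t ∈ s, l - t ∈ H)
    (x : perp H) : (tp F s x.1).im = 0 ∧ 0 ≤ (tp F s x.1).re := by
  let _ : MeasurableSpace (perp H) := borel _
  have : BorelSpace (perp H) := ⟨rfl⟩
  set ν : Measure (perp H) := Measure.haarMeasure ⊤ with hν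
  have : IsProbabilityMeasure ν := ⟨by
    rw [hν]
    have := Measure.haarMeasure_self (K₀ := (⊤ : TopologicalSpace.PositiveCompacts (perp H)))
    simpa using this⟩
  exact tp_nonneg_aux ν hF h1 h2 h3 x

end Pool.Agent.V1142.SC.Ip
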