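import Pool.Agent.V1142.SC.Rl5

set_option autoImplicit false
set_option linter.unusedSectionVars false

/-!
# The Sato-Tate law from the characters
-/

namespace Pool.Agent.V1142.SC.Rl

open Complex Filter Topology NumberField IsDedekindDomain Finset MeasureTheory
  Pool.Agent.TH553.ST Pool.Agent.TH553.RS Pool.Agent.W540.BE Pool.Agent.V1142.SC.Many

section Int

/-- the Sato-Tate integral -/
noncomputable def ST (f : ℝ → ℝ) : ℝ := 2 / Real.pi * ∫ t in (0 : ℝ)..Real.pi, f t * Real.sin t ^ 2

theorem ii {f : ℝ → ℝ} (hf : Continuous f) :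
    IntervalIntegrable (fun t => f t * Real.sin t ^ 2) volume 0 Real.pi :=
  (hf.mul (Real.continuous_sin.pow 2)).intervalIntegrable _ _

theorem ST_add {f g : ℝ → ℝ} (hf : Continuous f) (hg : Continuous g) :
    ST (fun t => f t + g t) = ST f + ST g := by
  unfold ST
  rw [← mul_add, ← intervalIntegral.integral_add (ii hf) (ii hg)]
  congr 2
  funext t
  ring

theorem ST_mul (c : ℝ) (f : ℝ → ℝ) : ST (fun t => c * f t) = c * ST f := by
  unfold ST
  have e : (fun t => c * f t * Real.sin t ^ 2) = fun t => c * (f t * Real.sin t ^ 2) := by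
    funext t
    ring
  rw [e, intervalIntegral.integral_const_mul]
  ring

theorem int_cos (n : ℕ) (hn : 1 ≤ n) : ∫ t in (0 : ℝ)..Real.pi, Real.cos (n * t) = 0 := by
  have h0 : (n : ℝ) ≠ 0 := by
    have : n ≠ 0 := by omega
    exact_mod_cast this
  rw [intervalIntegral.integral_comp_mul_left (fun t => Real.cos t) h0, integral_cos,
    Real.sin_nat_mul_pi]
  simp

theorem ST_ch (n : ℕ) : ST (ch n) = if n = 0 then 1 else 0 := by
  unfold ST
  have e : (fun t => ch n t * Real.sin t ^ 2) = fun t =>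
      (Real.cos (n * t) - Real.cos (((n + 2 : ℕ) : ℝ) * t)) / 2 := by
    funext t
    have h1 : ch n t * Real.sin t ^ 2 = Real.sin ((n + 1) * t) * Real.sin t := by
      rw [← ch_sin]
      ring
    have e1 : (n : ℝ) * t = (n + 1) * t - t := by ring
    have e2 : ((n + 2 : ℕ) : ℝ) * t = (n + 1) * t + t := by push_cast; ring
    rw [h1, e1, e2, Real.cos_sub, Real.cos_add]
    ring
  have i1 : IntervalIntegrable (fun t => Real.cos ((n : ℝ) * t)) volume 0 Real.pi :=
    Continuous.intervalIntegrable (by fun_prop) _ _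
  have i2 : IntervalIntegrable (fun t => Real.cos (((n + 2 : ℕ) : ℝ) * t)) volume 0 Real.pi :=
    Continuous.intervalIntegrable (by fun_prop) _ _
  rw [e, intervalIntegral.integral_div, intervalIntegral.integral_sub i1 i2,
    int_cos (n + 2) (by omega)]
  rcases Nat.eq_zero_or_pos n with h | h
  · subst h
    rw [if_pos rfl]
    simp only [Nat.cast_zero, zero_mul, Real.cos_zero, intervalIntegral.integral_const,
      smul_eq_mul]
    have := Real.pi_ne_zero
    field_simp
    ring
  · rw [int_cos n h, if_neg (by omega)]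
    simp

theorem ST_le {f g : ℝ → ℝ} (hf : Continuous f) (hg : Continuous g) {ε : ℝ}
    (h : ∀ t, |f t - g t| ≤ ε) : |ST f - ST g| ≤ ε := by
  have key : ∀ {f g : ℝ → ℝ}, Continuous f → Continuous g → (∀ t, f t ≤ g t) → ST f ≤ ST g := by
    intro f g hf hg h
    unfold ST
    refine mul_le_mul_of_nonneg_left ?_ (by positivity)
    refine intervalIntegral.integral_mono_on Real.pi_pos.le (ii hf) (ii hg) fun t _ => ?_
    exact mul_le_mul_of_nonneg_right (h t) (sq_nonneg _)
  have hc : ST (fun _ => ε) = ε := by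
    have h1 := ST_mul ε (ch 0)
    have e : (fun t => ε * ch 0 t) = fun _ => ε := by
      funext t
      rw [ch_zero, mul_one]
    rw [e, ST_ch, if_pos rfl, mul_one] at h1
    exact h1
  have h1 : ST f ≤ ST fun t => g t + ε := key hf (hg.add continuous_const) fun t => (by
    have := (abs_le.1 (h t)).2
    linarith : f t ≤ g t + ε)
  have h2 : ST g ≤ ST fun t => f t + ε := key hg (hf.add continuous_const) fun t => (by
    have := (abs_le.1 (h t)).1
    linarith : g t ≤ f t + ε)
  rw [ST_add hg continuous_const, hc] at h1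
  rw [ST_add hf continuous_const, hc] at h2
  rw [abs_le]
  constructor <;> linarith

/-- the integral for complex multiplication -/
noncomputable def CM (f : ℝ → ℝ) : ℝ :=
  1 / (2 * Real.pi) * (∫ t in (0 : ℝ)..Real.pi, f t) + f (Real.pi / 2) / 2

theorem ic {f : ℝ → ℝ} (hf : Continuous f) : IntervalIntegrable f volume 0 Real.pi :=
  hf.intervalIntegrable _ _

theorem CM_add {f g : ℝ → ℝ} (hf : Continuous f) (hg : Continuous g) :
    CM (fun t => f t + g t) = CM f + CM g := by
  unfold CM
  rw [intervalIntegral.integral_add (ic hf) (ic hg)]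
  ring

theorem CM_mul (c : ℝ) (f : ℝ → ℝ) : CM (fun t => c * f t) = c * CM f := by
  unfold CM
  rw [intervalIntegral.integral_const_mul]
  ring

theorem CM_one : CM (fun _ => 1) = 1 := by
  unfold CM
  rw [intervalIntegral.integral_const]
  have := Real.pi_ne_zero
  simp only [sub_zero, smul_eq_mul, mul_one]
  field_simp
  norm_num

theorem CM_le {f g : ℝ → ℝ} (hf : Continuous f) (hg : Continuous g) {ε : ℝ}
    (h : ∀ t, |f t - g t| ≤ ε) : |CM f - CM g| ≤ ε := by
  have key : ∀ {f g : ℝ → ℝ}, Continuous f → Continuous g → (∀ t, f t ≤ g t) → CM f ≤ CM g := by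
    intro f g hf hg h
    unfold CM
    refine add_le_add (mul_le_mul_of_nonneg_left ?_ (by positivity)) (by linarith [h (Real.pi / 2)])
    exact intervalIntegral.integral_mono_on Real.pi_pos.le (ic hf) (ic hg) fun t _ => h t
  have hc : CM (fun _ => ε) = ε := by
    have h1 := CM_mul ε (fun _ => 1)
    rw [CM_one, mul_one] at h1
    simpa using h1
  have h1 : CM f ≤ CM fun t => g t + ε := key hf (hg.add continuous_const) fun t => (by
    have := (abs_le.1 (h t)).2
    linarith : f t ≤ g t + ε)
  have h2 : CM g ≤ CM fun t => f t + ε := key hg (hf.add continuous_const) fun t => (by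
    have := (abs_le.1 (h t)).1
    linarith : g t ≤ f t + ε)
  rw [CM_add hg continuous_const, hc] at h1
  rw [CM_add hf continuous_const, hc] at h2
  rw [abs_le]
  constructor <;> linarith

theorem CM_cos (k : ℕ) (hk : 1 ≤ k) :
    CM (fun t => 2 * Real.cos (k * t)) = if k % 2 = 1 then 0 else (-1) ^ (k / 2) := by
  unfold CM
  rw [intervalIntegral.integral_const_mul, int_cos k hk]
  by_cases hodd : k % 2 = 1
  · rw [if_pos hodd]
    obtain ⟨j, rfl⟩ : ∃ j, k = 2 * j + 1 := ⟨k / 2, by omega⟩
    have e : ((2 * j + 1 : ℕ) : ℝ) * (Real.pi / 2) = Real.pi / 2 + j * Real.pi := by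
      push_cast
      ring
    simp only [e]
    rw [Real.cos_add_nat_mul_pi, Real.cos_pi_div_two]
    simp
  · rw [if_neg hodd]
    obtain ⟨j, rfl⟩ : ∃ j, k = 2 * j := ⟨k / 2, by omega⟩
    have e : ((2 * j : ℕ) : ℝ) * (Real.pi / 2) = j * Real.pi := by
      push_cast
      ring
    have h8 : 2 * j / 2 = j := by omega
    simp only [e]
    rw [h8, Real.cos_nat_mul_pi]
    ring

end Int

section Poly

/-- the span of the characters -/
noncomputable def Sp : Submodule ℝ (ℝ → ℝ) := Submodule.span ℝ (Set.range ch)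

theorem mul_mem {f : ℝ → ℝ} (hf : f ∈ Sp) : (fun t => 2 * Real.cos t * f t) ∈ Sp := by
  unfold Sp at hf
  induction hf using Submodule.span_induction with
  | mem x hx =>
    obtain ⟨n, rfl⟩ := hx
    rcases n with _ | n
    · have e : (fun t => 2 * Real.cos t * ch 0 t) = ch 1 := by
        funext t
        rw [ch_zero, ch_one, mul_one]
      rw [e]
      exact Submodule.subset_span ⟨1, rfl⟩
    · have e : (fun t => 2 * Real.cos t * ch (n + 1) t) = ch (n + 2) + ch n := by
        funext t
        rw [ch_step]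
        rfl
      rw [e]
      exact Submodule.add_mem _ (Submodule.subset_span ⟨n + 2, rfl⟩)
        (Submodule.subset_span ⟨n, rfl⟩)
  | zero =>
    have e : (fun t => 2 * Real.cos t * (0 : ℝ → ℝ) t) = 0 := by
      funext t
      simp
    rw [e]
    exact Submodule.zero_mem _
  | add x y _ _ hx hy =>
    have e : (fun t => 2 * Real.cos t * (x + y) t) =
        (fun t => 2 * Real.cos t * x t) + fun t => 2 * Real.cos t * y t := by
      funext t
      simp only [Pi.add_apply]
      ring
    rw [e]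
    exact Submodule.add_mem _ hx hy
  | smul c x _ hx =>
    have e : (fun t => 2 * Real.cos t * (c • x) t) = c • fun t => 2 * Real.cos t * x t := by
      funext t
      simp only [Pi.smul_apply, smul_eq_mul]
      ring
    rw [e]
    exact Submodule.smul_mem _ _ hx

theorem pow_mem (k : ℕ) : (fun t => (2 * Real.cos t) ^ k) ∈ Sp := by
  induction k with
  | zero =>
    have e : (fun t : ℝ => (2 * Real.cos t) ^ 0) = ch 0 := by
      funext t
      rw [ch_zero, pow_zero]
    rw [e]
    exact Submodule.subset_span ⟨0, rfl⟩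
  | succ k ih =>
    have e : (fun t : ℝ => (2 * Real.cos t) ^ (k + 1)) =
        fun t => 2 * Real.cos t * (fun t => (2 * Real.cos t) ^ k) t := by
      funext t
      simp only
      ring
    rw [e]
    exact mul_mem ih

theorem poly_mem (p : Polynomial ℝ) : (fun t => p.eval (2 * Real.cos t)) ∈ Sp := by
  have e : (fun t => p.eval (2 * Real.cos t)) =
      ∑ k ∈ range (p.natDegree + 1), p.coeff k • fun t : ℝ => (2 * Real.cos t) ^ k := by
    funext t
    rw [Polynomial.eval_eq_sum_range, Finset.sum_apply]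
    simp
  rw [e]
  exact Submodule.sum_mem _ fun k _ => Submodule.smul_mem _ _ (pow_mem k)

/-- closure -/
theorem sp_induct {P : (ℝ → ℝ) → Prop} (h1 : ∀ n, P (ch n))
    (h2 : ∀ f g, Continuous f → Continuous g → P f → P g → P fun t => f t + g t)
    (h3 : ∀ (c : ℝ) f, Continuous f → P f → P fun t => c * f t) {f : ℝ → ℝ} (hf : f ∈ Sp) :
    Continuous f ∧ P f := by
  unfold Sp at hf
  induction hf using Submodule.span_induction with
  | mem x hx =>
    obtain ⟨n, rfl⟩ := hx
    exact ⟨cont_ch n, h1 n⟩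
  | zero =>
    refine ⟨continuous_const, ?_⟩
    have e : (0 : ℝ → ℝ) = fun t => 0 * ch 0 t := by
      funext t
      simp
    rw [e]
    exact h3 0 _ (cont_ch 0) (h1 0)
  | add x y _ _ hx hy => exact ⟨hx.1.add hy.1, h2 x y hx.1 hy.1 hx.2 hy.2⟩
  | smul c x _ hx => exact ⟨hx.1.const_smul c, h3 c x hx.1 hx.2⟩

end Poly

section Law

variable {K : Type} [Field K] [NumberField K] {θ : HeightOneSpectrum (𝓞 K) → ℝ}

theorem two_cos_mem (t : ℝ) : 2 * Real.cos t ∈ Set.Icc (-2 : ℝ) 2 :=
  ⟨by linarith [Real.neg_one_le_cos t], by linarith [Real.cos_le_one t]⟩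

theorem bd_f {f : ℝ → ℝ} (hf : Continuous f) : Bd fun v => f (2 * Real.cos (θ v)) := by
  obtain ⟨C, hC⟩ := (isCompact_Icc (a := (-2 : ℝ)) (b := 2)).exists_bound_of_continuousOn
    hf.continuousOn
  exact ⟨C, fun v => hC _ (two_cos_mem _)⟩

/-- the law for the mean values -/
theorem M_law_gen {U : Ultrafilter ℝ} (hU : (U : Filter ℝ) ≤ 𝓝[>] 0) {I : (ℝ → ℝ) → ℝ}
    (hadd : ∀ {f g : ℝ → ℝ}, Continuous f → Continuous g → I (fun t => f t + g t) = I f + I g)
    (hmul : ∀ (c : ℝ) (f : ℝ → ℝ), I (fun t => c * f t) = c * I f)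
    (hle : ∀ {f g : ℝ → ℝ}, Continuous f → Continuous g → ∀ {ε : ℝ}, (∀ t, |f t - g t| ≤ ε) →
      |I f - I g| ≤ ε)
    (h : ∀ n, (M (nm K) U fun v => ch n (θ v)) = I (ch n)) {f : ℝ → ℝ} (hf : Continuous f) :
    (M (nm K) U fun v => f (2 * Real.cos (θ v))) = I fun t => f (2 * Real.cos t) := by
  have hN := sysF K
  have hpoly : ∀ p : Polynomial ℝ, (M (nm K) U fun v => p.eval (2 * Real.cos (θ v))) =
      I fun t => p.eval (2 * Real.cos t) := by
    intro p
    have h1 := sp_induct (P := fun f => (Bd fun v => f (θ v)) ∧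
      (M (nm K) U fun v => f (θ v)) = I f) (fun n => ⟨bd_ch n, h n⟩)
      (fun f g hf hg h1 h2 => ⟨h1.1.add h2.1, by
        rw [M_add hN hU h1.1 h2.1, h1.2, h2.2, hadd hf hg]⟩)
      (fun c f hf h1 => ⟨h1.1.const_mul c, by
        rw [M_const_mul hN hU h1.1, h1.2, hmul]⟩) (poly_mem p)
    exact h1.2.2
  have hcs : Continuous fun t => f (2 * Real.cos t) := by fun_prop
  by_contra hne
  set δ := |(M (nm K) U fun v => f (2 * Real.cos (θ v))) - I fun t => f (2 * Real.cos t)| with hδ
  have hδ0 : 0 < δ := abs_pos.2 (sub_ne_zero.2 hne)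
  obtain ⟨p, hp⟩ := exists_polynomial_near_of_continuousOn (-2) 2 f hf.continuousOn (δ / 4)
    (by positivity)
  have hpc : Continuous fun t => p.eval (2 * Real.cos t) := by
    have := p.continuous
    fun_prop
  have h1 : |(I fun t => f (2 * Real.cos t)) - I fun t => p.eval (2 * Real.cos t)| ≤ δ / 4 :=
    hle hcs hpc fun t => by
      rw [abs_sub_comm]
      exact (hp _ (two_cos_mem t)).le
  have hb1 := bd_f (θ := θ) hf
  have hb2 : Bd fun v => p.eval (2 * Real.cos (θ v)) := bd_f (θ := θ) p.continuous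
  have h2 := M_mono hN hU (hb2.add (Bd.const (-(δ / 4)))) hb1 fun v => by
    have := (abs_lt.1 (hp _ (two_cos_mem (θ v)))).2
    linarith
  have h3 := M_mono hN hU hb1 (hb2.add (Bd.const (δ / 4))) fun v => by
    have := (abs_lt.1 (hp _ (two_cos_mem (θ v)))).1
    linarith
  rw [M_add hN hU hb2 (Bd.const _), M_const hN hU, hpoly] at h2 h3
  have h4 := abs_le.1 h1
  have h5 : δ ≤ δ / 2 := by
    rw [hδ, abs_le]
    constructor <;> linarith
  linarith

theorem M_law_f {U : Ultrafilter ℝ} (hU : (U : Filter ℝ) ≤ 𝓝[>] 0)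
    (h : ∀ n, 1 ≤ n → (M (nm K) U fun v => ch n (θ v)) = 0) {f : ℝ → ℝ} (hf : Continuous f) :
    (M (nm K) U fun v => f (2 * Real.cos (θ v))) = ST fun t => f (2 * Real.cos t) := by
  refine M_law_gen hU ST_add ST_mul (fun hf hg ε h => ST_le hf hg h) (fun n => ?_) hf
  rw [ST_ch]
  rcases Nat.eq_zero_or_pos n with h1 | h1
  · subst h1
    rw [if_pos rfl]
    simp only [ch_zero]
    rw [M_one (sysF K) hU]
  · rw [h n h1, if_neg (by omega)]

/-- the mean values of the characters in the second case -/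
theorem M_ch_CM {U : Ultrafilter ℝ} (hU : (U : Filter ℝ) ≤ 𝓝[>] 0)
    (h : ∀ k : ℕ, 1 ≤ k →
      (M (nm K) U fun v => 2 * Real.cos (k * θ v)) = if k % 2 = 1 then 0 else (-1) ^ (k / 2)) :
    ∀ n, (M (nm K) U fun v => ch n (θ v)) = CM (ch n) ∧
      (M (nm K) U fun v => ch n (θ v)) = if n % 4 = 0 then 1 else 0 := by
  have hN := sysF K
  intro n
  induction n using Nat.strong_induction_on with
  | _ n ih =>
    rcases n with _ | _ | n
    · have e : ch 0 = fun _ => 1 := funext ch_zero
      rw [e, M_one hN hU, CM_one]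
      simp
    · have e : ch 1 = fun t => 2 * Real.cos ((1 : ℕ) * t) := by
        funext t
        rw [ch_one]
        simp
      have h1 := h 1 le_rfl
      have h2 := CM_cos 1 le_rfl
      rw [zero_add, e]
      simp only [h1, h2]
      simp
    · have e : ch (n + 2) = fun t => ch n t + 2 * Real.cos (((n + 2 : ℕ) : ℝ) * t) := by
        funext t
        rw [ch_two]
        push_cast
        rfl
      have h1 := h (n + 2) (by omega)
      have h2 := CM_cos (n + 2) (by omega)
      obtain ⟨h3, h4⟩ := ih n (by omega)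
      have h5 : (M (nm K) U fun v => ch (n + 2) (θ v)) = (M (nm K) U fun v => ch n (θ v)) +
          M (nm K) U fun v => 2 * Real.cos (((n + 2 : ℕ) : ℝ) * θ v) := by
        rw [← M_add hN hU (bd_ch _) (bd_cos _)]
        simp only [e]
      have h6 : CM (ch (n + 2)) = CM (ch n) + CM fun t => 2 * Real.cos (((n + 2 : ℕ) : ℝ) * t) := by
        rw [e, CM_add (cont_ch n) (by fun_prop)]
      refine ⟨by rw [h5, h6, h1, h2, h3], ?_⟩
      rw [h5, h1, h4]
      rcases (by omega : n % 4 = 0 ∨ n % 4 = 1 ∨ n % 4 = 2 ∨ n % 4 = 3) with h7 | h7 | h7 | h7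
      · have h8 : (n + 2) % 2 = 0 := by omega
        have h9 : (n + 2) % 4 = 2 := by omega
        have h10 : Odd ((n + 2) / 2) := Nat.odd_iff.2 (by omega)
        rw [h7, h8, h9, h10.neg_one_pow]
        norm_num
      · have h8 : (n + 2) % 2 = 1 := by omega
        have h9 : (n + 2) % 4 = 3 := by omega
        rw [h7, h8, h9]
        norm_num
      · have h8 : (n + 2) % 2 = 0 := by omega
        have h9 : (n + 2) % 4 = 0 := by omega
        have h10 : Even ((n + 2) / 2) := Nat.even_iff.2 (by omega)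
        rw [h7, h8, h9, h10.neg_one_pow]
        norm_num
      · have h8 : (n + 2) % 2 = 1 := by omega
        have h9 : (n + 2) % 4 = 1 := by omega
        rw [h7, h8, h9]
        norm_num

theorem M_law_CM {U : Ultrafilter ℝ} (hU : (U : Filter ℝ) ≤ 𝓝[>] 0)
    (h : ∀ k : ℕ, 1 ≤ k →
      (M (nm K) U fun v => 2 * Real.cos (k * θ v)) = if k % 2 = 1 then 0 else (-1) ^ (k / 2))
    {f : ℝ → ℝ} (hf : Continuous f) :
    (M (nm K) U fun v => f (2 * Real.cos (θ v))) = CM fun t => f (2 * Real.cos t) :=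
  M_law_gen hU CM_add CM_mul (fun hf hg ε h => CM_le hf hg h) (fun n => (M_ch_CM hU h n).1) hf

theorem mn_add' (f g : HeightOneSpectrum (𝓞 K) → ℂ) (N : ℕ) :
    mn (fun v => f v + g v) N = mn f N + mn g N := by
  unfold mn
  rw [Finset.sum_add_distrib, smul_add]

/-- the law for the averages -/
theorem mn_law_f (h : ∀ n, 1 ≤ n → Tendsto (mn fun v => ((ch n (θ v) : ℝ) : ℂ)) atTop (𝓝 0))
    {f : ℝ → ℝ} (hf : Continuous f) :
    Tendsto (mn fun v => ((f (2 * Real.cos (θ v)) : ℝ) : ℂ)) atTop
      (𝓝 ((ST fun t => f (2 * Real.cos t) : ℝ) : ℂ)) := by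
  have hpoly : ∀ p : Polynomial ℝ, Tendsto (mn fun v => ((p.eval (2 * Real.cos (θ v)) : ℝ) : ℂ))
      atTop (𝓝 ((ST fun t => p.eval (2 * Real.cos t) : ℝ) : ℂ)) := by
    intro p
    have h1 := sp_induct (P := fun f => Tendsto (mn fun v => ((f (θ v) : ℝ) : ℂ)) atTop
      (𝓝 ((ST f : ℝ) : ℂ))) (fun n => by
        rw [ST_ch]
        rcases Nat.eq_zero_or_pos n with h1 | h1
        · subst h1
          rw [if_pos rfl]
          simp only [ch_zero]
          refine tendsto_const_nhds.congr' ?_
          filter_upwards [card_ev (K := K)] with N hN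
          unfold mn
          rw [Finset.sum_const, Complex.real_smul, nsmul_eq_mul]
          push_cast
          have hN' : ((upto K N).card : ℂ) ≠ 0 := by exact_mod_cast hN
          field_simp
        · rw [if_neg (by omega)]
          simpa using h n h1)
      (fun f g hf hg h1 h2 => by
        rw [ST_add hf hg, Complex.ofReal_add]
        refine (h1.add h2).congr fun N => ?_
        rw [← mn_add']
        congr 1
        funext v
        push_cast
        rfl)
      (fun c f hf h1 => by
        rw [ST_mul, Complex.ofReal_mul]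
        refine (h1.const_mul (c : ℂ)).congr fun N => ?_
        rw [← mn_mul]
        congr 1
        funext v
        push_cast
        rfl) (poly_mem p)
    exact h1.2
  have hcs : Continuous fun t => f (2 * Real.cos t) := by fun_prop
  refine mn_unif fun ε hε => ?_
  obtain ⟨p, hp⟩ := exists_polynomial_near_of_continuousOn (-2) 2 f hf.continuousOn ε hε
  have hpc : Continuous fun t => p.eval (2 * Real.cos t) := by
    have := p.continuous
    fun_prop
  refine ⟨_, _, fun v => ?_, ?_, hpoly p⟩
  · rw [← Complex.ofReal_sub, Complex.norm_real, Real.norm_eq_abs, abs_sub_comm]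
    exact (hp _ (two_cos_mem _)).le
  · rw [← Complex.ofReal_sub, Complex.norm_real, Real.norm_eq_abs]
    refine ST_le hpc hcs fun t => ?_
    exact (hp _ (two_cos_mem t)).le

/-- limits from ultrafilters -/
theorem qt_of_M {φ : HeightOneSpectrum (𝓞 K) → ℝ} (hφ : Bd φ) {c : ℝ}
    (h : ∀ U : Ultrafilter ℝ, (U : Filter ℝ) ≤ 𝓝[>] 0 → M (nm K) U φ = c) :
    Tendsto (qt (nm K) φ) (𝓝[>] 0) (𝓝 c) := by
  rw [tendsto_iff_ultrafilter]
  intro U hU
  have h1 := M_lim (sysF K) hU hφ
  rw [h U hU] at h1
  exact h1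

/-- the quotient of Dirichlet series -/
theorem ratio_of_qt {φ : HeightOneSpectrum (𝓞 K) → ℝ} {c : ℝ}
    (h : Tendsto (qt (nm K) φ) (𝓝[>] 0) (𝓝 c)) :
    Tendsto (fun ε : ℝ => EP (nm K) ε φ / EP (nm K) ε fun _ => 1) (𝓝[>] 0) (𝓝 c) := by
  have h1 := h.div (sysF K).one one_ne_zero
  rw [div_one] at h1
  refine h1.congr' ?_
  filter_upwards [(Pool.Agent.H341R2.lam_tendsto).eventually_gt_atTop 0] with ε hε
  simp only [Pi.div_apply]
  unfold qt
  field_simp

end Law

end Pool.Agent.V1142.SC.Rl
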