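import Pool.Agent.V1142.SC.Ip7
import Pool.Agent.V1142.SC.Rl6

set_option autoImplicit false
set_option linter.unusedSectionVars false

/-!
# The limit law of the eigenvalues: conclusion
-/

namespace Pool.Agent.V1142.SC.Ip

open Complex Filter Topology NumberField IsDedekindDomain Finset MeasureTheory
  Pool.Agent.TH553.ST Pool.Agent.TH553.RS Pool.Agent.W540.BE Pool.Agent.V1142.SC.Many

section

variable {K : Type} [Field K] [NumberField K] {n : ℕ} {z : HeightOneSpectrum (𝓞 K) → Fin n → Circle}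

/-- the data of the limit law -/
structure Data (n : ℕ) (J : Type) where
  H : J → AddSubgroup (Fin n → ℤ)
  F : J → (Fin n → ℤ) → ℤ
  s : J → Finset (Fin n → ℤ)
  ipd : ∀ j, IPD (F j)
  per : ∀ j, ∀ a ∈ H j, ∀ b, F j (a + b) = F j b
  inj : ∀ j, ∀ l ∈ s j, ∀ l' ∈ s j, l - l' ∈ H j → l = l'
  sup : ∀ j, ∀ l, F j l ≠ 0 → ∃ t ∈ s j, l - t ∈ H j

theorem exists_data {r : (Fin n → ℤ) → ℤ} (hr : IPD r) :
    ∃ (J : Type) (_ : Fintype J) (D : Data n J), ∀ l, r l = ∑ j, D.F j l := by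
  obtain ⟨J, hJ, F, h1, h2⟩ := structure_thm hr
  choose H s h3 h4 h5 using fun j => exists_reps (h1 j).2
  exact ⟨J, hJ, ⟨H, F, s, fun j => (h1 j).1, h3, h4, h5⟩, h2⟩

variable {J : Type} [Fintype J] (D : Data n J)

/-- the densities -/
noncomputable def Data.P (D : Data n J) (j : J) (x : Fin n → Circle) : ℝ :=
  (tp (D.F j) (D.s j) x).re / n.factorial

theorem Data.P_eq (j : J) (x : perp (D.H j)) :
    ((D.P j x.1 : ℝ) : ℂ) = (n.factorial : ℂ)⁻¹ * tp (D.F j) (D.s j) x.1 := by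
  have h := tp_nonneg (D.ipd j) (D.per j) (D.inj j) (D.sup j) x
  unfold Data.P
  have h1 : tp (D.F j) (D.s j) x.1 = (((tp (D.F j) (D.s j) x.1).re : ℝ) : ℂ) :=
    Complex.ext (by simp) (by simp [h.1])
  rw [h1, Complex.ofReal_div, Complex.ofReal_natCast, Complex.ofReal_re]
  ring

theorem Data.P_nonneg (j : J) (x : perp (D.H j)) : 0 ≤ D.P j x.1 := by
  have h := tp_nonneg (D.ipd j) (D.per j) (D.inj j) (D.sup j) x
  unfold Data.P
  exact div_nonneg h.2 (by positivity)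

variable [∀ j, MeasurableSpace (perp (D.H j))] [∀ j, BorelSpace (perp (D.H j))]
  (ν : ∀ j, Measure (perp (D.H j))) [∀ j, IsProbabilityMeasure (ν j)] [∀ j, (ν j).IsHaarMeasure]

theorem Data.int_P (j : J) (l : Fin n → ℤ) :
    ∫ x : perp (D.H j), ((mon x.1 l : Circle) : ℂ) * (D.P j x.1 : ℂ) ∂(ν j) =
      (n.factorial : ℂ)⁻¹ * (D.F j l : ℂ) := by
  have h1 : (fun x : perp (D.H j) => ((mon x.1 l : Circle) : ℂ) * (D.P j x.1 : ℂ)) =
      fun x : perp (D.H j) => (n.factorial : ℂ)⁻¹ *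
        (((mon x.1 l : Circle) : ℂ) * tp (D.F j) (D.s j) x.1) := by
    funext x
    rw [D.P_eq]
    ring
  rw [h1, integral_const_mul, int_tp (ν j) (D.per j) (D.inj j) (D.sup j)]

theorem Data.integrable (j : J) {f : (Fin n → Circle) → ℂ} (hf : Continuous f) :
    Integrable (fun x : perp (D.H j) => f x.1 * (D.P j x.1 : ℂ)) (ν j) := by
  have h1 : (fun x : perp (D.H j) => f x.1 * (D.P j x.1 : ℂ)) =
      fun x : perp (D.H j) => f x.1 * ((n.factorial : ℂ)⁻¹ * tp (D.F j) (D.s j) x.1) := by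
    funext x
    rw [D.P_eq]
  rw [h1]
  exact integrable_cont (ν j) (f := fun z => f z * ((n.factorial : ℂ)⁻¹ * tp (D.F j) (D.s j) z))
    (hf.mul (continuous_const.mul (cont_tp _ _)))

/-- **The law**, in terms of the mean values along ultrafilters. -/
theorem law_M {r : (Fin n → ℤ) → ℤ} (hD : ∀ l, r l = ∑ j, D.F j l) {U : Ultrafilter ℝ}
    (hU : (U : Filter ℝ) ≤ 𝓝[>] 0) (hr : ∀ l, Mc U (fun v => sm (z v) l) = (r l : ℂ))
    {f : (Fin n → Circle) → ℂ} (hf : Continuous f)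
    (hs : ∀ (x : Fin n → Circle) (σ : Equiv.Perm (Fin n)), f (x ∘ σ) = f x) :
    Mc U (fun v => f (z v)) = ∑ j, ∫ x : perp (D.H j), f x.1 * (D.P j x.1 : ℂ) ∂(ν j) := by
  have hn : (n.factorial : ℂ) ≠ 0 := by exact_mod_cast n.factorial_ne_zero
  obtain ⟨B, hB⟩ : ∃ B : ℝ, ∀ x : Fin n → Circle, ‖f x‖ ≤ B := by
    obtain ⟨B, hB⟩ := (isCompact_univ (X := Fin n → Circle)).exists_bound_of_continuousOn
      hf.continuousOn
    exact ⟨B, fun x => hB x trivial⟩
  have hbf : Bc fun v => f (z v) := ⟨B, fun v => hB _⟩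
  obtain ⟨C, hC0, hC⟩ : ∃ C : ℝ, 0 ≤ C ∧ ∀ (j : J) (x : perp (D.H j)), ‖(D.P j x.1 : ℂ)‖ ≤ C := by
    have h1 : ∀ j : J, ∃ C : ℝ, 0 ≤ C ∧ ∀ x : perp (D.H j), ‖(D.P j x.1 : ℂ)‖ ≤ C := by
      intro j
      obtain ⟨C, hC⟩ := (isCompact_univ (X := Fin n → Circle)).exists_bound_of_continuousOn
        (continuous_const (y := (n.factorial : ℂ)⁻¹) |>.mul (cont_tp (D.F j) (D.s j))).continuousOn
      refine ⟨|C|, abs_nonneg _, fun x => ?_⟩
      rw [D.P_eq]
      exact (hC x.1 trivial).trans (le_abs_self C)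
    choose C hC0 hC using h1
    exact ⟨∑ j, C j, sum_nonneg fun j _ => hC0 j, fun j x => (hC j x).trans
      (single_le_sum (f := C) (fun j _ => hC0 j) (mem_univ j))⟩
  have key : ∀ δ : ℝ, 0 < δ → ‖Mc U (fun v => f (z v)) -
      ∑ j, ∫ x : perp (D.H j), f x.1 * (D.P j x.1 : ℂ) ∂(ν j)‖ ≤ δ * (1 + Fintype.card J * C) := by
    intro δ hδ
    obtain ⟨s, c, h1, h2⟩ := approx_sym hf hs hδ
    have e1 : Mc U (fun v => ∑ l ∈ s, (c l * (n.factorial : ℂ)⁻¹) * sm (z v) l) =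
        ∑ j, ∫ x : perp (D.H j), (∑ l ∈ s, c l * ((mon x.1 l : Circle) : ℂ)) * (D.P j x.1 : ℂ) ∂(ν j) := by
      rw [Mc_sum hU _ fun l _ => (Bc.const _).mul (bc_sm (z := z) l)]
      have e2 : ∀ j, ∫ x : perp (D.H j), (∑ l ∈ s, c l * ((mon x.1 l : Circle) : ℂ)) *
          (D.P j x.1 : ℂ) ∂(ν j) = ∑ l ∈ s, c l * ((n.factorial : ℂ)⁻¹ * (D.F j l : ℂ)) := by
        intro j
        have e3 : (fun x : perp (D.H j) => (∑ l ∈ s, c l * ((mon x.1 l : Circle) : ℂ)) *
          (D.P j x.1 : ℂ)) = fun x : perp (D.H j) =>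
            ∑ l ∈ s, c l * (((mon x.1 l : Circle) : ℂ) * (D.P j x.1 : ℂ)) := by
          funext x
          rw [sum_mul]
          exact sum_congr rfl fun l _ => by ring
        have e4 : ∫ x : perp (D.H j), (∑ l ∈ s, c l * (((mon x.1 l : Circle) : ℂ) *
            (D.P j x.1 : ℂ))) ∂(ν j) = ∑ l ∈ s, ∫ x : perp (D.H j), c l *
            (((mon x.1 l : Circle) : ℂ) * (D.P j x.1 : ℂ)) ∂(ν j) :=
          integral_finsetSum _ fun l _ => (D.integrable ν j (cont_monC l)).const_mul _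
        rw [e3, e4]
        refine sum_congr rfl fun l _ => ?_
        rw [integral_const_mul, D.int_P ν]
      simp only [e2]
      rw [sum_comm]
      refine sum_congr rfl fun l _ => ?_
      rw [Mc_const_mul hU (bc_sm (z := z) l), hr, hD]
      push_cast
      rw [mul_sum]
      exact sum_congr rfl fun j _ => by ring
    have e2 : ‖Mc U (fun v => f (z v)) -
        Mc U (fun v => ∑ l ∈ s, (c l * (n.factorial : ℂ)⁻¹) * sm (z v) l)‖ ≤ δ := by
      have hb2 : Bc fun v => ∑ l ∈ s, (c l * (n.factorial : ℂ)⁻¹) * sm (z v) l :=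
        bc_sum hU _ fun l _ => (Bc.const _).mul (bc_sm (z := z) l)
      have e3 : Mc U (fun v => f (z v)) -
          Mc U (fun v => ∑ l ∈ s, (c l * (n.factorial : ℂ)⁻¹) * sm (z v) l) =
          Mc U (fun v => f (z v) + (-1) * ∑ l ∈ s, (c l * (n.factorial : ℂ)⁻¹) * sm (z v) l) := by
        rw [Mc_add hU hbf ((Bc.const _).mul hb2), Mc_const_mul hU hb2]
        ring
      rw [e3]
      refine Mc_norm_le hU hδ.le fun v => ?_
      have := h2 (z v)
      rwa [neg_one_mul, ← sub_eq_add_neg]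
    have e3 : ‖(∑ j, ∫ x : perp (D.H j), (∑ l ∈ s, c l * ((mon x.1 l : Circle) : ℂ)) *
        (D.P j x.1 : ℂ) ∂(ν j)) - ∑ j, ∫ x : perp (D.H j), f x.1 * (D.P j x.1 : ℂ) ∂(ν j)‖ ≤
        Fintype.card J * (δ * C) := by
      rw [← sum_sub_distrib]
      refine (norm_sum_le _ _).trans ?_
      refine (sum_le_sum (g := fun _ => δ * C) fun j _ => ?_).trans (by simp)
      have hcs : Continuous fun x : Fin n → Circle => ∑ l ∈ s, c l * ((mon x l : Circle) : ℂ) :=
        continuous_finsetSum _ fun l _ => continuous_const.mul (cont_monC l)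
      rw [← integral_sub (D.integrable ν j hcs) (D.integrable ν j hf)]
      refine (norm_integral_le_of_norm_le_const (C := δ * C)
        (Eventually.of_forall fun x => ?_)).trans (by simp)
      rw [← sub_mul, norm_mul]
      refine mul_le_mul ?_ (hC j x) (norm_nonneg _) hδ.le
      rw [norm_sub_rev]
      exact h1 x.1
    rw [e1] at e2
    have e4 := norm_add_le (Mc U (fun v => f (z v)) - ∑ j, ∫ x : perp (D.H j),
        (∑ l ∈ s, c l * ((mon x.1 l : Circle) : ℂ)) * (D.P j x.1 : ℂ) ∂(ν j))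
      ((∑ j, ∫ x : perp (D.H j), (∑ l ∈ s, c l * ((mon x.1 l : Circle) : ℂ)) *
        (D.P j x.1 : ℂ) ∂(ν j)) - ∑ j, ∫ x : perp (D.H j), f x.1 * (D.P j x.1 : ℂ) ∂(ν j))
    rw [sub_add_sub_cancel] at e4
    refine e4.trans ((add_le_add e2 e3).trans (le_of_eq (by ring)))
  have h0 : ‖Mc U (fun v => f (z v)) -
      ∑ j, ∫ x : perp (D.H j), f x.1 * (D.P j x.1 : ℂ) ∂(ν j)‖ ≤ 0 := by
    refine le_of_forall_pos_le_add fun ε hε => ?_
    rw [zero_add]
    have hE : 0 < 1 + (Fintype.card J : ℝ) * C := by positivity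
    have := key (ε / (1 + Fintype.card J * C)) (by positivity)
    rwa [div_mul_cancel₀ _ hE.ne'] at this
  exact sub_eq_zero.1 (norm_le_zero_iff.1 h0)

/-- from mean values to Dirichlet averages -/
theorem tendsto_of_Mc {φ : HeightOneSpectrum (𝓞 K) → ℂ} (hφ : Bc φ) {c : ℂ}
    (h : ∀ U : Ultrafilter ℝ, (U : Filter ℝ) ≤ 𝓝[>] 0 → Mc U φ = c) :
    Tendsto (fun ε : ℝ => (((EP (nm K) ε fun v => (φ v).re) / EP (nm K) ε fun _ => 1 : ℝ) : ℂ) +
      (((EP (nm K) ε fun v => (φ v).im) / EP (nm K) ε fun _ => 1 : ℝ) : ℂ) * I) (𝓝[>] 0) (𝓝 c) := by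
  have h1 := Rl.ratio_of_qt (Rl.qt_of_M (c := c.re) hφ.re fun U hU => congrArg Complex.re (h U hU))
  have h2 := Rl.ratio_of_qt (Rl.qt_of_M (c := c.im) (bc_im hφ) fun U hU =>
    congrArg Complex.im (h U hU))
  have h3 := ((Complex.continuous_ofReal.tendsto _).comp h1).add
    (((Complex.continuous_ofReal.tendsto _).comp h2).mul_const I)
  rw [Complex.re_add_im] at h3
  exact h3

end

end Pool.Agent.V1142.SC.Ip
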