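import Pool.Agent.V1142.SC.Ip8
import Pool.Agent.V1142.SC.Gou3

set_option autoImplicit false
set_option linter.unusedSectionVars false

/-!
# The limit law of the eigenvalues: averages over the primes of bounded norm
-/

namespace Pool.Agent.V1142.SC.Ip

open Complex Filter Topology NumberField IsDedekindDomain Finset MeasureTheory
  Pool.Agent.TH553.ST Pool.Agent.TH553.RS Pool.Agent.W540.BE Pool.Agent.V1142.SC.Many

section

variable {K : Type} [Field K] [NumberField K] {n : ℕ} {z : HeightOneSpectrum (𝓞 K) → Fin n → Circle}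

/-- the order at a point of the line -/
def OrdZ (z : HeightOneSpectrum (𝓞 K) → Fin n → Circle) (d : Fin n → ℕ) (k : ℕ) (τ : ℝ) (m : ℤ) : Prop :=
  ∃ Λ : ℂ → ℂ, MeromorphicAt Λ (1 + τ * I) ∧
    (∀ᶠ s in 𝓝 ((1 : ℂ) + τ * I), (1 : ℝ) < s.re → Λ s = LA (Dg z d k) s) ∧
    meromorphicOrderAt Λ (1 + τ * I) = m

theorem mn_wt {d : Fin n → ℕ} {k : ℕ} {m : ℤ} (h0 : OrdZ z d k 0 m)
    (h : ∀ τ : ℝ, τ ≠ 0 → OrdZ z d k τ 0) :
    Tendsto (mn fun v => ∑ S : Fam n d, ((wt (z v) d k S : Circle) : ℂ)) atTop (𝓝 (-(m : ℂ))) := by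
  classical
  obtain ⟨α, h1, h2, h3⟩ := exists_alA (A := Dg z d k) fun v => Dg_mem d k v
  have h4 := Gou.taub' h1 (L := LA (Dg z d k)) (fun s _ => by
    unfold LA
    exact tprod_congr fun v => by rw [h3]) (fun τ => if τ = 0 then m else 0) (fun τ => by
    by_cases hτ : τ = 0
    · subst hτ
      rw [if_pos rfl]
      obtain ⟨Λ, k1, k2, k3⟩ := h0
      exact ⟨Λ, k1, k3, k2⟩
    · rw [if_neg hτ]
      obtain ⟨Λ, k1, k2, k3⟩ := h τ hτ
      exact ⟨Λ, k1, k3, k2⟩) (fun τ hτ => if_neg hτ)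
  rw [if_pos rfl] at h4
  refine h4.congr fun N => ?_
  congr 1
  funext v
  rw [h2 v, Dg_trace]

theorem exists_r' (h : ∀ d k, Me z d k) (l : Fin n → ℤ) : ∃ r : ℤ, (∀ U : Ultrafilter ℝ,
    (U : Filter ℝ) ≤ 𝓝[>] 0 → Mc U (fun v => sm (z v) l) = (r : ℂ)) ∧
    ((∀ d k (τ : ℝ), τ ≠ 0 → OrdZ z d k τ 0) →
      Tendsto (mn fun v => sm (z v) l) atTop (𝓝 (r : ℂ))) := by
  obtain ⟨k, T, c, hT⟩ := exists_comb l
  have h1 : ∀ t : Fin n →₀ ℕ, ∃ m : ℤ, (∀ U : Ultrafilter ℝ, (U : Filter ℝ) ≤ 𝓝[>] 0 →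
      Mc U (fun v => ∑ S : Fam n t, ((wt (z v) t k S : Circle) : ℂ)) = (m : ℂ)) ∧
      ((∀ d k (τ : ℝ), τ ≠ 0 → OrdZ z d k τ 0) →
        Tendsto (mn fun v => ∑ S : Fam n t, ((wt (z v) t k S : Circle) : ℂ)) atTop (𝓝 (m : ℂ))) := by
    intro t
    obtain ⟨Λ, h2, h3⟩ := h t k
    obtain ⟨m, hm0, hm⟩ := Mc_of_order h2 h3
    refine ⟨-m, hm, fun h' => ?_⟩
    have h4 := mn_wt (z := z) (d := t) (k := k) (m := m)
      ⟨Λ, by simpa using h2, by simpa using h3, by simpa using hm0⟩ (h' t k)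
    push_cast
    exact h4
  choose m hm hm' using h1
  have e1 : (fun v => sm (z v) l) = fun v => ∑ t ∈ T, (c t : ℂ) *
      ∑ S : Fam n t, ((wt (z v) t k S : Circle) : ℂ) := funext fun v => hT (z v)
  refine ⟨∑ t ∈ T, c t * m t, fun U hU => ?_, fun h' => ?_⟩
  · have e2 := Mc_sum hU T (φ := fun t v => (c t : ℂ) *
      ∑ S : Fam n t, ((wt (z v) t k S : Circle) : ℂ)) fun t _ => (Bc.const _).mul (bc_wt (z := z) t k)
    rw [e1]
    refine e2.trans ?_
    push_cast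
    refine sum_congr rfl fun t _ => ?_
    rw [Mc_const_mul hU (bc_wt (z := z) t k), hm t U hU]
  · have h2 : Tendsto (fun N => ∑ t ∈ T, (c t : ℂ) *
        mn (fun v => ∑ S : Fam n t, ((wt (z v) t k S : Circle) : ℂ)) N) atTop
        (𝓝 (∑ t ∈ T, (c t : ℂ) * (m t : ℂ))) :=
      tendsto_finsetSum _ fun t _ => (hm' t h').const_mul _
    push_cast
    refine h2.congr fun N => ?_
    rw [e1]
    refine Eq.trans ?_ (mn_sum T (fun t v => (c t : ℂ) *
      ∑ S : Fam n t, ((wt (z v) t k S : Circle) : ℂ)) N).symm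
    exact sum_congr rfl fun t _ => (mn_mul (c t : ℂ)
      (fun v => ∑ S : Fam n t, ((wt (z v) t k S : Circle) : ℂ)) N).symm

variable {J : Type} [Fintype J] (D : Data n J)
  [∀ j, MeasurableSpace (perp (D.H j))] [∀ j, BorelSpace (perp (D.H j))]
  (ν : ∀ j, Measure (perp (D.H j))) [∀ j, IsProbabilityMeasure (ν j)] [∀ j, (ν j).IsHaarMeasure]

/-- **The law**, for averages over the primes of bounded norm. -/
theorem law_mn {r : (Fin n → ℤ) → ℤ} (hD : ∀ l, r l = ∑ j, D.F j l)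
    (hr : ∀ l, Tendsto (mn fun v => sm (z v) l) atTop (𝓝 (r l : ℂ)))
    {f : (Fin n → Circle) → ℂ} (hf : Continuous f)
    (hs : ∀ (x : Fin n → Circle) (σ : Equiv.Perm (Fin n)), f (x ∘ σ) = f x) :
    Tendsto (mn fun v => f (z v)) atTop
      (𝓝 (∑ j, ∫ x : perp (D.H j), f x.1 * (D.P j x.1 : ℂ) ∂(ν j))) := by
  have hn : (n.factorial : ℂ) ≠ 0 := by exact_mod_cast n.factorial_ne_zero
  obtain ⟨C, hC0, hC⟩ : ∃ C : ℝ, 0 ≤ C ∧ ∀ (j : J) (x : perp (D.H j)), ‖(D.P j x.1 : ℂ)‖ ≤ C := by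
    have h1 : ∀ j : J, ∃ C : ℝ, 0 ≤ C ∧ ∀ x : perp (D.H j), ‖(D.P j x.1 : ℂ)‖ ≤ C := by
      intro j
      obtain ⟨C, hC⟩ := (isCompact_univ (X := Fin n → Circle)).exists_bound_of_continuousOn
        (continuous_const (y := (n.factorial : ℂ)⁻¹) |>.mul (cont_tp (D.F j) (D.s j))).continuousOn
      refine ⟨|C|, abs_nonneg _, fun x => ?_⟩
      rw [D.P_eq]
      exact (hC x.1 trivial).trans (le_abs_self C)
    choose C hC0 hC using h1
    exact ⟨∑ j, C j, sum_nonneg fun j _ => hC0 j, fun j x => (hC j x).trans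
      (single_le_sum (f := C) (fun j _ => hC0 j) (mem_univ j))⟩
  set E : ℝ := 1 + Fintype.card J * C with hE
  have hE0 : 1 ≤ E := by
    have : 0 ≤ (Fintype.card J : ℝ) * C := by positivity
    linarith
  refine mn_unif fun ε hε => ?_
  set δ := ε / E with hδ
  have hδ0 : 0 < δ := by positivity
  obtain ⟨s, c, h1, h2⟩ := approx_sym hf hs hδ0
  refine ⟨fun v => ∑ l ∈ s, (c l * (n.factorial : ℂ)⁻¹) * sm (z v) l,
    ∑ l ∈ s, (c l * (n.factorial : ℂ)⁻¹) * (r l : ℂ), fun v => (h2 (z v)).trans ?_, ?_, ?_⟩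
  · rw [hδ, div_le_iff₀ (by linarith)]
    nlinarith
  · have e2 : ∀ j, ∫ x : perp (D.H j), (∑ l ∈ s, c l * ((mon x.1 l : Circle) : ℂ)) *
        (D.P j x.1 : ℂ) ∂(ν j) = ∑ l ∈ s, c l * ((n.factorial : ℂ)⁻¹ * (D.F j l : ℂ)) := by
      intro j
      have e3 : (fun x : perp (D.H j) => (∑ l ∈ s, c l * ((mon x.1 l : Circle) : ℂ)) *
        (D.P j x.1 : ℂ)) = fun x : perp (D.H j) =>
          ∑ l ∈ s, c l * (((mon x.1 l : Circle) : ℂ) * (D.P j x.1 : ℂ)) := by
        funext x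
        rw [sum_mul]
        exact sum_congr rfl fun l _ => by ring
      have e4 : ∫ x : perp (D.H j), (∑ l ∈ s, c l * (((mon x.1 l : Circle) : ℂ) *
          (D.P j x.1 : ℂ))) ∂(ν j) = ∑ l ∈ s, ∫ x : perp (D.H j), c l *
          (((mon x.1 l : Circle) : ℂ) * (D.P j x.1 : ℂ)) ∂(ν j) :=
        integral_finsetSum _ fun l _ => (D.integrable ν j (cont_monC l)).const_mul _
      rw [e3, e4]
      refine sum_congr rfl fun l _ => ?_
      rw [integral_const_mul, D.int_P ν]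
    have e1 : ∑ l ∈ s, (c l * (n.factorial : ℂ)⁻¹) * (r l : ℂ) =
        ∑ j, ∫ x : perp (D.H j), (∑ l ∈ s, c l * ((mon x.1 l : Circle) : ℂ)) *
          (D.P j x.1 : ℂ) ∂(ν j) := by
      simp only [e2]
      rw [sum_comm]
      refine sum_congr rfl fun l _ => ?_
      rw [hD]
      push_cast
      rw [mul_sum]
      exact sum_congr rfl fun j _ => by ring
    rw [e1, ← sum_sub_distrib]
    have e5 : ‖∑ j, ((∫ x : perp (D.H j), (∑ l ∈ s, c l * ((mon x.1 l : Circle) : ℂ)) *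
        (D.P j x.1 : ℂ) ∂(ν j)) - ∫ x : perp (D.H j), f x.1 * (D.P j x.1 : ℂ) ∂(ν j))‖ ≤
        Fintype.card J * (δ * C) := by
      refine (norm_sum_le _ _).trans ?_
      refine (sum_le_sum (g := fun _ => δ * C) fun j _ => ?_).trans (by simp)
      have hcs : Continuous fun x : Fin n → Circle => ∑ l ∈ s, c l * ((mon x l : Circle) : ℂ) :=
        continuous_finsetSum _ fun l _ => continuous_const.mul (cont_monC l)
      rw [← integral_sub (D.integrable ν j hcs) (D.integrable ν j hf)]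
      refine (norm_integral_le_of_norm_le_const (C := δ * C)
        (Eventually.of_forall fun x => ?_)).trans (by simp)
      rw [← sub_mul, norm_mul]
      refine mul_le_mul ?_ (hC j x) (norm_nonneg _) hδ0.le
      rw [norm_sub_rev]
      exact h1 x.1
    refine e5.trans ?_
    have e6 : (Fintype.card J : ℝ) * (δ * C) = δ * (E - 1) := by rw [hE]; ring
    rw [e6]
    have e7 : δ * E = ε := by
      rw [hδ]
      field_simp
    nlinarith
  · have h3 : Tendsto (fun N => ∑ l ∈ s, (c l * (n.factorial : ℂ)⁻¹) * mn (fun v => sm (z v) l) N)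
        atTop (𝓝 (∑ l ∈ s, (c l * (n.factorial : ℂ)⁻¹) * (r l : ℂ))) :=
      tendsto_finsetSum _ fun l _ => (hr l).const_mul _
    refine h3.congr fun N => ?_
    rw [mn_sum]
    exact sum_congr rfl fun l _ => (mn_mul _ _ N).symm

end

end Pool.Agent.V1142.SC.Ip
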