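import Pool.Agent.TH553.ST.PW2

set_option autoImplicit false
set_option linter.unusedSectionVars false

/-!
# Many equidistributed families
-/

namespace Pool.Agent.V1142.SC.Many

open Complex Filter Topology ComplexConjugate MeasureTheory NumberField IsDedekindDomain
  Pool.Agent.TH553.ST Pool.Agent.TH553.RS Pool.Agent.W540.BE Pool.Agent.H341R2

section

variable {K : Type} [Field K] [NumberField K] {κ : Type} [Fintype κ] [DecidableEq κ]

/-- the Euler product of unitary matrices -/
noncomputable def LA (A : HeightOneSpectrum (𝓞 K) → Matrix κ κ ℂ) (s : ℂ) : ℂ :=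
  ∏' v, (Matrix.det (1 - (((nm K v : ℕ) : ℂ) ^ (-s)) • A v))⁻¹

variable {A : HeightOneSpectrum (𝓞 K) → Matrix κ κ ℂ}

theorem exists_alA (hA : ∀ v, A v ∈ Matrix.unitaryGroup κ ℂ) :
    ∃ α : HeightOneSpectrum (𝓞 K) → Fin (Fintype.card κ) → ℂ,
      (∀ v j, ‖α v j‖ = 1) ∧ (∀ v, ∑ j, α v j = (A v).trace) ∧
      ∀ v (c : ℂ), Matrix.det (1 - c • A v) = ∏ j, (1 - α v j * c) := by
  choose α h1 h2 h3 using fun v => exists_eig (hA v)
  exact ⟨α, h1, h2, h3⟩

theorem size_LA (hA : ∀ v, A v ∈ Matrix.unitaryGroup κ ℂ) (τ : ℝ) :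
    (∀ᶠ ε : ℝ in 𝓝[>] 0, LA A (1 + τ * I + ε) ≠ 0) ∧
    Tendsto (fun ε : ℝ => qt (nm K) (fun v =>
      ((A v).trace * ((nm K v : ℕ) : ℂ) ^ (-(τ * I : ℂ))).re) ε -
      Real.log ‖LA A (1 + τ * I + ε)‖ / Real.log (1 / ε)) (𝓝[>] 0) (𝓝 0) := by
  obtain ⟨α, h1, h2, h3⟩ := exists_alA hA
  set B : HeightOneSpectrum (𝓞 K) → Polynomial ℂ := fun v =>
    ∏ j, (1 - Polynomial.C (α v j) * Polynomial.X) with hB
  have hBe : ∀ v z, (B v).eval z = ∏ j, (1 - α v j * z) := by
    intro v z
    rw [hB]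
    simp [Polynomial.eval_prod]
  exact size_unit (sysF K) α (Filter.Eventually.of_forall h1)
    (t := fun v => (A v).trace) (C := (Fintype.card κ : ℝ))
    (fun v => by
      rw [← h2]
      refine (norm_sum_le _ _).trans ?_
      simp [h1])
    (Filter.Eventually.of_forall h2) τ B (Filter.Eventually.of_forall hBe)
    (fun v => by
      rw [hBe, Finset.prod_ne_zero_iff]
      intro j _ h4
      have h5 : ‖α v j * ((nm K v : ℕ) : ℂ) ^ (-(1 + τ * I : ℂ))‖ = 1 := by
        have : α v j * ((nm K v : ℕ) : ℂ) ^ (-(1 + τ * I : ℂ)) = 1 := by linear_combination -h4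
        rw [this, norm_one]
      rw [norm_mul, h1, one_mul] at h5
      have h6 := cpow_le_half normSys v (s := 1 + τ * I) (by simp)
      linarith) (LA A)
    (fun s _ => by
      unfold LA
      refine tprod_congr fun v => ?_
      rw [h3, hBe])

theorem avg_LA (hA : ∀ v, A v ∈ Matrix.unitaryGroup κ ℂ)
    (hcont : ∀ τ : ℝ, ∃ Λ : ℂ → ℂ, MeromorphicAt Λ (1 + τ * I) ∧
      (∀ᶠ s in 𝓝 ((1 : ℂ) + τ * I), (1 : ℝ) < s.re → Λ s = LA A s) ∧
      meromorphicOrderAt Λ (1 + τ * I) = (0 : ℤ)) :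
    Tendsto (mn fun v => (A v).trace) atTop (𝓝 0) := by
  obtain ⟨α, h1, h2, h3⟩ := exists_alA hA
  have h4 := taub h1 (L := LA A) (fun s _ => by
    unfold LA
    exact tprod_congr fun v => by rw [h3]) (fun τ => by
    obtain ⟨Λ, h5, h6, h7⟩ := hcont τ
    obtain ⟨g, h10, h11, h12⟩ := (meromorphicOrderAt_eq_int_iff h5).1 h7
    refine ⟨g, h10, h11, ?_⟩
    rw [eventually_nhdsWithin_iff] at h12
    filter_upwards [h12, h6] with s h13 h14 h15
    have hne : s ≠ 1 + τ * I := by
      intro h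
      rw [h] at h15
      simp at h15
    have h16 := h13 hne
    rw [zpow_zero, one_smul] at h16
    rw [← h16, h14 h15])
  refine h4.congr fun N => ?_
  congr 1
  funext v
  exact h2 v

end

section

variable {ι : Type} [Fintype ι] [DecidableEq ι] {n : ι → ℕ}

/-- the tensor product of matrices -/
noncomputable def tens (A : ∀ i, Matrix (Fin (n i)) (Fin (n i)) ℂ) :
    Matrix (∀ i, Fin (n i)) (∀ i, Fin (n i)) ℂ := Matrix.of fun a b => ∏ i, A i (a i) (b i)

theorem tens_trace (A : ∀ i, Matrix (Fin (n i)) (Fin (n i)) ℂ) :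
    (tens A).trace = ∏ i, (A i).trace := by
  unfold Matrix.trace tens
  simp only [Matrix.diag_apply, Matrix.of_apply]
  rw [Finset.prod_univ_sum, Fintype.piFinset_univ]

theorem tens_mul (A B : ∀ i, Matrix (Fin (n i)) (Fin (n i)) ℂ) :
    tens A * tens B = tens fun i => A i * B i := by
  ext a b
  unfold tens
  simp only [Matrix.mul_apply, Matrix.of_apply]
  rw [Finset.prod_univ_sum, Fintype.piFinset_univ]
  exact Finset.sum_congr rfl fun c _ => Finset.prod_mul_distrib.symm

theorem tens_star (A : ∀ i, Matrix (Fin (n i)) (Fin (n i)) ℂ) :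
    star (tens A) = tens fun i => star (A i) := by
  ext a b
  unfold tens
  simp only [Matrix.star_apply, Matrix.of_apply, star_prod]

theorem tens_one : tens (fun i => (1 : Matrix (Fin (n i)) (Fin (n i)) ℂ)) = 1 := by
  ext a b
  unfold tens
  rw [Matrix.of_apply]
  by_cases h : a = b
  · subst h
    simp
  · rw [Matrix.one_apply_ne h]
    obtain ⟨i, hi⟩ := Function.ne_iff.1 h
    exact Finset.prod_eq_zero (Finset.mem_univ i) (Matrix.one_apply_ne hi)

theorem tens_unitary {A : ∀ i, Matrix (Fin (n i)) (Fin (n i)) ℂ}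
    (h : ∀ i, A i ∈ Matrix.unitaryGroup (Fin (n i)) ℂ) :
    tens A ∈ Matrix.unitaryGroup (∀ i, Fin (n i)) ℂ := by
  rw [Matrix.mem_unitaryGroup_iff, tens_star, tens_mul]
  have : (fun i => A i * star (A i)) = fun i => (1 : Matrix (Fin (n i)) (Fin (n i)) ℂ) :=
    funext fun i => Matrix.mem_unitaryGroup_iff.1 (h i)
  rw [this, tens_one]

end

section

variable {K : Type} [Field K] [NumberField K] {ι : Type} [Fintype ι] [DecidableEq ι]
  {G : ι → Type} [∀ i, Group (G i)] [∀ i, TopologicalSpace (G i)]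
  [∀ i, IsTopologicalGroup (G i)] [∀ i, CompactSpace (G i)] [∀ i, T2Space (G i)]
  [∀ i, MeasurableSpace (G i)] [∀ i, BorelSpace (G i)] {μ : ∀ i, Measure (G i)}
  [∀ i, IsProbabilityMeasure (μ i)] [∀ i, (μ i).IsHaarMeasure]
  {x : ∀ i, HeightOneSpectrum (𝓞 K) → G i}

/-- a continuous class function -/
def CF {H : Type} [Group H] [TopologicalSpace H] (f : H → ℂ) : Prop :=
  Continuous f ∧ ∀ g h, f (h * g * h⁻¹) = f g

/-- the joint law for the indices in `S` -/
def LawS (x : ∀ i, HeightOneSpectrum (𝓞 K) → G i) (μ : ∀ i, Measure (G i)) (S : Finset ι) :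
    Prop :=
  ∀ f : ∀ i, G i → ℂ, (∀ i, CF (f i)) →
    Tendsto (mn fun v => ∏ i ∈ S, f i (x i v)) atTop (𝓝 (∏ i ∈ S, ∫ g, f i g ∂μ i))

/-- a representation of some dimension -/
abbrev Rp (H : Type) [Group H] : Type := Σ n : ℕ, (H →* Matrix.unitaryGroup (Fin n) ℂ)

/-- continuous irreducible -/
def Irr {H : Type} [Group H] [TopologicalSpace H] (R : Rp H) : Prop :=
  Continuous R.2 ∧ Schur R.2

theorem cf_bd {H : Type} [Group H] [TopologicalSpace H] [CompactSpace H] {f : H → ℂ}
    (hf : CF f) : ∃ B : ℝ, 0 ≤ B ∧ ∀ g, ‖f g‖ ≤ B := by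
  obtain ⟨C, hC⟩ := (isCompact_univ (X := H)).exists_bound_of_continuousOn hf.1.continuousOn
  exact ⟨|C|, abs_nonneg _, fun g => (hC g (Set.mem_univ g)).trans (le_abs_self _)⟩

theorem cf_chi {H : Type} [Group H] [TopologicalSpace H] [IsTopologicalGroup H]
    [CompactSpace H] [MeasurableSpace H] [BorelSpace H] {R : Rp H} (h : Irr R) :
    CF (chi R.2) := ⟨cont_chi h.1, fun g k => chi_cls R.2 g k⟩

/-- the trivial representation -/
noncomputable def triv (H : Type) [Group H] : Rp H := ⟨1, 1⟩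

theorem schur_one {H : Type} [Group H] (ρ : H →* Matrix.unitaryGroup (Fin 1) ℂ) : Schur ρ := by
  intro A _
  refine ⟨A 0 0, ?_⟩
  ext i j
  have hi : i = 0 := Subsingleton.elim _ _
  have hj : j = 0 := Subsingleton.elim _ _
  subst hi
  subst hj
  simp

theorem irr_triv (H : Type) [Group H] [TopologicalSpace H] : Irr (triv H) :=
  ⟨continuous_const, schur_one _⟩

theorem chi_trivial (H : Type) [Group H] (g : H) : chi (triv H).2 g = 1 := by
  unfold chi triv
  simp

/-- from characters to class functions -/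
theorem law_of_chars {S : Finset ι}
    (h : ∀ R : ∀ i, Rp (G i), (∀ i, Irr (R i)) →
      Tendsto (mn fun v => ∏ i ∈ S, chi (R i).2 (x i v)) atTop
        (𝓝 (∏ i ∈ S, ∫ g, chi (R i).2 g ∂μ i))) : LawS x μ S := by
  classical
  have key : ∀ T : Finset ι, ∀ f : ∀ i, G i → ℂ, (∀ i, CF (f i)) →
      (∀ i, i ∉ T → ∃ R : Rp (G i), Irr R ∧ f i = chi R.2) →
      Tendsto (mn fun v => ∏ i ∈ S, f i (x i v)) atTop (𝓝 (∏ i ∈ S, ∫ g, f i g ∂μ i)) := by
    intro T
    induction T using Finset.induction_on with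
    | empty =>
      intro f _ h2
      choose R hR1 hR2 using fun i => h2 i (Finset.notMem_empty i)
      have := h R hR1
      simp only [← hR2] at this
      exact this
    | insert j T hj ih =>
      intro f h1 h2
      by_cases hjS : j ∈ S
      · -- bounds for the other functions
        choose B hB0 hB using fun i => cf_bd (h1 i)
        set C : ℝ := 1 + ∏ i ∈ S.erase j, B i with hC
        have hC0 : 0 < C := by
          have := Finset.prod_nonneg (s := S.erase j) (f := B) fun i _ => hB0 i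
          linarith
        have hCl : ∏ i ∈ S.erase j, B i ≤ C := by rw [hC]; linarith
        refine mn_unif fun ε hε => ?_
        obtain ⟨F, ⟨J, _, m, ρ, a, h3, h4⟩, h5⟩ := class_dense (h1 j).1 (h1 j).2
          (ε := ε / C) (by positivity)
        have hFc : Continuous F := by
          have : F = fun g => ∑ k, a k * chi (ρ k) g := funext h4
          rw [this]
          exact continuous_finsetSum _ fun k _ => continuous_const.mul (cont_chi (h3 k).1)
        -- the products
        have e1 : ∀ v, ∏ i ∈ S, f i (x i v) = f j (x j v) * ∏ i ∈ S.erase j, f i (x i v) :=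
          fun v => (Finset.mul_prod_erase S _ hjS).symm
        have e2 : ∏ i ∈ S, ∫ g, f i g ∂μ i =
            (∫ g, f j g ∂μ j) * ∏ i ∈ S.erase j, ∫ g, f i g ∂μ i :=
          (Finset.mul_prod_erase S _ hjS).symm
        have b1 : ∀ v, ‖∏ i ∈ S.erase j, f i (x i v)‖ ≤ C := by
          intro v
          rw [norm_prod]
          exact (Finset.prod_le_prod (fun i _ => norm_nonneg _) fun i _ => hB i _).trans hCl
        have b2 : ‖∏ i ∈ S.erase j, ∫ g, f i g ∂μ i‖ ≤ C := by
          rw [norm_prod]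
          refine (Finset.prod_le_prod (fun i _ => norm_nonneg _) fun i _ => ?_).trans hCl
          refine (norm_integral_le_of_norm_le_const (C := B i)
            (Filter.Eventually.of_forall fun g => hB i g)).trans (le_of_eq ?_)
          rw [probReal_univ, mul_one]
        refine ⟨fun v => F (x j v) * ∏ i ∈ S.erase j, f i (x i v),
          (∫ g, F g ∂μ j) * ∏ i ∈ S.erase j, ∫ g, f i g ∂μ i, fun v => ?_, ?_, ?_⟩
        · rw [e1, ← sub_mul, norm_mul]
          calc ‖f j (x j v) - F (x j v)‖ * ‖∏ i ∈ S.erase j, f i (x i v)‖ ≤ ε / C * C :=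
                mul_le_mul (h5 _) (b1 v) (norm_nonneg _) (by positivity)
            _ = ε := div_mul_cancel₀ _ hC0.ne'
        · rw [e2, ← sub_mul, norm_mul, ← integral_sub (intg hFc) (intg (h1 j).1)]
          have h6 : ‖∫ g, (F g - f j g) ∂μ j‖ ≤ ε / C := by
            refine (norm_integral_le_of_norm_le_const (C := ε / C)
              (Filter.Eventually.of_forall fun g => ?_)).trans (le_of_eq ?_)
            · rw [norm_sub_rev]
              exact h5 g
            · rw [probReal_univ, mul_one]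
          calc ‖∫ g, (F g - f j g) ∂μ j‖ * ‖∏ i ∈ S.erase j, ∫ g, f i g ∂μ i‖ ≤ ε / C * C :=
                mul_le_mul h6 b2 (norm_nonneg _) (by positivity)
            _ = ε := div_mul_cancel₀ _ hC0.ne'
        · -- one character
          have step : ∀ k : J, Tendsto (mn fun v => chi (ρ k) (x j v) *
              ∏ i ∈ S.erase j, f i (x i v)) atTop
              (𝓝 ((∫ g, chi (ρ k) g ∂μ j) * ∏ i ∈ S.erase j, ∫ g, f i g ∂μ i)) := by
            intro k
            have hne : ∀ i ∈ S.erase j, i ≠ j := fun i hi => Finset.ne_of_mem_erase hi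
            have h7 := ih (Function.update f j (chi (ρ k))) (fun i => by
              by_cases hi : i = j
              · subst hi
                rw [Function.update_self]
                exact ⟨cont_chi (h3 k).1, fun g q => chi_cls (ρ k) g q⟩
              · rw [Function.update_of_ne hi]
                exact h1 i) (fun i hi => by
              by_cases hij : i = j
              · subst hij
                rw [Function.update_self]
                exact ⟨⟨m k, ρ k⟩, h3 k, rfl⟩
              · rw [Function.update_of_ne hij]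
                exact h2 i (by
                  rw [Finset.mem_insert, not_or]
                  exact ⟨hij, hi⟩))
            have e3 : (∏ i ∈ S, ∫ g, Function.update f j (chi (ρ k)) i g ∂μ i) =
                (∫ g, chi (ρ k) g ∂μ j) * ∏ i ∈ S.erase j, ∫ g, f i g ∂μ i := by
              rw [← Finset.mul_prod_erase S _ hjS, Function.update_self]
              congr 1
              exact Finset.prod_congr rfl fun i hi => by
                rw [Function.update_of_ne (hne i hi)]
            rw [e3] at h7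
            refine h7.congr fun N => ?_
            congr 1
            funext v
            rw [← Finset.mul_prod_erase S _ hjS, Function.update_self]
            congr 1
            exact Finset.prod_congr rfl fun i hi => by rw [Function.update_of_ne (hne i hi)]
          have h6 : Tendsto (fun N => ∑ k, a k * mn (fun v => chi (ρ k) (x j v) *
              ∏ i ∈ S.erase j, f i (x i v)) N) atTop
              (𝓝 (∑ k, a k * ((∫ g, chi (ρ k) g ∂μ j) *
                ∏ i ∈ S.erase j, ∫ g, f i g ∂μ i))) :=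
            tendsto_finsetSum _ fun k _ => (step k).const_mul _
          have h7 : (∫ g, F g ∂μ j) * ∏ i ∈ S.erase j, ∫ g, f i g ∂μ i =
              ∑ k, a k * ((∫ g, chi (ρ k) g ∂μ j) *
                ∏ i ∈ S.erase j, ∫ g, f i g ∂μ i) := by
            have h8 : ∫ g, F g ∂μ j = ∑ k, a k * ∫ g, chi (ρ k) g ∂μ j := by
              simp only [h4]
              rw [integral_finsetSum _ fun k _ => (intg (cont_chi (h3 k).1)).const_mul _]
              exact Finset.sum_congr rfl fun k _ => integral_const_mul _ _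
            rw [h8, Finset.sum_mul]
            exact Finset.sum_congr rfl fun k _ => by ring
          rw [h7]
          refine h6.congr fun N => ?_
          have h8 : (fun v => F (x j v) * ∏ i ∈ S.erase j, f i (x i v)) = fun v =>
              ∑ k, a k * (chi (ρ k) (x j v) * ∏ i ∈ S.erase j, f i (x i v)) := by
            funext v
            rw [h4, Finset.sum_mul]
            exact Finset.sum_congr rfl fun k _ => by ring
          rw [h8, mn_sum]
          exact Finset.sum_congr rfl fun k _ => (mn_mul _ _ _).symm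
      · -- the function does not matter
        have hne : ∀ i ∈ S, i ≠ j := fun i hi h => hjS (h ▸ hi)
        have h7 := ih (Function.update f j (chi (triv (G j)).2)) (fun i => by
          by_cases hi : i = j
          · subst hi
            rw [Function.update_self]
            exact cf_chi (irr_triv _)
          · rw [Function.update_of_ne hi]
            exact h1 i) (fun i hi => by
          by_cases hij : i = j
          · subst hij
            rw [Function.update_self]
            exact ⟨triv _, irr_triv _, rfl⟩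
          · rw [Function.update_of_ne hij]
            exact h2 i (by
              rw [Finset.mem_insert, not_or]
              exact ⟨hij, hi⟩))
        have e3 : (∏ i ∈ S, ∫ g, Function.update f j (chi (triv (G j)).2) i g ∂μ i) =
            ∏ i ∈ S, ∫ g, f i g ∂μ i :=
          Finset.prod_congr rfl fun i hi => by rw [Function.update_of_ne (hne i hi)]
        rw [e3] at h7
        refine h7.congr fun N => ?_
        congr 1
        funext v
        exact Finset.prod_congr rfl fun i hi => by rw [Function.update_of_ne (hne i hi)]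
  intro f hf
  exact key Finset.univ f hf fun i hi => absurd (Finset.mem_univ i) hi

variable {U : Ultrafilter ℝ} (hU : (U : Filter ℝ) ≤ 𝓝[>] 0)

include hU in
/-- means of products of real class functions -/
theorem M_lawS {S : Finset ι} (h : LawS x μ S) {f : ∀ i, G i → ℝ} (hf : ∀ i, Continuous (f i))
    (hcl : ∀ i g k, f i (k * g * k⁻¹) = f i g) :
    (M (nm K) U fun v => ∏ i ∈ S, f i (x i v)) = ∏ i ∈ S, ∫ g, f i g ∂μ i := by
  choose B hB0 hB using fun i => cf_bd (f := fun g => (f i g : ℂ))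
    ⟨Complex.continuous_ofReal.comp (hf i), fun g k => by simp only [hcl]⟩
  have hbd : Bd fun v => ∏ i ∈ S, f i (x i v) := by
    refine ⟨∏ i ∈ S, B i, fun v => ?_⟩
    rw [Finset.abs_prod]
    refine Finset.prod_le_prod (fun i _ => abs_nonneg _) fun i _ => ?_
    have := hB i (x i v)
    rwa [Complex.norm_real, Real.norm_eq_abs] at this
  have h1 := h (fun i g => (f i g : ℂ)) fun i =>
    ⟨Complex.continuous_ofReal.comp (hf i), fun g k => by simp only [hcl]⟩
  have h2 : ∏ i ∈ S, ∫ g, (f i g : ℂ) ∂μ i = ((∏ i ∈ S, ∫ g, f i g ∂μ i : ℝ) : ℂ) := by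
    rw [Complex.ofReal_prod]
    exact Finset.prod_congr rfl fun i _ => integral_ofReal
  rw [h2] at h1
  have h3 := (Complex.continuous_re.tendsto _).comp h1
  refine M_of_mn hU hbd (h3.congr fun N => ?_)
  simp only [Function.comp]
  rw [re_mn]
  congr 1
  funext v
  rw [← Complex.ofReal_prod, Complex.ofReal_re]

/-- the average of the fourth power -/
theorem dim_one_of_m4 {H : Type} [Group H] [TopologicalSpace H] [IsTopologicalGroup H]
    [CompactSpace H] [MeasurableSpace H] [BorelSpace H] {ν : Measure H} [IsProbabilityMeasure ν]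
    [ν.IsHaarMeasure] {m : ℕ} {ρ : H →* Matrix.unitaryGroup (Fin m) ℂ} (hc : Continuous ρ)
    (hs : Schur ρ) (hm : m ≠ 0) (h4 : ∫ g, ‖chi ρ g‖ ^ 2 * ‖chi ρ g‖ ^ 2 ∂ν = 1) : m = 1 := by
  have h2 : ∫ g, ‖chi ρ g‖ ^ 2 ∂ν = 1 := int_sq hc hs hm
  have hcc : Continuous fun g => ‖chi ρ g‖ ^ 2 := (cont_chi hc).norm.pow 2
  have h5 : ∫ g, (‖chi ρ g‖ ^ 2 - 1) ^ 2 ∂ν = 0 := by
    have e : (fun g => (‖chi ρ g‖ ^ 2 - 1) ^ 2) = fun g =>
        (‖chi ρ g‖ ^ 2 * ‖chi ρ g‖ ^ 2 - 2 * ‖chi ρ g‖ ^ 2) + 1 := by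
      funext g
      ring
    have i1 : Integrable (fun g => ‖chi ρ g‖ ^ 2 * ‖chi ρ g‖ ^ 2) ν := intg (hcc.mul hcc)
    have i2 : Integrable (fun g => 2 * ‖chi ρ g‖ ^ 2) ν := intg (continuous_const.mul hcc)
    have i3 : Integrable (fun g => ‖chi ρ g‖ ^ 2 * ‖chi ρ g‖ ^ 2 - 2 * ‖chi ρ g‖ ^ 2) ν :=
      i1.sub i2
    rw [e, integral_add i3 (integrable_const _), integral_sub i1 i2, h4, integral_const_mul, h2,
      integral_const, probReal_univ, one_smul]
    norm_num
  have h6 : (‖chi ρ 1‖ ^ 2 - 1) ^ 2 = 0 := by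
    by_contra hne
    have h7 := int_pos (μ := ν) (f := fun g => (‖chi ρ g‖ ^ 2 - 1) ^ 2)
      ((hcc.sub continuous_const).pow 2) (fun g => sq_nonneg _) hne
    rw [h5] at h7
    exact lt_irrefl _ h7
  rw [chi_one, Complex.norm_natCast] at h6
  have h7 : (m : ℝ) ^ 2 = 1 := by
    have := pow_eq_zero_iff (two_ne_zero) |>.1 h6
    linarith
  have h8 : (m : ℝ) = 1 := by
    have h9 : (0 : ℝ) ≤ m := Nat.cast_nonneg m
    nlinarith
  exact_mod_cast h8

/-- the coefficients -/
noncomputable def pc (x : ∀ i, HeightOneSpectrum (𝓞 K) → G i) (R : ∀ i, Rp (G i)) (S : Finset ι)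
    (v : HeightOneSpectrum (𝓞 K)) : ℂ := ∏ i ∈ S, chi (R i).2 (x i v)

theorem bc_pc (R : ∀ i, Rp (G i)) (S : Finset ι) : Bc (pc x R S) := by
  refine ⟨∏ i ∈ S, ((R i).1 : ℝ), fun v => ?_⟩
  unfold pc
  rw [norm_prod]
  exact Finset.prod_le_prod (fun i _ => norm_nonneg _) fun i _ => norm_chi _ _

theorem sq_pc (R : ∀ i, Rp (G i)) (S : Finset ι) (v : HeightOneSpectrum (𝓞 K)) :
    ‖pc x R S v‖ ^ 2 = ∏ i ∈ S, ‖chi (R i).2 (x i v)‖ ^ 2 := by
  unfold pc
  rw [norm_prod, Finset.prod_pow]

theorem bc_tw {t : HeightOneSpectrum (𝓞 K) → ℂ} (h : Bc t) (τ : ℝ) :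
    Bc fun v => t v * ((nm K v : ℕ) : ℂ) ^ (-(τ * I : ℂ)) := by
  obtain ⟨C, hC⟩ := h
  refine ⟨C, fun v => ?_⟩
  rw [norm_mul, norm_cpow_I (nm_pos v), mul_one]
  exact hC v

theorem norm_tw (t : HeightOneSpectrum (𝓞 K) → ℂ) (τ : ℝ) (v : HeightOneSpectrum (𝓞 K)) :
    ‖t v * ((nm K v : ℕ) : ℂ) ^ (-(τ * I : ℂ))‖ = ‖t v‖ := by
  rw [norm_mul, norm_cpow_I (nm_pos v), mul_one]

include hU in
/-- **The key lemma**: the product of at least three characters. -/
theorem key {S : Finset ι} (hS : 3 ≤ S.card) (hlaw : ∀ T, T ⊂ S → LawS x μ T)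
    {R : ∀ i, Rp (G i)} (hR : ∀ i, Irr (R i)) (hn : ∀ i ∈ S, (R i).1 ≠ 0) (τ : ℝ) {r : ℝ}
    (hr : (M (nm K) U fun v => (pc x R S v * ((nm K v : ℕ) : ℂ) ^ (-(τ * I : ℂ))).re) = r) :
    r ^ 2 ≤ 1 ∧ (1 ≤ r ^ 2 → ∀ i ∈ S, (R i).1 = 1) := by
  classical
  have hN := sysF K
  -- data for every index
  have main : ∀ i₀ ∈ S, r ^ 2 ≤ 1 ∧ (1 ≤ r ^ 2 → ∀ i ∈ S, i ≠ i₀ → (R i).1 = 1) := by
    intro i₀ hi₀
    set S₁ := S.erase i₀ with hS₁
    have hsub : S₁ ⊂ S := Finset.erase_ssubset hi₀
    set t : HeightOneSpectrum (𝓞 K) → ℂ := pc x R S₁ with ht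
    set c : HeightOneSpectrum (𝓞 K) → ℂ := fun v =>
      chi (R i₀).2 (x i₀ v) * ((nm K v : ℕ) : ℂ) ^ (-(τ * I : ℂ)) with hc
    have hbt : Bc t := bc_pc R S₁
    have hbc : Bc c := bc_tw ⟨((R i₀).1 : ℝ), fun v => norm_chi _ _⟩ τ
    have hcs : ∀ v, ‖c v‖ = ‖chi (R i₀).2 (x i₀ v)‖ := fun v =>
      norm_tw (fun v => chi (R i₀).2 (x i₀ v)) τ v
    have hprod : (fun v => (t v * c v).re) = fun v =>
        (pc x R S v * ((nm K v : ℕ) : ℂ) ^ (-(τ * I : ℂ))).re := by
      funext v
      have : pc x R S v = t v * chi (R i₀).2 (x i₀ v) := by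
        rw [ht]
        unfold pc
        rw [hS₁, Finset.prod_erase_mul S _ hi₀]
      rw [this, hc]
      ring_nf
    have hsqc : ∀ i, Continuous fun g => ‖chi (R i).2 g‖ ^ 2 := fun i =>
      (cont_chi (hR i).1).norm.pow 2
    have hsqcl : ∀ i g k, ‖chi (R i).2 (k * g * k⁻¹)‖ ^ 2 = ‖chi (R i).2 g‖ ^ 2 := fun i g k => by
      rw [chi_cls]
    have hm2 : ∀ i ∈ S, ∫ g, ‖chi (R i).2 g‖ ^ 2 ∂μ i = 1 := fun i hi =>
      int_sq (hR i).1 (hR i).2 (hn i hi)
    have ht2 : (M (nm K) U fun v => ‖t v‖ ^ 2) ≤ 1 := by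
      have h1 := M_lawS hU (hlaw S₁ hsub) (f := fun i g => ‖chi (R i).2 g‖ ^ 2) hsqc hsqcl
      have h2 : (fun v => ‖t v‖ ^ 2) = fun v => ∏ i ∈ S₁, ‖chi (R i).2 (x i v)‖ ^ 2 :=
        funext fun v => sq_pc R S₁ v
      rw [h2, h1]
      exact (Finset.prod_eq_one fun i hi => hm2 i (Finset.mem_of_mem_erase hi)).le
    have hsing : ({i₀} : Finset ι) ⊂ S := by
      refine Finset.ssubset_iff_subset_ne.2 ⟨Finset.singleton_subset_iff.2 hi₀, ?_⟩
      intro h
      rw [← h, Finset.card_singleton] at hS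
      omega
    have hc2 : (M (nm K) U fun v => ‖c v‖ ^ 2) ≤ 1 := by
      have h1 := M_lawS hU (hlaw {i₀} hsing) (f := fun i g => ‖chi (R i).2 g‖ ^ 2) hsqc hsqcl
      simp only [Finset.prod_singleton] at h1
      simp only [hcs]
      rw [h1, hm2 i₀ hi₀]
    have hrr : (M (nm K) U fun v => (t v * c v).re) = r := by rw [hprod]; exact hr
    have hle := edge_le hN hU hbt hbc ht2 hc2
    rw [hrr] at hle
    refine ⟨hle, fun h1 i₁ hi₁ hne => ?_⟩
    have habs : |r| = 1 := by
      have h6 : r ^ 2 = 1 := le_antisymm hle h1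
      have h7 : |r| ^ 2 = 1 := by rw [sq_abs]; exact h6
      exact (pow_eq_one_iff_of_nonneg (abs_nonneg _) two_ne_zero).1 h7
    have h0 := edge_eq hN hU hbt hbc ht2 hc2 hrr h1
    have hnorm := edge_norm hN hU hbt hbc habs h0
    -- the weight
    set w : HeightOneSpectrum (𝓞 K) → ℝ := fun v => ‖chi (R i₁).2 (x i₁ v)‖ ^ 2 with hw
    have hwb : ∀ v, |w v| ≤ ((R i₁).1 : ℝ) ^ 2 := by
      intro v
      rw [hw]
      simp only
      rw [abs_of_nonneg (by positivity)]
      exact pow_le_pow_left₀ (norm_nonneg _) (norm_chi _ _) 2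
    have hwB : Bd w := ⟨_, hwb⟩
    have hdiff : (M (nm K) U fun v => (‖t v‖ ^ 2 - ‖c v‖ ^ 2) * w v) = 0 := by
      have hb1 : Bd fun v => ‖t v‖ ^ 2 - ‖c v‖ ^ 2 := hbt.norm.sq.sub hbc.norm.sq
      have hz : (M (nm K) U fun v => ((R i₁).1 : ℝ) ^ 2 * |‖t v‖ ^ 2 - ‖c v‖ ^ 2|) = 0 := by
        rw [M_const_mul hN hU hb1.abs, hnorm, mul_zero]
      have hz1 : (M (nm K) U fun v => |(‖t v‖ ^ 2 - ‖c v‖ ^ 2) * w v|) = 0 := by
        refine M_zero_of_le hN hU (hb1.mul hwB).abs (hb1.abs.const_mul _)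
          (fun v => abs_nonneg _) (fun v => ?_) hz
        rw [abs_mul, mul_comm]
        exact mul_le_mul_of_nonneg_right (hwb v) (abs_nonneg _)
      have hz2 := M_mono hN hU (hb1.mul hwB) (hb1.mul hwB).abs fun v => le_abs_self _
      have hz3 := M_mono hN hU (hb1.mul hwB).neg (hb1.mul hwB).abs fun v => neg_le_abs _
      rw [hz1] at hz2 hz3
      rw [M_neg hN hU (hb1.mul hwB)] at hz3
      linarith
    have hA : (M (nm K) U fun v => ‖t v‖ ^ 2 * w v) =
        ∫ g, ‖chi (R i₁).2 g‖ ^ 2 * ‖chi (R i₁).2 g‖ ^ 2 ∂μ i₁ := by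
      have hi₁' : i₁ ∈ S₁ := Finset.mem_erase.2 ⟨hne, hi₁⟩
      have h1' := M_lawS hU (hlaw S₁ hsub)
        (f := fun i g => ‖chi (R i).2 g‖ ^ 2 * (if i = i₁ then ‖chi (R i).2 g‖ ^ 2 else 1))
        (fun i => by
          by_cases h : i = i₁
          · have e0 : (fun g => ‖chi (R i).2 g‖ ^ 2 *
                (if i = i₁ then ‖chi (R i).2 g‖ ^ 2 else 1)) =
                fun g => ‖chi (R i).2 g‖ ^ 2 * ‖chi (R i).2 g‖ ^ 2 := by
              funext g
              rw [if_pos h]
            rw [e0]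
            exact (hsqc i).mul (hsqc i)
          · simp only [h, if_false, mul_one]
            exact hsqc i)
        (fun i g k => by simp only [hsqcl])
      have e1 : (fun v => ‖t v‖ ^ 2 * w v) = fun v => ∏ i ∈ S₁, (‖chi (R i).2 (x i v)‖ ^ 2 *
          (if i = i₁ then ‖chi (R i).2 (x i v)‖ ^ 2 else 1)) := by
        funext v
        rw [Finset.prod_mul_distrib, ht, sq_pc]
        congr 1
        rw [Finset.prod_ite_eq' S₁ i₁ (fun i => ‖chi (R i).2 (x i v)‖ ^ 2), if_pos hi₁']
      rw [e1, h1', ← Finset.mul_prod_erase S₁ _ hi₁']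
      have e2 : ∏ i ∈ S₁.erase i₁, ∫ g, ‖chi (R i).2 g‖ ^ 2 *
          (if i = i₁ then ‖chi (R i).2 g‖ ^ 2 else 1) ∂μ i = 1 := by
        refine Finset.prod_eq_one fun i hi => ?_
        have hii : i ≠ i₁ := Finset.ne_of_mem_erase hi
        simp only [hii, if_false, mul_one]
        exact hm2 i (Finset.mem_of_mem_erase (Finset.mem_of_mem_erase hi))
      rw [e2, mul_one]
      simp only [if_true]
    have hB : (M (nm K) U fun v => ‖c v‖ ^ 2 * w v) = 1 := by
      have hpair : ({i₀, i₁} : Finset ι) ⊂ S := by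
        refine Finset.ssubset_iff_subset_ne.2 ⟨?_, ?_⟩
        · intro i hi
          rw [Finset.mem_insert, Finset.mem_singleton] at hi
          rcases hi with h | h
          · rw [h]; exact hi₀
          · rw [h]; exact hi₁
        · intro h
          have h2 : ({i₀, i₁} : Finset ι).card ≤ 2 := Finset.card_le_two
          rw [h] at h2
          omega
      have h1' := M_lawS hU (hlaw {i₀, i₁} hpair) (f := fun i g => ‖chi (R i).2 g‖ ^ 2) hsqc hsqcl
      have hne' : i₀ ≠ i₁ := Ne.symm hne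
      simp only [Finset.prod_pair hne'] at h1'
      simp only [hcs]
      rw [hw]
      rw [h1', hm2 i₀ hi₀, hm2 i₁ hi₁, mul_one]
    have hbtw : Bd fun v => ‖t v‖ ^ 2 * w v := hbt.norm.sq.mul hwB
    have hbcw : Bd fun v => ‖c v‖ ^ 2 * w v := hbc.norm.sq.mul hwB
    have e3 : (fun v => (‖t v‖ ^ 2 - ‖c v‖ ^ 2) * w v) = fun v =>
        ‖t v‖ ^ 2 * w v - ‖c v‖ ^ 2 * w v := by
      funext v
      ring
    rw [e3, M_sub hN hU hbtw hbcw, hA, hB] at hdiff
    exact dim_one_of_m4 (hR i₁).1 (hR i₁).2 (hn i₁ hi₁) (by linarith)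
  obtain ⟨i₀, hi₀⟩ : S.Nonempty := by
    rw [← Finset.card_pos]
    omega
  refine ⟨(main i₀ hi₀).1, fun h1 i hi => ?_⟩
  obtain ⟨j, hj, hji⟩ : ∃ j ∈ S, j ≠ i := by
    by_contra hcon
    push Not at hcon
    have : S ⊆ {i} := fun j hj => Finset.mem_singleton.2 (hcon j hj)
    have := Finset.card_le_card this
    rw [Finset.card_singleton] at this
    omega
  exact (main j hj).2 h1 i hi (Ne.symm hji)

/-- the matrices of the tensor product -/
noncomputable def TM (x : ∀ i, HeightOneSpectrum (𝓞 K) → G i) (R : ∀ i, Rp (G i))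
    (v : HeightOneSpectrum (𝓞 K)) : Matrix (∀ i, Fin (R i).1) (∀ i, Fin (R i).1) ℂ :=
  tens fun i => ((R i).2 (x i v) : Matrix (Fin (R i).1) (Fin (R i).1) ℂ)

theorem TM_mem (R : ∀ i, Rp (G i)) (v : HeightOneSpectrum (𝓞 K)) :
    TM x R v ∈ Matrix.unitaryGroup (∀ i, Fin (R i).1) ℂ :=
  tens_unitary fun i => ((R i).2 (x i v)).2

theorem TM_trace (R : ∀ i, Rp (G i)) (v : HeightOneSpectrum (𝓞 K)) :
    (TM x R v).trace = ∏ i, chi (R i).2 (x i v) := tens_trace _

theorem many_lt {S : Finset ι} (hS : 3 ≤ S.card) (hlaw : ∀ T, T ⊂ S → LawS x μ T)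
    {R : ∀ i, Rp (G i)} (hR : ∀ i, Irr (R i)) (hn : ∀ i ∈ S, (R i).1 ≠ 0)
    (htr : ∀ i, i ∉ S → ∀ g, chi (R i).2 g = 1) (hbig : ∃ i ∈ S, (R i).1 ≠ 1) (τ : ℝ) :
    (∀ᶠ ε : ℝ in 𝓝[>] 0, LA (TM x R) (1 + τ * I + ε) ≠ 0) ∧
    (∃ δ : ℝ, 0 < δ ∧ ∀ᶠ ε : ℝ in 𝓝[>] 0,
      |Real.log ‖LA (TM x R) (1 + τ * I + ε)‖ / Real.log (1 / ε)| ≤ 1 - δ) ∧
    ∀ Λ : ℂ → ℂ, MeromorphicAt Λ (1 + τ * I) →
      (∀ᶠ s in 𝓝 ((1 : ℂ) + τ * I), (1 : ℝ) < s.re → Λ s = LA (TM x R) s) →
      meromorphicOrderAt Λ (1 + τ * I) = (0 : ℤ) := by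
  have hsz := size_LA (A := TM x R) (TM_mem R) τ
  have hpc : ∀ v, (TM x R v).trace = pc x R S v := by
    intro v
    rw [TM_trace]
    unfold pc
    symm
    refine Finset.prod_subset (Finset.subset_univ S) fun i _ hi => htr i hi _
  simp only [hpc] at hsz
  have hunif := unif_lt (X := fun ε => Real.log ‖LA (TM x R) (1 + τ * I + ε)‖ /
    Real.log (1 / ε)) (fun U hU => by
    have hb := (bc_tw (bc_pc (x := x) R S) τ).re
    obtain ⟨k1, k2⟩ := key hU hS hlaw hR hn τ rfl
    refine ⟨M (nm K) U fun v => (pc x R S v * ((nm K v : ℕ) : ℂ) ^ (-(τ * I : ℂ))).re, ?_, ?_⟩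
    · have h5 := M_lim (sysF K) hU hb
      have h6 := h5.sub (hsz.2.mono_left hU)
      rw [sub_zero] at h6
      refine h6.congr fun ε => ?_
      ring
    · by_contra hcon
      push Not at hcon
      obtain ⟨i, hi, hne⟩ := hbig
      refine hne (k2 ?_ i hi)
      rw [← sq_abs]
      exact one_le_pow₀ hcon)
  refine ⟨hsz.1, hunif, fun Λ h1 h2 => ?_⟩
  obtain ⟨k, h3, h4⟩ := order_unit hsz.1 h1 h2
  obtain ⟨δ, h5, h6⟩ := hunif
  have h7 := le_of_tendsto h4.abs h6
  rw [abs_neg] at h7
  have h8 : |(k : ℝ)| < 1 := by linarith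
  have h9 : |k| < 1 := by exact_mod_cast h8
  rw [h3, Int.abs_lt_one_iff.1 h9]

/-- at least three of the representations are not trivial -/
def Three (R : ∀ i, Rp (G i)) : Prop :=
  ∃ S : Finset ι, 3 ≤ S.card ∧ ∀ i ∈ S, ∃ g, (R i).2 g ≠ 1

theorem ne_zero_of_nt {H : Type} [Group H] {R : Rp H} (h : ∃ g, R.2 g ≠ 1) : R.1 ≠ 0 := by
  obtain ⟨m, ρ⟩ := R
  obtain ⟨g, hg⟩ := h
  rintro rfl
  exact hg (Subtype.ext (Subsingleton.elim _ _))

theorem law_empty : LawS x μ ∅ := by
  intro f _
  simp only [Finset.prod_empty]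
  refine tendsto_const_nhds.congr' ?_
  filter_upwards [card_ev (K := K)] with N hN
  unfold mn
  rw [Finset.sum_const, Complex.real_smul, nsmul_eq_mul, mul_one]
  push_cast
  have hN' : ((upto K N).card : ℂ) ≠ 0 := by exact_mod_cast hN
  rw [inv_mul_cancel₀ hN']

/-- **Joint laws from the laws for pairs.** -/
theorem all_laws (h1 : ∀ i, LawS x μ {i}) (h2 : ∀ i j, i ≠ j → LawS x μ {i, j})
    (hM : ∀ R : ∀ i, Rp (G i), (∀ i, Irr (R i)) → Three R → (∃ i, (R i).1 ≠ 1) → ∀ τ : ℝ,
      ∃ Λ : ℂ → ℂ, MeromorphicAt Λ (1 + τ * I) ∧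
        ∀ᶠ s in 𝓝 ((1 : ℂ) + τ * I), (1 : ℝ) < s.re → Λ s = LA (TM x R) s)
    (hH : ∀ R : ∀ i, Rp (G i), (∀ i, Irr (R i)) → Three R → (∀ i, (R i).1 = 1) →
      Tendsto (mn fun v => ∏ i, chi (R i).2 (x i v)) atTop (𝓝 0)) (S : Finset ι) :
    LawS x μ S := by
  classical
  induction S using Finset.strongInduction with
  | H S ih =>
    rcases Nat.lt_or_ge S.card 3 with hlt | hge
    · have hcases : S.card = 0 ∨ S.card = 1 ∨ S.card = 2 := by omega
      rcases hcases with h | h | h
      · rw [Finset.card_eq_zero] at h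
        rw [h]
        exact law_empty
      · obtain ⟨i, rfl⟩ := Finset.card_eq_one.1 h
        exact h1 i
      · obtain ⟨i, j, hij, rfl⟩ := Finset.card_eq_two.1 h
        exact h2 i j hij
    · refine law_of_chars fun R hR => ?_
      by_cases hnt : ∀ i ∈ S, ∃ g, (R i).2 g ≠ 1
      · -- all representations are not trivial
        set R' : ∀ i, Rp (G i) := fun i => if i ∈ S then R i else triv (G i) with hR'
        have hin : ∀ i ∈ S, R' i = R i := fun i hi => by rw [hR']; simp only [hi, if_true]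
        have hout : ∀ i, i ∉ S → R' i = triv (G i) := fun i hi => by
          rw [hR']; simp only [hi, if_false]
        have hI : ∀ i, Irr (R' i) := by
          intro i
          by_cases hi : i ∈ S
          · rw [hin i hi]; exact hR i
          · rw [hout i hi]; exact irr_triv _
        have hthree : Three R' := ⟨S, hge, fun i hi => by rw [hin i hi]; exact hnt i hi⟩
        have hlim : ∏ i ∈ S, ∫ g, chi (R i).2 g ∂μ i = 0 := by
          obtain ⟨i, hi⟩ : S.Nonempty := by
            rw [← Finset.card_pos]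
            omega
          exact Finset.prod_eq_zero hi (int_chi (hR i).1 (hR i).2 (hnt i hi))
        have hprod : ∀ v, ∏ i ∈ S, chi (R i).2 (x i v) = ∏ i, chi (R' i).2 (x i v) := by
          intro v
          rw [← Finset.prod_subset (Finset.subset_univ S) fun i _ hi => by
            rw [hout i hi]; exact chi_trivial _ _]
          exact Finset.prod_congr rfl fun i hi => by rw [hin i hi]
        rw [hlim]
        simp only [hprod]
        by_cases hbig : ∃ i ∈ S, (R i).1 ≠ 1
        · have hbig' : ∃ i, (R' i).1 ≠ 1 := by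
            obtain ⟨i, hi, h⟩ := hbig
            exact ⟨i, by rw [hin i hi]; exact h⟩
          have hlt := fun τ => many_lt (x := x) (μ := μ) hge (fun T hT => ih T hT) hI
            (fun i hi => by rw [hin i hi]; exact ne_zero_of_nt (hnt i hi))
            (fun i hi g => by rw [hout i hi]; exact chi_trivial _ _)
            (by
              obtain ⟨i, hi, h⟩ := hbig
              exact ⟨i, hi, by rw [hin i hi]; exact h⟩) τ
          have hres := avg_LA (A := TM x R') (TM_mem R') (fun τ => by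
            obtain ⟨Λ, k1, k2⟩ := hM R' hI hthree hbig' τ
            exact ⟨Λ, k1, k2, (hlt τ).2.2 Λ k1 k2⟩)
          simpa only [TM_trace] using hres
        · push Not at hbig
          refine hH R' hI hthree fun i => ?_
          by_cases hi : i ∈ S
          · rw [hin i hi]; exact hbig i hi
          · rw [hout i hi]; rfl
      · -- one representation is trivial
        push Not at hnt
        obtain ⟨j, hj, hjt⟩ := hnt
        have h3 := ih (S.erase j) (Finset.erase_ssubset hj) (fun i => chi (R i).2)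
          fun i => cf_chi (hR i)
        have h4 := h3.const_mul ((R j).1 : ℂ)
        have e1 : ∏ i ∈ S, ∫ g, chi (R i).2 g ∂μ i =
            ((R j).1 : ℂ) * ∏ i ∈ S.erase j, ∫ g, chi (R i).2 g ∂μ i := by
          rw [← Finset.mul_prod_erase S _ hj]
          congr 1
          simp only [chi_triv hjt]
          simp
        rw [e1]
        refine h4.congr fun N => ?_
        rw [← mn_mul]
        congr 1
        funext v
        rw [← Finset.mul_prod_erase S _ hj, chi_triv hjt]

end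

end Pool.Agent.V1142.SC.Many
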