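import Mathlib

set_option autoImplicit false
set_option linter.all false

/-!
# Integral positive definite sequences of norm two
-/

namespace Pool.Agent.V1142.SC.Rl

open Finset

/-- the Toeplitz form -/
def tp (c : ℕ → ℤ) (m : ℕ) (a : ℕ → ℤ) : ℤ :=
  ∑ i ∈ range m, ∑ j ∈ range m, c i * c j * a ((i : ℤ) - j).natAbs

/-- the entries of a list -/
def ls (l : List ℤ) (i : ℕ) : ℤ := l.getD i 0

/-- the properties of the sequences of averages -/
structure Ps (a : ℕ → ℤ) : Prop where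
  zero : a 0 = 2
  pos : ∀ (m : ℕ) (c : ℕ → ℤ), 0 ≤ tp c m a
  two : ∀ (y : ℕ → ℤ) (m n : ℕ), 2 * m ≤ n + 2 → ∑ i ∈ range m, ∑ j ∈ range m,
    y i * y j * a (n - i - j) ≤ ∑ i ∈ range m, ∑ j ∈ range m, y i * y j * a ((i : ℤ) - j).natAbs
  twop : ∀ (y : ℕ → ℤ) (m n : ℕ), 2 * m ≤ n + 2 → 0 ≤ ∑ i ∈ range m, ∑ j ∈ range m,
    y i * y j * a (n - i - j) + ∑ i ∈ range m, ∑ j ∈ range m, y i * y j * a ((i : ℤ) - j).natAbs
  nul2 : ∀ n : ℕ, 0 < n → 4 - 2 * a 1 - (a (n + 1) - 2 * a n + a (n - 1)) = 0 → a (2 * n) = 2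
  null : ∀ (m : ℕ) (c : ℕ → ℤ), tp c m a = 0 → ∀ (N l : ℕ) (q : ℕ → ℤ), 0 < N →
    (∀ w : ℂ, (∑ i ∈ range m, (c i : ℂ) * w ^ i) * (∑ j ∈ range l, (q j : ℂ) * w ^ j) =
      w ^ N - 1) → a N = 2
  bd : ∀ k : ℕ, -2 ≤ a k ∧ a k ≤ 2
  dbl : ∀ k : ℕ, a k = -2 → a (2 * k) = 2
  rel : ∀ (m : ℕ) (c : ℕ → ℤ), tp c m a = 0 → ∀ j : ℕ,
    ∑ i ∈ range m, c i * a ((i : ℤ) - j).natAbs = 0

theorem tree3 {a : ℕ → ℤ} (h : Ps a) (h1 : a 1 = -1) (h2 : a 2 = 0) (h3 : a 3 = 1) :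
    ∃ N, 0 < N ∧ a N = 2 := by
  have hu := h.pos 5 (ls [-1, -1, 0, 1, 1])
  have hl := h.pos 5 (ls [1, 0, 0, 0, 1])
  simp [tp, ls, sum_range_succ, h.zero, h1, h2, h3] at hu hl
  have hb : a 4 = -2 ∨ a 4 = -1 ∨ a 4 = 0 := by omega
  rcases hb with h4 | h4 | h4
  · exact ⟨8, by norm_num, h.null 5 (ls [1, 0, 0, 0, 1]) (by simp [tp, ls, sum_range_succ, h.zero, h1, h2, h3, h4]) 8 5
      (ls [-1, 0, 0, 0, 1]) (by norm_num)
      (by intro w; simp [ls, sum_range_succ]; ring)⟩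
  · have hu := h.pos 6 (ls [-2, -1, -1, 1, 1, 2])
    have hl := h.pos 6 (ls [2, 1, -1, -1, 1, 2])
    simp [tp, ls, sum_range_succ, h.zero, h1, h2, h3, h4] at hu hl
    have hb : a 5 = 0 ∨ a 5 = 1 := by omega
    rcases hb with h5 | h5
    · have hu := h.pos 7 (ls [-2, 0, 1, 0, -1, 0, 2])
      have hl := h.pos 7 (ls [1, 1, 0, -1, 0, 1, 1])
      simp [tp, ls, sum_range_succ, h.zero, h1, h2, h3, h4, h5] at hu hl
      have hb : a 6 = 0 ∨ a 6 = 1 := by omega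
      rcases hb with h6 | h6
      · exact ⟨12, by norm_num, h.null 7 (ls [1, 1, 0, -1, 0, 1, 1]) (by simp [tp, ls, sum_range_succ, h.zero, h1, h2, h3, h4, h5, h6]) 12 7
          (ls [-1, 1, -1, 0, 1, -1, 1]) (by norm_num)
          (by intro w; simp [ls, sum_range_succ]; ring)⟩
      · have hu := h.pos 8 (ls [-3, -2, 2, 2, -2, -2, 2, 3])
        have hl := h.pos 8 (ls [1, 0, 0, 0, 0, 0, 0, 1])
        simp [tp, ls, sum_range_succ, h.zero, h1, h2, h3, h4, h5, h6] at hu hl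
        have hb : a 7 = -2 ∨ a 7 = -1 := by omega
        rcases hb with h7 | h7
        · exact ⟨14, by norm_num, h.null 8 (ls [1, 0, 0, 0, 0, 0, 0, 1]) (by simp [tp, ls, sum_range_succ, h.zero, h1, h2, h3, h4, h5, h6, h7]) 14 8
            (ls [-1, 0, 0, 0, 0, 0, 0, 1]) (by norm_num)
            (by intro w; simp [ls, sum_range_succ]; ring)⟩
        · have hu := h.pos 9 (ls [-1, -1, 0, 1, 0, -1, 0, 1, 1])
          have hl := h.pos 9 (ls [1, 0, -1, 0, 1, 0, -1, 0, 1])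
          simp [tp, ls, sum_range_succ, h.zero, h1, h2, h3, h4, h5, h6, h7] at hu hl
          have hb : a 8 = 0 ∨ a 8 = 1 := by omega
          rcases hb with h8 | h8
          · exact ⟨20, by norm_num, h.null 9 (ls [1, 0, -1, 0, 1, 0, -1, 0, 1]) (by simp [tp, ls, sum_range_succ, h.zero, h1, h2, h3, h4, h5, h6, h7, h8]) 20 13
              (ls [-1, 0, -1, 0, 0, 0, 0, 0, 0, 0, 1, 0, 1]) (by norm_num)
              (by intro w; simp [ls, sum_range_succ]; ring)⟩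
          · exact ⟨24, by norm_num, h.null 9 (ls [-1, -1, 0, 1, 0, -1, 0, 1, 1]) (by simp [tp, ls, sum_range_succ, h.zero, h1, h2, h3, h4, h5, h6, h7, h8]) 24 17
              (ls [1, -1, 1, 0, -1, 1, 0, -1, 2, -1, 0, 1, -1, 0, 1, -1, 1]) (by norm_num)
              (by intro w; simp [ls, sum_range_succ]; ring)⟩
    · have hu := h.pos 7 (ls [-2, -2, -1, 0, 1, 2, 2])
      have hl := h.pos 7 (ls [1, 0, 0, -1, 0, 0, 1])
      simp [tp, ls, sum_range_succ, h.zero, h1, h2, h3, h4, h5] at hu hl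
      have hb : a 6 = -1 ∨ a 6 = 0 := by omega
      rcases hb with h6 | h6
      · exact ⟨18, by norm_num, h.null 7 (ls [1, 0, 0, -1, 0, 0, 1]) (by simp [tp, ls, sum_range_succ, h.zero, h1, h2, h3, h4, h5, h6]) 18 13
          (ls [-1, 0, 0, -1, 0, 0, 0, 0, 0, 1, 0, 0, 1]) (by norm_num)
          (by intro w; simp [ls, sum_range_succ]; ring)⟩
      · have hu := h.pos 8 (ls [-1, -1, -1, 0, 0, 1, 1, 1])
        have hl := h.pos 8 (ls [3, 1, -1, -2, -2, -1, 1, 3])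
        simp [tp, ls, sum_range_succ, h.zero, h1, h2, h3, h4, h5, h6] at hu hl
        have hb : a 7 = -1 ∨ a 7 = 0 := by omega
        rcases hb with h7 | h7
        · have hu := h.pos 9 (ls [-1, 0, 0, 0, 0, 0, 0, 0, 1])
          have hl := h.pos 9 (ls [1, 1, 0, -1, -1, -1, 0, 1, 1])
          simp [tp, ls, sum_range_succ, h.zero, h1, h2, h3, h4, h5, h6, h7] at hu hl
          have hb : a 8 = 1 ∨ a 8 = 2 := by omega
          rcases hb with h8 | h8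
          · exact ⟨30, by norm_num, h.null 9 (ls [1, 1, 0, -1, -1, -1, 0, 1, 1]) (by simp [tp, ls, sum_range_succ, h.zero, h1, h2, h3, h4, h5, h6, h7, h8]) 30 23
              (ls [-1, 1, -1, 0, 0, -1, 1, -1, 0, 0, 0, 0, 0, 0, 0, 1, -1, 1, 0, 0, 1, -1, 1]) (by norm_num)
              (by intro w; simp [ls, sum_range_succ]; ring)⟩
          · exact ⟨8, by norm_num, h.null 9 (ls [-1, 0, 0, 0, 0, 0, 0, 0, 1]) (by simp [tp, ls, sum_range_succ, h.zero, h1, h2, h3, h4, h5, h6, h7, h8]) 8 1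
              (ls [1]) (by norm_num)
              (by intro w; simp [ls, sum_range_succ]; ring)⟩
        · exact ⟨15, by norm_num, h.null 8 (ls [-1, -1, -1, 0, 0, 1, 1, 1]) (by simp [tp, ls, sum_range_succ, h.zero, h1, h2, h3, h4, h5, h6, h7]) 15 9
            (ls [1, -1, 0, 1, -1, 1, 0, -1, 1]) (by norm_num)
            (by intro w; simp [ls, sum_range_succ]; ring)⟩
  · exact ⟨6, by norm_num, h.null 5 (ls [-1, -1, 0, 1, 1]) (by simp [tp, ls, sum_range_succ, h.zero, h1, h2, h3, h4]) 6 3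
      (ls [1, -1, 1]) (by norm_num)
      (by intro w; simp [ls, sum_range_succ]; ring)⟩

theorem tree4 {a : ℕ → ℤ} (h : Ps a) (h1 : a 1 = -1) (h2 : a 2 = 0) (h3 : a 3 = 0) (h4 : a 4 = 1) :
    ∃ N, 0 < N ∧ a N = 2 := by
  have hu := h.pos 6 (ls [-5, -6, -2, 2, 6, 5])
  have hl := h.pos 6 (ls [1, 0, 0, 0, 0, 1])
  simp [tp, ls, sum_range_succ, h.zero, h1, h2, h3, h4] at hu hl
  have hb : a 5 = -2 ∨ a 5 = -1 := by omega
  rcases hb with h5 | h5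
  · exact ⟨10, by norm_num, h.null 6 (ls [1, 0, 0, 0, 0, 1]) (by simp [tp, ls, sum_range_succ, h.zero, h1, h2, h3, h4, h5]) 10 6
      (ls [-1, 0, 0, 0, 0, 1]) (by norm_num)
      (by intro w; simp [ls, sum_range_succ]; ring)⟩
  · have hu := h.pos 7 (ls [-1, -1, -1, 0, 1, 1, 1])
    have hl := h.pos 7 (ls [2, 1, -1, -1, -1, 1, 2])
    simp [tp, ls, sum_range_succ, h.zero, h1, h2, h3, h4, h5] at hu hl
    have hb : a 6 = 0 ∨ a 6 = 1 := by omega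
    rcases hb with h6 | h6
    · have hu := h.pos 8 (ls [-3, -1, 0, -1, 1, 0, 1, 3])
      have hl := h.pos 8 (ls [1, 1, 0, -1, -1, 0, 1, 1])
      simp [tp, ls, sum_range_succ, h.zero, h1, h2, h3, h4, h5, h6] at hu hl
      have hb : a 7 = 0 ∨ a 7 = 1 := by omega
      rcases hb with h7 | h7
      · exact ⟨18, by norm_num, h.null 8 (ls [1, 1, 0, -1, -1, 0, 1, 1]) (by simp [tp, ls, sum_range_succ, h.zero, h1, h2, h3, h4, h5, h6, h7]) 18 12
          (ls [-1, 1, -1, 0, 0, 0, 0, 0, 0, 1, -1, 1]) (by norm_num)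
          (by intro w; simp [ls, sum_range_succ]; ring)⟩
      · have hu := h.pos 9 (ls [-1, -1, 0, 0, 0, 0, 0, 1, 1])
        have hl := h.pos 9 (ls [1, 0, 0, 0, -1, 0, 0, 0, 1])
        simp [tp, ls, sum_range_succ, h.zero, h1, h2, h3, h4, h5, h6, h7] at hu hl
        have hb : a 8 = -1 ∨ a 8 = 0 := by omega
        rcases hb with h8 | h8
        · exact ⟨24, by norm_num, h.null 9 (ls [1, 0, 0, 0, -1, 0, 0, 0, 1]) (by simp [tp, ls, sum_range_succ, h.zero, h1, h2, h3, h4, h5, h6, h7, h8]) 24 17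
            (ls [-1, 0, 0, 0, -1, 0, 0, 0, 0, 0, 0, 0, 1, 0, 0, 0, 1]) (by norm_num)
            (by intro w; simp [ls, sum_range_succ]; ring)⟩
        · exact ⟨14, by norm_num, h.null 9 (ls [-1, -1, 0, 0, 0, 0, 0, 1, 1]) (by simp [tp, ls, sum_range_succ, h.zero, h1, h2, h3, h4, h5, h6, h7, h8]) 14 7
            (ls [1, -1, 1, -1, 1, -1, 1]) (by norm_num)
            (by intro w; simp [ls, sum_range_succ]; ring)⟩
    · exact ⟨12, by norm_num, h.null 7 (ls [-1, -1, -1, 0, 1, 1, 1]) (by simp [tp, ls, sum_range_succ, h.zero, h1, h2, h3, h4, h5, h6]) 12 7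
        (ls [1, -1, 0, 1, 0, -1, 1]) (by norm_num)
        (by intro w; simp [ls, sum_range_succ]; ring)⟩

theorem tree5 {a : ℕ → ℤ} (h : Ps a) (h1 : a 1 = -1) (h2 : a 2 = 0) (h3 : a 3 = 0) (h4 : a 4 = 0) (h5 : a 5 = 1) :
    ∃ N, 0 < N ∧ a N = 2 := by
  have hu := h.pos 7 (ls [-3, -4, -2, 0, 2, 4, 3])
  have hl := h.pos 7 (ls [1, 0, 0, 0, 0, 0, 1])
  simp [tp, ls, sum_range_succ, h.zero, h1, h2, h3, h4, h5] at hu hl
  have hb : a 6 = -2 ∨ a 6 = -1 := by omega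
  rcases hb with h6 | h6
  · exact ⟨12, by norm_num, h.null 7 (ls [1, 0, 0, 0, 0, 0, 1]) (by simp [tp, ls, sum_range_succ, h.zero, h1, h2, h3, h4, h5, h6]) 12 7
      (ls [-1, 0, 0, 0, 0, 0, 1]) (by norm_num)
      (by intro w; simp [ls, sum_range_succ]; ring)⟩
  · have hu := h.pos 8 (ls [-2, -3, -3, -1, 1, 3, 3, 2])
    have hl := h.pos 8 (ls [2, 1, -1, -1, -1, -1, 1, 2])
    simp [tp, ls, sum_range_succ, h.zero, h1, h2, h3, h4, h5, h6] at hu hl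
    have hb : a 7 = 0 := by omega
    have h7 := hb
    have hu := h.pos 9 (ls [-1, -1, -1, -1, 0, 1, 1, 1, 1])
    have hl := h.pos 9 (ls [1, 1, 0, -1, -1, -1, 0, 1, 1])
    simp [tp, ls, sum_range_succ, h.zero, h1, h2, h3, h4, h5, h6, h7] at hu hl
    have hb : a 8 = 0 ∨ a 8 = 1 := by omega
    rcases hb with h8 | h8
    · exact ⟨30, by norm_num, h.null 9 (ls [1, 1, 0, -1, -1, -1, 0, 1, 1]) (by simp [tp, ls, sum_range_succ, h.zero, h1, h2, h3, h4, h5, h6, h7, h8]) 30 23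
        (ls [-1, 1, -1, 0, 0, -1, 1, -1, 0, 0, 0, 0, 0, 0, 0, 1, -1, 1, 0, 0, 1, -1, 1]) (by norm_num)
        (by intro w; simp [ls, sum_range_succ]; ring)⟩
    · exact ⟨20, by norm_num, h.null 9 (ls [-1, -1, -1, -1, 0, 1, 1, 1, 1]) (by simp [tp, ls, sum_range_succ, h.zero, h1, h2, h3, h4, h5, h6, h7, h8]) 20 13
        (ls [1, -1, 0, 0, 1, 0, -1, 0, 1, 0, 0, -1, 1]) (by norm_num)
        (by intro w; simp [ls, sum_range_succ]; ring)⟩

theorem tree6 {a : ℕ → ℤ} (h : Ps a) (h1 : a 1 = -1) (h2 : a 2 = 0) (h3 : a 3 = 0) (h4 : a 4 = 0) (h5 : a 5 = 0) (h6 : a 6 = 1) :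
    ∃ N, 0 < N ∧ a N = 2 := by
  have hu := h.pos 8 (ls [-7, -10, -6, -2, 2, 6, 10, 7])
  have hl := h.pos 8 (ls [1, 0, 0, 0, 0, 0, 0, 1])
  simp [tp, ls, sum_range_succ, h.zero, h1, h2, h3, h4, h5, h6] at hu hl
  have hb : a 7 = -2 ∨ a 7 = -1 := by omega
  rcases hb with h7 | h7
  · exact ⟨14, by norm_num, h.null 8 (ls [1, 0, 0, 0, 0, 0, 0, 1]) (by simp [tp, ls, sum_range_succ, h.zero, h1, h2, h3, h4, h5, h6, h7]) 14 8
      (ls [-1, 0, 0, 0, 0, 0, 0, 1]) (by norm_num)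
      (by intro w; simp [ls, sum_range_succ]; ring)⟩
  · have hu := h.pos 9 (ls [-1, -2, -2, -1, 0, 1, 2, 2, 1])
    have hl := h.pos 9 (ls [2, 1, -1, -1, -1, -1, -1, 1, 2])
    simp [tp, ls, sum_range_succ, h.zero, h1, h2, h3, h4, h5, h6, h7] at hu hl
    have hb : a 8 = 0 := by omega
    have h8 := hb
    exact ⟨30, by norm_num, h.null 9 (ls [-1, -2, -2, -1, 0, 1, 2, 2, 1]) (by simp [tp, ls, sum_range_succ, h.zero, h1, h2, h3, h4, h5, h6, h7, h8]) 30 23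
      (ls [1, -2, 2, -1, 0, 1, -1, 0, 1, -1, 1, -1, 1, -1, 1, 0, -1, 1, 0, -1, 2, -2, 1]) (by norm_num)
      (by intro w; simp [ls, sum_range_succ]; ring)⟩

theorem tree7 {a : ℕ → ℤ} (h : Ps a) (h1 : a 1 = -1) (h2 : a 2 = 0) (h3 : a 3 = 0) (h4 : a 4 = 0) (h5 : a 5 = 0) (h6 : a 6 = 0) (h7 : a 7 = 1) :
    ∃ N, 0 < N ∧ a N = 2 := by
  have hu := h.pos 9 (ls [-2, -3, -2, -1, 0, 1, 2, 3, 2])
  have hl := h.pos 9 (ls [1, 0, 0, 0, 0, 0, 0, 0, 1])
  simp [tp, ls, sum_range_succ, h.zero, h1, h2, h3, h4, h5, h6, h7] at hu hl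
  have hb : a 8 = -2 ∨ a 8 = -1 := by omega
  rcases hb with h8 | h8
  · exact ⟨16, by norm_num, h.null 9 (ls [1, 0, 0, 0, 0, 0, 0, 0, 1]) (by simp [tp, ls, sum_range_succ, h.zero, h1, h2, h3, h4, h5, h6, h7, h8]) 16 9
      (ls [-1, 0, 0, 0, 0, 0, 0, 0, 1]) (by norm_num)
      (by intro w; simp [ls, sum_range_succ]; ring)⟩
  · have hr := h.rel 9 (ls [-2, -3, -2, -1, 0, 1, 2, 3, 2]) (by simp [tp, ls, sum_range_succ, h.zero, h1, h2, h3, h4, h5, h6, h7, h8]) 9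
    simp [ls, sum_range_succ, h.zero, h1, h2, h3, h4, h5, h6, h7, h8] at hr
    omega

theorem tree8 {a : ℕ → ℤ} (h : Ps a) (h1 : a 1 = -1) (h2 : a 2 = 0) (h3 : a 3 = 0) (h4 : a 4 = 0) (h5 : a 5 = 0) (h6 : a 6 = 0) (h7 : a 7 = 0) (h8 : a 8 = 1) :
    ∃ N, 0 < N ∧ a N = 2 := by
  have hu := h.pos 10 (ls [-9, -14, -10, -6, -2, 2, 6, 10, 14, 9])
  have hl := h.pos 10 (ls [1, 0, 0, 0, 0, 0, 0, 0, 0, 1])
  simp [tp, ls, sum_range_succ, h.zero, h1, h2, h3, h4, h5, h6, h7, h8] at hu hl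
  have hb : a 9 = -2 := by omega
  have h9 := hb
  exact ⟨18, by norm_num, h.null 10 (ls [1, 0, 0, 0, 0, 0, 0, 0, 0, 1]) (by simp [tp, ls, sum_range_succ, h.zero, h1, h2, h3, h4, h5, h6, h7, h8, h9]) 18 10
    (ls [-1, 0, 0, 0, 0, 0, 0, 0, 0, 1]) (by norm_num)
    (by intro w; simp [ls, sum_range_succ]; ring)⟩


theorem tw3 {a : ℕ → ℤ} (h : Ps a) (h1 : a 1 = 1) (h2 : a 2 = 1) (h3 : a 3 = 0) :
    ∃ N, 0 < N ∧ a N = 2 := by
  have hu := h.pos 5 (ls [-1, 1, 0, -1, 1])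
  have hl := h.pos 5 (ls [1, 0, -1, 0, 1])
  simp [tp, ls, sum_range_succ, h.zero, h1, h2, h3] at hu hl
  have hb : a 4 = -1 ∨ a 4 = 0 ∨ a 4 = 1 := by omega
  rcases hb with h4 | h4 | h4
  · exact ⟨12, by norm_num, h.null 5 (ls [1, 0, -1, 0, 1]) (by simp [tp, ls, sum_range_succ, h.zero, h1, h2, h3, h4]) 12 9
      (ls [-1, 0, -1, 0, 0, 0, 1, 0, 1]) (by norm_num)
      (by intro w; simp [ls, sum_range_succ]; ring)⟩
  · have hu := h.pos 6 (ls [-2, 1, 2, -2, -1, 2])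
    have hl := h.pos 6 (ls [2, -1, 0, 0, -1, 2])
    simp [tp, ls, sum_range_succ, h.zero, h1, h2, h3, h4] at hu hl
    have hb : a 5 = -1 ∨ a 5 = 0 := by omega
    rcases hb with h5 | h5
    · have hu := h.pos 7 (ls [-1, 1, 0, 0, 0, -1, 1])
      have hl := h.pos 7 (ls [2, 0, -1, 1, -1, 0, 2])
      simp [tp, ls, sum_range_succ, h.zero, h1, h2, h3, h4, h5] at hu hl
      have hb : a 6 = -1 ∨ a 6 = 0 := by omega
      rcases hb with h6 | h6
      · have hu := h.pos 8 (ls [-3, 2, 2, -2, 2, -2, -2, 3])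
        have hl := h.pos 8 (ls [1, 0, 0, 0, 0, 0, 0, 1])
        simp [tp, ls, sum_range_succ, h.zero, h1, h2, h3, h4, h5, h6] at hu hl
        have hb : a 7 = -2 ∨ a 7 = -1 := by omega
        rcases hb with h7 | h7
        · exact ⟨14, by norm_num, h.null 8 (ls [1, 0, 0, 0, 0, 0, 0, 1]) (by simp [tp, ls, sum_range_succ, h.zero, h1, h2, h3, h4, h5, h6, h7]) 14 8
            (ls [-1, 0, 0, 0, 0, 0, 0, 1]) (by norm_num)
            (by intro w; simp [ls, sum_range_succ]; ring)⟩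
        · have hu := h.pos 9 (ls [-1, 0, 1, 0, 0, 0, -1, 0, 1])
          have hl := h.pos 9 (ls [1, -1, 0, 1, -1, 1, 0, -1, 1])
          simp [tp, ls, sum_range_succ, h.zero, h1, h2, h3, h4, h5, h6, h7] at hu hl
          have hb : a 8 = -1 ∨ a 8 = 0 := by omega
          rcases hb with h8 | h8
          · exact ⟨15, by norm_num, h.null 9 (ls [1, -1, 0, 1, -1, 1, 0, -1, 1]) (by simp [tp, ls, sum_range_succ, h.zero, h1, h2, h3, h4, h5, h6, h7, h8]) 15 8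
              (ls [-1, -1, -1, 0, 0, 1, 1, 1]) (by norm_num)
              (by intro w; simp [ls, sum_range_succ]; ring)⟩
          · exact ⟨12, by norm_num, h.null 9 (ls [-1, 0, 1, 0, 0, 0, -1, 0, 1]) (by simp [tp, ls, sum_range_succ, h.zero, h1, h2, h3, h4, h5, h6, h7, h8]) 12 5
              (ls [1, 0, 1, 0, 1]) (by norm_num)
              (by intro w; simp [ls, sum_range_succ]; ring)⟩
      · exact ⟨10, by norm_num, h.null 7 (ls [-1, 1, 0, 0, 0, -1, 1]) (by simp [tp, ls, sum_range_succ, h.zero, h1, h2, h3, h4, h5, h6]) 10 5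
          (ls [1, 1, 1, 1, 1]) (by norm_num)
          (by intro w; simp [ls, sum_range_succ]; ring)⟩
    · have hu := h.pos 7 (ls [-1, 0, 1, 0, -1, 0, 1])
      have hl := h.pos 7 (ls [2, -2, -1, 3, -1, -2, 2])
      simp [tp, ls, sum_range_succ, h.zero, h1, h2, h3, h4, h5] at hu hl
      have hb : a 6 = 0 ∨ a 6 = 1 := by omega
      rcases hb with h6 | h6
      · have hu := h.pos 8 (ls [-1, 1, 0, -1, 1, 0, -1, 1])
        have hl := h.pos 8 (ls [3, -1, -4, 3, 3, -4, -1, 3])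
        simp [tp, ls, sum_range_succ, h.zero, h1, h2, h3, h4, h5, h6] at hu hl
        have hb : a 7 = 0 ∨ a 7 = 1 := by omega
        rcases hb with h7 | h7
        · have hu := h.pos 9 (ls [-1, 1, 1, -2, 0, 2, -1, -1, 1])
          have hl := h.pos 9 (ls [1, 0, -1, 0, 1, 0, -1, 0, 1])
          simp [tp, ls, sum_range_succ, h.zero, h1, h2, h3, h4, h5, h6, h7] at hu hl
          have hb : a 8 = -1 ∨ a 8 = 0 := by omega
          rcases hb with h8 | h8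
          · exact ⟨20, by norm_num, h.null 9 (ls [1, 0, -1, 0, 1, 0, -1, 0, 1]) (by simp [tp, ls, sum_range_succ, h.zero, h1, h2, h3, h4, h5, h6, h7, h8]) 20 13
              (ls [-1, 0, -1, 0, 0, 0, 0, 0, 0, 0, 1, 0, 1]) (by norm_num)
              (by intro w; simp [ls, sum_range_succ]; ring)⟩
          · exact ⟨12, by norm_num, h.null 9 (ls [-1, 1, 1, -2, 0, 2, -1, -1, 1]) (by simp [tp, ls, sum_range_succ, h.zero, h1, h2, h3, h4, h5, h6, h7, h8]) 12 5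
              (ls [1, 1, 2, 1, 1]) (by norm_num)
              (by intro w; simp [ls, sum_range_succ]; ring)⟩
        · exact ⟨9, by norm_num, h.null 8 (ls [-1, 1, 0, -1, 1, 0, -1, 1]) (by simp [tp, ls, sum_range_succ, h.zero, h1, h2, h3, h4, h5, h6, h7]) 9 3
            (ls [1, 1, 1]) (by norm_num)
            (by intro w; simp [ls, sum_range_succ]; ring)⟩
      · exact ⟨8, by norm_num, h.null 7 (ls [-1, 0, 1, 0, -1, 0, 1]) (by simp [tp, ls, sum_range_succ, h.zero, h1, h2, h3, h4, h5, h6]) 8 3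
          (ls [1, 0, 1]) (by norm_num)
          (by intro w; simp [ls, sum_range_succ]; ring)⟩
  · exact ⟨6, by norm_num, h.null 5 (ls [-1, 1, 0, -1, 1]) (by simp [tp, ls, sum_range_succ, h.zero, h1, h2, h3, h4]) 6 3
      (ls [1, 1, 1]) (by norm_num)
      (by intro w; simp [ls, sum_range_succ]; ring)⟩

theorem tl3 {a : ℕ → ℤ} (h : Ps a) (h1 : a 1 = 1) (h2 : a 2 = 1) : 0 ≤ a 3 := by
  have hl := h.pos 4 (ls [3, -2, -2, 3])
  simp [tp, ls, sum_range_succ, h.zero, h1, h2] at hl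
  omega

theorem tw4 {a : ℕ → ℤ} (h : Ps a) (h1 : a 1 = 1) (h2 : a 2 = 1) (h3 : a 3 = 1) (h4 : a 4 = 0) :
    ∃ N, 0 < N ∧ a N = 2 := by
  have hu := h.pos 6 (ls [-1, 1, 0, 0, -1, 1])
  have hl := h.pos 6 (ls [5, 1, -4, -4, 1, 5])
  simp [tp, ls, sum_range_succ, h.zero, h1, h2, h3, h4] at hu hl
  have hb : a 5 = 0 ∨ a 5 = 1 := by omega
  rcases hb with h5 | h5
  · have hu := h.pos 7 (ls [-2, 1, 2, 0, -2, -1, 2])
    have hl := h.pos 7 (ls [1, 0, 0, -1, 0, 0, 1])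
    simp [tp, ls, sum_range_succ, h.zero, h1, h2, h3, h4, h5] at hu hl
    have hb : a 6 = -1 ∨ a 6 = 0 := by omega
    rcases hb with h6 | h6
    · exact ⟨18, by norm_num, h.null 7 (ls [1, 0, 0, -1, 0, 0, 1]) (by simp [tp, ls, sum_range_succ, h.zero, h1, h2, h3, h4, h5, h6]) 18 13
        (ls [-1, 0, 0, -1, 0, 0, 0, 0, 0, 1, 0, 0, 1]) (by norm_num)
        (by intro w; simp [ls, sum_range_succ]; ring)⟩
    · have hu := h.pos 8 (ls [-1, 0, 1, 1, -1, -1, 0, 1])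
      have hl := h.pos 8 (ls [3, -2, -1, 1, 1, -1, -2, 3])
      simp [tp, ls, sum_range_succ, h.zero, h1, h2, h3, h4, h5, h6] at hu hl
      have hb : a 7 = -1 ∨ a 7 = 0 := by omega
      rcases hb with h7 | h7
      · have hu := h.pos 9 (ls [-1, 1, 0, 0, 0, 0, 0, -1, 1])
        have hl := h.pos 9 (ls [1, 0, -1, 0, 1, 0, -1, 0, 1])
        simp [tp, ls, sum_range_succ, h.zero, h1, h2, h3, h4, h5, h6, h7] at hu hl
        have hb : a 8 = -1 ∨ a 8 = 0 := by omega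
        rcases hb with h8 | h8
        · exact ⟨20, by norm_num, h.null 9 (ls [1, 0, -1, 0, 1, 0, -1, 0, 1]) (by simp [tp, ls, sum_range_succ, h.zero, h1, h2, h3, h4, h5, h6, h7, h8]) 20 13
            (ls [-1, 0, -1, 0, 0, 0, 0, 0, 0, 0, 1, 0, 1]) (by norm_num)
            (by intro w; simp [ls, sum_range_succ]; ring)⟩
        · exact ⟨14, by norm_num, h.null 9 (ls [-1, 1, 0, 0, 0, 0, 0, -1, 1]) (by simp [tp, ls, sum_range_succ, h.zero, h1, h2, h3, h4, h5, h6, h7, h8]) 14 7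
            (ls [1, 1, 1, 1, 1, 1, 1]) (by norm_num)
            (by intro w; simp [ls, sum_range_succ]; ring)⟩
      · exact ⟨12, by norm_num, h.null 8 (ls [-1, 0, 1, 1, -1, -1, 0, 1]) (by simp [tp, ls, sum_range_succ, h.zero, h1, h2, h3, h4, h5, h6, h7]) 12 6
          (ls [1, 0, 1, 1, 0, 1]) (by norm_num)
          (by intro w; simp [ls, sum_range_succ]; ring)⟩
  · exact ⟨8, by norm_num, h.null 6 (ls [-1, 1, 0, 0, -1, 1]) (by simp [tp, ls, sum_range_succ, h.zero, h1, h2, h3, h4, h5]) 8 4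
      (ls [1, 1, 1, 1]) (by norm_num)
      (by intro w; simp [ls, sum_range_succ]; ring)⟩

theorem tl4 {a : ℕ → ℤ} (h : Ps a) (h1 : a 1 = 1) (h2 : a 2 = 1) (h3 : a 3 = 1) : 0 ≤ a 4 := by
  have hl := h.pos 5 (ls [2, -1, -1, -1, 2])
  simp [tp, ls, sum_range_succ, h.zero, h1, h2, h3] at hl
  omega

theorem tw5 {a : ℕ → ℤ} (h : Ps a) (h1 : a 1 = 1) (h2 : a 2 = 1) (h3 : a 3 = 1) (h4 : a 4 = 1) (h5 : a 5 = 0) :
    ∃ N, 0 < N ∧ a N = 2 := by
  have hu := h.pos 7 (ls [-1, 1, 0, 0, 0, -1, 1])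
  have hl := h.pos 7 (ls [3, 1, -2, -2, -2, 1, 3])
  simp [tp, ls, sum_range_succ, h.zero, h1, h2, h3, h4, h5] at hu hl
  have hb : a 6 = 0 ∨ a 6 = 1 := by omega
  rcases hb with h6 | h6
  · have hu := h.pos 8 (ls [-2, 1, 2, 0, 0, -2, -1, 2])
    have hl := h.pos 8 (ls [2, 1, 0, -2, -2, 0, 1, 2])
    simp [tp, ls, sum_range_succ, h.zero, h1, h2, h3, h4, h5, h6] at hu hl
    have hb : a 7 = 0 := by omega
    have h7 := hb
    have hu := h.pos 9 (ls [-1, 0, 1, 1, 0, -1, -1, 0, 1])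
    have hl := h.pos 9 (ls [1, 0, 0, 0, -1, 0, 0, 0, 1])
    simp [tp, ls, sum_range_succ, h.zero, h1, h2, h3, h4, h5, h6, h7] at hu hl
    have hb : a 8 = -1 ∨ a 8 = 0 := by omega
    rcases hb with h8 | h8
    · exact ⟨24, by norm_num, h.null 9 (ls [1, 0, 0, 0, -1, 0, 0, 0, 1]) (by simp [tp, ls, sum_range_succ, h.zero, h1, h2, h3, h4, h5, h6, h7, h8]) 24 17
        (ls [-1, 0, 0, 0, -1, 0, 0, 0, 0, 0, 0, 0, 1, 0, 0, 0, 1]) (by norm_num)
        (by intro w; simp [ls, sum_range_succ]; ring)⟩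
    · exact ⟨18, by norm_num, h.null 9 (ls [-1, 0, 1, 1, 0, -1, -1, 0, 1]) (by simp [tp, ls, sum_range_succ, h.zero, h1, h2, h3, h4, h5, h6, h7, h8]) 18 11
        (ls [1, 0, 1, 1, 1, 1, 1, 1, 1, 0, 1]) (by norm_num)
        (by intro w; simp [ls, sum_range_succ]; ring)⟩
  · exact ⟨10, by norm_num, h.null 7 (ls [-1, 1, 0, 0, 0, -1, 1]) (by simp [tp, ls, sum_range_succ, h.zero, h1, h2, h3, h4, h5, h6]) 10 5
      (ls [1, 1, 1, 1, 1]) (by norm_num)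
      (by intro w; simp [ls, sum_range_succ]; ring)⟩

theorem tl5 {a : ℕ → ℤ} (h : Ps a) (h1 : a 1 = 1) (h2 : a 2 = 1) (h3 : a 3 = 1) (h4 : a 4 = 1) : 0 ≤ a 5 := by
  have hl := h.pos 6 (ls [5, -2, -2, -2, -2, 5])
  simp [tp, ls, sum_range_succ, h.zero, h1, h2, h3, h4] at hl
  omega

theorem tw6 {a : ℕ → ℤ} (h : Ps a) (h1 : a 1 = 1) (h2 : a 2 = 1) (h3 : a 3 = 1) (h4 : a 4 = 1) (h5 : a 5 = 1) (h6 : a 6 = 0) :
    ∃ N, 0 < N ∧ a N = 2 := by
  have hu := h.pos 8 (ls [-1, 1, 0, 0, 0, 0, -1, 1])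
  have hl := h.pos 8 (ls [7, 3, -4, -4, -4, -4, 3, 7])
  simp [tp, ls, sum_range_succ, h.zero, h1, h2, h3, h4, h5, h6] at hu hl
  have hb : a 7 = 0 ∨ a 7 = 1 := by omega
  rcases hb with h7 | h7
  · have hu := h.pos 9 (ls [-2, 1, 2, 0, 0, 0, -2, -1, 2])
    have hl := h.pos 9 (ls [1, 1, 0, -1, -1, -1, 0, 1, 1])
    simp [tp, ls, sum_range_succ, h.zero, h1, h2, h3, h4, h5, h6, h7] at hu hl
    have hb : a 8 = 0 := by omega
    have h8 := hb
    exact ⟨30, by norm_num, h.null 9 (ls [1, 1, 0, -1, -1, -1, 0, 1, 1]) (by simp [tp, ls, sum_range_succ, h.zero, h1, h2, h3, h4, h5, h6, h7, h8]) 30 23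
      (ls [-1, 1, -1, 0, 0, -1, 1, -1, 0, 0, 0, 0, 0, 0, 0, 1, -1, 1, 0, 0, 1, -1, 1]) (by norm_num)
      (by intro w; simp [ls, sum_range_succ]; ring)⟩
  · exact ⟨12, by norm_num, h.null 8 (ls [-1, 1, 0, 0, 0, 0, -1, 1]) (by simp [tp, ls, sum_range_succ, h.zero, h1, h2, h3, h4, h5, h6, h7]) 12 6
      (ls [1, 1, 1, 1, 1, 1]) (by norm_num)
      (by intro w; simp [ls, sum_range_succ]; ring)⟩

theorem tl6 {a : ℕ → ℤ} (h : Ps a) (h1 : a 1 = 1) (h2 : a 2 = 1) (h3 : a 3 = 1) (h4 : a 4 = 1) (h5 : a 5 = 1) : 0 ≤ a 6 := by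
  have hl := h.pos 7 (ls [3, -1, -1, -1, -1, -1, 3])
  simp [tp, ls, sum_range_succ, h.zero, h1, h2, h3, h4, h5] at hl
  omega

theorem tw7 {a : ℕ → ℤ} (h : Ps a) (h1 : a 1 = 1) (h2 : a 2 = 1) (h3 : a 3 = 1) (h4 : a 4 = 1) (h5 : a 5 = 1) (h6 : a 6 = 1) (h7 : a 7 = 0) :
    ∃ N, 0 < N ∧ a N = 2 := by
  have hu := h.pos 9 (ls [-1, 1, 0, 0, 0, 0, 0, -1, 1])
  have hl := h.pos 9 (ls [2, 1, -1, -1, -1, -1, -1, 1, 2])
  simp [tp, ls, sum_range_succ, h.zero, h1, h2, h3, h4, h5, h6, h7] at hu hl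
  have hb : a 8 = 0 ∨ a 8 = 1 := by omega
  rcases hb with h8 | h8
  · have hr := h.rel 9 (ls [2, 1, -1, -1, -1, -1, -1, 1, 2]) (by simp [tp, ls, sum_range_succ, h.zero, h1, h2, h3, h4, h5, h6, h7, h8]) 9
    simp [ls, sum_range_succ, h.zero, h1, h2, h3, h4, h5, h6, h7, h8] at hr
    omega
  · exact ⟨14, by norm_num, h.null 9 (ls [-1, 1, 0, 0, 0, 0, 0, -1, 1]) (by simp [tp, ls, sum_range_succ, h.zero, h1, h2, h3, h4, h5, h6, h7, h8]) 14 7
      (ls [1, 1, 1, 1, 1, 1, 1]) (by norm_num)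
      (by intro w; simp [ls, sum_range_succ]; ring)⟩

theorem tl7 {a : ℕ → ℤ} (h : Ps a) (h1 : a 1 = 1) (h2 : a 2 = 1) (h3 : a 3 = 1) (h4 : a 4 = 1) (h5 : a 5 = 1) (h6 : a 6 = 1) : 0 ≤ a 7 := by
  have hl := h.pos 8 (ls [7, -2, -2, -2, -2, -2, -2, 7])
  simp [tp, ls, sum_range_succ, h.zero, h1, h2, h3, h4, h5, h6] at hl
  omega


end Pool.Agent.V1142.SC.Rl
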