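import Pool.Agent.V1142.SC.Rl1

set_option autoImplicit false

/-!
# Integral positive definite sequences of norm two: the classification
-/

namespace Pool.Agent.V1142.SC.Rl

open Finset

variable {a : ℕ → ℤ}

theorem tp_succ (k : ℕ) : tp (fun _ => 1) (k + 1) a =
    tp (fun _ => 1) k a + a 0 + 2 * ∑ d ∈ range k, a (d + 1) := by
  unfold tp
  simp only [one_mul]
  rw [sum_range_succ]
  have h1 : ∀ i ∈ range k, ∑ j ∈ range (k + 1), a ((i : ℤ) - j).natAbs =
      ∑ j ∈ range k, a ((i : ℤ) - j).natAbs + a (k - i) := by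
    intro i hi
    rw [sum_range_succ]
    congr 2
    have := mem_range.1 hi
    omega
  rw [sum_congr rfl h1, sum_add_distrib, sum_range_succ]
  have h2 : ∑ i ∈ range k, a (k - i) = ∑ d ∈ range k, a (d + 1) := by
    rw [← sum_range_reflect (fun d => a (d + 1)) k]
    refine sum_congr rfl fun i hi => ?_
    have := mem_range.1 hi
    congr 1
    omega
  have h3 : ∑ j ∈ range k, a ((k : ℤ) - j).natAbs = ∑ d ∈ range k, a (d + 1) := by
    rw [← h2]
    refine sum_congr rfl fun i hi => ?_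
    have := mem_range.1 hi
    congr 1
    omega
  rw [h2, h3]
  simp only [sub_self, Int.natAbs_zero]
  ring

theorem sum_a (h1 : a 1 = -1) {n : ℕ} (h0 : ∀ j, 2 ≤ j → j < n → a j = 0) :
    ∀ k, 1 ≤ k → k < n → ∑ d ∈ range k, a (d + 1) = -1 := by
  intro k
  induction k with
  | zero => intro h; omega
  | succ k ih =>
    intro _ hk
    rw [sum_range_succ]
    rcases Nat.eq_zero_or_pos k with h | h
    · subst h
      simpa using h1
    · rw [ih h (by omega), h0 (k + 1) (by omega) hk]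
      norm_num

theorem tp_ones (h : Ps a) (h1 : a 1 = -1) {n : ℕ} (hn : 2 ≤ n)
    (h0 : ∀ j, 2 ≤ j → j < n → a j = 0) :
    tp (fun _ => 1) (n + 1) a = 2 + 2 * a n := by
  have key : ∀ k, 1 ≤ k → k ≤ n → tp (fun _ => 1) k a = 2 := by
    intro k
    induction k with
    | zero => intro h; omega
    | succ k ih =>
      intro _ hk
      rcases Nat.eq_zero_or_pos k with h3 | h3
      · subst h3
        simp [tp, h.zero]
      · rw [tp_succ, ih h3 (by omega), sum_a h1 h0 k h3 (by omega), h.zero]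
        norm_num
  obtain ⟨m, rfl⟩ : ∃ m, n = m + 1 := ⟨n - 1, by omega⟩
  rw [tp_succ, key (m + 1) (by omega) le_rfl, sum_range_succ, sum_a h1 h0 m (by omega) (by omega),
    h.zero]
  ring

theorem ones (h : Ps a) (h1 : a 1 = -1) {n : ℕ} (hn : 2 ≤ n)
    (h0 : ∀ j, 2 ≤ j → j < n → a j = 0) (hx : a n = -1) : a (n + 1) = 2 := by
  refine h.null (n + 1) (fun _ => 1) (by rw [tp_ones h h1 hn h0, hx]; norm_num) (n + 1) 2
    (ls [-1, 1]) (by omega) fun w => ?_
  have h2 := geom_sum_mul w (n + 1)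
  simp only [Int.cast_one, one_mul]
  rw [← h2]
  congr 1
  simp [ls, sum_range_succ]
  ring

theorem big (h : Ps a) (h1 : a 1 = -1) {m : ℕ}
    (h0 : ∀ j, 2 ≤ j → j < m + 9 → a j = 0) (hx : a (m + 9) = 1) : a (m + 10) = -2 := by
  have h2 := h.two (ls [8, 12, 9, 6, 3]) 5 (m + 10) (by omega)
  have e0 := h.zero
  have a2 := h0 2 (by omega) (by omega)
  have a3 := h0 3 (by omega) (by omega)
  have a4 := h0 4 (by omega) (by omega)
  have b2 := h0 (m + 2) (by omega) (by omega)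
  have b3 := h0 (m + 3) (by omega) (by omega)
  have b4 := h0 (m + 4) (by omega) (by omega)
  have b5 := h0 (m + 5) (by omega) (by omega)
  have b6 := h0 (m + 6) (by omega) (by omega)
  have b7 := h0 (m + 7) (by omega) (by omega)
  have b8 := h0 (m + 8) (by omega) (by omega)
  have hb := h.bd (m + 10)
  simp [sum_range_succ, ls, e0, h1, a2, a3, a4, b2, b3, b4, b5, b6, b7, b8, hx] at h2
  omega

theorem main1 (h : Ps a) (h3 : a 1 = -1) (h2 : a 2 ≤ 0) :
    (∀ j, 2 ≤ j → a j = 0) ∨ ∃ N, 0 < N ∧ a N = 2 := by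
  by_cases hall : ∀ j, 2 ≤ j → a j = 0
  · exact Or.inl hall
  right
  push Not at hall
  classical
  obtain ⟨n, ⟨hn1, hn2⟩, hmin⟩ : ∃ n, (2 ≤ n ∧ a n ≠ 0) ∧ ∀ j, j < n → ¬ (2 ≤ j ∧ a j ≠ 0) :=
    ⟨Nat.find hall, Nat.find_spec hall, fun j hj => Nat.find_min hall hj⟩
  have h0 : ∀ j, 2 ≤ j → j < n → a j = 0 := by
    intro j hj1 hj2
    by_contra h4
    exact hmin j hj2 ⟨hj1, h4⟩
  have hb := h.bd n
  rcases (by omega : a n = -2 ∨ a n = -1 ∨ a n = 1 ∨ a n = 2) with h4 | h4 | h4 | h4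
  · exact ⟨2 * n, by omega, h.dbl n h4⟩
  · exact ⟨n + 1, by omega, ones h h3 hn1 h0 h4⟩
  · rcases (by omega : n = 2 ∨ n = 3 ∨ n = 4 ∨ n = 5 ∨ n = 6 ∨ n = 7 ∨ n = 8 ∨ 9 ≤ n) with
      rfl | rfl | rfl | rfl | rfl | rfl | rfl | h5
    · omega
    · exact tree3 h h3 (h0 2 (by omega) (by omega)) h4
    · exact tree4 h h3 (h0 2 (by omega) (by omega)) (h0 3 (by omega) (by omega)) h4
    · exact tree5 h h3 (h0 2 (by omega) (by omega)) (h0 3 (by omega) (by omega))
        (h0 4 (by omega) (by omega)) h4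
    · exact tree6 h h3 (h0 2 (by omega) (by omega)) (h0 3 (by omega) (by omega))
        (h0 4 (by omega) (by omega)) (h0 5 (by omega) (by omega)) h4
    · exact tree7 h h3 (h0 2 (by omega) (by omega)) (h0 3 (by omega) (by omega))
        (h0 4 (by omega) (by omega)) (h0 5 (by omega) (by omega)) (h0 6 (by omega) (by omega)) h4
    · exact tree8 h h3 (h0 2 (by omega) (by omega)) (h0 3 (by omega) (by omega))
        (h0 4 (by omega) (by omega)) (h0 5 (by omega) (by omega)) (h0 6 (by omega) (by omega))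
        (h0 7 (by omega) (by omega)) h4
    · obtain ⟨m, rfl⟩ : ∃ m, n = m + 9 := ⟨n - 9, by omega⟩
      exact ⟨2 * (m + 10), by omega, h.dbl _ (big h h3 h0 h4)⟩
  · exact ⟨n, by omega, h4⟩

theorem twl (h : Ps a) {m : ℕ} (h0 : ∀ j, 1 ≤ j → j < m + 8 → a j = 1) : 0 ≤ a (m + 8) := by
  have h2 := h.twop (ls [5, -2, -2]) 3 (m + 8) (by omega)
  have e0 := h.zero
  have a1 := h0 1 (by omega) (by omega)
  have a2 := h0 2 (by omega) (by omega)
  have b4 := h0 (m + 4) (by omega) (by omega)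
  have b5 := h0 (m + 5) (by omega) (by omega)
  have b6 := h0 (m + 6) (by omega) (by omega)
  have b7 := h0 (m + 7) (by omega) (by omega)
  simp [sum_range_succ, ls, e0, a1, a2, b4, b5, b6, b7] at h2
  omega

theorem twu (h : Ps a) {m : ℕ} (h0 : ∀ j, 1 ≤ j → j < m + 8 → a j = 1) (hx : a (m + 8) = 0) :
    1 ≤ a (m + 9) := by
  have h2 := h.twop (ls [9, 5, -4, -4, -4]) 5 (m + 9) (by omega)
  have e0 := h.zero
  have a1 := h0 1 (by omega) (by omega)
  have a2 := h0 2 (by omega) (by omega)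
  have a3 := h0 3 (by omega) (by omega)
  have a4 := h0 4 (by omega) (by omega)
  have b1 := h0 (m + 1) (by omega) (by omega)
  have b2 := h0 (m + 2) (by omega) (by omega)
  have b3 := h0 (m + 3) (by omega) (by omega)
  have b4 := h0 (m + 4) (by omega) (by omega)
  have b5 := h0 (m + 5) (by omega) (by omega)
  have b6 := h0 (m + 6) (by omega) (by omega)
  have b7 := h0 (m + 7) (by omega) (by omega)
  simp [sum_range_succ, ls, e0, a1, a2, a3, a4, b1, b2, b3, b4, b5, b6, b7, hx] at h2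
  omega

theorem twn (h : Ps a) {n : ℕ} (hn : 2 ≤ n) (h1 : a 1 = 1) (h2 : a (n - 1) = 1) (hx : a n = 0)
    (hy : 1 ≤ a (n + 1)) : a (2 * n) = 2 := by
  have h3 := h.two (ls [1, -1]) 2 (n + 1) (by omega)
  have e0 := h.zero
  have e1 : n + 1 - 1 - 1 = n - 1 := by omega
  simp [sum_range_succ, ls, e0, h1, hx, h2] at h3
  refine h.nul2 n (by omega) ?_
  rw [h1, hx, h2]
  omega

theorem main2 (h : Ps a) (h1 : a 1 = 1) (h2 : a 2 = 1) :
    (∀ j, 1 ≤ j → a j = 1) ∨ ∃ N, 0 < N ∧ a N = 2 := by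
  by_cases hall : ∀ j, 1 ≤ j → a j = 1
  · exact Or.inl hall
  right
  push Not at hall
  classical
  obtain ⟨n, ⟨hn1, hn2⟩, hmin⟩ : ∃ n, (1 ≤ n ∧ a n ≠ 1) ∧ ∀ j, j < n → ¬ (1 ≤ j ∧ a j ≠ 1) :=
    ⟨Nat.find hall, Nat.find_spec hall, fun j hj => Nat.find_min hall hj⟩
  have h0 : ∀ j, 1 ≤ j → j < n → a j = 1 := by
    intro j hj1 hj2
    by_contra h4
    exact hmin j hj2 ⟨hj1, h4⟩
  have hb := h.bd n
  rcases (by omega : n = 1 ∨ n = 2 ∨ n = 3 ∨ n = 4 ∨ n = 5 ∨ n = 6 ∨ n = 7 ∨ 8 ≤ n) with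
      rfl | rfl | rfl | rfl | rfl | rfl | rfl | h5
  · exact absurd h1 hn2
  · exact absurd h2 hn2
  · have h6 := tl3 h h1 h2
    rcases (by omega : a 3 = 0 ∨ a 3 = 2) with h7 | h7
    · exact tw3 h h1 h2 h7
    · exact ⟨3, by norm_num, h7⟩
  · have h3 := h0 3 (by omega) (by omega)
    have h6 := tl4 h h1 h2 h3
    rcases (by omega : a 4 = 0 ∨ a 4 = 2) with h7 | h7
    · exact tw4 h h1 h2 h3 h7
    · exact ⟨4, by norm_num, h7⟩
  · have h3 := h0 3 (by omega) (by omega)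
    have h4 := h0 4 (by omega) (by omega)
    have h6 := tl5 h h1 h2 h3 h4
    rcases (by omega : a 5 = 0 ∨ a 5 = 2) with h7 | h7
    · exact tw5 h h1 h2 h3 h4 h7
    · exact ⟨5, by norm_num, h7⟩
  · have h3 := h0 3 (by omega) (by omega)
    have h4 := h0 4 (by omega) (by omega)
    have h5 := h0 5 (by omega) (by omega)
    have h6 := tl6 h h1 h2 h3 h4 h5
    rcases (by omega : a 6 = 0 ∨ a 6 = 2) with h7 | h7
    · exact tw6 h h1 h2 h3 h4 h5 h7
    · exact ⟨6, by norm_num, h7⟩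
  · have h3 := h0 3 (by omega) (by omega)
    have h4 := h0 4 (by omega) (by omega)
    have h5 := h0 5 (by omega) (by omega)
    have h8 := h0 6 (by omega) (by omega)
    have h6 := tl7 h h1 h2 h3 h4 h5 h8
    rcases (by omega : a 7 = 0 ∨ a 7 = 2) with h7 | h7
    · exact tw7 h h1 h2 h3 h4 h5 h8 h7
    · exact ⟨7, by norm_num, h7⟩
  · obtain ⟨m, rfl⟩ : ∃ m, n = m + 8 := ⟨n - 8, by omega⟩
    have h6 := twl h h0
    rcases (by omega : a (m + 8) = 0 ∨ a (m + 8) = 2) with h7 | h7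
    · exact ⟨2 * (m + 8), by omega, twn h (by omega) h1
        (h0 (m + 8 - 1) (by omega) (by omega)) h7 (twu h h0 h7)⟩
    · exact ⟨m + 8, by omega, h7⟩

/-- **The classification.** -/
theorem main (h : Ps a) (h' : Ps fun j => (-1) ^ j * a j) (h1 : a 1 ≤ -1) :
    (a 1 = -1 ∧ ∀ j, 2 ≤ j → a j = 0) ∨ (∀ j, 1 ≤ j → a j = (-1) ^ j) ∨ ∃ N, 0 < N ∧ a N = 2 := by
  have hb1 := h.bd 1
  rcases (by omega : a 1 = -2 ∨ a 1 = -1) with h3 | h3
  · exact Or.inr (Or.inr ⟨2 * 1, by norm_num, h.dbl 1 h3⟩)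
  have hb2 := h.bd 2
  rcases (by omega : a 2 ≤ 0 ∨ a 2 = 1 ∨ a 2 = 2) with h4 | h4 | h4
  · rcases main1 h h3 h4 with h5 | h5
    · exact Or.inl ⟨h3, h5⟩
    · exact Or.inr (Or.inr h5)
  · rcases main2 h' (by simp [h3]) (by simp [h4]) with h5 | ⟨N, h5, h6⟩
    · right
      left
      intro j hj
      have h6 := h5 j hj
      rcases neg_one_pow_eq_or ℤ j with h7 | h7
      · rw [h7] at h6 ⊢
        omega
      · rw [h7] at h6 ⊢
        omega
    · right
      right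
      rcases neg_one_pow_eq_or ℤ N with h7 | h7
      · rw [h7] at h6
        exact ⟨N, h5, by omega⟩
      · rw [h7] at h6
        exact ⟨2 * N, by omega, h.dbl N (by omega)⟩
  · exact Or.inr (Or.inr ⟨2, by norm_num, h4⟩)

end Pool.Agent.V1142.SC.Rl
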