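import Pool.Agent.V1142.SC.Rl2
import Pool.Agent.V1142.SC.Hol2

set_option autoImplicit false
set_option linter.unusedSectionVars false

/-!
# Symmetric powers: the characters and the mean values
-/

namespace Pool.Agent.V1142.SC.Rl

open Complex Filter Topology NumberField IsDedekindDomain
  Pool.Agent.TH553.ST Pool.Agent.TH553.RS Pool.Agent.W540.BE Pool.Agent.V1142.SC.Many

section Trig

/-- the character of the symmetric power -/
noncomputable def ch (n : ℕ) (t : ℝ) : ℝ :=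
  ∑ j ∈ Finset.range (n + 1), Real.cos (((n : ℝ) - 2 * j) * t)

theorem ch_zero (t : ℝ) : ch 0 t = 1 := by simp [ch]

theorem ch_one (t : ℝ) : ch 1 t = 2 * Real.cos t := by
  unfold ch
  rw [Finset.sum_range_succ, Finset.sum_range_one]
  have : ((1 : ℕ) : ℝ) - 2 * ((1 : ℕ) : ℝ) = -1 := by norm_num
  rw [this, neg_one_mul, Real.cos_neg]
  simp
  ring

theorem ch_sin (n : ℕ) (t : ℝ) : ch n t * Real.sin t = Real.sin ((n + 1) * t) := by
  unfold ch
  rw [Finset.sum_mul]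
  have h1 : ∀ j ∈ Finset.range (n + 1), Real.cos (((n : ℝ) - 2 * j) * t) * Real.sin t =
      (fun j : ℕ => Real.sin (((n : ℝ) + 1 - 2 * j) * t) / 2) j -
        (fun j : ℕ => Real.sin (((n : ℝ) + 1 - 2 * j) * t) / 2) (j + 1) := by
    intro j _
    simp only
    have e1 : ((n : ℝ) + 1 - 2 * j) * t = ((n : ℝ) - 2 * j) * t + t := by ring
    have e2 : ((n : ℝ) + 1 - 2 * ((j + 1 : ℕ) : ℝ)) * t = ((n : ℝ) - 2 * j) * t - t := by
      push_cast
      ring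
    rw [e1, e2, Real.sin_add, Real.sin_sub]
    ring
  rw [Finset.sum_congr rfl h1, Finset.sum_range_sub']
  have e1 : ((n : ℝ) + 1 - 2 * ((n + 1 : ℕ) : ℝ)) * t = -((n + 1) * t) := by
    push_cast
    ring
  simp only [e1, Real.sin_neg]
  push_cast
  ring_nf

theorem ch_two (n : ℕ) (t : ℝ) : ch (n + 2) t = ch n t + 2 * Real.cos ((n + 2 : ℝ) * t) := by
  unfold ch
  rw [Finset.sum_range_succ, Finset.sum_range_succ']
  have e1 : (((n + 2 : ℕ) : ℝ) - 2 * ((n + 2 : ℕ) : ℝ)) * t = -((n + 2 : ℝ) * t) := by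
    push_cast
    ring
  have e2 : ∀ j : ℕ, (((n + 2 : ℕ) : ℝ) - 2 * ((j + 1 : ℕ) : ℝ)) * t = ((n : ℝ) - 2 * j) * t := by
    intro j
    push_cast
    ring
  have e3 : (((n + 2 : ℕ) : ℝ) - 2 * ((0 : ℕ) : ℝ)) * t = (n + 2 : ℝ) * t := by
    push_cast
    ring
  simp only [e1, e2, e3, Real.cos_neg]
  ring

theorem ch_step (n : ℕ) (t : ℝ) :
    2 * Real.cos t * ch (n + 1) t = ch (n + 2) t + ch n t := by
  unfold ch
  rw [Finset.mul_sum]
  have h1 : ∀ j ∈ Finset.range (n + 1 + 1), 2 * Real.cos t *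
      Real.cos ((((n + 1 : ℕ) : ℝ) - 2 * j) * t) =
      Real.cos ((((n + 2 : ℕ) : ℝ) - 2 * j) * t) + Real.cos (((n : ℝ) - 2 * j) * t) := by
    intro j _
    have e1 : (((n + 2 : ℕ) : ℝ) - 2 * j) * t = (((n + 1 : ℕ) : ℝ) - 2 * j) * t + t := by
      push_cast
      ring
    have e2 : ((n : ℝ) - 2 * j) * t = (((n + 1 : ℕ) : ℝ) - 2 * j) * t - t := by
      push_cast
      ring
    rw [e1, e2, Real.cos_add, Real.cos_sub]
    ring
  rw [Finset.sum_congr rfl h1, Finset.sum_add_distrib, Finset.sum_range_succ _ (n + 2),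
    Finset.sum_range_succ (fun j : ℕ => Real.cos (((n : ℝ) - 2 * j) * t)) (n + 1)]
  have e1 : (((n + 2 : ℕ) : ℝ) - 2 * ((n + 2 : ℕ) : ℝ)) * t = -((n + 2 : ℝ) * t) := by
    push_cast
    ring
  have e2 : ((n : ℝ) - 2 * ((n + 1 : ℕ) : ℝ)) * t = -((n + 2 : ℝ) * t) := by
    push_cast
    ring
  simp only [e1, e2]
  ring

theorem abs_ch (n : ℕ) (t : ℝ) : |ch n t| ≤ n + 1 := by
  unfold ch
  refine (Finset.abs_sum_le_sum_abs _ _).trans ?_
  refine (Finset.sum_le_sum fun j _ => Real.abs_cos_le_one _).trans ?_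
  simp

theorem cont_ch (n : ℕ) : Continuous (ch n) := by
  unfold ch
  fun_prop

/-- the matrix of the symmetric power -/
noncomputable def Am (n : ℕ) (t : ℝ) : Matrix (Fin (n + 1)) (Fin (n + 1)) ℂ :=
  Matrix.diagonal fun j => Complex.exp (((((n : ℝ) - 2 * ((j : ℕ) : ℝ)) * t : ℝ) : ℂ) * I)

theorem Am_mem (n : ℕ) (t : ℝ) : Am n t ∈ Matrix.unitaryGroup (Fin (n + 1)) ℂ := by
  rw [Matrix.mem_unitaryGroup_iff]
  unfold Am
  rw [Matrix.star_eq_conjTranspose, Matrix.diagonal_conjTranspose, Matrix.diagonal_mul_diagonal,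
    ← Matrix.diagonal_one]
  congr 1
  funext j
  simp only [Pi.star_apply, RCLike.star_def]
  rw [Complex.mul_conj, Complex.normSq_eq_norm_sq, Complex.norm_exp_ofReal_mul_I]
  simp

theorem Am_trace (n : ℕ) (t : ℝ) : (Am n t).trace = ((ch n t : ℝ) : ℂ) := by
  unfold Am
  rw [Matrix.trace_diagonal, Fin.sum_univ_eq_sum_range (fun j : ℕ =>
    Complex.exp (((((n : ℝ) - 2 * (j : ℝ)) * t : ℝ) : ℂ) * I)) (n + 1)]
  have h1 : ∀ j ∈ Finset.range (n + 1), Complex.exp (((((n : ℝ) - 2 * (j : ℝ)) * t : ℝ) : ℂ) * I) =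
      ((Real.cos (((n : ℝ) - 2 * j) * t) : ℝ) : ℂ) +
        ((Real.sin (((n : ℝ) - 2 * j) * t) : ℝ) : ℂ) * I := by
    intro j _
    rw [Complex.exp_mul_I, ← Complex.ofReal_cos, ← Complex.ofReal_sin]
  rw [Finset.sum_congr rfl h1, Finset.sum_add_distrib, ← Finset.sum_mul, ← Complex.ofReal_sum,
    ← Complex.ofReal_sum]
  have h2 : ∑ j ∈ Finset.range (n + 1), Real.sin (((n : ℝ) - 2 * j) * t) = 0 := by
    have h3 := Finset.sum_range_reflect (fun j : ℕ => Real.sin (((n : ℝ) - 2 * j) * t)) (n + 1)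
    have h4 : ∀ j ∈ Finset.range (n + 1), Real.sin (((n : ℝ) - 2 * ((n + 1 - 1 - j : ℕ) : ℝ)) * t) =
        -Real.sin (((n : ℝ) - 2 * j) * t) := by
      intro j hj
      have hj' : j ≤ n := by
        have := Finset.mem_range.1 hj
        omega
      rw [Nat.add_sub_cancel, Nat.cast_sub hj', ← Real.sin_neg]
      congr 1
      ring
    rw [Finset.sum_congr rfl h4, Finset.sum_neg_distrib] at h3
    linarith
  rw [h2]
  unfold ch
  simp

end Trig

section Mean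

variable {K : Type} [Field K] [NumberField K] (θ : HeightOneSpectrum (𝓞 K) → ℝ)
  {U : Ultrafilter ℝ} (hU : (U : Filter ℝ) ≤ 𝓝[>] 0)

/-- the order of a continuation of a symmetric power -/
def OrdA (n : ℕ) (τ : ℝ) (m : ℤ) : Prop :=
  ∃ Λ : ℂ → ℂ, MeromorphicAt Λ (1 + τ * I) ∧
    (∀ᶠ s in 𝓝 ((1 : ℂ) + τ * I), (1 : ℝ) < s.re → Λ s = LA (fun v => Am n (θ v)) s) ∧
    meromorphicOrderAt Λ (1 + τ * I) = m

theorem exists_ordA {n : ℕ} {τ : ℝ} (h : ∃ Λ : ℂ → ℂ, MeromorphicAt Λ (1 + τ * I) ∧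
    ∀ᶠ s in 𝓝 ((1 : ℂ) + τ * I), (1 : ℝ) < s.re → Λ s = LA (fun v => Am n (θ v)) s) :
    ∃ m : ℤ, OrdA θ n τ m := by
  obtain ⟨Λ, h1, h2⟩ := h
  obtain ⟨m, h3, -⟩ := order_unit (size_LA (fun v => Am_mem n (θ v)) τ).1 h1 h2
  exact ⟨m, Λ, h1, h2, h3⟩

variable {θ}

include hU

theorem OrdA.am {n : ℕ} {τ : ℝ} {m : ℤ} (h : OrdA θ n τ m) :
    (M (nm K) U fun v => ch n (θ v) * Real.cos (τ * Real.log (nm K v : ℕ))) = -(m : ℝ) := by
  obtain ⟨Λ, h1, h2, h3⟩ := h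
  have hs := size_LA (fun v => Am_mem n (θ v)) τ
  obtain ⟨m', h4, h5⟩ := order_unit hs.1 h1 h2
  have hm : m' = m := by
    rw [h4] at h3
    exact_mod_cast h3
  rw [hm] at h5
  have h6 := hs.2.add h5
  rw [zero_add] at h6
  refine M_of_tendsto hU (h6.congr fun ε => ?_)
  have e : (fun v => ((Am n (θ v)).trace * ((nm K v : ℕ) : ℂ) ^ (-(τ * I : ℂ))).re) =
      fun v => ch n (θ v) * Real.cos (τ * Real.log (nm K v : ℕ)) := by
    funext v
    rw [Am_trace, Complex.re_ofReal_mul, Hol.re_cpow]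
  rw [e]
  ring

theorem OrdA.am0 {n : ℕ} {m : ℤ} (h : OrdA θ n 0 m) :
    (M (nm K) U fun v => ch n (θ v)) = -(m : ℝ) := by
  rw [← h.am hU]
  congr 1
  funext v
  simp

end Mean

end Pool.Agent.V1142.SC.Rl
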