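import Pool.Agent.V1142.SC.Rl3

set_option autoImplicit false
set_option linter.unusedSectionVars false

/-!
# Symmetric powers: the sequence of mean values
-/

namespace Pool.Agent.V1142.SC.Rl

open Complex Filter Topology NumberField IsDedekindDomain Finset
  Pool.Agent.TH553.ST Pool.Agent.TH553.RS Pool.Agent.W540.BE Pool.Agent.V1142.SC.Many

section Trig

theorem cos_natAbs (z : ℤ) (t : ℝ) :
    Real.cos (2 * ((z.natAbs : ℕ) : ℝ) * t) = Real.cos (2 * (z : ℝ) * t) := by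
  rw [Nat.cast_natAbs, Int.cast_abs]
  rcases abs_choice (z : ℝ) with h | h
  · rw [h]
  · rw [h, ← Real.cos_neg]
    congr 1
    ring

theorem cosn (i j : ℕ) (t : ℝ) : Real.cos (2 * ((((i : ℤ) - j).natAbs : ℕ) : ℝ) * t) =
    Real.cos (2 * i * t) * Real.cos (2 * j * t) + Real.sin (2 * i * t) * Real.sin (2 * j * t) := by
  rw [cos_natAbs, ← Real.cos_sub]
  congr 1
  push_cast
  ring

theorem F_eq (c : ℕ → ℝ) (m : ℕ) (t : ℝ) :
    ∑ i ∈ range m, ∑ j ∈ range m, c i * c j *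
      (2 * Real.cos (2 * ((((i : ℤ) - j).natAbs : ℕ) : ℝ) * t)) =
    2 * ((∑ i ∈ range m, c i * Real.cos (2 * i * t)) ^ 2 +
      (∑ i ∈ range m, c i * Real.sin (2 * i * t)) ^ 2) := by
  rw [sq, sq, sum_mul_sum, sum_mul_sum, ← sum_add_distrib, mul_sum]
  refine sum_congr rfl fun i _ => ?_
  rw [← sum_add_distrib, mul_sum]
  refine sum_congr rfl fun j _ => ?_
  rw [cosn]
  ring

theorem two_eq (y : ℕ → ℝ) (m n : ℕ) (h : 2 * m ≤ n + 2) (t : ℝ) :
    (∑ i ∈ range m, ∑ j ∈ range m, y i * y j *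
      (2 * Real.cos (2 * ((((i : ℤ) - j).natAbs : ℕ) : ℝ) * t))) -
    ∑ i ∈ range m, ∑ j ∈ range m, y i * y j *
      (2 * Real.cos (2 * ((n - i - j : ℕ) : ℝ) * t)) =
    4 * (∑ i ∈ range m, y i * Real.sin (((n : ℝ) - 2 * i) * t)) ^ 2 := by
  rw [sq, sum_mul_sum, mul_sum, ← sum_sub_distrib]
  refine sum_congr rfl fun i hi => ?_
  rw [← sum_sub_distrib, mul_sum]
  refine sum_congr rfl fun j hj => ?_
  have hi' := mem_range.1 hi
  have hj' := mem_range.1 hj
  have e1 : ((n - i - j : ℕ) : ℝ) = (n : ℝ) - i - j := by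
    rw [Nat.cast_sub (by omega), Nat.cast_sub (by omega)]
  rw [cos_natAbs, e1]
  have e2 : 2 * (((i : ℤ) - (j : ℤ) : ℤ) : ℝ) * t =
      ((n : ℝ) - 2 * j) * t - ((n : ℝ) - 2 * i) * t := by
    push_cast
    ring
  have e3 : 2 * ((n : ℝ) - i - j) * t = ((n : ℝ) - 2 * j) * t + ((n : ℝ) - 2 * i) * t := by
    ring
  rw [e2, e3, Real.cos_sub, Real.cos_add]
  ring

theorem twop_eq (y : ℕ → ℝ) (m n : ℕ) (h : 2 * m ≤ n + 2) (t : ℝ) :
    (∑ i ∈ range m, ∑ j ∈ range m, y i * y j *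
      (2 * Real.cos (2 * ((n - i - j : ℕ) : ℝ) * t))) +
    (∑ i ∈ range m, ∑ j ∈ range m, y i * y j *
      (2 * Real.cos (2 * ((((i : ℤ) - j).natAbs : ℕ) : ℝ) * t))) =
    4 * (∑ i ∈ range m, y i * Real.cos (((n : ℝ) - 2 * i) * t)) ^ 2 := by
  rw [sq, sum_mul_sum, mul_sum, ← sum_add_distrib]
  refine sum_congr rfl fun i hi => ?_
  rw [← sum_add_distrib, mul_sum]
  refine sum_congr rfl fun j hj => ?_
  have hi' := mem_range.1 hi
  have hj' := mem_range.1 hj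
  have e1 : ((n - i - j : ℕ) : ℝ) = (n : ℝ) - i - j := by
    rw [Nat.cast_sub (by omega), Nat.cast_sub (by omega)]
  rw [cos_natAbs, e1]
  have e2 : 2 * (((i : ℤ) - (j : ℤ) : ℤ) : ℝ) * t =
      ((n : ℝ) - 2 * j) * t - ((n : ℝ) - 2 * i) * t := by
    push_cast
    ring
  have e3 : 2 * ((n : ℝ) - i - j) * t = ((n : ℝ) - 2 * j) * t + ((n : ℝ) - 2 * i) * t := by
    ring
  rw [e2, e3, Real.cos_sub, Real.cos_add]
  ring

theorem sin_nat_le (k : ℕ) (t : ℝ) : |Real.sin (k * t)| ≤ k * |Real.sin t| := by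
  induction k with
  | zero => simp
  | succ k ih =>
    have e : ((k + 1 : ℕ) : ℝ) * t = k * t + t := by
      push_cast
      ring
    rw [e, Real.sin_add]
    refine (abs_add_le _ _).trans ?_
    rw [abs_mul, abs_mul]
    have h1 := Real.abs_cos_le_one t
    have h2 := Real.abs_cos_le_one (k * t)
    have h3 := mul_le_mul_of_nonneg_left h1 (abs_nonneg (Real.sin (k * t)))
    have h4 := mul_le_mul_of_nonneg_right h2 (abs_nonneg (Real.sin t))
    push_cast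
    linarith

theorem nul2_le (n : ℕ) (hn : 0 < n) (t : ℝ) :
    2 - 2 * Real.cos (2 * ((2 * n : ℕ) : ℝ) * t) ≤ (n : ℝ) ^ 2 *
      (4 - 2 * (2 * Real.cos (2 * ((1 : ℕ) : ℝ) * t)) -
        ((2 * Real.cos (2 * ((n + 1 : ℕ) : ℝ) * t) - 2 * (2 * Real.cos (2 * (n : ℝ) * t))) +
          2 * Real.cos (2 * ((n - 1 : ℕ) : ℝ) * t))) := by
  have e1 : 2 * ((2 * n : ℕ) : ℝ) * t = 2 * (2 * (n * t)) := by push_cast; ring
  have e2 : 2 * ((1 : ℕ) : ℝ) * t = 2 * t := by push_cast; ring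
  have e3 : 2 * ((n + 1 : ℕ) : ℝ) * t = 2 * (n * t) + 2 * t := by push_cast; ring
  have e4 : 2 * (n : ℝ) * t = 2 * (n * t) := by ring
  have e5 : 2 * ((n - 1 : ℕ) : ℝ) * t = 2 * (n * t) - 2 * t := by
    rw [Nat.cast_sub (by omega)]
    push_cast
    ring
  rw [e1, e2, e3, e4, e5, Real.cos_two_mul (2 * (n * t)), Real.cos_add, Real.cos_sub,
    Real.cos_two_mul (n * t), Real.cos_two_mul t]
  have h1 := sin_nat_le n t
  have h2 := pow_le_pow_left₀ (abs_nonneg _) h1 2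
  rw [mul_pow, sq_abs, sq_abs] at h2
  have h3 := Real.sin_sq_add_cos_sq (n * t)
  have h4 := Real.sin_sq_add_cos_sq t
  have e6 : 2 - 2 * (2 * (2 * Real.cos (n * t) ^ 2 - 1) ^ 2 - 1) =
      16 * Real.cos (n * t) ^ 2 * Real.sin (n * t) ^ 2 := by
    have : Real.sin (n * t) ^ 2 = 1 - Real.cos (n * t) ^ 2 := by linarith
    rw [this]
    ring
  have e7 : 4 - 2 * (2 * (2 * Real.cos t ^ 2 - 1)) -
      ((2 * ((2 * Real.cos (n * t) ^ 2 - 1) * (2 * Real.cos t ^ 2 - 1) -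
        Real.sin (2 * (n * t)) * Real.sin (2 * t)) - 2 * (2 * (2 * Real.cos (n * t) ^ 2 - 1))) +
        2 * ((2 * Real.cos (n * t) ^ 2 - 1) * (2 * Real.cos t ^ 2 - 1) +
          Real.sin (2 * (n * t)) * Real.sin (2 * t))) =
      16 * Real.cos (n * t) ^ 2 * Real.sin t ^ 2 := by
    have : Real.sin t ^ 2 = 1 - Real.cos t ^ 2 := by linarith
    rw [this]
    ring
  rw [e6, e7]
  have h5 := mul_le_mul_of_nonneg_left h2 (by positivity : 0 ≤ 16 * Real.cos (n * t) ^ 2)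
  linarith

end Trig

section Mean

variable {K : Type} [Field K] [NumberField K] {θ : HeightOneSpectrum (𝓞 K) → ℝ}
  {U : Ultrafilter ℝ} (hU : (U : Filter ℝ) ≤ 𝓝[>] 0) {a : ℕ → ℤ}

theorem bd_of_cont {f : ℝ → ℝ} {B : ℝ} (h : ∀ t, |f t| ≤ B) :
    Bd fun v => f (θ v) := ⟨B, fun v => h (θ v)⟩

theorem bd_cos (k : ℝ) : Bd fun v => 2 * Real.cos (k * θ v) :=
  Bd.const_mul ⟨1, fun _ => Real.abs_cos_le_one _⟩ 2

theorem bd_sum_cos (c : ℕ → ℝ) (m : ℕ) : Bd fun v => ∑ i ∈ range m, c i * Real.cos (2 * i * θ v) :=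
  Bd.sum _ fun _ _ => Bd.const_mul ⟨1, fun _ => Real.abs_cos_le_one _⟩ _

theorem bd_sum_sin (c : ℕ → ℝ) (m : ℕ) : Bd fun v => ∑ i ∈ range m, c i * Real.sin (2 * i * θ v) :=
  Bd.sum _ fun _ _ => Bd.const_mul ⟨1, fun _ => Real.abs_sin_le_one _⟩ _

/-- the squares -/
noncomputable def Fs (θ : HeightOneSpectrum (𝓞 K) → ℝ) (c : ℕ → ℝ) (m : ℕ)
    (v : HeightOneSpectrum (𝓞 K)) : ℝ :=
  2 * ((∑ i ∈ range m, c i * Real.cos (2 * i * θ v)) ^ 2 +
      (∑ i ∈ range m, c i * Real.sin (2 * i * θ v)) ^ 2)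

theorem bd_Fs (c : ℕ → ℝ) (m : ℕ) : Bd (Fs θ c m) :=
  ((bd_sum_cos c m).sq.add (bd_sum_sin c m).sq).const_mul 2

theorem Fs_nonneg (c : ℕ → ℝ) (m : ℕ) (v : HeightOneSpectrum (𝓞 K)) : 0 ≤ Fs θ c m v := by
  unfold Fs
  positivity

include hU

theorem M_Fs (ha : ∀ k : ℕ, (M (nm K) U fun v => 2 * Real.cos (2 * (k : ℝ) * θ v)) = a k)
    (c : ℕ → ℤ) (m : ℕ) : M (nm K) U (Fs θ (fun i => (c i : ℝ)) m) = tp c m a := by
  have hN := sysF K
  have e : Fs θ (fun i => (c i : ℝ)) m = fun v => ∑ i ∈ range m, ∑ j ∈ range m,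
      ((c i : ℝ) * (c j : ℝ)) * (2 * Real.cos (2 * ((((i : ℤ) - j).natAbs : ℕ) : ℝ) * θ v)) := by
    funext v
    rw [F_eq]
    rfl
  rw [e, M_sum hN hU _ fun i _ => Bd.sum _ fun j _ => (bd_cos _).const_mul _]
  unfold tp
  push_cast
  refine sum_congr rfl fun i _ => ?_
  rw [M_sum hN hU _ fun j _ => (bd_cos _).const_mul _]
  refine sum_congr rfl fun j _ => ?_
  rw [M_const_mul hN hU (bd_cos _), ha]

/-- if the mean value of `1 - cos (2 k θ)` vanishes -/
theorem a_eq_two (ha : ∀ k : ℕ, (M (nm K) U fun v => 2 * Real.cos (2 * (k : ℝ) * θ v)) = a k)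
    {k : ℕ} (h : (M (nm K) U fun v => 2 - 2 * Real.cos (2 * (k : ℝ) * θ v)) = 0) : a k = 2 := by
  rw [M_sub (sysF K) hU (Bd.const 2) (bd_cos _), M_const (sysF K) hU, ha] at h
  have : ((a k : ℤ) : ℝ) = 2 := by linarith
  exact_mod_cast this

theorem ps (ha : ∀ k : ℕ, (M (nm K) U fun v => 2 * Real.cos (2 * (k : ℝ) * θ v)) = a k) :
    Ps a where
  zero := by
    have h := ha 0
    have e : (fun v : HeightOneSpectrum (𝓞 K) => 2 * Real.cos (2 * ((0 : ℕ) : ℝ) * θ v)) =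
        fun _ => 2 := by
      funext v
      simp
    rw [e, M_const (sysF K) hU] at h
    exact_mod_cast h.symm
  pos m c := by
    have h1 := M_nonneg (sysF K) hU (bd_Fs (θ := θ) (fun i => (c i : ℝ)) m) (Fs_nonneg _ m)
    rw [M_Fs hU ha] at h1
    exact_mod_cast h1
  two y m n h := by
    have hN := sysF K
    have hb1 : Bd fun v => ∑ i ∈ range m, ∑ j ∈ range m, ((y i : ℝ) * (y j : ℝ)) *
        (2 * Real.cos (2 * ((((i : ℤ) - j).natAbs : ℕ) : ℝ) * θ v)) :=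
      Bd.sum _ fun i _ => Bd.sum _ fun j _ => (bd_cos _).const_mul _
    have hb2 : Bd fun v => ∑ i ∈ range m, ∑ j ∈ range m, ((y i : ℝ) * (y j : ℝ)) *
        (2 * Real.cos (2 * ((n - i - j : ℕ) : ℝ) * θ v)) :=
      Bd.sum _ fun i _ => Bd.sum _ fun j _ => (bd_cos _).const_mul _
    have h1 := M_mono hN hU hb2 hb1 fun v => by
      have := two_eq (fun i => (y i : ℝ)) m n h (θ v)
      have h2 : 0 ≤ 4 * (∑ i ∈ range m, (y i : ℝ) * Real.sin (((n : ℝ) - 2 * i) * θ v)) ^ 2 := by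
        positivity
      linarith
    rw [M_sum hN hU _ fun i _ => Bd.sum _ fun j _ => (bd_cos _).const_mul _,
      M_sum hN hU _ fun i _ => Bd.sum _ fun j _ => (bd_cos _).const_mul _] at h1
    have h2 : ∀ i ∈ range m, (M (nm K) U fun v => ∑ j ∈ range m, ((y i : ℝ) * (y j : ℝ)) *
        (2 * Real.cos (2 * ((((i : ℤ) - j).natAbs : ℕ) : ℝ) * θ v))) =
        ∑ j ∈ range m, (y i : ℝ) * (y j : ℝ) * (a ((i : ℤ) - j).natAbs : ℝ) := by
      intro i _
      rw [M_sum hN hU _ fun j _ => (bd_cos _).const_mul _]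
      exact sum_congr rfl fun j _ => by rw [M_const_mul hN hU (bd_cos _), ha]
    have h3 : ∀ i ∈ range m, (M (nm K) U fun v => ∑ j ∈ range m, ((y i : ℝ) * (y j : ℝ)) *
        (2 * Real.cos (2 * ((n - i - j : ℕ) : ℝ) * θ v))) =
        ∑ j ∈ range m, (y i : ℝ) * (y j : ℝ) * (a (n - i - j) : ℝ) := by
      intro i _
      rw [M_sum hN hU _ fun j _ => (bd_cos _).const_mul _]
      exact sum_congr rfl fun j _ => by rw [M_const_mul hN hU (bd_cos _), ha]
    rw [sum_congr rfl h2, sum_congr rfl h3] at h1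
    exact_mod_cast h1
  twop y m n h := by
    have hN := sysF K
    have hb1 : Bd fun v => ∑ i ∈ range m, ∑ j ∈ range m, ((y i : ℝ) * (y j : ℝ)) *
        (2 * Real.cos (2 * ((n - i - j : ℕ) : ℝ) * θ v)) :=
      Bd.sum _ fun i _ => Bd.sum _ fun j _ => (bd_cos _).const_mul _
    have hb2 : Bd fun v => ∑ i ∈ range m, ∑ j ∈ range m, ((y i : ℝ) * (y j : ℝ)) *
        (2 * Real.cos (2 * ((((i : ℤ) - j).natAbs : ℕ) : ℝ) * θ v)) :=
      Bd.sum _ fun i _ => Bd.sum _ fun j _ => (bd_cos _).const_mul _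
    have h1 := M_nonneg hN hU (hb1.add hb2) fun v => by
      rw [twop_eq (fun i => (y i : ℝ)) m n h (θ v)]
      positivity
    rw [M_add hN hU hb1 hb2,
      M_sum hN hU _ fun i _ => Bd.sum _ fun j _ => (bd_cos _).const_mul _,
      M_sum hN hU _ fun i _ => Bd.sum _ fun j _ => (bd_cos _).const_mul _] at h1
    have h2 : ∀ i ∈ range m, (M (nm K) U fun v => ∑ j ∈ range m, ((y i : ℝ) * (y j : ℝ)) *
        (2 * Real.cos (2 * ((((i : ℤ) - j).natAbs : ℕ) : ℝ) * θ v))) =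
        ∑ j ∈ range m, (y i : ℝ) * (y j : ℝ) * (a ((i : ℤ) - j).natAbs : ℝ) := by
      intro i _
      rw [M_sum hN hU _ fun j _ => (bd_cos _).const_mul _]
      exact sum_congr rfl fun j _ => by rw [M_const_mul hN hU (bd_cos _), ha]
    have h3 : ∀ i ∈ range m, (M (nm K) U fun v => ∑ j ∈ range m, ((y i : ℝ) * (y j : ℝ)) *
        (2 * Real.cos (2 * ((n - i - j : ℕ) : ℝ) * θ v))) =
        ∑ j ∈ range m, (y i : ℝ) * (y j : ℝ) * (a (n - i - j) : ℝ) := by
      intro i _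
      rw [M_sum hN hU _ fun j _ => (bd_cos _).const_mul _]
      exact sum_congr rfl fun j _ => by rw [M_const_mul hN hU (bd_cos _), ha]
    rw [sum_congr rfl h2, sum_congr rfl h3] at h1
    exact_mod_cast h1
  nul2 n hn h := by
    have hN := sysF K
    refine a_eq_two hU ha ?_
    have hb : Bd fun v => (n : ℝ) ^ 2 *
      (4 - 2 * (2 * Real.cos (2 * ((1 : ℕ) : ℝ) * θ v)) -
        ((2 * Real.cos (2 * ((n + 1 : ℕ) : ℝ) * θ v) - 2 * (2 * Real.cos (2 * (n : ℝ) * θ v))) +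
          2 * Real.cos (2 * ((n - 1 : ℕ) : ℝ) * θ v))) :=
      ((((Bd.const 4).sub ((bd_cos _).const_mul 2)).sub (((bd_cos _).sub
        ((bd_cos _).const_mul 2)).add (bd_cos _)))).const_mul _
    refine M_zero_of_le hN hU ((Bd.const 2).sub (bd_cos _)) hb
      (fun v => by linarith [Real.cos_le_one (2 * ((2 * n : ℕ) : ℝ) * θ v)])
      (fun v => nul2_le n hn (θ v)) ?_
    rw [M_const_mul hN hU ((((Bd.const 4).sub ((bd_cos _).const_mul 2)).sub (((bd_cos _).sub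
        ((bd_cos _).const_mul 2)).add (bd_cos _)))),
      M_sub hN hU ((Bd.const 4).sub ((bd_cos _).const_mul 2)) (((bd_cos _).sub
        ((bd_cos _).const_mul 2)).add (bd_cos _)),
      M_sub hN hU (Bd.const 4) ((bd_cos _).const_mul 2),
      M_add hN hU ((bd_cos _).sub ((bd_cos _).const_mul 2)) (bd_cos _),
      M_sub hN hU (bd_cos _) ((bd_cos _).const_mul 2), M_const_mul hN hU (bd_cos _),
      M_const_mul hN hU (bd_cos _), M_const hN hU, ha, ha, ha, ha]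
    have h4 : (4 : ℝ) - 2 * (a 1 : ℝ) - ((a (n + 1) : ℝ) - 2 * (a n : ℝ) + (a (n - 1) : ℝ)) = 0 := by
      exact_mod_cast h
    rw [h4, mul_zero]
  null m c h N l q _ hq := by
    have hN := sysF K
    have h0 : M (nm K) U (Fs θ (fun i => (c i : ℝ)) m) = 0 := by
      rw [M_Fs hU ha, h]
      simp
    refine a_eq_two hU ha ?_
    set B : ℝ := ∑ j ∈ range l, |(q j : ℝ)| with hB
    have hB0 : 0 ≤ B := Finset.sum_nonneg fun _ _ => abs_nonneg _
    have h1 : (M (nm K) U fun v => B ^ 2 * Fs θ (fun i => (c i : ℝ)) m v) = 0 := by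
      rw [M_const_mul hN hU (bd_Fs _ _), h0, mul_zero]
    refine M_zero_of_le hN hU ((Bd.const 2).sub (bd_cos _)) ((bd_Fs _ _).const_mul _)
      (fun v => by linarith [Real.cos_le_one (2 * (N : ℝ) * θ v)]) (fun v => ?_) h1
    set w : ℂ := Complex.exp (((2 * θ v : ℝ) : ℂ) * I) with hw
    have hwn : ‖w‖ = 1 := Complex.norm_exp_ofReal_mul_I _
    have hwk : ∀ k : ℕ, w ^ k = ((Real.cos (2 * k * θ v) : ℝ) : ℂ) +
        ((Real.sin (2 * k * θ v) : ℝ) : ℂ) * I := by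
      intro k
      rw [hw, ← Complex.exp_nat_mul]
      have : (k : ℂ) * (((2 * θ v : ℝ) : ℂ) * I) = ((2 * k * θ v : ℝ) : ℂ) * I := by
        push_cast
        ring
      rw [this, Complex.exp_mul_I, ← Complex.ofReal_cos, ← Complex.ofReal_sin]
    have hP : Fs θ (fun i => (c i : ℝ)) m v = 2 * ‖∑ i ∈ range m, (c i : ℂ) * w ^ i‖ ^ 2 := by
      have h2 : ∑ i ∈ range m, (c i : ℂ) * w ^ i =
          ((∑ i ∈ range m, (c i : ℝ) * Real.cos (2 * i * θ v) : ℝ) : ℂ) +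
          ((∑ i ∈ range m, (c i : ℝ) * Real.sin (2 * i * θ v) : ℝ) : ℂ) * I := by
        push_cast
        rw [sum_mul, ← sum_add_distrib]
        refine sum_congr rfl fun i _ => ?_
        rw [hwk]
        push_cast
        ring
      rw [h2, ← Complex.normSq_eq_norm_sq, Complex.normSq_add_mul_I]
      rfl
    have hQ : ‖∑ j ∈ range l, (q j : ℂ) * w ^ j‖ ≤ B := by
      refine (norm_sum_le _ _).trans (Finset.sum_le_sum fun j _ => ?_)
      rw [norm_mul, norm_pow, hwn, one_pow, mul_one, Complex.norm_intCast]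
    have hR : 2 - 2 * Real.cos (2 * (N : ℝ) * θ v) = ‖w ^ N - 1‖ ^ 2 := by
      have h3 : w ^ N - 1 = ((Real.cos (2 * N * θ v) - 1 : ℝ) : ℂ) +
          ((Real.sin (2 * N * θ v) : ℝ) : ℂ) * I := by
        rw [hwk]
        push_cast
        ring
      rw [h3, ← Complex.normSq_eq_norm_sq, Complex.normSq_add_mul_I]
      nlinarith [Real.sin_sq_add_cos_sq (2 * (N : ℝ) * θ v)]
    rw [hR, ← hq w, norm_mul, mul_pow, hP]
    have h4 := pow_le_pow_left₀ (norm_nonneg _) hQ 2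
    nlinarith [sq_nonneg ‖∑ i ∈ range m, (c i : ℂ) * w ^ i‖, sq_nonneg B,
      mul_le_mul_of_nonneg_left h4 (sq_nonneg ‖∑ i ∈ range m, (c i : ℂ) * w ^ i‖),
      mul_nonneg (sq_nonneg B) (sq_nonneg ‖∑ i ∈ range m, (c i : ℂ) * w ^ i‖)]
  bd k := by
    have h1 := ha k
    have h2 := M_mono (sysF K) hU (Bd.const (-2)) (bd_cos (θ := θ) (2 * (k : ℝ))) fun v => by
      linarith [Real.neg_one_le_cos (2 * (k : ℝ) * θ v)]
    have h3 := M_mono (sysF K) hU (bd_cos (θ := θ) (2 * (k : ℝ))) (Bd.const 2) fun v => by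
      linarith [Real.cos_le_one (2 * (k : ℝ) * θ v)]
    rw [M_const (sysF K) hU, h1] at h2 h3
    constructor
    · exact_mod_cast h2
    · exact_mod_cast h3
  dbl k h := by
    have hN := sysF K
    refine a_eq_two hU ha ?_
    have h1 : (M (nm K) U fun v => 4 * (2 + 2 * Real.cos (2 * (k : ℝ) * θ v))) = 0 := by
      rw [M_const_mul hN hU ((Bd.const 2).add (bd_cos _)), M_add hN hU (Bd.const 2) (bd_cos _),
        M_const hN hU, ha, h]
      norm_num
    refine M_zero_of_le hN hU ((Bd.const 2).sub (bd_cos _))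
      (((Bd.const 2).add (bd_cos _)).const_mul 4)
      (fun v => by linarith [Real.cos_le_one (2 * ((2 * k : ℕ) : ℝ) * θ v)]) (fun v => ?_) h1
    have e : 2 * ((2 * k : ℕ) : ℝ) * θ v = 2 * (2 * k * θ v) := by
      push_cast
      ring
    rw [e, Real.cos_two_mul]
    nlinarith [Real.cos_le_one (2 * (k : ℝ) * θ v), Real.neg_one_le_cos (2 * (k : ℝ) * θ v)]
  rel m c h j := by
    have hN := sysF K
    have h0 : M (nm K) U (Fs θ (fun i => (c i : ℝ)) m) = 0 := by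
      rw [M_Fs hU ha, h]
      simp
    have hb : Bd fun v => ∑ i ∈ range m, (c i : ℝ) *
        (2 * Real.cos (2 * ((((i : ℤ) - j).natAbs : ℕ) : ℝ) * θ v)) :=
      Bd.sum _ fun i _ => (bd_cos _).const_mul _
    have h1 : (M (nm K) U fun v => 2 * Fs θ (fun i => (c i : ℝ)) m v) = 0 := by
      rw [M_const_mul hN hU (bd_Fs _ _), h0, mul_zero]
    have h2 := M_zero_of_le hN hU hb.sq ((bd_Fs _ _).const_mul _)
      (fun v => sq_nonneg _) (fun v => by
        have e : ∑ i ∈ range m, (c i : ℝ) *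
            (2 * Real.cos (2 * ((((i : ℤ) - j).natAbs : ℕ) : ℝ) * θ v)) =
            2 * (Real.cos (2 * j * θ v) * ∑ i ∈ range m, (c i : ℝ) * Real.cos (2 * i * θ v) +
              Real.sin (2 * j * θ v) * ∑ i ∈ range m, (c i : ℝ) * Real.sin (2 * i * θ v)) := by
          rw [mul_sum, mul_sum, ← sum_add_distrib, mul_sum]
          refine sum_congr rfl fun i _ => ?_
          rw [cosn]
          ring
        rw [e]
        unfold Fs
        simp only
        set C := ∑ i ∈ range m, (c i : ℝ) * Real.cos (2 * i * θ v)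
        set S := ∑ i ∈ range m, (c i : ℝ) * Real.sin (2 * i * θ v)
        have h5 := Real.sin_sq_add_cos_sq (2 * j * θ v)
        have h6 : (Real.cos (2 * j * θ v) * C + Real.sin (2 * j * θ v) * S) ^ 2 +
            (Real.cos (2 * j * θ v) * S - Real.sin (2 * j * θ v) * C) ^ 2 = C ^ 2 + S ^ 2 := by
          linear_combination (C ^ 2 + S ^ 2) * h5
        nlinarith [sq_nonneg (Real.cos (2 * j * θ v) * S - Real.sin (2 * j * θ v) * C)]) h1
    have h3 := M_zero_of_sq hN hU hb h2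
    rw [M_sum hN hU _ fun i _ => (bd_cos _).const_mul _] at h3
    have h4 : ∀ i ∈ range m, (M (nm K) U fun v => (c i : ℝ) *
        (2 * Real.cos (2 * ((((i : ℤ) - j).natAbs : ℕ) : ℝ) * θ v))) =
        (c i : ℝ) * (a ((i : ℤ) - j).natAbs : ℝ) := by
      intro i _
      rw [M_const_mul hN hU (bd_cos _), ha]
    rw [sum_congr rfl h4] at h3
    exact_mod_cast h3

end Mean

end Pool.Agent.V1142.SC.Rl
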